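import Pool.Agent.GS.AlgModChk

/-!
Soundness of the test `witM`.
-/

set_option autoImplicit false
set_option linter.unusedVariables false

namespace Pool.Agent.GS.AlgM

theorem BB_eq : BB = 2 ^ 2048 := by decide +kernel
theorem Bm_eq : Bm = 2 ^ 2048 - 1 := by decide +kernel
theorem Bh_eq : Bh = 2 ^ 2047 := by decide +kernel
/-- `2 ^ 2046` -/
def Bq : ℕ := nat_lit 8079251517827751825178719172167487990111025667428871008032586356881163784716972723299300352880728365922179490230474504873529889787622730273772038096612070780157719341825249022937549437597413026699014409596016892069198054660654939040459523584619042617645411463009076260721893972885266452151888099780982596380478583347417085605171243696641142373714044008831580514519451414832756548177115078537564648216044279181485900929615464339399587788075411476100924403308321807806781421177705052431289275431732830867419635645164174483761499317088249659553881291597359333885900533858307401161329619651238037048388963402764899057664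

theorem B3_eq : B3 = Bh + Bq := by decide +kernel
theorem Bq_le : Bq ≤ Bh := by decide +kernel
theorem BB_eq' : BB = Bh + Bh := by decide +kernel
theorem B4_lt : Bh + Bq < BB := by decide +kernel
theorem bad_eq : bad = 2 ^ 200 := by decide +kernel

/-! ### polynomials in a ring element -/

section poly

variable {R : Type*} [CommRing R]

def evR (u : R) : List ℤ → R
  | [] => 0
  | a :: l => (a : R) + u * evR u l

theorem evR_add (u : R) : ∀ p q : List ℤ, evR u (Alg.add p q) = evR u p + evR u q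
  | [], q => by simp [Alg.add, evR]
  | a :: p, [] => by simp [Alg.add, evR]
  | a :: p, b :: q => by
    simp only [Alg.add, evR, evR_add u p q]
    rw [show Int.add a b = a + b from rfl]
    push_cast
    ring

theorem evR_smul (u : R) (c : ℤ) : ∀ p : List ℤ, evR u (Alg.smul c p) = c * evR u p
  | [] => by simp [Alg.smul, evR]
  | a :: p => by
    simp only [Alg.smul, evR, evR_smul u c p]
    rw [show Int.mul c a = c * a from rfl]
    push_cast
    ring

theorem evR_append (u : R) : ∀ p q : List ℤ, evR u (p ++ q) = evR u p + u ^ p.length * evR u q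
  | [], q => by simp [evR]
  | a :: p, q => by
    simp only [List.cons_append, evR, evR_append u p q, List.length_cons, pow_succ]
    ring

theorem evR_red (u : R) (n : ℕ) (g : List ℤ) (hg : u ^ n = evR u g) (l : List ℤ)
    (hl : l.length ≤ n + 1) : evR u (Alg.red n g l) = evR u l := by
  unfold Alg.red
  rw [evR_add, evR_smul]
  by_cases h : l.length ≤ n
  · rw [List.drop_eq_nil_of_le h, List.take_of_length_le h]
    simp
  · have h1 : l.length = n + 1 := by omega
    have h2 : (l.drop n).length = 1 := by simp [h1]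
    obtain ⟨a, ha⟩ := List.length_eq_one_iff.1 h2
    conv_rhs => rw [← List.take_append_drop n l, evR_append, ha]
    rw [ha]
    simp [evR, h1, ← hg]
    ring

theorem evR_mul (u : R) (n : ℕ) (g : List ℤ) (hgn : g.length ≤ n) (hg : u ^ n = evR u g)
    (p : List ℤ) (hp : p.length ≤ n) :
    ∀ q : List ℤ, evR u (Alg.mul n g p q) = evR u p * evR u q
  | [] => by simp [Alg.mul, evR]
  | b :: q => by
    have h := Alg.length_mul n g hgn p hp q
    simp only [Alg.mul, evR_add, evR_smul]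
    rw [evR_red u n g hg _ (by simp; omega)]
    simp only [evR, evR_mul u n g hgn hg p hp q]
    push_cast
    ring

theorem evR_msA (u : R) (n : ℕ) (g : List ℤ) (hgn : g.length ≤ n) (hg : u ^ n = evR u g)
    (p x y z : List ℤ) (hp : p.length ≤ n) (hy : y.length ≤ n) :
    evR u (Alg.msA n g p x y z) = evR u p * evR u x - evR u y * evR u z := by
  simp only [Alg.msA, evR_add, evR_smul, evR_mul u n g hgn hg p hp, evR_mul u n g hgn hg y hy]
  push_cast
  ring

end poly

theorem evR_eq_ev (u : ℝ) : ∀ l : List ℤ, evR u l = Alg.ev u l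
  | [] => rfl
  | a :: l => by simp only [evR, Alg.ev, evR_eq_ev u l]

theorem evR_eq_evB : ∀ l : List ℤ, evR (BB : ℤ) l = evB l
  | [] => rfl
  | a :: l => by simp only [evR, evB, evR_eq_evB l, Int.cast_id]

theorem evR_cast {R : Type*} [CommRing R] (s : ℤ) : ∀ l : List ℤ,
    ((evR s l : ℤ) : R) = evR (s : R) l
  | [] => by simp [evR]
  | a :: l => by
    simp only [evR, Int.cast_id]
    push_cast
    rw [evR_cast s l]

/-! ### coefficient bounds -/

def Bd (b : ℕ) (l : List ℤ) : Prop := ∀ c ∈ l, |c| ≤ (b : ℤ)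

theorem Bd.mono {b b' : ℕ} (h : b ≤ b') {l : List ℤ} (hl : Bd b l) : Bd b' l := fun c hc =>
  (hl c hc).trans (by exact_mod_cast h)

theorem Bd_nil (b : ℕ) : Bd b [] := by intro c hc; simp at hc

theorem Bd_cons {b : ℕ} {a : ℤ} {l : List ℤ} : Bd b (a :: l) ↔ |a| ≤ (b : ℤ) ∧ Bd b l := by
  simp [Bd]

theorem Bd_add {b b' : ℕ} : ∀ p q : List ℤ, Bd b p → Bd b' q → Bd (b + b') (Alg.add p q)
  | [], q, _, hq => by
    simp only [Alg.add]
    exact hq.mono (by omega)
  | a :: p, [], hp, _ => by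
    simp only [Alg.add]
    exact hp.mono (by omega)
  | a :: p, c :: q, hp, hq => by
    simp only [Alg.add]
    rw [Bd_cons] at hp hq ⊢
    refine ⟨?_, Bd_add p q hp.2 hq.2⟩
    have h1 : |a + c| ≤ |a| + |c| := abs_add_le a c
    have h2 : Int.add a c = a + c := rfl
    rw [h2]
    push_cast
    linarith [hp.1, hq.1]

theorem Bd_smul {b k : ℕ} {c : ℤ} (hc : |c| ≤ (k : ℤ)) : ∀ p : List ℤ, Bd b p →
    Bd (k * b) (Alg.smul c p)
  | [], _ => by simpa [Alg.smul] using Bd_nil _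
  | a :: p, hp => by
    simp only [Alg.smul]
    rw [Bd_cons] at hp ⊢
    refine ⟨?_, Bd_smul hc p hp.2⟩
    have h2 : Int.mul c a = c * a := rfl
    rw [h2, abs_mul]
    push_cast
    exact mul_le_mul hc hp.1 (abs_nonneg _) (by positivity)

theorem Bd_red {b G n : ℕ} {g : List ℤ} (hg : Bd G g) {l : List ℤ} (hl : Bd b l) :
    Bd (b + b * G) (Alg.red n g l) := by
  unfold Alg.red
  refine Bd_add _ _ (fun c hc => hl c (List.mem_of_mem_take hc)) (Bd_smul ?_ _ hg)
  cases h : l.drop n with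
  | nil => simp
  | cons a m =>
    simp only [List.headD_cons]
    exact hl a (List.mem_of_mem_drop (by rw [h]; simp))

/-- growth factor of a product -/
def Gs (G : ℕ) : ℕ → ℕ
  | 0 => 0
  | n + 1 => 1 + (1 + G) * Gs G n

theorem Gs_mono (G : ℕ) {m n : ℕ} (h : m ≤ n) : Gs G m ≤ Gs G n := by
  induction n with
  | zero =>
    have : m = 0 := by omega
    subst this; exact le_refl _
  | succ n ih =>
    rcases Nat.lt_or_ge n m with h1 | h1
    · have : m = n + 1 := by omega
      subst this; exact le_refl _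
    · refine (ih h1).trans ?_
      simp only [Gs]
      nlinarith [Nat.zero_le (Gs G n), Nat.zero_le (G * Gs G n)]

theorem Bd_mul {b b' G n : ℕ} {g : List ℤ} (hg : Bd G g) {p : List ℤ} (hp : Bd b p) :
    ∀ q : List ℤ, Bd b' q → Bd (b' * b * Gs G q.length) (Alg.mul n g p q)
  | [], _ => by simpa [Alg.mul] using Bd_nil _
  | c :: q, hq => by
    rw [Bd_cons] at hq
    simp only [Alg.mul, List.length_cons, Gs]
    have h1 := Bd_mul (n := n) hg hp q hq.2
    have h2 : Bd (b' * b * Gs G q.length) (0 :: Alg.mul n g p q) := by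
      rw [Bd_cons]
      exact ⟨by simp only [abs_zero]; positivity, h1⟩
    refine (Bd_add _ _ (Bd_smul hq.1 _ hp) (Bd_red hg h2)).mono ?_
    apply le_of_eq
    ring

theorem Bd_msA {b G n : ℕ} {g : List ℤ} (hg : Bd G g) {p x y z : List ℤ} (hp : Bd b p)
    (hx : Bd b x) (hy : Bd b y) (hz : Bd b z) (hxl : x.length ≤ n) (hzl : z.length ≤ n) :
    Bd (2 * (b * b * Gs G n)) (Alg.msA n g p x y z) := by
  unfold Alg.msA
  have h1 := Bd_mul (n := n) hg hp x hx
  have h2 := Bd_mul (n := n) hg hy z hz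
  have h3 : Bd (1 * (b * b * Gs G z.length)) (Alg.smul (-1) (Alg.mul n g y z)) :=
    Bd_smul (by norm_num) _ h2
  refine (Bd_add _ _ h1 h3).mono ?_
  have h4 := Nat.mul_le_mul_left (b * b) (Gs_mono G hxl)
  have h5 := Nat.mul_le_mul_left (b * b) (Gs_mono G hzl)
  omega

/-! ### residues -/

/-- the residue `x` modulo `M` represents the real number `X` -/
def RepA (n M : ℕ) (u : ℝ) (b : ℕ) (x : ℕ) (X : ℝ) : Prop :=
  ∃ a : List ℤ, a.length ≤ n ∧ Bd b a ∧ x < M ∧ (x : ZMod M) = evR ((BB : ℕ) : ZMod M) a ∧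
    X = evR u a

theorem RepA.ms {n M G b : ℕ} {g : List ℤ} {u : ℝ} (hM : 0 < M) (hgn : g.length ≤ n)
    (hg : Bd G g) (hB : ((BB : ℕ) : ZMod M) ^ n = evR ((BB : ℕ) : ZMod M) g)
    (hu : u ^ n = evR u g) {p x y z : ℕ} {P X Y Z : ℝ} (hp : RepA n M u b p P)
    (hx : RepA n M u b x X) (hy : RepA n M u b y Y) (hz : RepA n M u b z Z) :
    RepA n M u (2 * (b * b * Gs G n)) (msM M p x y z) (P * X - Y * Z) := by
  obtain ⟨a, ha1, ha2, ha3, ha4, ha5⟩ := hp
  obtain ⟨c, hc1, hc2, hc3, hc4, hc5⟩ := hx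
  obtain ⟨d, hd1, hd2, hd3, hd4, hd5⟩ := hy
  obtain ⟨e, he1, he2, he3, he4, he5⟩ := hz
  have hms : msM M p x y z = (p * x + (M * M - y * z)) % M := rfl
  refine ⟨Alg.msA n g a c d e, Alg.length_msA n g hgn _ _ _ _ ha1 hd1,
    Bd_msA hg ha2 hc2 hd2 he2 hc1 he1, ?_, ?_, ?_⟩
  · rw [hms]; exact Nat.mod_lt _ hM
  · rw [hms, ZMod.natCast_mod, evR_msA _ n g hgn hB _ _ _ _ ha1 hd1, ← ha4, ← hc4, ← hd4, ← he4]
    have h1 : y * z ≤ M * M := Nat.mul_le_mul hd3.le he3.le
    push_cast [h1]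
    simp
    ring
  · rw [evR_msA _ n g hgn hu _ _ _ _ ha1 hd1, ha5, hc5, hd5, he5]

/-! ### padding -/

theorem exists_pad {n b : ℕ} {a : List ℤ} (h : a.length ≤ n) (hb : Bd b a) :
    ∃ a' : List ℤ, a'.length = n ∧ Bd b a' ∧
      ∀ (R : Type) [CommRing R] (s : R), evR s a' = evR s a := by
  refine ⟨a ++ List.replicate (n - a.length) 0, by simp; omega, ?_, ?_⟩
  · intro c hc
    rw [List.mem_append] at hc
    rcases hc with hc | hc
    · exact hb c hc
    · rw [List.mem_replicate] at hc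
      rw [hc.2]
      simp
  · intro R _ s
    rw [evR_append]
    have : ∀ m : ℕ, evR s (List.replicate m 0) = 0 := by
      intro m
      induction m with
      | zero => rfl
      | succ m ih => simp [List.replicate_succ, evR, ih]
    rw [this]
    simp

/-! ### digits -/

/-- the number with the shifted digits -/
def yv : List ℤ → ℕ
  | [] => 0
  | a :: l => (a + Bh).toNat + BB * yv l

theorem Sg_succ (n : ℕ) : Sg (n + 1) = 1 + BB * Sg n := rfl

theorem yv_le {b : ℕ} : ∀ l : List ℤ, Bd b l → yv l ≤ (Bh + b) * Sg l.length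
  | [], _ => by simp [yv]
  | a :: l, h => by
    rw [Bd_cons] at h
    have h1 := yv_le l h.2
    simp only [yv, List.length_cons, Sg_succ]
    have h2 : (a + Bh).toNat ≤ Bh + b := by
      have := (abs_le.1 h.1).2
      omega
    calc (a + Bh).toNat + BB * yv l ≤ (Bh + b) + BB * ((Bh + b) * Sg l.length) :=
          Nat.add_le_add h2 (Nat.mul_le_mul_left _ h1)
      _ = (Bh + b) * (1 + BB * Sg l.length) := by ring

theorem yv_cast {b : ℕ} (hb : b ≤ Bh) : ∀ l : List ℤ, Bd b l →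
    (yv l : ℤ) = evR (BB : ℤ) l + Bh * Sg l.length
  | [], _ => by simp [yv, evR, Sg]
  | a :: l, h => by
    rw [Bd_cons] at h
    have h1 := yv_cast hb l h.2
    simp only [yv, List.length_cons, Sg_succ, evR, Int.cast_id]
    have h2 : (0 : ℤ) ≤ a + Bh := by
      have := (abs_le.1 h.1).1
      have hb' : (b : ℤ) ≤ Bh := by exact_mod_cast hb
      linarith
    push_cast
    rw [Int.toNat_of_nonneg h2, h1]
    ring

theorem evR_abs_le {b : ℕ} : ∀ l : List ℤ, Bd b l → |evR (BB : ℤ) l| ≤ b * Sg l.length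
  | [], _ => by simp [evR, Sg]
  | a :: l, h => by
    rw [Bd_cons] at h
    have h1 := evR_abs_le l h.2
    simp only [List.length_cons, Sg_succ, evR, Int.cast_id]
    push_cast
    have h2 : |(BB : ℤ) * evR (BB : ℤ) l| = BB * |evR (BB : ℤ) l| := by
      rw [abs_mul, abs_of_nonneg (by positivity : (0 : ℤ) ≤ (BB : ℤ))]
    calc |a + BB * evR (BB : ℤ) l| ≤ |a| + |(BB : ℤ) * evR (BB : ℤ) l| := abs_add_le _ _
      _ ≤ b + BB * (b * Sg l.length) := by
          rw [h2]
          exact add_le_add h.1 (mul_le_mul_of_nonneg_left h1 (by positivity))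
      _ = b * (1 + BB * Sg l.length) := by ring

theorem evR_eq_zero {b : ℕ} (hb : b < BB) {R : Type*} [CommRing R] (s : R) : ∀ l : List ℤ,
    Bd b l → evR (BB : ℤ) l = 0 → evR s l = 0
  | [], _, _ => rfl
  | a :: l, h, h0 => by
    rw [Bd_cons] at h
    simp only [evR, Int.cast_id] at h0 ⊢
    have h1 : (BB : ℤ) ∣ a := by
      refine ⟨-evR (BB : ℤ) l, ?_⟩
      linarith
    have h2 : a = 0 := by
      apply Int.eq_zero_of_abs_lt_dvd h1
      refine lt_of_le_of_lt h.1 ?_
      exact_mod_cast hb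
    subst h2
    have hB : (BB : ℤ) ≠ 0 := by
      have : 0 < BB := by rw [BB_eq]; positivity
      exact_mod_cast this.ne'
    have h3 : evR (BB : ℤ) l = 0 := by
      rw [zero_add, mul_eq_zero] at h0
      exact h0.resolve_left hB
    rw [evR_eq_zero hb s l h.2 h3]
    simp

/-- lowest digit -/
theorem yv_land {b : ℕ} (hb : b ≤ Bq) (a : ℤ) (l : List ℤ) (h : Bd b (a :: l)) :
    Nat.land (yv (a :: l)) Bm = (a + Bh).toNat ∧
      Nat.shiftRight (yv (a :: l)) (nat_lit 2048) = yv l := by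
  rw [Bd_cons] at h
  have h1 := abs_le.1 h.1
  have hb' : (b : ℤ) ≤ Bq := by exact_mod_cast hb
  have hlt : (a + Bh).toNat < BB := by
    have h2 : (Bh : ℤ) + Bq < BB := by exact_mod_cast B4_lt
    have h3 : (a + Bh) < BB := by linarith
    have h4 : (0 : ℤ) < BB := by
      have : 0 < BB := by rw [BB_eq]; positivity
      exact_mod_cast this
    omega
  have hB : BB = 2 ^ 2048 := BB_eq
  constructor
  · have : Nat.land (yv (a :: l)) Bm = yv (a :: l) &&& Bm := rfl
    rw [this, Bm_eq, Nat.and_two_pow_sub_one_eq_mod]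
    simp only [yv]
    rw [← hB, Nat.add_mul_mod_self_left, Nat.mod_eq_of_lt hlt]
  · have : Nat.shiftRight (yv (a :: l)) (nat_lit 2048) = yv (a :: l) >>> 2048 := rfl
    rw [this, Nat.shiftRight_eq_div_pow]
    simp only [yv]
    rw [← hB, Nat.add_mul_div_left _ _ (by rw [hB]; positivity), Nat.div_eq_of_lt hlt, Nat.zero_add]

/-! ### signs -/

theorem key1 (P w h x : ℕ) : Nat.add P (Nat.mul w (Nat.sub h x)) = P + w * (h - x) := rfl

theorem negS_cons (k m h w w' : ℕ) (l : List (ℕ × ℕ)) (y P N : ℕ) :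
    negS k m h ((w, w') :: l) y P N =
    negS k m h l (Nat.shiftRight y k) (Nat.add P (Nat.mul w (Nat.sub h (Nat.land y m))))
      (Nat.add N (Nat.mul w' (Nat.sub (Nat.land y m) h))) := rfl

theorem posS_cons (k m h w w' : ℕ) (l : List (ℕ × ℕ)) (y P N : ℕ) :
    posS k m h ((w, w') :: l) y P N =
    posS k m h l (Nat.shiftRight y k) (Nat.add P (Nat.mul w (Nat.sub (Nat.land y m) h)))
      (Nat.add N (Nat.mul w' (Nat.sub h (Nat.land y m)))) := rfl

theorem negS_step {b : ℕ} (hb : b ≤ Bq) (w w' : ℕ) (l : List (ℕ × ℕ)) (a0 : ℤ) (a : List ℤ)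
    (P N : ℕ) (hb' : Bd b (a0 :: a)) :
    negS (nat_lit 2048) Bm Bh ((w, w') :: l) (yv (a0 :: a)) P N =
    negS (nat_lit 2048) Bm Bh l (yv a) (P + w * (Bh - (a0 + Bh).toNat))
      (N + w' * ((a0 + Bh).toNat - Bh)) := by
  obtain ⟨e1, e2⟩ := yv_land hb a0 a hb'
  rw [negS_cons, e1, e2, key1, key1]

theorem posS_step {b : ℕ} (hb : b ≤ Bq) (w w' : ℕ) (l : List (ℕ × ℕ)) (a0 : ℤ) (a : List ℤ)
    (P N : ℕ) (hb' : Bd b (a0 :: a)) :
    posS (nat_lit 2048) Bm Bh ((w, w') :: l) (yv (a0 :: a)) P N =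
    posS (nat_lit 2048) Bm Bh l (yv a) (P + w * ((a0 + Bh).toNat - Bh))
      (N + w' * (Bh - (a0 + Bh).toNat)) := by
  obtain ⟨e1, e2⟩ := yv_land hb a0 a hb'
  rw [posS_cons, e1, e2, key1, key1]

/-- the weights are bounds for `t * u ^ i` -/
def WOKA (u : ℝ) : ℝ → List (ℕ × ℕ) → Prop
  | _, [] => True
  | t, w :: l => (w.1 : ℝ) ≤ t ∧ t ≤ (w.2 : ℝ) ∧ WOKA u (t * u) l

theorem neg_digit {h : ℕ} {w w' P N : ℕ} {a0 : ℤ} {t r : ℝ} (h1 : -(h : ℤ) ≤ a0)
    (w1 : (w : ℝ) ≤ t) (w2 : t ≤ (w' : ℝ))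
    (h3 : 0 < ((P + w * (h - (a0 + h).toNat) : ℕ) : ℝ) -
      ((N + w' * ((a0 + h).toNat - h) : ℕ) : ℝ) - r) :
    0 < (P : ℝ) - N - (t * a0 + r) := by
  push_cast at h3
  have ht : 0 ≤ t := le_trans (Nat.cast_nonneg _) w1
  rcases le_total 0 a0 with h0 | h0
  · have e3 : (((a0 + h).toNat - h : ℕ) : ℝ) = a0 := by
      have : (((a0 + h).toNat - h : ℕ) : ℤ) = a0 := by omega
      exact_mod_cast this
    have e4 : ((h - (a0 + h).toNat : ℕ) : ℝ) = 0 := by
      have : h - (a0 + h).toNat = 0 := by omega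
      rw [this]; simp
    rw [e3, e4] at h3
    have h5 : (0 : ℝ) ≤ a0 := by exact_mod_cast h0
    have h6 : t * a0 ≤ w' * (a0 : ℝ) := mul_le_mul_of_nonneg_right w2 h5
    linarith
  · have e3 : (((a0 + h).toNat - h : ℕ) : ℝ) = 0 := by
      have : (a0 + h).toNat - h = 0 := by omega
      rw [this]; simp
    have e4 : ((h - (a0 + h).toNat : ℕ) : ℝ) = -a0 := by
      have : ((h - (a0 + h).toNat : ℕ) : ℤ) = -a0 := by omega
      exact_mod_cast this
    rw [e3, e4] at h3
    have h5 : (a0 : ℝ) ≤ 0 := by exact_mod_cast h0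
    have h6 : w * (-a0) ≤ t * (-a0 : ℝ) := mul_le_mul_of_nonneg_right w1 (by linarith)
    linarith

theorem pos_digit {h : ℕ} {w w' P N : ℕ} {a0 : ℤ} {t r : ℝ} (h1 : -(h : ℤ) ≤ a0)
    (w1 : (w : ℝ) ≤ t) (w2 : t ≤ (w' : ℝ))
    (h3 : 0 < ((P + w * ((a0 + h).toNat - h) : ℕ) : ℝ) -
      ((N + w' * (h - (a0 + h).toNat) : ℕ) : ℝ) + r) :
    0 < (P : ℝ) - N + (t * a0 + r) := by
  push_cast at h3
  have ht : 0 ≤ t := le_trans (Nat.cast_nonneg _) w1
  rcases le_total 0 a0 with h0 | h0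
  · have e3 : (((a0 + h).toNat - h : ℕ) : ℝ) = a0 := by
      have : (((a0 + h).toNat - h : ℕ) : ℤ) = a0 := by omega
      exact_mod_cast this
    have e4 : ((h - (a0 + h).toNat : ℕ) : ℝ) = 0 := by
      have : h - (a0 + h).toNat = 0 := by omega
      rw [this]; simp
    rw [e3, e4] at h3
    have h5 : (0 : ℝ) ≤ a0 := by exact_mod_cast h0
    have h6 : w * a0 ≤ t * (a0 : ℝ) := mul_le_mul_of_nonneg_right w1 h5
    linarith
  · have e3 : (((a0 + h).toNat - h : ℕ) : ℝ) = 0 := by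
      have : (a0 + h).toNat - h = 0 := by omega
      rw [this]; simp
    have e4 : ((h - (a0 + h).toNat : ℕ) : ℝ) = -a0 := by
      have : ((h - (a0 + h).toNat : ℕ) : ℤ) = -a0 := by omega
      exact_mod_cast this
    rw [e3, e4] at h3
    have h5 : (a0 : ℝ) ≤ 0 := by exact_mod_cast h0
    have h6 : t * (-a0) ≤ w' * (-a0 : ℝ) := mul_le_mul_of_nonneg_right w2 (by linarith)
    linarith

theorem posS_sound (u : ℝ) {b : ℕ} (hb : b ≤ Bq) : ∀ (l : List (ℕ × ℕ)) (t : ℝ)
    (a : List ℤ) (P N : ℕ), WOKA u t l → Bd b a → a.length = l.length →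
    posS (nat_lit 2048) Bm Bh l (yv a) P N = true → 0 < (P : ℝ) - N + t * evR u a := by
  intro l
  induction l with
  | nil =>
    intro t a P N _ _ hl h
    have ha : a = [] := List.eq_nil_of_length_eq_zero hl
    subst ha
    have h1 := Nat.le_of_ble_eq_true h
    have h2 : (N : ℝ) < P := by exact_mod_cast h1
    simp only [evR]
    linarith
  | cons ww l ih =>
    intro t a P N hW hb' hl h
    obtain ⟨w, w'⟩ := ww
    cases a with
    | nil => simp at hl
    | cons a0 a =>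
      rw [posS_step hb w w' l a0 a P N hb'] at h
      rw [Bd_cons] at hb'
      have h1 := (abs_le.1 hb'.1).1
      have hbh : (b : ℤ) ≤ Bh := by exact_mod_cast hb.trans Bq_le
      obtain ⟨w1, w2, hW'⟩ := hW
      have h3 := ih (t * u) a _ _ hW' hb'.2 (by simpa using hl) h
      have h4 := pos_digit (h := Bh) (h1 := by linarith) w1 w2 h3
      have e7 : t * evR u (a0 :: a) = t * a0 + t * u * evR u a := by
        simp only [evR]; ring
      rw [e7]
      exact h4

theorem negS_sound (u : ℝ) {b : ℕ} (hb : b ≤ Bq) : ∀ (l : List (ℕ × ℕ)) (t : ℝ)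
    (a : List ℤ) (P N : ℕ), WOKA u t l → Bd b a → a.length = l.length →
    negS (nat_lit 2048) Bm Bh l (yv a) P N = true → 0 < (P : ℝ) - N - t * evR u a := by
  intro l
  induction l with
  | nil =>
    intro t a P N _ _ hl h
    have ha : a = [] := List.eq_nil_of_length_eq_zero hl
    subst ha
    have h1 := Nat.le_of_ble_eq_true h
    have h2 : (N : ℝ) < P := by exact_mod_cast h1
    simp only [evR]
    linarith
  | cons ww l ih =>
    intro t a P N hW hb' hl h
    obtain ⟨w, w'⟩ := ww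
    cases a with
    | nil => simp at hl
    | cons a0 a =>
      rw [negS_step hb w w' l a0 a P N hb'] at h
      rw [Bd_cons] at hb'
      have h1 := (abs_le.1 hb'.1).1
      have hbh : (b : ℤ) ≤ Bh := by exact_mod_cast hb.trans Bq_le
      obtain ⟨w1, w2, hW'⟩ := hW
      have h3 := ih (t * u) a _ _ hW' hb'.2 (by simpa using hl) h
      have h4 := neg_digit (h := Bh) (h1 := by linarith) w1 w2 h3
      have e7 : t * evR u (a0 :: a) = t * a0 + t * u * evR u a := by
        simp only [evR]; ring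
      rw [e7]
      exact h4

/-! ### tests on residues -/

/-- the shifted representative -/
theorem yof_eq {n M b : ℕ} (hb : b ≤ Bq) (hM : B3 * Sg n < M) {x : ℕ} {a : List ℤ}
    (hl : a.length = n) (ha : Bd b a) (hx : (x : ZMod M) = evR ((BB : ℕ) : ZMod M) a) :
    yof M (Nat.mul Bh (Sg n)) x = yv a := by
  have hlt : yv a < M := by
    refine lt_of_le_of_lt (yv_le a ha) ?_
    rw [hl]
    refine lt_of_le_of_lt (Nat.mul_le_mul_right _ ?_) hM
    rw [B3_eq]
    omega
  have h1 : yof M (Nat.mul Bh (Sg n)) x = (x + Bh * Sg n) % M := rfl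
  rw [h1, ← Nat.mod_eq_of_lt hlt]
  have h2 : ((x + Bh * Sg n : ℕ) : ZMod M) = ((yv a : ℕ) : ZMod M) := by
    have h3 := yv_cast (hb.trans Bq_le) a ha
    have h4 : ((yv a : ℕ) : ZMod M) = (((yv a : ℕ) : ℤ) : ZMod M) := by push_cast; rfl
    rw [h4, h3, hl]
    push_cast
    rw [hx]
    rw [evR_cast]
    push_cast
    rfl
  exact (ZMod.natCast_eq_natCast_iff _ _ _).1 h2

/-- context: everything known about the field -/
structure Ctx (n : ℕ) (g : List ℤ) (M : ℕ) (u t : ℝ) (W : List (ℕ × ℕ)) : Prop where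
  hn : n ≤ 4
  hgn : g.length ≤ n
  hg : Bd 2147483648 g
  hM : B3 * Sg n < M
  hB : ((BB : ℕ) : ZMod M) ^ n = evR ((BB : ℕ) : ZMod M) g
  hu : u ^ n = evR u g
  hWl : W.length = n
  ht : 0 < t
  hW : WOKA u t W

/-- bounds for the coefficients after `k` steps -/
def bk (n : ℕ) : ℕ → ℕ
  | 0 => 2147483648
  | k + 1 => 2 * (bk n k * bk n k * Gs 2147483648 n)

theorem bk_le : ∀ n ≤ 4, ∀ k ≤ 4, bk n k ≤ Bq := by decide +kernel

theorem Bq_lt : Bq < BB := by decide +kernel

section tests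

variable {n M : ℕ} {g : List ℤ} {u t : ℝ} {W : List (ℕ × ℕ)}

theorem Ctx.zero (hc : Ctx n g M u t W) {b x : ℕ} {X : ℝ} (hb : b ≤ Bq) (h : RepA n M u b x X)
    (hx : x = 0) : X = 0 := by
  obtain ⟨a0, h1, h2, h3, h4, h5⟩ := h
  obtain ⟨a, p1, p2, p3⟩ := exists_pad h1 h2
  rw [← p3 (ZMod M)] at h4
  rw [← p3 ℝ] at h5
  rw [h5]
  refine evR_eq_zero (lt_of_le_of_lt hb Bq_lt) u a p2 ?_
  have h6 : (M : ℤ) ∣ evR (BB : ℤ) a := by
    rw [← ZMod.intCast_zmod_eq_zero_iff_dvd, evR_cast]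
    rw [hx] at h4
    push_cast at h4 ⊢
    exact h4.symm
  refine Int.eq_zero_of_abs_lt_dvd h6 ?_
  refine lt_of_le_of_lt (evR_abs_le a p2) ?_
  rw [p1]
  have h7 : b * Sg n < M := by
    refine lt_of_le_of_lt (Nat.mul_le_mul_right _ ?_) hc.hM
    rw [B3_eq]
    omega
  exact_mod_cast h7

theorem Ctx.pos (hc : Ctx n g M u t W) {b x : ℕ} {X : ℝ} (hb : b ≤ Bq) (h : RepA n M u b x X)
    (hx : isPos M (Nat.mul Bh (Sg n)) W x = true) : 0 < X := by
  obtain ⟨a0, h1, h2, h3, h4, h5⟩ := h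
  obtain ⟨a, p1, p2, p3⟩ := exists_pad h1 h2
  rw [← p3 (ZMod M)] at h4
  rw [← p3 ℝ] at h5
  rw [h5]
  unfold isPos at hx
  rw [yof_eq hb hc.hM p1 p2 h4] at hx
  have h6 := posS_sound u hb W t a _ _ hc.hW p2 (by rw [p1, hc.hWl]) hx
  simp only [Nat.cast_zero, sub_self, zero_add] at h6
  exact (mul_pos_iff_of_pos_left hc.ht).1 h6

theorem Ctx.neg (hc : Ctx n g M u t W) {b x : ℕ} {X : ℝ} (hb : b ≤ Bq) (h : RepA n M u b x X)
    (hx : isNeg M (Nat.mul Bh (Sg n)) W x = true) : X < 0 := by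
  obtain ⟨a0, h1, h2, h3, h4, h5⟩ := h
  obtain ⟨a, p1, p2, p3⟩ := exists_pad h1 h2
  rw [← p3 (ZMod M)] at h4
  rw [← p3 ℝ] at h5
  rw [h5]
  unfold isNeg at hx
  rw [yof_eq hb hc.hM p1 p2 h4] at hx
  have h6 := negS_sound u hb W t a _ _ hc.hW p2 (by rw [p1, hc.hWl]) hx
  simp only [Nat.cast_zero, sub_self, zero_sub] at h6
  have h7 : t * evR u a < 0 := by linarith
  by_contra hge
  have := mul_nonneg hc.ht.le (not_lt.1 hge)
  linarith

theorem Ctx.M_pos (hc : Ctx n g M u t W) : 0 < M := lt_of_le_of_lt (Nat.zero_le _) hc.hM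

theorem dig_cases (M O : ℕ) (W : List (ℕ × ℕ)) (x : ℕ) :
    (dig M O W x = 1 ∧ x = 0) ∨ (dig M O W x = 0 ∧ (isPos M O W x = true ∨ isNeg M O W x = true)) ∨
      dig M O W x = bad := by
  unfold dig
  cases hb : Nat.beq x (nat_lit 0) with
  | true => left; exact ⟨rfl, Nat.eq_of_beq_eq_true hb⟩
  | false =>
    cases hc : (isPos M O W x).or (isNeg M O W x) with
    | true =>
      right; left
      exact ⟨rfl, by simpa using hc⟩
    | false =>
      right; right
      rfl

end tests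

/-! ### the whole test -/

theorem E5g_eq (f : ℕ → ℕ → ℕ → ℕ → ℕ) (g : ℕ → ℕ → ℕ)
    (a00 a01 a02 a03 a04 a11 a12 a13 a14 a22 a23 a24 a33 a34 a44 acc : ℕ) :
    E5g f g a00 a01 a02 a03 a04 a11 a12 a13 a14 a22 a23 a24 a33 a34 a44 acc =
      tabL.foldl (fun acc s => g acc (valM f s.1
        (mat5 a00 a01 a02 a03 a04 a11 a12 a13 a14 a22 a23 a24 a33 a34 a44) s.2.1 s.2.2)) acc := by
  rfl

theorem PD5g_eq (f : ℕ → ℕ → ℕ → ℕ → ℕ) (q : ℕ → Bool)
    (a00 a01 a02 a03 a04 a11 a12 a13 a14 a22 a23 a24 a33 a34 a44 : ℕ) :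
    PD5g f q a00 a01 a02 a03 a04 a11 a12 a13 a14 a22 a23 a24 a33 a34 a44 =
      pdM f q (mat5 a00 a01 a02 a03 a04 a11 a12 a13 a14 a22 a23 a24 a33 a34 a44) := by
  rfl

/-- digits of a number below `2 ^ 200` in the accumulation -/
theorem foldl_dig {α : Type*} (d : α → ℕ) (hd : ∀ s, d s = 1 ∨ d s = 0 ∨ d s = bad) :
    ∀ (l : List α) (acc : ℕ), l.foldl (fun acc s => Nat.add (Nat.mul (nat_lit 2) acc) (d s)) acc
      < bad → (∀ s ∈ l, d s = 1 ∨ d s = 0) ∧
        l.foldl (fun acc s => Nat.add (Nat.mul (nat_lit 2) acc) (d s)) acc =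
          l.foldl (fun acc s => push acc (1 - d s)) acc
  | [], acc, _ => ⟨by simp, rfl⟩
  | s :: l, acc, h => by
    have hmono : ∀ (l : List α) (acc : ℕ),
        acc ≤ l.foldl (fun acc s => Nat.add (Nat.mul (nat_lit 2) acc) (d s)) acc := by
      intro l
      induction l with
      | nil => intro acc; exact le_refl _
      | cons s l ih =>
        intro acc
        refine le_trans ?_ (ih _)
        show acc ≤ 2 * acc + d s
        omega
    simp only [List.foldl_cons] at h ⊢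
    obtain ⟨h1, h2⟩ := foldl_dig d hd l _ h
    have h3 := lt_of_le_of_lt (hmono l _) h
    have h3' : 2 * acc + d s < bad := h3
    have h4 : d s = 1 ∨ d s = 0 := by
      rcases hd s with h5 | h5 | h5
      · exact Or.inl h5
      · exact Or.inr h5
      · omega
    refine ⟨?_, ?_⟩
    · intro s' hs'
      rcases List.mem_cons.1 hs' with h5 | h5
      · rw [h5]; exact h4
      · exact h1 s' h5
    · rw [h2]
      congr 1
      have h6 : push acc (1 - d s) = 2 * acc + (1 - (1 - d s)) := rfl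
      have h7 : Nat.add (Nat.mul (nat_lit 2) acc) (d s) = 2 * acc + d s := rfl
      rw [h6, h7]
      omega

theorem witC_core {n M : ℕ} {g : List ℤ} {u t : ℝ} {W : List (ℕ × ℕ)} (hc : Ctx n g M u t W)
    {c : ℕ} (hcb : c < bad) (f : Fin 5 → Fin 5 → ℕ) (F : Fin 5 → Fin 5 → ℝ)
    (hF : ∀ i j, F i j = F j i) (hf : ∀ i j, RepA n M u 2147483648 (f i j) (F i j))
    (h1 : tabL.foldl (fun acc s => pushD M (Nat.mul Bh (Sg n)) W acc
      (valM (msM M) s.1 f s.2.1 s.2.2)) 0 = c)
    (h2 : pdM (msM M) (isPos M (Nat.mul Bh (Sg n)) W) f = true) :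
    ∃ A : Matrix (Fin 5) (Fin 5) ℝ, A.PosDef ∧ IC c (VanSet A) := by
  set O := Nat.mul Bh (Sg n) with hO
  have hbk : ∀ k ≤ 4, bk n k ≤ Bq := bk_le n hc.hn
  have hv : ∀ (K : List (Fin 5)), K.length ≤ 4 → ∀ i j,
      RepA n M u (bk n K.length) (valM (msM M) K f i j) (valR K F i j) := by
    intro K hK i j
    have := valM_rel (msM M) (fun k x X => RepA n M u (bk n k) x X)
      (fun k p x y z P X Y Z _ hp hx hy hz =>
        RepA.ms hc.M_pos hc.hgn hc.hg hc.hB hc.hu hp hx hy hz) K 0 f F (by omega) hF hf i j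
    rwa [Nat.zero_add] at this
  have hpos : ∀ (K : List (Fin 5)), K.length ≤ 4 → ∀ i j,
      isPos M O W (valM (msM M) K f i j) = true → 0 < valR K F i j := fun K hK i j h =>
    hc.pos (hbk _ hK) (hv K hK i j) h
  unfold pdM at h2
  simp only [Bool.and_eq_true] at h2
  obtain ⟨p0, p1, p2, p3, p4⟩ := h2
  have hcore := core_real F hF (hpos [] (by decide) 0 0 p0) (hpos [0] (by decide) 1 1 p1)
    (hpos [0, 1] (by decide) 2 2 p2) (hpos [0, 1, 2] (by decide) 3 3 p3)
    (hpos [0, 1, 2, 3] (by decide) 4 4 p4)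
  refine ⟨Matrix.of F, hcore.1, ?_⟩
  intro p hp
  rw [hcore.2 p hp]
  obtain ⟨q1, q2, q3, q4, q5, q6⟩ := tabL_spec p hp
  set d : List (Fin 5) × Fin 5 × Fin 5 → ℕ := fun s =>
    dig M O W (valM (msM M) s.1 f s.2.1 s.2.2) with hd
  have hdc : ∀ s, d s = 1 ∨ d s = 0 ∨ d s = bad := by
    intro s
    rcases dig_cases M O W (valM (msM M) s.1 f s.2.1 s.2.2) with h | h | h
    · exact Or.inl h.1
    · exact Or.inr (Or.inl h.1)
    · exact Or.inr (Or.inr h)
  have h1' : tabL.foldl (fun acc s => Nat.add (Nat.mul (nat_lit 2) acc) (d s)) 0 = c := h1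
  obtain ⟨e1, e2⟩ := foldl_dig d hdc tabL 0 (by rw [h1']; exact hcb)
  have hb := foldl_push ([], 0, 0) (fun s : List (Fin 5) × Fin 5 × Fin 5 => 1 - d s) tabL 0 (79 - p)
    (by rw [tabL_length]; omega)
  have hb' : tabL.length - 1 - (79 - p) = p := by rw [tabL_length]; omega
  rw [hb'] at hb
  rw [← h1', e2, hb, decide_eq_true_eq]
  have hmem : tabL.getD p ([], 0, 0) ∈ tabL := by
    rw [List.getD_eq_getElem _ _ (by rw [tabL_length]; exact hp)]
    exact List.getElem_mem _
  have e3 := e1 _ hmem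
  generalize tabL.getD p ([], 0, 0) = s at q1 q2 q3 q4 q5 q6 e3
  obtain ⟨K, i, j⟩ := s
  simp only at q1 q2 q3 q4 q5 ⊢
  have hK : K.length ≤ 4 := by omega
  have hrep := hv K hK i j
  rcases dig_cases M O W (valM (msM M) K f i j) with h | h | h
  · have h3 : d (K, i, j) = 1 := h.1
    rw [h3]
    simp only [Nat.sub_self, true_iff]
    exact hc.zero (hbk _ hK) hrep h.2
  · have h3 : d (K, i, j) = 0 := h.1
    rw [h3]
    simp only [Nat.sub_zero, Nat.one_ne_zero, false_iff]
    rcases h.2 with h4 | h4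
    · exact (hc.pos (hbk _ hK) hrep h4).ne'
    · exact (hc.neg (hbk _ hK) hrep h4).ne
  · exfalso
    have h3 : d (K, i, j) = bad := h
    have h4 : (2 : ℕ) ≤ bad := by decide +kernel
    omega

/-! ### decoding -/

/-- coefficients of an entry -/
def digs : ℕ → ℕ → List ℤ
  | 0, _ => []
  | n + 1, r => (((r % 2 ^ 32 : ℕ) : ℤ) - 2147483648) :: digs n (r / 2 ^ 32)

theorem digs_length : ∀ n r : ℕ, (digs n r).length = n
  | 0, r => rfl
  | n + 1, r => by simp [digs, digs_length n]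

theorem digs_Bd : ∀ n r : ℕ, Bd 2147483648 (digs n r)
  | 0, r => Bd_nil _
  | n + 1, r => by
    simp only [digs]
    rw [Bd_cons]
    refine ⟨?_, digs_Bd n _⟩
    have h1 : r % 2 ^ 32 < 2 ^ 32 := Nat.mod_lt _ (by norm_num)
    rw [abs_le]
    constructor
    · push_cast; omega
    · push_cast; omega

theorem decN_cast : ∀ n r : ℕ,
    (decN n r : ℤ) = evR (BB : ℤ) (digs n r) + 2147483648 * Sg n
  | 0, r => by simp [decN, digs, evR, Sg]
  | n + 1, r => by
    have h1 : decN (n + 1) r = (r &&& 4294967295) + BB * decN n (r >>> 32) := rfl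
    have h2 : r &&& 4294967295 = r % 2 ^ 32 := Nat.and_two_pow_sub_one_eq_mod r 32
    have h3 : r >>> 32 = r / 2 ^ 32 := Nat.shiftRight_eq_div_pow r 32
    rw [h1, h2, h3, Sg_succ]
    have h4 := decN_cast n (r / 2 ^ 32)
    simp only [digs, evR, Int.cast_id]
    push_cast at h4 ⊢
    rw [h4]
    ring

theorem ent_rep {n M : ℕ} {u : ℝ} (hM0 : 0 < M) (hM : 2147483648 * Sg n ≤ M) (r : ℕ) :
    RepA n M u 2147483648 (ent n M (Nat.sub M (Nat.mul (nat_lit 2147483648) (Sg n))) r)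
      (evR u (digs n r)) := by
  have h0 : ent n M (Nat.sub M (Nat.mul (nat_lit 2147483648) (Sg n))) r =
      (decN n r + (M - 2147483648 * Sg n)) % M := rfl
  refine ⟨digs n r, (digs_length n r).le, digs_Bd n r, ?_, ?_, rfl⟩
  · rw [h0]; exact Nat.mod_lt _ hM0
  · rw [h0, ZMod.natCast_mod, Nat.cast_add, Nat.cast_sub hM]
    have h1 : ((decN n r : ℕ) : ZMod M) = (((decN n r : ℕ) : ℤ) : ZMod M) := by push_cast; rfl
    rw [h1, decN_cast, Int.cast_add, evR_cast]
    push_cast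
    simp

/-! ### the field -/

theorem wchk_sound {u : ℝ} {L H T : ℕ} (hT : 0 < T) (h1 : (L : ℝ) ≤ T * u) (h2 : (T : ℝ) * u ≤ H)
    (hu : 0 ≤ u) : ∀ (l : List (ℕ × ℕ)) (w w' : ℕ) (t : ℝ), (w : ℝ) ≤ t → t ≤ (w' : ℝ) →
      wchk L H T w w' l = true → WOKA u (t * u) l
  | [], w, w', t, _, _, _ => trivial
  | (v, v') :: l, w, w', t, hw, hw', h => by
    simp only [wchk, Bool.and_eq_true] at h
    obtain ⟨⟨c1, c2⟩, c3⟩ := h
    have c1 : v * T ≤ w * L := Nat.le_of_ble_eq_true c1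
    have c2 : w' * H ≤ v' * T := Nat.le_of_ble_eq_true c2
    have c1' : (v : ℝ) * T ≤ w * L := by exact_mod_cast c1
    have c2' : (w' : ℝ) * H ≤ v' * T := by exact_mod_cast c2
    have hTr : (0 : ℝ) < T := by exact_mod_cast hT
    have ht : 0 ≤ t := le_trans (Nat.cast_nonneg _) hw
    have d1 : (v : ℝ) ≤ t * u := by
      have h3 : (w : ℝ) * L ≤ t * (T * u) := mul_le_mul hw h1 (Nat.cast_nonneg _) ht
      have h4 : (v : ℝ) * T ≤ t * u * T := by linarith
      exact le_of_mul_le_mul_right h4 hTr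
    have d2 : t * u ≤ (v' : ℝ) := by
      have h3 : t * (T * u) ≤ (w' : ℝ) * H := mul_le_mul hw' h2 (by positivity) (Nat.cast_nonneg _)
      have h4 : t * u * T ≤ v' * T := by linarith
      exact le_of_mul_le_mul_right h4 hTr
    exact ⟨d1, d2, wchk_sound hT h1 h2 hu l v v' (t * u) d1 d2 c3⟩

theorem gchk_sound : ∀ l : List ℤ, gchk l = true → Bd 2147483648 l
  | [], _ => Bd_nil _
  | c :: l, h => by
    simp only [gchk, Bool.and_eq_true] at h
    rw [Bd_cons]
    refine ⟨?_, gchk_sound l h.2⟩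
    have h1 : c.natAbs ≤ 2147483648 := Nat.le_of_ble_eq_true h.1
    rw [Int.abs_eq_natAbs]
    exact_mod_cast h1

theorem fieldOK_sound {n : ℕ} {g : List ℤ} {L H T M : ℕ} {W : List (ℕ × ℕ)}
    (h : fieldOK n g L H T M W = true) : ∃ u t : ℝ, Ctx n g M u t W := by
  simp only [fieldOK, Bool.and_eq_true, decide_eq_true_eq] at h
  obtain ⟨c1, c2, c3, c4, c5, c6, c7, c8⟩ := h
  obtain ⟨hL, hT, u, hu1, hu2, hu⟩ := Alg.root_exists n g L H T c1
  have hTn : 0 < T := by exact_mod_cast hT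
  have hTr : (0 : ℝ) < T := by exact_mod_cast hTn
  have hu0 : 0 ≤ u := by
    by_contra hneg
    have h1 : (T : ℝ) * u < 0 := mul_neg_of_pos_of_neg hTr (not_le.1 hneg)
    have h2 : (0 : ℝ) ≤ ((L : ℤ) : ℝ) := by exact_mod_cast hL
    have h3 : ((T : ℤ) : ℝ) = (T : ℝ) := by push_cast; rfl
    rw [h3] at hu1
    linarith
  cases W with
  | nil => simp [wchk0] at c8
  | cons ww W =>
    obtain ⟨w, w'⟩ := ww
    simp only [wchk0, Bool.and_eq_true] at c8
    obtain ⟨⟨d1, d2⟩, d3⟩ := c8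
    have d1 : 1 ≤ w := Nat.le_of_ble_eq_true d1
    have d2 : w = w' := Nat.eq_of_beq_eq_true d2
    subst d2
    refine ⟨u, (w : ℝ), ?_⟩
    refine ⟨Nat.le_of_ble_eq_true c2, c3, gchk_sound g c4, Nat.le_of_ble_eq_true c6, ?_, ?_, c7, ?_,
      ?_⟩
    · have h1 : ((BB : ℤ) ^ n : ℤ) = (M : ℤ) + evR (BB : ℤ) g := by rw [evR_eq_evB, c5]
      have h2 := congrArg (fun z : ℤ => (z : ZMod M)) h1
      rw [Int.cast_add, evR_cast] at h2
      push_cast at h2
      simpa using h2
    · rw [hu, evR_eq_ev]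
    · exact_mod_cast d1
    · refine ⟨le_refl _, le_refl _, ?_⟩
      exact wchk_sound hTn (by simpa using hu1) (by simpa using hu2) hu0 W w w _ (le_refl _)
        (le_refl _) d3

theorem Sg_le (n : ℕ) (M : ℕ) (h : B3 * Sg n < M) : 2147483648 * Sg n ≤ M := by
  refine le_trans (Nat.mul_le_mul_right _ ?_) h.le
  decide +kernel

theorem witM_sound {n : ℕ} {g : List ℤ} {L H T M : ℕ} {W : List (ℕ × ℕ)} {c r : ℕ}
    (h : witM n g L H T M W c r = true) :
    ∃ A : Matrix (Fin 5) (Fin 5) ℝ, A.PosDef ∧ IC c (VanSet A) := by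
  simp only [witM, Bool.and_eq_true] at h
  obtain ⟨⟨h1, h2⟩, h3⟩ := h
  obtain ⟨u, t, hc⟩ := fieldOK_sound h1
  have hcb : c < bad := by
    refine lt_of_le_of_lt (Nat.le_of_ble_eq_true h2) ?_
    decide +kernel
  unfold witC at h3
  rw [Bool.and_eq_true] at h3
  obtain ⟨h4, h5⟩ := h3
  have h4 := Nat.eq_of_beq_eq_true h4
  rw [E5g_eq] at h4
  rw [PD5g_eq] at h5
  have hr := fun r => ent_rep (u := u) hc.M_pos (Sg_le n M hc.hM) r
  set F := Nat.sub M (Nat.mul (nat_lit 2147483648) (Sg n)) with hF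
  refine witC_core hc hcb _ (mat5 (evR u (digs n r)) (evR u (digs n (Nat.shiftRight r 128)))
    (evR u (digs n (Nat.shiftRight r 256))) (evR u (digs n (Nat.shiftRight r 384)))
    (evR u (digs n (Nat.shiftRight r 512))) (evR u (digs n (Nat.shiftRight r 640)))
    (evR u (digs n (Nat.shiftRight r 768))) (evR u (digs n (Nat.shiftRight r 896)))
    (evR u (digs n (Nat.shiftRight r 1024))) (evR u (digs n (Nat.shiftRight r 1152)))
    (evR u (digs n (Nat.shiftRight r 1280))) (evR u (digs n (Nat.shiftRight r 1408)))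
    (evR u (digs n (Nat.shiftRight r 1536))) (evR u (digs n (Nat.shiftRight r 1664)))
    (evR u (digs n (Nat.shiftRight r 1792))))
    (fun i j => mat5_symm _ _ _ _ _ _ _ _ _ _ _ _ _ _ _ i j) ?_ h4 h5
  intro i j
  fin_cases i <;> fin_cases j <;> exact hr _

end Pool.Agent.GS.AlgM
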