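import Pool.Agent.GS.AlgModData0
import Pool.Agent.GS.AlgModData1
import Pool.Agent.GS.AlgModData2
import Pool.Agent.GS.AlgModData3

set_option autoImplicit false

namespace Pool.Agent.GS

theorem algTab_pad : ∀ i < 256, 166 ≤ i → algTab i = algTab 0 := by decide +kernel

/-- all codes of the table `algTab` are realised by positive definite matrices -/
theorem algTab_rep : ∀ i < 256, ∃ A : Matrix (Fin 5) (Fin 5) ℝ,
    A.PosDef ∧ IC (algTab i) (VanSet A) := by
  intro i hi
  by_cases h : 166 ≤ i
  · rw [algTab_pad i hi h]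
    exact AlgM.witM_sound AlgM.wa0
  · rw [not_le] at h
    clear hi
    interval_cases i
    · exact AlgM.witM_sound AlgM.wa0
    · exact AlgM.witM_sound AlgM.wa1
    · exact AlgM.witM_sound AlgM.wa2
    · exact AlgM.witM_sound AlgM.wa3
    · exact AlgM.witM_sound AlgM.wa4
    · exact AlgM.witM_sound AlgM.wa5
    · exact AlgM.witM_sound AlgM.wa6
    · exact AlgM.witM_sound AlgM.wa7
    · exact AlgM.witM_sound AlgM.wa8
    · exact AlgM.witM_sound AlgM.wa9
    · exact AlgM.witM_sound AlgM.wa10
    · exact AlgM.witM_sound AlgM.wa11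
    · exact AlgM.witM_sound AlgM.wa12
    · exact AlgM.witM_sound AlgM.wa13
    · exact AlgM.witM_sound AlgM.wa14
    · exact AlgM.witM_sound AlgM.wa15
    · exact AlgM.witM_sound AlgM.wa16
    · exact AlgM.witM_sound AlgM.wa17
    · exact AlgM.witM_sound AlgM.wa18
    · exact AlgM.witM_sound AlgM.wa19
    · exact AlgM.witM_sound AlgM.wa20
    · exact AlgM.witM_sound AlgM.wa21
    · exact AlgM.witM_sound AlgM.wa22
    · exact AlgM.witM_sound AlgM.wa23
    · exact AlgM.witM_sound AlgM.wa24
    · exact AlgM.witM_sound AlgM.wa25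
    · exact AlgM.witM_sound AlgM.wa26
    · exact AlgM.witM_sound AlgM.wa27
    · exact AlgM.witM_sound AlgM.wa28
    · exact AlgM.witM_sound AlgM.wa29
    · exact AlgM.witM_sound AlgM.wa30
    · exact AlgM.witM_sound AlgM.wa31
    · exact AlgM.witM_sound AlgM.wa32
    · exact AlgM.witM_sound AlgM.wa33
    · exact AlgM.witM_sound AlgM.wa34
    · exact AlgM.witM_sound AlgM.wa35
    · exact AlgM.witM_sound AlgM.wa36
    · exact AlgM.witM_sound AlgM.wa37
    · exact AlgM.witM_sound AlgM.wa38
    · exact AlgM.witM_sound AlgM.wa39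
    · exact AlgM.witM_sound AlgM.wa40
    · exact AlgM.witM_sound AlgM.wa41
    · exact AlgM.witM_sound AlgM.wa42
    · exact AlgM.witM_sound AlgM.wa43
    · exact AlgM.witM_sound AlgM.wa44
    · exact AlgM.witM_sound AlgM.wa45
    · exact AlgM.witM_sound AlgM.wa46
    · exact AlgM.witM_sound AlgM.wa47
    · exact AlgM.witM_sound AlgM.wa48
    · exact AlgM.witM_sound AlgM.wa49
    · exact AlgM.witM_sound AlgM.wa50
    · exact AlgM.witM_sound AlgM.wa51
    · exact AlgM.witM_sound AlgM.wa52
    · exact AlgM.witM_sound AlgM.wa53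
    · exact AlgM.witM_sound AlgM.wa54
    · exact AlgM.witM_sound AlgM.wa55
    · exact AlgM.witM_sound AlgM.wa56
    · exact AlgM.witM_sound AlgM.wa57
    · exact AlgM.witM_sound AlgM.wa58
    · exact AlgM.witM_sound AlgM.wa59
    · exact AlgM.witM_sound AlgM.wa60
    · exact AlgM.witM_sound AlgM.wa61
    · exact AlgM.witM_sound AlgM.wa62
    · exact AlgM.witM_sound AlgM.wa63
    · exact AlgM.witM_sound AlgM.wa64
    · exact AlgM.witM_sound AlgM.wa65
    · exact AlgM.witM_sound AlgM.wa66
    · exact AlgM.witM_sound AlgM.wa67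
    · exact AlgM.witM_sound AlgM.wa68
    · exact AlgM.witM_sound AlgM.wa69
    · exact AlgM.witM_sound AlgM.wa70
    · exact AlgM.witM_sound AlgM.wa71
    · exact AlgM.witM_sound AlgM.wa72
    · exact AlgM.witM_sound AlgM.wa73
    · exact AlgM.witM_sound AlgM.wa74
    · exact AlgM.witM_sound AlgM.wa75
    · exact AlgM.witM_sound AlgM.wa76
    · exact AlgM.witM_sound AlgM.wa77
    · exact AlgM.witM_sound AlgM.wa78
    · exact AlgM.witM_sound AlgM.wa79
    · exact AlgM.witM_sound AlgM.wa80
    · exact AlgM.witM_sound AlgM.wa81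
    · exact AlgM.witM_sound AlgM.wa82
    · exact AlgM.witM_sound AlgM.wa83
    · exact AlgM.witM_sound AlgM.wa84
    · exact AlgM.witM_sound AlgM.wa85
    · exact AlgM.witM_sound AlgM.wa86
    · exact AlgM.witM_sound AlgM.wa87
    · exact AlgM.witM_sound AlgM.wa88
    · exact AlgM.witM_sound AlgM.wa89
    · exact AlgM.witM_sound AlgM.wa90
    · exact AlgM.witM_sound AlgM.wa91
    · exact AlgM.witM_sound AlgM.wa92
    · exact AlgM.witM_sound AlgM.wa93
    · exact AlgM.witM_sound AlgM.wa94
    · exact AlgM.witM_sound AlgM.wa95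
    · exact AlgM.witM_sound AlgM.wa96
    · exact AlgM.witM_sound AlgM.wa97
    · exact AlgM.witM_sound AlgM.wa98
    · exact AlgM.witM_sound AlgM.wa99
    · exact AlgM.witM_sound AlgM.wa100
    · exact AlgM.witM_sound AlgM.wa101
    · exact AlgM.witM_sound AlgM.wa102
    · exact AlgM.witM_sound AlgM.wa103
    · exact AlgM.witM_sound AlgM.wa104
    · exact AlgM.witM_sound AlgM.wa105
    · exact AlgM.witM_sound AlgM.wa106
    · exact AlgM.witM_sound AlgM.wa107
    · exact AlgM.witM_sound AlgM.wa108
    · exact AlgM.witM_sound AlgM.wa109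
    · exact AlgM.witM_sound AlgM.wa110
    · exact AlgM.witM_sound AlgM.wa111
    · exact AlgM.witM_sound AlgM.wa112
    · exact AlgM.witM_sound AlgM.wa113
    · exact AlgM.witM_sound AlgM.wa114
    · exact AlgM.witM_sound AlgM.wa115
    · exact AlgM.witM_sound AlgM.wa116
    · exact AlgM.witM_sound AlgM.wa117
    · exact AlgM.witM_sound AlgM.wa118
    · exact AlgM.witM_sound AlgM.wa119
    · exact AlgM.witM_sound AlgM.wa120
    · exact AlgM.witM_sound AlgM.wa121
    · exact AlgM.witM_sound AlgM.wa122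
    · exact AlgM.witM_sound AlgM.wa123
    · exact AlgM.witM_sound AlgM.wa124
    · exact AlgM.witM_sound AlgM.wa125
    · exact AlgM.witM_sound AlgM.wa126
    · exact AlgM.witM_sound AlgM.wa127
    · exact AlgM.witM_sound AlgM.wa128
    · exact AlgM.witM_sound AlgM.wa129
    · exact AlgM.witM_sound AlgM.wa130
    · exact AlgM.witM_sound AlgM.wa131
    · exact AlgM.witM_sound AlgM.wa132
    · exact AlgM.witM_sound AlgM.wa133
    · exact AlgM.witM_sound AlgM.wa134
    · exact AlgM.witM_sound AlgM.wa135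
    · exact AlgM.witM_sound AlgM.wa136
    · exact AlgM.witM_sound AlgM.wa137
    · exact AlgM.witM_sound AlgM.wa138
    · exact AlgM.witM_sound AlgM.wa139
    · exact AlgM.witM_sound AlgM.wa140
    · exact AlgM.witM_sound AlgM.wa141
    · exact AlgM.witM_sound AlgM.wa142
    · exact AlgM.witM_sound AlgM.wa143
    · exact AlgM.witM_sound AlgM.wa144
    · exact AlgM.witM_sound AlgM.wa145
    · exact AlgM.witM_sound AlgM.wa146
    · exact AlgM.witM_sound AlgM.wa147
    · exact AlgM.witM_sound AlgM.wa148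
    · exact AlgM.witM_sound AlgM.wa149
    · exact AlgM.witM_sound AlgM.wa150
    · exact AlgM.witM_sound AlgM.wa151
    · exact AlgM.witM_sound AlgM.wa152
    · exact AlgM.witM_sound AlgM.wa153
    · exact AlgM.witM_sound AlgM.wa154
    · exact AlgM.witM_sound AlgM.wa155
    · exact AlgM.witM_sound AlgM.wa156
    · exact AlgM.witM_sound AlgM.wa157
    · exact AlgM.witM_sound AlgM.wa158
    · exact AlgM.witM_sound AlgM.wa159
    · exact AlgM.witM_sound AlgM.wa160
    · exact AlgM.witM_sound AlgM.wa161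
    · exact AlgM.witM_sound AlgM.wa162
    · exact AlgM.witM_sound AlgM.wa163
    · exact AlgM.witM_sound AlgM.wa164
    · exact AlgM.witM_sound AlgM.wa165

end Pool.Agent.GS
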