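import Pool.Agent.GS.WitSound

/-!
Integer polynomials (coefficient lists, low degree first) in a real root `u` of a monic integer
polynomial, with interval bounds.
-/

set_option autoImplicit false
set_option linter.unusedVariables false

namespace Pool.Agent.GS.Alg

/-- value of the polynomial with coefficient list `l` at `u` -/
noncomputable def ev (u : ℝ) : List ℤ → ℝ
  | [] => 0
  | a :: l => a + u * ev u l

def add : List ℤ → List ℤ → List ℤ
  | [], q => q
  | a :: p, [] => a :: p
  | a :: p, b :: q => Int.add a b :: add p q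

def smul (c : ℤ) : List ℤ → List ℤ
  | [] => []
  | a :: p => Int.mul c a :: smul c p

theorem ev_add (u : ℝ) : ∀ p q : List ℤ, ev u (add p q) = ev u p + ev u q
  | [], q => by simp [add, ev]
  | a :: p, [] => by simp [add, ev]
  | a :: p, b :: q => by
    simp only [add, ev, ev_add u p q]
    rw [show Int.add a b = a + b from rfl]
    push_cast
    ring

theorem ev_smul (u : ℝ) (c : ℤ) : ∀ p : List ℤ, ev u (smul c p) = c * ev u p
  | [] => by simp [smul, ev]
  | a :: p => by
    simp only [smul, ev, ev_smul u c p]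
    rw [show Int.mul c a = c * a from rfl]
    push_cast
    ring

/-- split a list into its first `n` entries and the remaining ones -/
def red (n : ℕ) (g : List ℤ) (l : List ℤ) : List ℤ :=
  add (l.take n) (smul ((l.drop n).headD 0) g)

theorem ev_append (u : ℝ) : ∀ p q : List ℤ, ev u (p ++ q) = ev u p + u ^ p.length * ev u q
  | [], q => by simp [ev]
  | a :: p, q => by
    simp only [List.cons_append, ev, ev_append u p q, List.length_cons, pow_succ]
    ring

theorem ev_red (u : ℝ) (n : ℕ) (g : List ℤ) (hg : u ^ n = ev u g) (l : List ℤ)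
    (hl : l.length ≤ n + 1) : ev u (red n g l) = ev u l := by
  unfold red
  rw [ev_add, ev_smul]
  by_cases h : l.length ≤ n
  · rw [List.drop_eq_nil_of_le h, List.take_of_length_le h]
    simp
  · have h1 : l.length = n + 1 := by omega
    have h2 : (l.drop n).length = 1 := by simp [h1]
    obtain ⟨a, ha⟩ := List.length_eq_one_iff.1 h2
    conv_rhs => rw [← List.take_append_drop n l, ev_append, ha]
    rw [ha]
    simp [ev, h1, ← hg]
    ring

theorem length_add : ∀ p q : List ℤ, (add p q).length = max p.length q.length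
  | [], q => by simp [add]
  | a :: p, [] => by simp [add]
  | a :: p, b :: q => by simp [add, length_add p q]

theorem length_smul (c : ℤ) : ∀ p : List ℤ, (smul c p).length = p.length
  | [] => rfl
  | a :: p => by simp [smul, length_smul c p]

/-- product of `p` and `q` modulo `u ^ n = g` (Horner's rule in `q`) -/
def mul (n : ℕ) (g : List ℤ) (p : List ℤ) : List ℤ → List ℤ
  | [] => []
  | b :: q => add (smul b p) (red n g (0 :: mul n g p q))

theorem length_mul (n : ℕ) (g : List ℤ) (hgn : g.length ≤ n) (p : List ℤ) (hp : p.length ≤ n) :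
    ∀ q : List ℤ, (mul n g p q).length ≤ n
  | [] => by simp [mul]
  | b :: q => by
    have h := length_mul n g hgn p hp q
    simp only [mul, length_add, length_smul, red, List.length_take, max_le_iff]
    refine ⟨hp, ?_, hgn⟩
    omega

theorem ev_mul (u : ℝ) (n : ℕ) (g : List ℤ) (hgn : g.length ≤ n) (hg : u ^ n = ev u g)
    (p : List ℤ) (hp : p.length ≤ n) : ∀ q : List ℤ, ev u (mul n g p q) = ev u p * ev u q
  | [] => by simp [mul, ev]
  | b :: q => by
    have h := length_mul n g hgn p hp q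
    simp only [mul, ev_add, ev_smul]
    rw [ev_red u n g hg _ (by simp; omega)]
    simp only [ev, ev_mul u n g hgn hg p hp q]
    push_cast
    ring

/-- `p * x - y * z` -/
def msA (n : ℕ) (g : List ℤ) (p x y z : List ℤ) : List ℤ :=
  add (mul n g p x) (smul (-1) (mul n g y z))

theorem length_msA (n : ℕ) (g : List ℤ) (hgn : g.length ≤ n) (p x y z : List ℤ)
    (hp : p.length ≤ n) (hy : y.length ≤ n) : (msA n g p x y z).length ≤ n := by
  simp only [msA, length_add, length_smul, max_le_iff]
  exact ⟨length_mul n g hgn p hp x, length_mul n g hgn y hy z⟩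

theorem ev_msA (u : ℝ) (n : ℕ) (g : List ℤ) (hgn : g.length ≤ n) (hg : u ^ n = ev u g)
    (p x y z : List ℤ) (hp : p.length ≤ n) (hy : y.length ≤ n) :
    ev u (msA n g p x y z) = ev u p * ev u x - ev u y * ev u z := by
  simp only [msA, ev_add, ev_smul, ev_mul u n g hgn hg p hp, ev_mul u n g hgn hg y hy]
  push_cast
  ring

/-- interval evaluation: `(lo, hi, T ^ length)` with `lo ≤ T ^ length * value ≤ hi` for
`L / T ≤ u ≤ H / T`, `0 ≤ L` -/
def bnd (L H T : ℤ) : List ℤ → ℤ × ℤ × ℤ
  | [] => (0, 0, 1)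
  | a :: l =>
    match bnd L H T l with
    | (r1, r2, P) =>
      (a * (T * P) + (if 0 ≤ r1 then L * r1 else H * r1),
        a * (T * P) + (if 0 ≤ r2 then H * r2 else L * r2), T * P)

theorem bnd_spec (u : ℝ) (L H T : ℤ) (hL : 0 ≤ L) (hT : 0 < T) (h1 : (L : ℝ) ≤ T * u)
    (h2 : (T : ℝ) * u ≤ H) : ∀ l : List ℤ,
    0 < (bnd L H T l).2.2 ∧ ((bnd L H T l).1 : ℝ) ≤ (bnd L H T l).2.2 * ev u l ∧
      ((bnd L H T l).2.2 : ℝ) * ev u l ≤ ((bnd L H T l).2.1 : ℝ)
  | [] => by simp [bnd, ev]
  | a :: l => by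
    obtain ⟨hP, hr1, hr2⟩ := bnd_spec u L H T hL hT h1 h2 l
    simp only [bnd]
    generalize bnd L H T l = t at hP hr1 hr2
    obtain ⟨r1, r2, P⟩ := t
    simp only at hP hr1 hr2 ⊢
    have hTr : (0 : ℝ) < T := by exact_mod_cast hT
    have hPr : (0 : ℝ) < P := by exact_mod_cast hP
    have hLr : (0 : ℝ) ≤ L := by exact_mod_cast hL
    have hTu : (0 : ℝ) ≤ T * u := hLr.trans h1
    refine ⟨by positivity, ?_, ?_⟩
    · have key : ((if 0 ≤ r1 then L * r1 else H * r1 : ℤ) : ℝ) ≤ (T * u) * (P * ev u l) := by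
        split_ifs with h
        · have h' : (0 : ℝ) ≤ r1 := by exact_mod_cast h
          push_cast
          calc (L : ℝ) * r1 ≤ (T * u) * r1 := by gcongr
            _ ≤ (T * u) * (P * ev u l) := by gcongr
        · have h' : (r1 : ℝ) ≤ 0 := by exact_mod_cast (not_le.1 h).le
          push_cast
          calc (H : ℝ) * r1 ≤ (T * u) * r1 := mul_le_mul_of_nonpos_right h2 h'
            _ ≤ (T * u) * (P * ev u l) := by gcongr
      push_cast at key ⊢
      simp only [ev]
      nlinarith [key]
    · have key : (T * u) * (P * ev u l) ≤ ((if 0 ≤ r2 then H * r2 else L * r2 : ℤ) : ℝ) := by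
        split_ifs with h
        · have h' : (0 : ℝ) ≤ r2 := by exact_mod_cast h
          push_cast
          calc (T * u) * (P * ev u l) ≤ (T * u) * r2 := by gcongr
            _ ≤ H * r2 := by gcongr
        · have h' : (r2 : ℝ) ≤ 0 := by exact_mod_cast (not_le.1 h).le
          push_cast
          calc (T * u) * (P * ev u l) ≤ (T * u) * r2 := by gcongr
            _ ≤ L * r2 := mul_le_mul_of_nonpos_right h1 h'
      push_cast at key ⊢
      simp only [ev]
      nlinarith [key]

def posA (L H T : ℤ) (l : List ℤ) : Bool := decide (0 < (bnd L H T l).1)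
def negA (L H T : ℤ) (l : List ℤ) : Bool := decide ((bnd L H T l).2.1 < 0)

theorem posA_spec (u : ℝ) (L H T : ℤ) (hL : 0 ≤ L) (hT : 0 < T) (h1 : (L : ℝ) ≤ T * u)
    (h2 : (T : ℝ) * u ≤ H) (l : List ℤ) (h : posA L H T l = true) : 0 < ev u l := by
  obtain ⟨hP, hr1, hr2⟩ := bnd_spec u L H T hL hT h1 h2 l
  have h' : 0 < (bnd L H T l).1 := by simpa [posA] using h
  have h'' : (0 : ℝ) < (bnd L H T l).1 := by exact_mod_cast h'
  have hPr : (0 : ℝ) < (bnd L H T l).2.2 := by exact_mod_cast hP
  by_contra hc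
  have : ((bnd L H T l).2.2 : ℝ) * ev u l ≤ 0 := mul_nonpos_of_nonneg_of_nonpos hPr.le (not_lt.1 hc)
  linarith

theorem negA_spec (u : ℝ) (L H T : ℤ) (hL : 0 ≤ L) (hT : 0 < T) (h1 : (L : ℝ) ≤ T * u)
    (h2 : (T : ℝ) * u ≤ H) (l : List ℤ) (h : negA L H T l = true) : ev u l < 0 := by
  obtain ⟨hP, hr1, hr2⟩ := bnd_spec u L H T hL hT h1 h2 l
  have h' : (bnd L H T l).2.1 < 0 := by simpa [negA] using h
  have h'' : ((bnd L H T l).2.1 : ℝ) < 0 := by exact_mod_cast h'
  have hPr : (0 : ℝ) < (bnd L H T l).2.2 := by exact_mod_cast hP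
  by_contra hc
  have : 0 ≤ ((bnd L H T l).2.2 : ℝ) * ev u l := mul_nonneg hPr.le (not_lt.1 hc)
  linarith

def isZ : List ℤ → Bool
  | [] => true
  | a :: l => (a == 0) && isZ l

theorem isZ_spec (u : ℝ) : ∀ l : List ℤ, isZ l = true → ev u l = 0
  | [], _ => rfl
  | a :: l, h => by
    simp only [isZ, Bool.and_eq_true, beq_iff_eq] at h
    simp [ev, h.1, isZ_spec u l h.2]

/-- the value is zero (if `b`) or nonzero (if not `b`), certified -/
def cert (L H T : ℤ) (b : Bool) (l : List ℤ) : Bool :=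
  if b then isZ l else (posA L H T l || negA L H T l)

theorem cert_spec (u : ℝ) (L H T : ℤ) (hL : 0 ≤ L) (hT : 0 < T) (h1 : (L : ℝ) ≤ T * u)
    (h2 : (T : ℝ) * u ≤ H) (b : Bool) (l : List ℤ) (h : cert L H T b l = true) :
    (b = true ↔ ev u l = 0) := by
  unfold cert at h
  cases b with
  | true => simpa using isZ_spec u l (by simpa using h)
  | false =>
    simp only [Bool.false_eq_true, if_false, Bool.or_eq_true] at h
    simp only [Bool.false_eq_true, false_iff]
    rcases h with h | h
    · exact (posA_spec u L H T hL hT h1 h2 l h).ne'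
    · exact (negA_spec u L H T hL hT h1 h2 l h).ne

/-- the list (first element = bit 0) is certified against the binary digits of `c` -/
def chk (L H T : ℤ) : List (List ℤ) → ℕ → Bool
  | [], _ => true
  | x :: l, c => cert L H T (Nat.testBit c 0) x && chk L H T l (c / 2)

theorem chk_spec (u : ℝ) (L H T : ℤ) (hL : 0 ≤ L) (hT : 0 < T) (h1 : (L : ℝ) ≤ T * u)
    (h2 : (T : ℝ) * u ≤ H) : ∀ (l : List (List ℤ)) (c : ℕ), chk L H T l c = true →
    ∀ i < l.length, (c.testBit i = true ↔ ev u (l.getD i []) = 0)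
  | [], c, _, i, hi => by simp at hi
  | x :: l, c, h, i, hi => by
    simp only [chk, Bool.and_eq_true] at h
    cases i with
    | zero => simpa using cert_spec u L H T hL hT h1 h2 _ x h.1
    | succ i =>
      have := chk_spec u L H T hL hT h1 h2 l (c / 2) h.2 i (by simpa using hi)
      rw [← Nat.testBit_succ] at this
      simpa using this

/-- existence of the root `u` of `u ^ n = g` in `[L / T, H / T]` -/
def rootChk (n : ℕ) (g : List ℤ) (L H T : ℤ) : Bool :=
  decide (0 ≤ L) && decide (L < H) && decide (0 < T) &&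
    decide (((bnd L L T g).1 * T ^ n - L ^ n * (bnd L L T g).2.2) *
      ((bnd H H T g).1 * T ^ n - H ^ n * (bnd H H T g).2.2) ≤ 0)

theorem bnd_exact (L T : ℤ) (hL : 0 ≤ L) (hT : 0 < T) (l : List ℤ) :
    ((bnd L L T l).1 : ℝ) = (bnd L L T l).2.2 * ev ((L : ℝ) / T) l := by
  have hTr : (0 : ℝ) < T := by exact_mod_cast hT
  have h : (T : ℝ) * ((L : ℝ) / T) = L := by field_simp
  induction l with
  | nil => simp [bnd, ev]
  | cons a l ih =>
    simp only [bnd]
    generalize bnd L L T l = t at ih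
    obtain ⟨r1, r2, P⟩ := t
    simp only at ih ⊢
    have : ((if 0 ≤ r1 then L * r1 else L * r1 : ℤ) : ℝ) = L * r1 := by split_ifs <;> push_cast <;> rfl
    push_cast at this ⊢
    simp only [ev, ite_self]
    rw [ih]
    field_simp

theorem continuous_ev (l : List ℤ) : Continuous fun u : ℝ => ev u l := by
  induction l with
  | nil => simpa [ev] using continuous_const
  | cons a l ih =>
    simp only [ev]
    exact continuous_const.add (continuous_id.mul ih)

theorem bnd_pos (L H T : ℤ) (hT : 0 < T) : ∀ l : List ℤ, 0 < (bnd L H T l).2.2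
  | [] => by simp [bnd]
  | a :: l => by
    have := bnd_pos L H T hT l
    simp only [bnd]
    generalize bnd L H T l = t at this
    obtain ⟨r1, r2, P⟩ := t
    simp only at this ⊢
    positivity

theorem root_exists (n : ℕ) (g : List ℤ) (L H T : ℤ) (h : rootChk n g L H T = true) :
    0 ≤ L ∧ 0 < T ∧ ∃ u : ℝ, (L : ℝ) ≤ T * u ∧ (T : ℝ) * u ≤ H ∧ u ^ n = ev u g := by
  simp only [rootChk, Bool.and_eq_true, decide_eq_true_eq] at h
  obtain ⟨⟨⟨hL, hLH⟩, hT⟩, hs⟩ := h
  refine ⟨hL, hT, ?_⟩
  have hTr : (0 : ℝ) < T := by exact_mod_cast hT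
  have hH : 0 ≤ H := hL.trans hLH.le
  set F : ℝ → ℝ := fun u => ev u g - u ^ n with hF
  have hcont : Continuous F := (continuous_ev g).sub (continuous_pow n)
  set a : ℝ := (L : ℝ) / T
  set b : ℝ := (H : ℝ) / T
  have hab : a ≤ b := by
    have : (L : ℝ) ≤ H := by exact_mod_cast hLH.le
    exact div_le_div_of_nonneg_right this hTr.le
  have eL : (((bnd L L T g).1 * T ^ n - L ^ n * (bnd L L T g).2.2 : ℤ) : ℝ) =
      ((bnd L L T g).2.2 * T ^ n) * F a := by
    push_cast
    rw [bnd_exact L T hL hT g]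
    simp only [hF]
    have : (a : ℝ) ^ n * T ^ n = L ^ n := by
      rw [← mul_pow]; congr 1; simp only [a]; field_simp
    linear_combination (-(((bnd L L T g).2.2 : ℤ) : ℝ)) * (-this)
  have eH : (((bnd H H T g).1 * T ^ n - H ^ n * (bnd H H T g).2.2 : ℤ) : ℝ) =
      ((bnd H H T g).2.2 * T ^ n) * F b := by
    push_cast
    rw [bnd_exact H T hH hT g]
    simp only [hF]
    have : (b : ℝ) ^ n * T ^ n = H ^ n := by
      rw [← mul_pow]; congr 1; simp only [b]; field_simp
    linear_combination (-(((bnd H H T g).2.2 : ℤ) : ℝ)) * (-this)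
  have pL : (0 : ℝ) < (bnd L L T g).2.2 * T ^ n := by
    have : (0 : ℝ) < (bnd L L T g).2.2 := by exact_mod_cast bnd_pos L L T hT g
    positivity
  have pH : (0 : ℝ) < (bnd H H T g).2.2 * T ^ n := by
    have : (0 : ℝ) < (bnd H H T g).2.2 := by exact_mod_cast bnd_pos H H T hT g
    positivity
  have hs' : F a * F b ≤ 0 := by
    have h1 : ((((bnd L L T g).1 * T ^ n - L ^ n * (bnd L L T g).2.2) *
      ((bnd H H T g).1 * T ^ n - H ^ n * (bnd H H T g).2.2) : ℤ) : ℝ) ≤ 0 := by exact_mod_cast hs
    rw [Int.cast_mul, eL, eH] at h1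
    by_contra hc
    have : 0 < ((bnd L L T g).2.2 * T ^ n : ℝ) * F a * (((bnd H H T g).2.2 * T ^ n : ℝ) * F b) := by
      have : 0 < ((bnd L L T g).2.2 * T ^ n : ℝ) * ((bnd H H T g).2.2 * T ^ n : ℝ) * (F a * F b) :=
        mul_pos (mul_pos pL pH) (not_le.1 hc)
      linarith
    linarith
  have hz : ∃ u ∈ Set.Icc a b, F u = 0 := by
    rcases le_total (F a) 0 with ha | ha
    · rcases le_total 0 (F b) with hb | hb
      · exact intermediate_value_Icc hab hcont.continuousOn ⟨ha, hb⟩
      · -- both nonpositive, product ≤ 0 forces one to vanish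
        have : 0 ≤ F a * F b := mul_nonneg_of_nonpos_of_nonpos ha hb
        have h0 : F a * F b = 0 := le_antisymm hs' this
        rcases mul_eq_zero.1 h0 with h0 | h0
        · exact ⟨a, ⟨le_refl a, hab⟩, h0⟩
        · exact ⟨b, ⟨hab, le_refl b⟩, h0⟩
    · rcases le_total (F b) 0 with hb | hb
      · exact intermediate_value_Icc' hab hcont.continuousOn ⟨hb, ha⟩
      · have : 0 ≤ F a * F b := mul_nonneg ha hb
        have h0 : F a * F b = 0 := le_antisymm hs' this
        rcases mul_eq_zero.1 h0 with h0 | h0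
        · exact ⟨a, ⟨le_refl a, hab⟩, h0⟩
        · exact ⟨b, ⟨hab, le_refl b⟩, h0⟩
  obtain ⟨u, ⟨hua, hub⟩, hu⟩ := hz
  refine ⟨u, ?_, ?_, ?_⟩
  · have := mul_le_mul_of_nonneg_left hua hTr.le
    have e : (T : ℝ) * a = L := by simp only [a]; field_simp
    linarith
  · have := mul_le_mul_of_nonneg_left hub hTr.le
    have e : (T : ℝ) * b = H := by simp only [b]; field_simp
    linarith
  · have : ev u g - u ^ n = 0 := hu
    linarith

end Pool.Agent.GS.Alg
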