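import Pool.Agent.GS.WitCore
import Pool.Agent.GS.AlgPoly

/-!
Witnesses over real number fields of degree at most 4: the number `∑ a_i u ^ i` is represented by
the residue of `∑ a_i B ^ i`, `B = 2 ^ 2048`, modulo `M = B ^ n - g (B)`, where `u ^ n = g (u)`.
Definition of the test.
-/

set_option autoImplicit false
set_option linter.unusedVariables false

namespace Pool.Agent.GS.AlgM

def E3_0g (f : ℕ → ℕ → ℕ → ℕ → ℕ) (g : ℕ → ℕ → ℕ) (a00 a01 a02 a11 a12 a22 acc : ℕ) : ℕ :=
  g (g (g (g (g (g acc a01) a02) a12) (f a00 a12 a01 a02)) (f a11 a02 a01 a12))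
    (f a22 a01 a02 a12)
def E3_1g (f : ℕ → ℕ → ℕ → ℕ → ℕ) (g : ℕ → ℕ → ℕ) (a01 a02 a11 a12 a22 acc : ℕ) : ℕ :=
  g (g (g (g (g acc a01) a02) a12) (f a11 a02 a01 a12)) (f a22 a01 a02 a12)
def E3_2g (f : ℕ → ℕ → ℕ → ℕ → ℕ) (g : ℕ → ℕ → ℕ) (a01 a02 a12 a22 acc : ℕ) : ℕ :=
  g (g (g (g acc a01) a02) a12) (f a22 a01 a02 a12)
def E3_3g (f : ℕ → ℕ → ℕ → ℕ → ℕ) (g : ℕ → ℕ → ℕ) (a01 a02 a12 acc : ℕ) : ℕ :=
  g (g (g acc a01) a02) a12
/-- symbols of the 4 x 4 matrix `a`, pivots from index 0 on -/
def E4_0g (f : ℕ → ℕ → ℕ → ℕ → ℕ) (g : ℕ → ℕ → ℕ) (a00 a01 a02 a03 a11 a12 a13 a22 a23 a33 acc : ℕ) : ℕ :=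
  (E3_3g f g (f a33 a01 a03 a13)
    (f a33 a02 a03 a23)
    (f a33 a12 a13 a23)
    (E3_2g f g (f a22 a01 a02 a12)
    (f a22 a03 a02 a23)
    (f a22 a13 a12 a23)
    (f a22 a33 a23 a23)
    (E3_1g f g (f a11 a02 a01 a12)
    (f a11 a03 a01 a13)
    (f a11 a22 a12 a12)
    (f a11 a23 a12 a13)
    (f a11 a33 a13 a13)
    (E3_0g f g (f a00 a11 a01 a01)
    (f a00 a12 a01 a02)
    (f a00 a13 a01 a03)
    (f a00 a22 a02 a02)
    (f a00 a23 a02 a03)
    (f a00 a33 a03 a03)
    (g (g (g (g (g (g acc a01) a02) a03) a12) a13) a23)))))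
/-- symbols of the 4 x 4 matrix `a`, pivots from index 1 on -/
def E4_1g (f : ℕ → ℕ → ℕ → ℕ → ℕ) (g : ℕ → ℕ → ℕ) (a00 a01 a02 a03 a11 a12 a13 a22 a23 a33 acc : ℕ) : ℕ :=
  (E3_3g f g (f a33 a01 a03 a13)
    (f a33 a02 a03 a23)
    (f a33 a12 a13 a23)
    (E3_2g f g (f a22 a01 a02 a12)
    (f a22 a03 a02 a23)
    (f a22 a13 a12 a23)
    (f a22 a33 a23 a23)
    (E3_1g f g (f a11 a02 a01 a12)
    (f a11 a03 a01 a13)
    (f a11 a22 a12 a12)
    (f a11 a23 a12 a13)
    (f a11 a33 a13 a13)
    (g (g (g (g (g (g acc a01) a02) a03) a12) a13) a23))))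
/-- symbols of the 4 x 4 matrix `a`, pivots from index 2 on -/
def E4_2g (f : ℕ → ℕ → ℕ → ℕ → ℕ) (g : ℕ → ℕ → ℕ) (a00 a01 a02 a03 a11 a12 a13 a22 a23 a33 acc : ℕ) : ℕ :=
  (E3_3g f g (f a33 a01 a03 a13)
    (f a33 a02 a03 a23)
    (f a33 a12 a13 a23)
    (E3_2g f g (f a22 a01 a02 a12)
    (f a22 a03 a02 a23)
    (f a22 a13 a12 a23)
    (f a22 a33 a23 a23)
    (g (g (g (g (g (g acc a01) a02) a03) a12) a13) a23)))
/-- symbols of the 4 x 4 matrix `a`, pivots from index 3 on -/
def E4_3g (f : ℕ → ℕ → ℕ → ℕ → ℕ) (g : ℕ → ℕ → ℕ) (a00 a01 a02 a03 a11 a12 a13 a22 a23 a33 acc : ℕ) : ℕ :=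
  (E3_3g f g (f a33 a01 a03 a13)
    (f a33 a02 a03 a23)
    (f a33 a12 a13 a23)
    (g (g (g (g (g (g acc a01) a02) a03) a12) a13) a23))
/-- symbols of the 4 x 4 matrix `a`, pivots from index 4 on -/
def E4_4g (f : ℕ → ℕ → ℕ → ℕ → ℕ) (g : ℕ → ℕ → ℕ) (a00 a01 a02 a03 a11 a12 a13 a22 a23 a33 acc : ℕ) : ℕ :=
  (g (g (g (g (g (g acc a01) a02) a03) a12) a13) a23)
/-- internal code of the zero set of the symmetric matrix `a` (entries modulo `Q`) -/
def E5g (f : ℕ → ℕ → ℕ → ℕ → ℕ) (g : ℕ → ℕ → ℕ) (a00 a01 a02 a03 a04 a11 a12 a13 a14 a22 a23 a24 a33 a34 a44 acc : ℕ) : ℕ :=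
  (E4_4g f g (f a44 a00 a04 a04)
    (f a44 a01 a04 a14)
    (f a44 a02 a04 a24)
    (f a44 a03 a04 a34)
    (f a44 a11 a14 a14)
    (f a44 a12 a14 a24)
    (f a44 a13 a14 a34)
    (f a44 a22 a24 a24)
    (f a44 a23 a24 a34)
    (f a44 a33 a34 a34)
    (E4_3g f g (f a33 a00 a03 a03)
    (f a33 a01 a03 a13)
    (f a33 a02 a03 a23)
    (f a33 a04 a03 a34)
    (f a33 a11 a13 a13)
    (f a33 a12 a13 a23)
    (f a33 a14 a13 a34)
    (f a33 a22 a23 a23)
    (f a33 a24 a23 a34)
    (f a33 a44 a34 a34)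
    (E4_2g f g (f a22 a00 a02 a02)
    (f a22 a01 a02 a12)
    (f a22 a03 a02 a23)
    (f a22 a04 a02 a24)
    (f a22 a11 a12 a12)
    (f a22 a13 a12 a23)
    (f a22 a14 a12 a24)
    (f a22 a33 a23 a23)
    (f a22 a34 a23 a24)
    (f a22 a44 a24 a24)
    (E4_1g f g (f a11 a00 a01 a01)
    (f a11 a02 a01 a12)
    (f a11 a03 a01 a13)
    (f a11 a04 a01 a14)
    (f a11 a22 a12 a12)
    (f a11 a23 a12 a13)
    (f a11 a24 a12 a14)
    (f a11 a33 a13 a13)
    (f a11 a34 a13 a14)
    (f a11 a44 a14 a14)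
    (E4_0g f g (f a00 a11 a01 a01)
    (f a00 a12 a01 a02)
    (f a00 a13 a01 a03)
    (f a00 a14 a01 a04)
    (f a00 a22 a02 a02)
    (f a00 a23 a02 a03)
    (f a00 a24 a02 a04)
    (f a00 a33 a03 a03)
    (f a00 a34 a03 a04)
    (f a00 a44 a04 a04)
    (g (g (g (g (g (g (g (g (g (g acc a01) a02) a03) a04) a12) a13) a14) a23) a24) a34))))))


/-- all pivots of the 2 x 2 matrix are positive -/
def PD2g (f : ℕ → ℕ → ℕ → ℕ → ℕ) (q : ℕ → Bool) (a00 a01 a11 : ℕ) : Bool := (q a00).and (q (f a00 a11 a01 a01))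
def PD3g (f : ℕ → ℕ → ℕ → ℕ → ℕ) (q : ℕ → Bool) (a00 a01 a02 a11 a12 a22 : ℕ) : Bool :=
  (q a00).and (PD2g f q (f a00 a11 a01 a01) (f a00 a12 a01 a02) (f a00 a22 a02 a02))
def PD4g (f : ℕ → ℕ → ℕ → ℕ → ℕ) (q : ℕ → Bool) (a00 a01 a02 a03 a11 a12 a13 a22 a23 a33 : ℕ) : Bool :=
  (q a00).and (PD3g f q (f a00 a11 a01 a01) (f a00 a12 a01 a02) (f a00 a13 a01 a03)
    (f a00 a22 a02 a02) (f a00 a23 a02 a03) (f a00 a33 a03 a03))
/-- all pivots of the 5 x 5 matrix are positive -/
def PD5g (f : ℕ → ℕ → ℕ → ℕ → ℕ) (q : ℕ → Bool) (a00 a01 a02 a03 a04 a11 a12 a13 a14 a22 a23 a24 a33 a34 a44 : ℕ) : Bool :=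
  (q a00).and (PD4g f q (f a00 a11 a01 a01) (f a00 a12 a01 a02) (f a00 a13 a01 a03)
    (f a00 a14 a01 a04) (f a00 a22 a02 a02) (f a00 a23 a02 a03) (f a00 a24 a02 a04)
    (f a00 a33 a03 a03) (f a00 a34 a03 a04) (f a00 a44 a04 a04))


/-- `2 ^ 2048` -/
def BB : ℕ := nat_lit 32317006071311007300714876688669951960444102669715484032130345427524655138867890893197201411522913463688717960921898019494119559150490921095088152386448283120630877367300996091750197750389652106796057638384067568276792218642619756161838094338476170470581645852036305042887575891541065808607552399123930385521914333389668342420684974786564569494856176035326322058077805659331026192708460314150258592864177116725943603718461857357598351152301645904403697613233287231227125684710820209725157101726931323469678542580656697935045997268352998638215525166389437335543602135433229604645318478604952148193555853611059596230656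
/-- `2 ^ 2048 - 1` -/
def Bm : ℕ := nat_lit 32317006071311007300714876688669951960444102669715484032130345427524655138867890893197201411522913463688717960921898019494119559150490921095088152386448283120630877367300996091750197750389652106796057638384067568276792218642619756161838094338476170470581645852036305042887575891541065808607552399123930385521914333389668342420684974786564569494856176035326322058077805659331026192708460314150258592864177116725943603718461857357598351152301645904403697613233287231227125684710820209725157101726931323469678542580656697935045997268352998638215525166389437335543602135433229604645318478604952148193555853611059596230655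
/-- `2 ^ 2047` -/
def Bh : ℕ := nat_lit 16158503035655503650357438344334975980222051334857742016065172713762327569433945446598600705761456731844358980460949009747059779575245460547544076193224141560315438683650498045875098875194826053398028819192033784138396109321309878080919047169238085235290822926018152521443787945770532904303776199561965192760957166694834171210342487393282284747428088017663161029038902829665513096354230157075129296432088558362971801859230928678799175576150822952201848806616643615613562842355410104862578550863465661734839271290328348967522998634176499319107762583194718667771801067716614802322659239302476074096777926805529798115328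
/-- `3 * 2 ^ 2046` -/
def B3 : ℕ := nat_lit 24237754553483255475536157516502463970333077002286613024097759070643491354150918169897901058642185097766538470691423514620589669362868190821316114289836212340473158025475747068812648312792239080097043228788050676207594163981964817121378570753857127852936234389027228782165681918655799356455664299342947789141435750042251256815513731089923427121142132026494741543558354244498269644531345235612693944648132837544457702788846393018198763364226234428302773209924965423420344263533115157293867826295198492602258906935492523451284497951264748978661643874792078001657701601574922203483988858953714111145166890208294697172992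
/-- `2 ^ 200` -/
def bad : ℕ := nat_lit 1606938044258990275541962092341162602522202993782792835301376

/-- `1 + B + ... + B ^ (n - 1)` -/
def Sg : ℕ → ℕ
  | 0 => nat_lit 0
  | n + 1 => Nat.add (nat_lit 1) (Nat.mul BB (Sg n))

/-- `p * x - y * z` modulo `M` -/
def msM (M p x y z : ℕ) : ℕ :=
  Nat.mod (Nat.add (Nat.mul p x) (Nat.sub (Nat.mul M M) (Nat.mul y z))) M

/-- sign test: the sum of (digit minus `h`) times weight is positive; the weights are given
by bounds -/
def posS (k m h : ℕ) : List (ℕ × ℕ) → ℕ → ℕ → ℕ → Bool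
  | [], _, P, N => Nat.ble (Nat.succ N) P
  | (w, w') :: l, y, P, N =>
    posS k m h l (Nat.shiftRight y k) (Nat.add P (Nat.mul w (Nat.sub (Nat.land y m) h)))
      (Nat.add N (Nat.mul w' (Nat.sub h (Nat.land y m))))

/-- the same for the negative of the sum -/
def negS (k m h : ℕ) : List (ℕ × ℕ) → ℕ → ℕ → ℕ → Bool
  | [], _, P, N => Nat.ble (Nat.succ N) P
  | (w, w') :: l, y, P, N =>
    negS k m h l (Nat.shiftRight y k) (Nat.add P (Nat.mul w (Nat.sub h (Nat.land y m))))
      (Nat.add N (Nat.mul w' (Nat.sub (Nat.land y m) h)))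

/-- representative with digits shifted by `2 ^ 2047`; `O` is `2 ^ 2047 * Sg n` -/
def yof (M O x : ℕ) : ℕ := Nat.mod (Nat.add x O) M

def isPos (M O : ℕ) (W : List (ℕ × ℕ)) (x : ℕ) : Bool := posS (nat_lit 2048) Bm Bh W (yof M O x) (nat_lit 0) (nat_lit 0)

def isNeg (M O : ℕ) (W : List (ℕ × ℕ)) (x : ℕ) : Bool := negS (nat_lit 2048) Bm Bh W (yof M O x) (nat_lit 0) (nat_lit 0)

/-- `1`: the number is zero; `0`: the number is certified to be nonzero -/
def dig (M O : ℕ) (W : List (ℕ × ℕ)) (x : ℕ) : ℕ :=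
  bif Nat.beq x (nat_lit 0) then nat_lit 1 else
    bif (isPos M O W x).or (isNeg M O W x) then nat_lit 0 else bad

def pushD (M O : ℕ) (W : List (ℕ × ℕ)) (acc x : ℕ) : ℕ :=
  Nat.add (Nat.mul (nat_lit 2) acc) (dig M O W x)

/-- the number with base `B` digits the lowest `n` 32-bit digits of `r` -/
def decN : ℕ → ℕ → ℕ
  | 0, _ => nat_lit 0
  | n + 1, r => Nat.add (Nat.land r (nat_lit 4294967295))
      (Nat.mul BB (decN n (Nat.shiftRight r (nat_lit 32))))

/-- matrix entry; `F` is `M - 2 ^ 31 * Sg n` -/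
def ent (n M F r : ℕ) : ℕ := Nat.mod (Nat.add (decN n r) F) M

/-- the weights are bounds for `t * u ^ i` -/
def wchk (L H T : ℕ) : ℕ → ℕ → List (ℕ × ℕ) → Bool
  | _, _, [] => true
  | w, w', (v, v') :: l =>
    ((Nat.ble (Nat.mul v T) (Nat.mul w L)).and (Nat.ble (Nat.mul w' H) (Nat.mul v' T))).and
      (wchk L H T v v' l)

def wchk0 (L H T : ℕ) : List (ℕ × ℕ) → Bool
  | [] => false
  | (w, w') :: l => ((Nat.ble (nat_lit 1) w).and (Nat.beq w w')).and (wchk L H T w w' l)

def gchk : List ℤ → Bool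
  | [] => true
  | c :: l => (Nat.ble (Int.natAbs c) (nat_lit 2147483648)).and (gchk l)

/-- value of the polynomial at `BB` -/
def evB : List ℤ → ℤ
  | [] => 0
  | a :: l => a + (BB : ℤ) * evB l

/-- the parameters of the field are consistent -/
def fieldOK (n : ℕ) (g : List ℤ) (L H T M : ℕ) (W : List (ℕ × ℕ)) : Bool :=
  Alg.rootChk n g L H T && (Nat.ble n (nat_lit 4) && (decide (g.length ≤ n) && (gchk g &&
    (decide ((M : ℤ) + evB g = (BB : ℤ) ^ n) && (Nat.ble (Nat.succ (Nat.mul B3 (Sg n))) M &&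
      (decide (W.length = n) && wchk0 L H T W))))))

/-- the record `r` holds 15 entries, each a polynomial with 32 bit coefficients at positions with
stride 128; they form a positive definite matrix with internal code `c` -/
def witC (n M O F : ℕ) (W : List (ℕ × ℕ)) (c r : ℕ) : Bool :=
  (Nat.beq (E5g (msM M) (pushD M O W) (ent n M F r) (ent n M F (Nat.shiftRight r (nat_lit 128)))
    (ent n M F (Nat.shiftRight r (nat_lit 256))) (ent n M F (Nat.shiftRight r (nat_lit 384)))
    (ent n M F (Nat.shiftRight r (nat_lit 512))) (ent n M F (Nat.shiftRight r (nat_lit 640)))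
    (ent n M F (Nat.shiftRight r (nat_lit 768))) (ent n M F (Nat.shiftRight r (nat_lit 896)))
    (ent n M F (Nat.shiftRight r (nat_lit 1024))) (ent n M F (Nat.shiftRight r (nat_lit 1152)))
    (ent n M F (Nat.shiftRight r (nat_lit 1280))) (ent n M F (Nat.shiftRight r (nat_lit 1408)))
    (ent n M F (Nat.shiftRight r (nat_lit 1536))) (ent n M F (Nat.shiftRight r (nat_lit 1664)))
    (ent n M F (Nat.shiftRight r (nat_lit 1792))) (nat_lit 0)) c).and
  (PD5g (msM M) (isPos M O W) (ent n M F r) (ent n M F (Nat.shiftRight r (nat_lit 128)))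
    (ent n M F (Nat.shiftRight r (nat_lit 256))) (ent n M F (Nat.shiftRight r (nat_lit 384)))
    (ent n M F (Nat.shiftRight r (nat_lit 512))) (ent n M F (Nat.shiftRight r (nat_lit 640)))
    (ent n M F (Nat.shiftRight r (nat_lit 768))) (ent n M F (Nat.shiftRight r (nat_lit 896)))
    (ent n M F (Nat.shiftRight r (nat_lit 1024))) (ent n M F (Nat.shiftRight r (nat_lit 1152)))
    (ent n M F (Nat.shiftRight r (nat_lit 1280))) (ent n M F (Nat.shiftRight r (nat_lit 1408)))
    (ent n M F (Nat.shiftRight r (nat_lit 1536))) (ent n M F (Nat.shiftRight r (nat_lit 1664)))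
    (ent n M F (Nat.shiftRight r (nat_lit 1792))))

/-- the whole test -/
def witM (n : ℕ) (g : List ℤ) (L H T M : ℕ) (W : List (ℕ × ℕ)) (c r : ℕ) : Bool :=
  (fieldOK n g L H T M W && Nat.ble c (nat_lit 1208925819614629174706175)) &&
    witC n M (Nat.mul Bh (Sg n)) (Nat.sub M (Nat.mul (nat_lit 2147483648) (Sg n))) W c r

end Pool.Agent.GS.AlgM
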