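import Pool.Agent.GS.Base
import Pool.Agent.GS.K.Wit

/-!
Integer witnesses, checked with natural numbers modulo `2 ^ 1024` (two's complement).
-/

set_option autoImplicit false
set_option linter.unusedVariables false

namespace Pool.Agent.GS

/-- internal order of the symbols: position `p` carries the symbol `symOf (ordTab p)`; the internal
code of a set has bit `79 - p` for position `p` -/
def ordList : List ℕ :=
  [0, 8, 16, 24, 32, 40, 48, 56, 64, 72, 33, 41, 49, 57, 65, 73,
   59, 67, 75, 79, 71, 63, 43, 51, 77, 55, 47, 35, 53, 69, 39, 37,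
   45, 61, 9, 17, 25, 58, 66, 74, 19, 27, 78, 31, 23, 11, 29, 70,
   15, 13, 21, 62, 1, 18, 26, 42, 50, 76, 3, 30, 54, 7, 5, 22,
   46, 2, 10, 28, 34, 52, 68, 6, 14, 38, 4, 12, 20, 36, 44, 60]

def ordTab (p : ℕ) : ℕ := ordList.getD p 0

/-- `c` is the internal code of `S` -/
def IC (c : ℕ) (S : SymSet) : Prop :=
  ∀ p < 80, (c.testBit (79 - p) = true ↔ symOf (ordTab p) ∈ S)

end Pool.Agent.GS
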