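import Pool.Agent.GS.Defs

set_option autoImplicit false

namespace Pool.Agent.GS

/-- the 80 symbols `(i, j, K)`, `i < j`, in the order of `symIdx` -/
def symTab : List (Fin 5 × Fin 5 × Finset (Fin 5)) :=
  [(0, 1, ∅), (0, 1, {2}), (0, 1, {3}), (0, 1, {2, 3}),
   (0, 1, {4}), (0, 1, {2, 4}), (0, 1, {3, 4}), (0, 1, {2, 3, 4}),
   (0, 2, ∅), (0, 2, {1}), (0, 2, {3}), (0, 2, {1, 3}),
   (0, 2, {4}), (0, 2, {1, 4}), (0, 2, {3, 4}), (0, 2, {1, 3, 4}),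
   (0, 3, ∅), (0, 3, {1}), (0, 3, {2}), (0, 3, {1, 2}),
   (0, 3, {4}), (0, 3, {1, 4}), (0, 3, {2, 4}), (0, 3, {1, 2, 4}),
   (0, 4, ∅), (0, 4, {1}), (0, 4, {2}), (0, 4, {1, 2}),
   (0, 4, {3}), (0, 4, {1, 3}), (0, 4, {2, 3}), (0, 4, {1, 2, 3}),
   (1, 2, ∅), (1, 2, {0}), (1, 2, {3}), (1, 2, {0, 3}),
   (1, 2, {4}), (1, 2, {0, 4}), (1, 2, {3, 4}), (1, 2, {0, 3, 4}),
   (1, 3, ∅), (1, 3, {0}), (1, 3, {2}), (1, 3, {0, 2}),
   (1, 3, {4}), (1, 3, {0, 4}), (1, 3, {2, 4}), (1, 3, {0, 2, 4}),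
   (1, 4, ∅), (1, 4, {0}), (1, 4, {2}), (1, 4, {0, 2}),
   (1, 4, {3}), (1, 4, {0, 3}), (1, 4, {2, 3}), (1, 4, {0, 2, 3}),
   (2, 3, ∅), (2, 3, {0}), (2, 3, {1}), (2, 3, {0, 1}),
   (2, 3, {4}), (2, 3, {0, 4}), (2, 3, {1, 4}), (2, 3, {0, 1, 4}),
   (2, 4, ∅), (2, 4, {0}), (2, 4, {1}), (2, 4, {0, 1}),
   (2, 4, {3}), (2, 4, {0, 3}), (2, 4, {1, 3}), (2, 4, {0, 1, 3}),
   (3, 4, ∅), (3, 4, {0}), (3, 4, {1}), (3, 4, {0, 1}),
   (3, 4, {2}), (3, 4, {0, 2}), (3, 4, {1, 2}), (3, 4, {0, 1, 2})]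

/-- the `s`-th symbol -/
def symOf (s : ℕ) : Fin 5 × Fin 5 × Finset (Fin 5) := symTab.getD s (0, 0, ∅)

theorem symOf_spec : ∀ s < 80, Valid (symOf s).1 (symOf s).2.1 (symOf s).2.2 ∧
    (symOf s).1 < (symOf s).2.1 ∧ symIdx (symOf s).1 (symOf s).2.1 (symOf s).2.2 = s := by
  decide +kernel

theorem symOf_symIdx : ∀ i j : Fin 5, ∀ K : Finset (Fin 5), Valid i j K → i < j →
    symIdx i j K < 80 ∧ symOf (symIdx i j K) = (i, j, K) := by
  decide +kernel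

theorem isSymSet_decode (c : ℕ) : IsSymSet (decode c) := by
  constructor
  · intro i j K h
    exact h.1
  · intro i j K h
    refine ⟨⟨h.1.1.symm, h.1.2.2, h.1.2.1⟩, ?_⟩
    have := h.2
    simpa [min_comm, max_comm] using this

theorem Valid.symm {i j : Fin 5} {K : Finset (Fin 5)} (h : Valid i j K) : Valid j i K :=
  ⟨h.1.symm, h.2.2, h.2.1⟩

theorem IsSymSet.swap {S : SymSet} (hS : IsSymSet S) (i j : Fin 5) (K : Finset (Fin 5)) :
    (i, j, K) ∈ S ↔ (j, i, K) ∈ S := ⟨hS.2 i j K, hS.2 j i K⟩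

/-- membership in a symmetric set is decided by the symbols `symOf s` -/
theorem IsSymSet.mem_iff {S : SymSet} (hS : IsSymSet S) (i j : Fin 5) (K : Finset (Fin 5))
    (hv : Valid i j K) :
    (i, j, K) ∈ S ↔ symOf (symIdx (min i j) (max i j) K) ∈ S := by
  rcases lt_or_gt_of_ne hv.1 with h | h
  · rw [min_eq_left h.le, max_eq_right h.le, (symOf_symIdx i j K hv h).2]
  · rw [min_eq_right h.le, max_eq_left h.le, (symOf_symIdx j i K hv.symm h).2, hS.swap]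

/-- two symmetric sets with the same symbols `symOf s` are equal -/
theorem IsSymSet.ext {S T : SymSet} (hS : IsSymSet S) (hT : IsSymSet T)
    (h : ∀ s < 80, (symOf s ∈ S ↔ symOf s ∈ T)) : S = T := by
  ext ⟨i, j, K⟩
  by_cases hv : Valid i j K
  · rw [hS.mem_iff i j K hv, hT.mem_iff i j K hv]
    apply h
    rcases lt_or_gt_of_ne hv.1 with h' | h'
    · rw [min_eq_left h'.le, max_eq_right h'.le]
      exact (symOf_symIdx i j K hv h').1
    · rw [min_eq_right h'.le, max_eq_left h'.le]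
      exact (symOf_symIdx j i K hv.symm h').1
  · exact ⟨fun h => (hv (hS.1 i j K h)).elim, fun h => (hv (hT.1 i j K h)).elim⟩

theorem symOf_mem_decode (c : ℕ) : ∀ s < 80, (symOf s ∈ decode c ↔ c.testBit s = true) := by
  intro s hs
  obtain ⟨h1, h2, h3⟩ := symOf_spec s hs
  constructor
  · intro h
    have := h.2
    rw [min_eq_left h2.le, max_eq_right h2.le, h3] at this
    exact this
  · intro h
    refine ⟨h1, ?_⟩
    rw [min_eq_left h2.le, max_eq_right h2.le, h3]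
    exact h

end Pool.Agent.GS
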