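import Mathlib

/-!
Definitions for the classification of the sets of vanishing almost-principal minors of positive
definite real 5 x 5 matrices.
-/

set_option autoImplicit false

namespace Pool.Agent.GS

/-- the triple `(i, j, K)` is a symbol `[i ⊥ j | K]`: `i ≠ j` and `i, j ∉ K` -/
def Valid (i j : Fin 5) (K : Finset (Fin 5)) : Prop := i ≠ j ∧ i ∉ K ∧ j ∉ K

instance (i j : Fin 5) (K : Finset (Fin 5)) : Decidable (Valid i j K) := by
  unfold Valid; infer_instance

/-- the almost-principal minor `[i ⊥ j | K]` of `A`: rows `i, K`, columns `j, K` -/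
noncomputable def apm (A : Matrix (Fin 5) (Fin 5) ℝ) (i j : Fin 5) (K : Finset (Fin 5)) : ℝ :=
  (A.submatrix (Sum.elim (fun _ : Unit => i) (fun k : {k : Fin 5 // k ∈ K} => k.1))
    (Sum.elim (fun _ : Unit => j) (fun k : {k : Fin 5 // k ∈ K} => k.1))).det

/-- sets of (ordered) triples -/
abbrev SymSet := Set (Fin 5 × Fin 5 × Finset (Fin 5))

/-- the set of all symbols whose almost-principal minor of `A` vanishes -/
def VanSet (A : Matrix (Fin 5) (Fin 5) ℝ) : SymSet :=
  {s | Valid s.1 s.2.1 s.2.2 ∧ apm A s.1 s.2.1 s.2.2 = 0}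

/-- `S` is the vanishing set of some positive definite matrix -/
def Representable (S : SymSet) : Prop :=
  ∃ A : Matrix (Fin 5) (Fin 5) ℝ, A.PosDef ∧ VanSet A = S

/-- `S` consists of symbols and does not distinguish `(i, j, K)` from `(j, i, K)` -/
def IsSymSet (S : SymSet) : Prop :=
  (∀ i j K, (i, j, K) ∈ S → Valid i j K) ∧ (∀ i j K, (i, j, K) ∈ S → (j, i, K) ∈ S)

/-- three signs which are the signs of three real numbers with sum zero: all are zero, or both
signs occur -/
def Bal (x y z : SignType) : Prop :=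
  (x = 0 ∧ y = 0 ∧ z = 0) ∨ ((x = 1 ∨ y = 1 ∨ z = 1) ∧ (x = -1 ∨ y = -1 ∨ z = -1))

instance (x y z : SignType) : Decidable (Bal x y z) := by unfold Bal; infer_instance

/-- `ε` is an orientation of `S`: signs `ε i j K` vanishing exactly on `S` and balanced in all
three-term relations between principal and almost-principal minors -/
def IsOrientation (S : SymSet) (ε : Fin 5 → Fin 5 → Finset (Fin 5) → SignType) : Prop :=
  (∀ i j K, ε i j K = ε j i K) ∧
  (∀ i j K, Valid i j K → (ε i j K = 0 ↔ (i, j, K) ∈ S)) ∧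
  ∀ (i j k : Fin 5) (L : Finset (Fin 5)), i ≠ j → i ≠ k → j ≠ k → i ∉ L → j ∉ L → k ∉ L →
    Bal (-(ε i j L)) (ε i j (insert k L)) (ε i k L * ε j k L) ∧
    Bal (-(ε i j L)) (ε i j (insert k L)) (ε i k L * ε j k (insert i L)) ∧
    Bal (-(ε i j L)) (ε i j (insert k L)) (ε i k (insert j L) * ε j k (insert i L))

/-- `S` has an orientation (is an orientable gaussoid) -/
def Orientable (S : SymSet) : Prop := ∃ ε, IsOrientation S ε

/-- the conditioning set of the dual symbol -/
def dualK (d : Bool) (i j : Fin 5) (K : Finset (Fin 5)) : Finset (Fin 5) :=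
  if d then (Finset.univ \ K) \ {i, j} else K

/-- the image of `S` under the relabelling `π` and, if `d` is true, duality -/
def img (π : Equiv.Perm (Fin 5)) (d : Bool) (S : SymSet) : SymSet :=
  {s | Valid s.1 s.2.1 s.2.2 ∧
    (π.symm s.1, π.symm s.2.1, dualK d (π.symm s.1) (π.symm s.2.1)
      (s.2.2.map π.symm.toEmbedding)) ∈ S}

/-- number of the symbol `(i, j, K)` with `i < j`: pairs in lexicographic order, then the subsets
`K` of the complement of `{i, j}` in the order of binary counting; `symIdx i j K < 80` -/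
def symIdx (i j : Fin 5) (K : Finset (Fin 5)) : ℕ :=
  8 * (i.val * (9 - i.val) / 2 + (j.val - i.val - 1)) +
    ∑ k ∈ K, 2 ^ (k.val - (if i < k then 1 else 0) - (if j < k then 1 else 0))

/-- the set of symbols coded by the binary digits of `c` -/
def decode (c : ℕ) : SymSet :=
  {s | Valid s.1 s.2.1 s.2.2 ∧
    c.testBit (symIdx (min s.1 s.2.1) (max s.1 s.2.1) s.2.2) = true}

end Pool.Agent.GS
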