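import Pool.Agent.GS.RefCls
import Pool.Agent.GS.RefOriT

/-!
The vanishing sets of positive definite matrices are orientable.
-/

set_option autoImplicit false

namespace Pool.Agent.GS.Ref

open Matrix

/-- number of the principal minor -/
def pidx (K : Finset (Fin 5)) : ℕ := ∑ k ∈ K, 2 ^ k.val

/-- number of the almost principal minor -/
def aidx (i j : Fin 5) (K : Finset (Fin 5)) : ℕ := 32 + symIdx (min i j) (max i j) K

theorem pidx_lt : ∀ K : Finset (Fin 5), pidx K < 32 := by decide +kernel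

theorem apm_symm {A : Matrix (Fin 5) (Fin 5) ℝ} (hA : A.PosDef) (i j : Fin 5)
    (K : Finset (Fin 5)) : apm A j i K = apm A i j K := by
  unfold apm
  rw [← Matrix.det_transpose, Matrix.transpose_submatrix]
  have : Aᵀ = A := by
    have := hA.isHermitian
    rwa [Matrix.IsHermitian, Matrix.conjTranspose_eq_transpose_of_trivial] at this
  rw [this]

theorem val_aidx {A : Matrix (Fin 5) (Fin 5) ℝ} (hA : A.PosDef) (i j : Fin 5)
    (K : Finset (Fin 5)) (hv : Valid i j K) : val A (aidx i j K) = apm A i j K := by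
  unfold aidx
  rcases lt_or_gt_of_ne hv.1 with h | h
  · rw [min_eq_left h.le, max_eq_right h.le]
    obtain ⟨h1, h2⟩ := symOf_symIdx i j K hv h
    rw [val_A A _ h1, h2]
  · rw [min_eq_right h.le, max_eq_left h.le]
    obtain ⟨h1, h2⟩ := symOf_symIdx j i K hv.symm h
    rw [val_A A _ h1, h2]
    exact (apm_symm hA j i K).symm

/-- the term `t` has sign bit `s` and factors `a`, `b` -/
def tIs (t s a b : ℕ) : Bool :=
  (Nat.beq (Nat.land t 1) s).and
    (((Nat.beq (tA t) a).and (Nat.beq (tB t) b)).or ((Nat.beq (tA t) b).and (Nat.beq (tB t) a)))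

theorem tIs_spec (v : ℕ → ℝ) {t s a b : ℕ} (hs : s = 0 ∨ s = 1) (h : tIs t s a b = true) :
    tval v t = (if s = 1 then -1 else 1) * (v a * v b) := by
  unfold tIs at h
  rw [Bool.and_eq_true, Bool.or_eq_true, Bool.and_eq_true, Bool.and_eq_true] at h
  obtain ⟨h1, h2⟩ := h
  have h1 := Nat.eq_of_beq_eq_true h1
  rw [land_one_eq] at h1
  have hsg : (if t.testBit 0 then (-1 : ℝ) else 1) = (if s = 1 then -1 else 1) := by
    rcases hs with h0 | h0 <;> subst h0 <;> cases ht : t.testBit 0 <;> simp_all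
  unfold tval
  rw [hsg]
  rcases h2 with ⟨h3, h4⟩ | ⟨h3, h4⟩
  · rw [Nat.eq_of_beq_eq_true h3, Nat.eq_of_beq_eq_true h4]; ring
  · rw [Nat.eq_of_beq_eq_true h3, Nat.eq_of_beq_eq_true h4]; ring

/-- the relation number `e` (relation and permutation) is `± (- x1 x2 + y1 y2 + z1 z2) = 0` -/
def oriOK (e x1 x2 y1 y2 z1 z2 : ℕ) : Bool :=
  ((tIs (Nat.shiftRight (getRel e) (off0 (Nat.land (Nat.shiftRight e 11) 7))) 1 x1 x2).and
    ((tIs (Nat.shiftRight (getRel e) (off1 (Nat.land (Nat.shiftRight e 11) 7))) 0 y1 y2).and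
      (tIs (Nat.shiftRight (getRel e) (off2 (Nat.land (Nat.shiftRight e 11) 7))) 0 z1 z2))).or
  ((tIs (Nat.shiftRight (getRel e) (off0 (Nat.land (Nat.shiftRight e 11) 7))) 0 x1 x2).and
    ((tIs (Nat.shiftRight (getRel e) (off1 (Nat.land (Nat.shiftRight e 11) 7))) 1 y1 y2).and
      (tIs (Nat.shiftRight (getRel e) (off2 (Nat.land (Nat.shiftRight e 11) 7))) 1 z1 z2)))

theorem oriOK_spec {v : ℕ → ℝ} (hrel : ∀ r, RelOK v (getRel r)) {e x1 x2 y1 y2 z1 z2 : ℕ}
    (h : oriOK e x1 x2 y1 y2 z1 z2 = true) :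
    -(v x1 * v x2) + v y1 * v y2 + v z1 * v z2 = 0 := by
  obtain ⟨e0, -, -, -⟩ := perm_ok (hrel e) (Nat.land (Nat.shiftRight e 11) 7) (land7_lt _)
  unfold oriOK at h
  rw [Bool.or_eq_true, Bool.and_eq_true, Bool.and_eq_true, Bool.and_eq_true,
    Bool.and_eq_true] at h
  rcases h with ⟨h1, h2, h3⟩ | ⟨h1, h2, h3⟩
  · rw [tIs_spec v (Or.inr rfl) h1, tIs_spec v (Or.inl rfl) h2, tIs_spec v (Or.inl rfl) h3] at e0
    simp at e0
    linarith
  · rw [tIs_spec v (Or.inl rfl) h1, tIs_spec v (Or.inr rfl) h2, tIs_spec v (Or.inr rfl) h3] at e0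
    simp at e0
    linarith

/-- table entry -/
def oriE (i j k : Fin 5) (L : Finset (Fin 5)) (f : ℕ) : ℕ :=
  Nat.land (Nat.shiftRight oriT (16 * (((((i.val * 5 + j.val) * 5 + k.val) * 32 + pidx L) * 3) + f)))
    65535

theorem ori1 : ∀ (i j k : Fin 5) (L : Finset (Fin 5)),
    i ≠ j ∧ i ≠ k ∧ j ≠ k ∧ i ∉ L ∧ j ∉ L ∧ k ∉ L →
    oriOK (oriE i j k L 0) (pidx (insert k L)) (aidx i j L) (pidx L) (aidx i j (insert k L))
      (aidx i k L) (aidx j k L) = true := by
  decide +kernel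

theorem ori2 : ∀ (i j k : Fin 5) (L : Finset (Fin 5)),
    i ≠ j ∧ i ≠ k ∧ j ≠ k ∧ i ∉ L ∧ j ∉ L ∧ k ∉ L →
    oriOK (oriE i j k L 1) (pidx (insert i (insert k L))) (aidx i j L) (pidx (insert i L))
      (aidx i j (insert k L)) (aidx i k L) (aidx j k (insert i L)) = true := by
  decide +kernel

theorem ori3 : ∀ (i j k : Fin 5) (L : Finset (Fin 5)),
    i ≠ j ∧ i ≠ k ∧ j ≠ k ∧ i ∉ L ∧ j ∉ L ∧ k ∉ L →
    oriOK (oriE i j k L 2) (pidx (insert i (insert j (insert k L)))) (aidx i j L)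
      (pidx (insert i (insert j L))) (aidx i j (insert k L)) (aidx i k (insert j L))
      (aidx j k (insert i L)) = true := by
  decide +kernel

theorem bal_of {p x q y z w : ℝ} (hp : 0 < p) (hq : 0 < q)
    (h : -(p * x) + q * y + z * w = 0) :
    Bal (-(SignType.sign x)) (SignType.sign y) (SignType.sign z * SignType.sign w) := by
  have h1 := sum_compat h
  rw [Left.sign_neg, sign_mul, sign_mul, sign_mul, sign_pos hp, sign_pos hq, one_mul, one_mul]
    at h1
  exact h1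

end Pool.Agent.GS.Ref

namespace Pool.Agent.GS

open Ref

/-- the vanishing set of a positive definite matrix is orientable -/
theorem orientable_vanSet {A : Matrix (Fin 5) (Fin 5) ℝ} (hA : A.PosDef) :
    Orientable (VanSet A) := by
  refine ⟨fun i j K => SignType.sign (apm A i j K), ?_, ?_, ?_⟩
  · intro i j K
    simp only [apm_symm hA i j K]
  · intro i j K hv
    simp only [sign_eq_zero_iff]
    exact ⟨fun h => ⟨hv, h⟩, fun h => h.2⟩
  · intro i j k L h1 h2 h3 h4 h5 h6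
    have hc : i ≠ j ∧ i ≠ k ∧ j ≠ k ∧ i ∉ L ∧ j ∉ L ∧ k ∉ L := ⟨h1, h2, h3, h4, h5, h6⟩
    have v1 : Valid i j L := ⟨h1, h4, h5⟩
    have v2 : Valid i j (insert k L) :=
      ⟨h1, by simp [Finset.mem_insert, h2, h4], by simp [Finset.mem_insert, h3, h5]⟩
    have v3 : Valid i k L := ⟨h2, h4, h6⟩
    have v4 : Valid j k L := ⟨h3, h5, h6⟩
    have v5 : Valid j k (insert i L) :=
      ⟨h3, by simp [Finset.mem_insert, h1.symm, h5], by simp [Finset.mem_insert, h2.symm, h6]⟩
    have v6 : Valid i k (insert j L) :=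
      ⟨h2, by simp [Finset.mem_insert, h1, h4], by simp [Finset.mem_insert, h3.symm, h6]⟩
    have hP : ∀ K : Finset (Fin 5), 0 < val A (pidx K) := fun K => val_pos hA _ (pidx_lt K)
    refine ⟨?_, ?_, ?_⟩
    · have e := oriOK_spec (val_rel hA) (ori1 i j k L hc)
      rw [val_aidx hA _ _ _ v1, val_aidx hA _ _ _ v2, val_aidx hA _ _ _ v3,
        val_aidx hA _ _ _ v4] at e
      exact bal_of (hP _) (hP _) e
    · have e := oriOK_spec (val_rel hA) (ori2 i j k L hc)
      rw [val_aidx hA _ _ _ v1, val_aidx hA _ _ _ v2, val_aidx hA _ _ _ v3,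
        val_aidx hA _ _ _ v5] at e
      exact bal_of (hP _) (hP _) e
    · have e := oriOK_spec (val_rel hA) (ori3 i j k L hc)
      rw [val_aidx hA _ _ _ v1, val_aidx hA _ _ _ v2, val_aidx hA _ _ _ v6,
        val_aidx hA _ _ _ v5] at e
      exact bal_of (hP _) (hP _) e

end Pool.Agent.GS
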