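import Pool.Agent.GS.RefR0
import Pool.Agent.GS.RefR1
import Pool.Agent.GS.RefR2
import Pool.Agent.GS.RefR3
import Pool.Agent.GS.RefR4
import Pool.Agent.GS.RefR5

/-!
All inference rules are valid.
-/

namespace Pool.Agent.GS

theorem rule_ok0 (k : ℕ) (hk : k < 1) (S : SymSet) (hS : Representable S) :
    ¬ ViolatesRule S 4 1 ruleT0 k := by
  rcases Nat.lt_or_ge k 1 with h | h0
  · exact Ref.ruleL_spec 4 1 _ _ 0 Ref.rc0_0 k (Nat.zero_le k) h S hS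
  omega

theorem rule_ok1 (k : ℕ) (hk : k < 9) (S : SymSet) (hS : Representable S) :
    ¬ ViolatesRule S 5 1 ruleT1 k := by
  rcases Nat.lt_or_ge k 9 with h | h0
  · exact Ref.ruleL_spec 5 1 _ _ 0 Ref.rc1_0 k (Nat.zero_le k) h S hS
  omega

theorem rule_ok2 (k : ℕ) (hk : k < 9) (S : SymSet) (hS : Representable S) :
    ¬ ViolatesRule S 5 2 ruleT2 k := by
  rcases Nat.lt_or_ge k 9 with h | h0
  · exact Ref.ruleL_spec 5 2 _ _ 0 Ref.rc2_0 k (Nat.zero_le k) h S hS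
  omega

theorem rule_ok3 (k : ℕ) (hk : k < 134) (S : SymSet) (hS : Representable S) :
    ¬ ViolatesRule S 6 1 ruleT3 k := by
  rcases Nat.lt_or_ge k 20 with h | h0
  · exact Ref.ruleL_spec 6 1 _ _ 0 Ref.rc3_0 k (Nat.zero_le k) h S hS
  rcases Nat.lt_or_ge k 38 with h | h20
  · exact Ref.ruleL_spec 6 1 _ _ 20 Ref.rc3_20 k h0 h S hS
  rcases Nat.lt_or_ge k 65 with h | h38
  · exact Ref.ruleL_spec 6 1 _ _ 38 Ref.rc3_38 k h20 h S hS
  rcases Nat.lt_or_ge k 87 with h | h65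
  · exact Ref.ruleL_spec 6 1 _ _ 65 Ref.rc3_65 k h38 h S hS
  rcases Nat.lt_or_ge k 106 with h | h87
  · exact Ref.ruleL_spec 6 1 _ _ 87 Ref.rc3_87 k h65 h S hS
  rcases Nat.lt_or_ge k 131 with h | h106
  · exact Ref.ruleL_spec 6 1 _ _ 106 Ref.rc3_106 k h87 h S hS
  rcases Nat.lt_or_ge k 134 with h | h131
  · exact Ref.ruleL_spec 6 1 _ _ 131 Ref.rc3_131 k h106 h S hS
  omega

theorem rule_ok4 (k : ℕ) (hk : k < 55) (S : SymSet) (hS : Representable S) :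
    ¬ ViolatesRule S 6 2 ruleT4 k := by
  rcases Nat.lt_or_ge k 22 with h | h0
  · exact Ref.ruleL_spec 6 2 _ _ 0 Ref.rc4_0 k (Nat.zero_le k) h S hS
  rcases Nat.lt_or_ge k 42 with h | h22
  · exact Ref.ruleL_spec 6 2 _ _ 22 Ref.rc4_22 k h0 h S hS
  rcases Nat.lt_or_ge k 55 with h | h42
  · exact Ref.ruleL_spec 6 2 _ _ 42 Ref.rc4_42 k h22 h S hS
  omega

theorem rule_ok5 (k : ℕ) (hk : k < 4) (S : SymSet) (hS : Representable S) :
    ¬ ViolatesRule S 6 3 ruleT5 k := by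
  rcases Nat.lt_or_ge k 4 with h | h0
  · exact Ref.ruleL_spec 6 3 _ _ 0 Ref.rc5_0 k (Nat.zero_le k) h S hS
  omega

theorem rule_ok6 (k : ℕ) (hk : k < 485) (S : SymSet) (hS : Representable S) :
    ¬ ViolatesRule S 7 1 ruleT6 k := by
  rcases Nat.lt_or_ge k 22 with h | h0
  · exact Ref.ruleL_spec 7 1 _ _ 0 Ref.rc6_0 k (Nat.zero_le k) h S hS
  rcases Nat.lt_or_ge k 42 with h | h22
  · exact Ref.ruleL_spec 7 1 _ _ 22 Ref.rc6_22 k h0 h S hS
  rcases Nat.lt_or_ge k 62 with h | h42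
  · exact Ref.ruleL_spec 7 1 _ _ 42 Ref.rc6_42 k h22 h S hS
  rcases Nat.lt_or_ge k 82 with h | h62
  · exact Ref.ruleL_spec 7 1 _ _ 62 Ref.rc6_62 k h42 h S hS
  rcases Nat.lt_or_ge k 103 with h | h82
  · exact Ref.ruleL_spec 7 1 _ _ 82 Ref.rc6_82 k h62 h S hS
  rcases Nat.lt_or_ge k 129 with h | h103
  · exact Ref.ruleL_spec 7 1 _ _ 103 Ref.rc6_103 k h82 h S hS
  rcases Nat.lt_or_ge k 158 with h | h129
  · exact Ref.ruleL_spec 7 1 _ _ 129 Ref.rc6_129 k h103 h S hS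
  rcases Nat.lt_or_ge k 186 with h | h158
  · exact Ref.ruleL_spec 7 1 _ _ 158 Ref.rc6_158 k h129 h S hS
  rcases Nat.lt_or_ge k 208 with h | h186
  · exact Ref.ruleL_spec 7 1 _ _ 186 Ref.rc6_186 k h158 h S hS
  rcases Nat.lt_or_ge k 236 with h | h208
  · exact Ref.ruleL_spec 7 1 _ _ 208 Ref.rc6_208 k h186 h S hS
  rcases Nat.lt_or_ge k 258 with h | h236
  · exact Ref.ruleL_spec 7 1 _ _ 236 Ref.rc6_236 k h208 h S hS
  rcases Nat.lt_or_ge k 291 with h | h258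
  · exact Ref.ruleL_spec 7 1 _ _ 258 Ref.rc6_258 k h236 h S hS
  rcases Nat.lt_or_ge k 318 with h | h291
  · exact Ref.ruleL_spec 7 1 _ _ 291 Ref.rc6_291 k h258 h S hS
  rcases Nat.lt_or_ge k 345 with h | h318
  · exact Ref.ruleL_spec 7 1 _ _ 318 Ref.rc6_318 k h291 h S hS
  rcases Nat.lt_or_ge k 377 with h | h345
  · exact Ref.ruleL_spec 7 1 _ _ 345 Ref.rc6_345 k h318 h S hS
  rcases Nat.lt_or_ge k 404 with h | h377
  · exact Ref.ruleL_spec 7 1 _ _ 377 Ref.rc6_377 k h345 h S hS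
  rcases Nat.lt_or_ge k 424 with h | h404
  · exact Ref.ruleL_spec 7 1 _ _ 404 Ref.rc6_404 k h377 h S hS
  rcases Nat.lt_or_ge k 454 with h | h424
  · exact Ref.ruleL_spec 7 1 _ _ 424 Ref.rc6_424 k h404 h S hS
  rcases Nat.lt_or_ge k 476 with h | h454
  · exact Ref.ruleL_spec 7 1 _ _ 454 Ref.rc6_454 k h424 h S hS
  rcases Nat.lt_or_ge k 485 with h | h476
  · exact Ref.ruleL_spec 7 1 _ _ 476 Ref.rc6_476 k h454 h S hS
  omega

theorem rule_ok7 (k : ℕ) (hk : k < 485) (S : SymSet) (hS : Representable S) :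
    ¬ ViolatesRule S 7 1 ruleT7 k := by
  rcases Nat.lt_or_ge k 30 with h | h0
  · exact Ref.ruleL_spec 7 1 _ _ 0 Ref.rc7_0 k (Nat.zero_le k) h S hS
  rcases Nat.lt_or_ge k 61 with h | h30
  · exact Ref.ruleL_spec 7 1 _ _ 30 Ref.rc7_30 k h0 h S hS
  rcases Nat.lt_or_ge k 86 with h | h61
  · exact Ref.ruleL_spec 7 1 _ _ 61 Ref.rc7_61 k h30 h S hS
  rcases Nat.lt_or_ge k 117 with h | h86
  · exact Ref.ruleL_spec 7 1 _ _ 86 Ref.rc7_86 k h61 h S hS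
  rcases Nat.lt_or_ge k 149 with h | h117
  · exact Ref.ruleL_spec 7 1 _ _ 117 Ref.rc7_117 k h86 h S hS
  rcases Nat.lt_or_ge k 174 with h | h149
  · exact Ref.ruleL_spec 7 1 _ _ 149 Ref.rc7_149 k h117 h S hS
  rcases Nat.lt_or_ge k 196 with h | h174
  · exact Ref.ruleL_spec 7 1 _ _ 174 Ref.rc7_174 k h149 h S hS
  rcases Nat.lt_or_ge k 214 with h | h196
  · exact Ref.ruleL_spec 7 1 _ _ 196 Ref.rc7_196 k h174 h S hS
  rcases Nat.lt_or_ge k 242 with h | h214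
  · exact Ref.ruleL_spec 7 1 _ _ 214 Ref.rc7_214 k h196 h S hS
  rcases Nat.lt_or_ge k 277 with h | h242
  · exact Ref.ruleL_spec 7 1 _ _ 242 Ref.rc7_242 k h214 h S hS
  rcases Nat.lt_or_ge k 307 with h | h277
  · exact Ref.ruleL_spec 7 1 _ _ 277 Ref.rc7_277 k h242 h S hS
  rcases Nat.lt_or_ge k 339 with h | h307
  · exact Ref.ruleL_spec 7 1 _ _ 307 Ref.rc7_307 k h277 h S hS
  rcases Nat.lt_or_ge k 372 with h | h339
  · exact Ref.ruleL_spec 7 1 _ _ 339 Ref.rc7_339 k h307 h S hS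
  rcases Nat.lt_or_ge k 402 with h | h372
  · exact Ref.ruleL_spec 7 1 _ _ 372 Ref.rc7_372 k h339 h S hS
  rcases Nat.lt_or_ge k 441 with h | h402
  · exact Ref.ruleL_spec 7 1 _ _ 402 Ref.rc7_402 k h372 h S hS
  rcases Nat.lt_or_ge k 467 with h | h441
  · exact Ref.ruleL_spec 7 1 _ _ 441 Ref.rc7_441 k h402 h S hS
  rcases Nat.lt_or_ge k 485 with h | h467
  · exact Ref.ruleL_spec 7 1 _ _ 467 Ref.rc7_467 k h441 h S hS
  omega

theorem rule_ok8 (k : ℕ) (hk : k < 485) (S : SymSet) (hS : Representable S) :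
    ¬ ViolatesRule S 7 1 ruleT8 k := by
  rcases Nat.lt_or_ge k 27 with h | h0
  · exact Ref.ruleL_spec 7 1 _ _ 0 Ref.rc8_0 k (Nat.zero_le k) h S hS
  rcases Nat.lt_or_ge k 58 with h | h27
  · exact Ref.ruleL_spec 7 1 _ _ 27 Ref.rc8_27 k h0 h S hS
  rcases Nat.lt_or_ge k 93 with h | h58
  · exact Ref.ruleL_spec 7 1 _ _ 58 Ref.rc8_58 k h27 h S hS
  rcases Nat.lt_or_ge k 120 with h | h93
  · exact Ref.ruleL_spec 7 1 _ _ 93 Ref.rc8_93 k h58 h S hS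
  rcases Nat.lt_or_ge k 148 with h | h120
  · exact Ref.ruleL_spec 7 1 _ _ 120 Ref.rc8_120 k h93 h S hS
  rcases Nat.lt_or_ge k 184 with h | h148
  · exact Ref.ruleL_spec 7 1 _ _ 148 Ref.rc8_148 k h120 h S hS
  rcases Nat.lt_or_ge k 218 with h | h184
  · exact Ref.ruleL_spec 7 1 _ _ 184 Ref.rc8_184 k h148 h S hS
  rcases Nat.lt_or_ge k 250 with h | h218
  · exact Ref.ruleL_spec 7 1 _ _ 218 Ref.rc8_218 k h184 h S hS
  rcases Nat.lt_or_ge k 280 with h | h250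
  · exact Ref.ruleL_spec 7 1 _ _ 250 Ref.rc8_250 k h218 h S hS
  rcases Nat.lt_or_ge k 316 with h | h280
  · exact Ref.ruleL_spec 7 1 _ _ 280 Ref.rc8_280 k h250 h S hS
  rcases Nat.lt_or_ge k 346 with h | h316
  · exact Ref.ruleL_spec 7 1 _ _ 316 Ref.rc8_316 k h280 h S hS
  rcases Nat.lt_or_ge k 372 with h | h346
  · exact Ref.ruleL_spec 7 1 _ _ 346 Ref.rc8_346 k h316 h S hS
  rcases Nat.lt_or_ge k 407 with h | h372
  · exact Ref.ruleL_spec 7 1 _ _ 372 Ref.rc8_372 k h346 h S hS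
  rcases Nat.lt_or_ge k 432 with h | h407
  · exact Ref.ruleL_spec 7 1 _ _ 407 Ref.rc8_407 k h372 h S hS
  rcases Nat.lt_or_ge k 465 with h | h432
  · exact Ref.ruleL_spec 7 1 _ _ 432 Ref.rc8_432 k h407 h S hS
  rcases Nat.lt_or_ge k 485 with h | h465
  · exact Ref.ruleL_spec 7 1 _ _ 465 Ref.rc8_465 k h432 h S hS
  omega

theorem rule_ok9 (k : ℕ) (hk : k < 484) (S : SymSet) (hS : Representable S) :
    ¬ ViolatesRule S 7 1 ruleT9 k := by
  rcases Nat.lt_or_ge k 38 with h | h0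
  · exact Ref.ruleL_spec 7 1 _ _ 0 Ref.rc9_0 k (Nat.zero_le k) h S hS
  rcases Nat.lt_or_ge k 67 with h | h38
  · exact Ref.ruleL_spec 7 1 _ _ 38 Ref.rc9_38 k h0 h S hS
  rcases Nat.lt_or_ge k 91 with h | h67
  · exact Ref.ruleL_spec 7 1 _ _ 67 Ref.rc9_67 k h38 h S hS
  rcases Nat.lt_or_ge k 116 with h | h91
  · exact Ref.ruleL_spec 7 1 _ _ 91 Ref.rc9_91 k h67 h S hS
  rcases Nat.lt_or_ge k 148 with h | h116
  · exact Ref.ruleL_spec 7 1 _ _ 116 Ref.rc9_116 k h91 h S hS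
  rcases Nat.lt_or_ge k 175 with h | h148
  · exact Ref.ruleL_spec 7 1 _ _ 148 Ref.rc9_148 k h116 h S hS
  rcases Nat.lt_or_ge k 198 with h | h175
  · exact Ref.ruleL_spec 7 1 _ _ 175 Ref.rc9_175 k h148 h S hS
  rcases Nat.lt_or_ge k 223 with h | h198
  · exact Ref.ruleL_spec 7 1 _ _ 198 Ref.rc9_198 k h175 h S hS
  rcases Nat.lt_or_ge k 260 with h | h223
  · exact Ref.ruleL_spec 7 1 _ _ 223 Ref.rc9_223 k h198 h S hS
  rcases Nat.lt_or_ge k 294 with h | h260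
  · exact Ref.ruleL_spec 7 1 _ _ 260 Ref.rc9_260 k h223 h S hS
  rcases Nat.lt_or_ge k 330 with h | h294
  · exact Ref.ruleL_spec 7 1 _ _ 294 Ref.rc9_294 k h260 h S hS
  rcases Nat.lt_or_ge k 359 with h | h330
  · exact Ref.ruleL_spec 7 1 _ _ 330 Ref.rc9_330 k h294 h S hS
  rcases Nat.lt_or_ge k 391 with h | h359
  · exact Ref.ruleL_spec 7 1 _ _ 359 Ref.rc9_359 k h330 h S hS
  rcases Nat.lt_or_ge k 428 with h | h391
  · exact Ref.ruleL_spec 7 1 _ _ 391 Ref.rc9_391 k h359 h S hS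
  rcases Nat.lt_or_ge k 466 with h | h428
  · exact Ref.ruleL_spec 7 1 _ _ 428 Ref.rc9_428 k h391 h S hS
  rcases Nat.lt_or_ge k 484 with h | h466
  · exact Ref.ruleL_spec 7 1 _ _ 466 Ref.rc9_466 k h428 h S hS
  omega

theorem rule_ok10 (k : ℕ) (hk : k < 65) (S : SymSet) (hS : Representable S) :
    ¬ ViolatesRule S 7 2 ruleT10 k := by
  rcases Nat.lt_or_ge k 19 with h | h0
  · exact Ref.ruleL_spec 7 2 _ _ 0 Ref.rc10_0 k (Nat.zero_le k) h S hS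
  rcases Nat.lt_or_ge k 39 with h | h19
  · exact Ref.ruleL_spec 7 2 _ _ 19 Ref.rc10_19 k h0 h S hS
  rcases Nat.lt_or_ge k 57 with h | h39
  · exact Ref.ruleL_spec 7 2 _ _ 39 Ref.rc10_39 k h19 h S hS
  rcases Nat.lt_or_ge k 63 with h | h57
  · exact Ref.ruleL_spec 7 2 _ _ 57 Ref.rc10_57 k h39 h S hS
  rcases Nat.lt_or_ge k 65 with h | h63
  · exact Ref.ruleL_spec 7 2 _ _ 63 Ref.rc10_63 k h57 h S hS
  omega

theorem rule_ok11 (k : ℕ) (hk : k < 8) (S : SymSet) (hS : Representable S) :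
    ¬ ViolatesRule S 8 1 ruleT11 k := by
  rcases Nat.lt_or_ge k 8 with h | h0
  · exact Ref.ruleL_spec 8 1 _ _ 0 Ref.rc11_0 k (Nat.zero_le k) h S hS
  omega

theorem rule_ok12 (k : ℕ) (hk : k < 1) (S : SymSet) (hS : Representable S) :
    ¬ ViolatesRule S 8 2 ruleT12 k := by
  rcases Nat.lt_or_ge k 1 with h | h0
  · exact Ref.ruleL_spec 8 2 _ _ 0 Ref.rc12_0 k (Nat.zero_le k) h S hS
  omega

theorem rule_ok13 (k : ℕ) (hk : k < 6) (S : SymSet) (hS : Representable S) :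
    ¬ ViolatesRule S 9 1 ruleT13 k := by
  rcases Nat.lt_or_ge k 6 with h | h0
  · exact Ref.ruleL_spec 9 1 _ _ 0 Ref.rc13_0 k (Nat.zero_le k) h S hS
  omega

theorem rule_ok14 (k : ℕ) (hk : k < 8) (S : SymSet) (hS : Representable S) :
    ¬ ViolatesRule S 9 2 ruleT14 k := by
  rcases Nat.lt_or_ge k 8 with h | h0
  · exact Ref.ruleL_spec 9 2 _ _ 0 Ref.rc14_0 k (Nat.zero_le k) h S hS
  omega

theorem rule_ok15 (k : ℕ) (hk : k < 1) (S : SymSet) (hS : Representable S) :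
    ¬ ViolatesRule S 10 1 ruleT15 k := by
  rcases Nat.lt_or_ge k 1 with h | h0
  · exact Ref.ruleL_spec 10 1 _ _ 0 Ref.rc15_0 k (Nat.zero_le k) h S hS
  omega

/-- the inference rules are valid for the vanishing sets of positive definite matrices -/
theorem rules_valid (S : SymSet) (hS : Representable S) : ¬ Violates S := by
  rintro ⟨t, ht, k, hk, hV⟩
  simp only [ruleTab, List.mem_cons, List.not_mem_nil, or_false] at ht
  rcases ht with rfl | rfl | rfl | rfl | rfl | rfl | rfl | rfl | rfl | rfl | rfl | rfl | rfl | rfl | rfl | rfl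
  · exact rule_ok0 k hk S hS hV
  · exact rule_ok1 k hk S hS hV
  · exact rule_ok2 k hk S hS hV
  · exact rule_ok3 k hk S hS hV
  · exact rule_ok4 k hk S hS hV
  · exact rule_ok5 k hk S hS hV
  · exact rule_ok6 k hk S hS hV
  · exact rule_ok7 k hk S hS hV
  · exact rule_ok8 k hk S hS hV
  · exact rule_ok9 k hk S hS hV
  · exact rule_ok10 k hk S hS hV
  · exact rule_ok11 k hk S hS hV
  · exact rule_ok12 k hk S hS hV
  · exact rule_ok13 k hk S hS hV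
  · exact rule_ok14 k hk S hS hV
  · exact rule_ok15 k hk S hS hV

end Pool.Agent.GS
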