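import Pool.Agent.GS.TreeSem
import Pool.Agent.GS.RefOri
import Pool.Agent.GS.RefRAll

/-!
# From the search tree to the classification

A representable set is an orientable symmetric set without violation of an inference rule in any
relabelled or dual copy.  Conversely every such set has a copy with maximal code, which is
representable by the search tree, and hence is representable itself.
-/

set_option autoImplicit false

namespace Pool.Agent.GS

/-- every set of the family has a copy with maximal code -/
theorem exists_maxS (S : SymSet) : ∃ (π : Equiv.Perm (Fin 5)) (d : Bool), MaxS (img π d S) := by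
  obtain ⟨x, hx⟩ := Finite.exists_max
    (fun x : Equiv.Perm (Fin 5) × Bool => codeOf (img x.1 x.2 S))
  refine ⟨x.1, x.2, fun π d => ?_⟩
  rw [img_img]
  exact hx (π * x.1, xor d x.2)

/-- the copy can be undone -/
theorem img_inv {S : SymSet} (hS : IsSymSet S) (π : Equiv.Perm (Fin 5)) (d : Bool) :
    img π⁻¹ d (img π d S) = S := by
  rw [img_img, inv_mul_cancel, Bool.xor_self, img_one hS]

/-- representable sets belong to the family -/
theorem fam_of_representable {S : SymSet} (h : Representable S) : Fam S := by
  refine ⟨?_, ?_, fun π d => rules_valid _ (representable_img π d h)⟩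
  · obtain ⟨A, hA, rfl⟩ := h
    exact isSymSet_vanSet hA
  · obtain ⟨A, hA, rfl⟩ := h
    exact orientable_vanSet hA

theorem final_of_root (hroot : ∀ S, Fam S → MaxS S → Representable S) :
    ∀ S : SymSet, Representable S ↔ (IsSymSet S ∧ Orientable S ∧
      ∀ (π : Equiv.Perm (Fin 5)) (d : Bool), ¬ Violates (img π d S)) := by
  intro S
  refine ⟨fun h => fam_of_representable h, fun h => ?_⟩
  obtain ⟨π, d, hm⟩ := exists_maxS S
  have h1 : Representable (img π d S) := hroot _ (Fam.img h π d) hm
  have h2 := representable_img π⁻¹ d h1
  rwa [img_inv h.1] at h2

end Pool.Agent.GS
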