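import Pool.Agent.GS.RefAct

/-!
The group elements of the action tables as relabellings and duality.
-/

set_option autoImplicit false

namespace Pool.Agent.GS.Ref

/-- the permutation of a group element -/
noncomputable def pg (g : ℕ) (hg : g < 240) : Equiv.Perm (Fin 5) :=
  (Equiv.ofBijective (fg g) (Finite.injective_iff_bijective.1
    (fun i j h => fg_inj ⟨g, hg⟩ i j h))).symm

theorem pg_symm (g : ℕ) (hg : g < 240) (i : Fin 5) : (pg g hg).symm i = fg g i := rfl

theorem dualK_comm (d : Bool) (i j : Fin 5) (K : Finset (Fin 5)) :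
    dualK d i j K = dualK d j i K := by
  unfold dualK
  rw [Finset.pair_comm]

theorem isSymSet_img0 {S : SymSet} (hS : IsSymSet S) (π : Equiv.Perm (Fin 5)) (d : Bool) :
    IsSymSet (img π d S) := by
  constructor
  · intro i j K h; exact h.1
  · intro i j K h
    refine ⟨Valid.symm h.1, ?_⟩
    have h2 := h.2
    simp only at h2 ⊢
    rw [dualK_comm]
    exact hS.2 _ _ _ h2

theorem mem_img_act {S : SymSet} (hS : IsSymSet S) (g : ℕ) (hg : g < 240) (s : ℕ) (hs : s < 80) :
    symOf s ∈ img (pg g hg) (dg g) S ↔ symOf (actS (actR g) s) ∈ S := by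
  have hK : (symOf s).2.2.map (pg g hg).symm.toEmbedding = (symOf s).2.2.image (fg g) := by
    rw [Finset.map_eq_image]; rfl
  have h0 : symOf s ∈ img (pg g hg) (dg g) S ↔
      (fg g (symOf s).1, fg g (symOf s).2.1, dualK (dg g) (fg g (symOf s).1)
        (fg g (symOf s).2.1) ((symOf s).2.2.image (fg g))) ∈ S := by
    constructor
    · intro h
      have h2 := h.2
      rw [hK] at h2
      exact h2
    · intro h
      refine ⟨(symOf_spec s hs).1, ?_⟩
      rw [hK]
      exact h
  rw [h0]
  rcases act_ok g s hg hs with h1 | h1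
  · rw [h1]
  · rw [h1]
    exact hS.swap _ _ _

end Pool.Agent.GS.Ref
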