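import Pool.Agent.GS.TreeSem
import Pool.Agent.GS.RefPerm

/-!
The tables `gTab h` describe relabellings and duality.
-/

set_option autoImplicit false

namespace Pool.Agent.GS.Ref

/-- the number of the group element of the table `gTab h` (8 digits each) -/
def gmT : ℕ := 0xefeeedecebeae9e8e7e6e5e4e3e2e1e0dfdedddcdbdad9d8d7d6d5d4d3d2d1d0cfcecdcccbcac9c8c7c6c5c4c3c2c1c0bfbebdbcbbbab9b8b7b6b5b4b3b2b1b0afaeadacabaaa9a8a7a6a5a4a3a2a1a09f9e9d9c9b9a999897969594939291908f8e8d8c8b8a898887868584838281807f7e7d7c7b7a797877767574737271706f6e6d6c6b6a696867666564636261605f5e5d5c5b5a595857565554535251504f4e4d4c4b4a494847464544434241403f3e3d3c3b3a393837363534333231302f2e2d2c2b2a292827262524232221201f1e1d1c1b1a191817161514131211100f0e0d0c0b0a09080706050403020100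

/-- `ordTab`, 7 digits each -/
def ordN : ℕ := 0x78b1214181130e0d11a22382812e2c143b63c0e63254689017c5468f8c745973f38d939509d192225ead4a9e2b546bdbcd66adfc79f2e1bb9305cb1528644070c14203040400

@[reducible] def gm (h : ℕ) : ℕ := Nat.land (Nat.shiftRight gmT (Nat.mul 8 h)) 255
@[reducible] def ordP (p : ℕ) : ℕ := Nat.land (Nat.shiftRight ordN (Nat.mul 7 p)) 127
/-- digit (7 bits) number `p` of `T` -/
@[reducible] def lane7 (T p : ℕ) : ℕ := Nat.land (Nat.shiftRight T (Nat.mul 7 p)) 127

theorem ordP_fin : ∀ p : Fin 80, ordP p.val = ordTab p.val ∧ ordP p.val < 80 := by decide +kernel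

theorem ordP_eq (p : ℕ) (hp : p < 80) : ordTab p = ordP p := (ordP_fin ⟨p, hp⟩).1.symm
theorem ordP_lt (p : ℕ) (hp : p < 80) : ordP p < 80 := (ordP_fin ⟨p, hp⟩).2

theorem gm_fin : ∀ h : Fin 256, gm h.val < 240 := by decide +kernel

theorem force_eq' {α : Type} (n : ℕ) (k : ℕ → α) : force n k = k n := by
  cases n <;> rfl

/-- the first `n` lanes of the table `T` agree with the action table `A` -/
noncomputable def gchk (T A n : ℕ) : Bool :=
  Nat.rec (motive := fun _ => Bool) true
    (fun p ih => Bool.and (Bool.and (Nat.blt (lane7 T p) 80)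
      (Nat.beq (ordP (Nat.sub 79 (lane7 T p))) (actS A (ordP p)))) ih) n

theorem gchk_spec (T A n : ℕ) : gchk T A n = true → ∀ p < n, lane7 T p < 80 ∧
    ordP (79 - lane7 T p) = actS A (ordP p) := by
  induction n with
  | zero => intro _ p hp; omega
  | succ n ih =>
    intro h p hp
    have e : gchk T A (n + 1) = Bool.and (Bool.and (Nat.blt (lane7 T n) 80)
      (Nat.beq (ordP (Nat.sub 79 (lane7 T n))) (actS A (ordP n)))) (gchk T A n) := rfl
    rw [e, Bool.and_eq_true, Bool.and_eq_true] at h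
    obtain ⟨⟨h1, h2⟩, h3⟩ := h
    by_cases hq : p = n
    · rw [hq]
      rw [Nat.blt_eq] at h1
      exact ⟨h1, Nat.eq_of_beq_eq_true h2⟩
    · exact ih h3 p (by omega)

/-- the tables number `a, ..., a + n - 1` -/
noncomputable def gchkL (a n : ℕ) : Bool :=
  Nat.rec (motive := fun _ => Bool) true
    (fun h ih => Bool.and (force (gTab (Nat.add a h)) fun T => force (actR (gm (Nat.add a h))) fun A =>
      gchk T A 80) ih) n

theorem gchkL_spec (a n : ℕ) : gchkL a n = true → ∀ h, a ≤ h → h < a + n →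
    gchk (gTab h) (actR (gm h)) 80 = true := by
  induction n with
  | zero => intro _ h h1 h2; omega
  | succ n ih =>
    intro hh h h1 h2
    have e : gchkL a (n + 1) = Bool.and (force (gTab (Nat.add a n)) fun T =>
      force (actR (gm (Nat.add a n))) fun A => gchk T A 80) (gchkL a n) := rfl
    rw [e, force_eq', force_eq', Bool.and_eq_true] at hh
    by_cases hq : h = a + n
    · rw [hq]; exact hh.1
    · exact ih hh.2 h h1 (by omega)

theorem gchk0 : gchkL 0 16 = true := by decide +kernel
theorem gchk1 : gchkL 16 16 = true := by decide +kernel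
theorem gchk2 : gchkL 32 16 = true := by decide +kernel
theorem gchk3 : gchkL 48 16 = true := by decide +kernel
theorem gchk4 : gchkL 64 16 = true := by decide +kernel
theorem gchk5 : gchkL 80 16 = true := by decide +kernel
theorem gchk6 : gchkL 96 16 = true := by decide +kernel
theorem gchk7 : gchkL 112 16 = true := by decide +kernel
theorem gchk8 : gchkL 128 16 = true := by decide +kernel
theorem gchk9 : gchkL 144 16 = true := by decide +kernel
theorem gchk10 : gchkL 160 16 = true := by decide +kernel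
theorem gchk11 : gchkL 176 16 = true := by decide +kernel
theorem gchk12 : gchkL 192 16 = true := by decide +kernel
theorem gchk13 : gchkL 208 16 = true := by decide +kernel
theorem gchk14 : gchkL 224 16 = true := by decide +kernel
theorem gchk15 : gchkL 240 16 = true := by decide +kernel

theorem gchk_all (h : ℕ) (hh : h < 256) : gchk (gTab h) (actR (gm h)) 80 = true := by
  rcases Nat.lt_or_ge h 16 with hk | h16
  · exact gchkL_spec 0 16 gchk0 h (Nat.zero_le h) hk
  rcases Nat.lt_or_ge h 32 with hk | h32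
  · exact gchkL_spec 16 16 gchk1 h h16 hk
  rcases Nat.lt_or_ge h 48 with hk | h48
  · exact gchkL_spec 32 16 gchk2 h h32 hk
  rcases Nat.lt_or_ge h 64 with hk | h64
  · exact gchkL_spec 48 16 gchk3 h h48 hk
  rcases Nat.lt_or_ge h 80 with hk | h80
  · exact gchkL_spec 64 16 gchk4 h h64 hk
  rcases Nat.lt_or_ge h 96 with hk | h96
  · exact gchkL_spec 80 16 gchk5 h h80 hk
  rcases Nat.lt_or_ge h 112 with hk | h112
  · exact gchkL_spec 96 16 gchk6 h h96 hk
  rcases Nat.lt_or_ge h 128 with hk | h128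
  · exact gchkL_spec 112 16 gchk7 h h112 hk
  rcases Nat.lt_or_ge h 144 with hk | h144
  · exact gchkL_spec 128 16 gchk8 h h128 hk
  rcases Nat.lt_or_ge h 160 with hk | h160
  · exact gchkL_spec 144 16 gchk9 h h144 hk
  rcases Nat.lt_or_ge h 176 with hk | h176
  · exact gchkL_spec 160 16 gchk10 h h160 hk
  rcases Nat.lt_or_ge h 192 with hk | h192
  · exact gchkL_spec 176 16 gchk11 h h176 hk
  rcases Nat.lt_or_ge h 208 with hk | h208
  · exact gchkL_spec 192 16 gchk12 h h192 hk
  rcases Nat.lt_or_ge h 224 with hk | h224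
  · exact gchkL_spec 208 16 gchk13 h h208 hk
  rcases Nat.lt_or_ge h 240 with hk | h240
  · exact gchkL_spec 224 16 gchk14 h h224 hk
  exact gchkL_spec 240 16 gchk15 h h240 hh

end Pool.Agent.GS.Ref

namespace Pool.Agent.GS

/-- the tables `gTab h` describe relabellings and duality -/
theorem gTab_spec : ∀ h < 256, TabOK (gTab h) := by
  intro h hh
  have hg : Ref.gm h < 240 := Ref.gm_fin ⟨h, hh⟩
  refine ⟨Ref.pg (Ref.gm h) hg, Ref.dg (Ref.gm h), ?_⟩
  intro S hS p hp
  obtain ⟨h1, h2⟩ := Ref.gchk_spec _ _ _ (Ref.gchk_all h hh) p hp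
  have h3 : (gTab h >>> (7 * p)) &&& 127 = Ref.lane7 (gTab h) p := rfl
  rw [h3]
  refine ⟨h1, ?_⟩
  rw [Ref.ordP_eq p hp, Ref.mem_img_act hS _ hg _ (Ref.ordP_lt p hp), ← h2]
  unfold laneSym
  rw [Ref.ordP_eq _ (by omega)]

end Pool.Agent.GS
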