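import Pool.Agent.GS.TreeSem
import Pool.Agent.GS.TreeBase

/-!
Search tree: soundness of the pattern and local checks.
-/

set_option autoImplicit false

namespace Pool.Agent.GS

theorem land_127_eq (x : ℕ) : x &&& 127 = x % 128 := by
  have := Nat.and_two_pow_sub_one_eq_mod x 7
  simpa using this

/-- digits of a union of weights -/
theorem maskLoop_testBit (T : ℕ) (k : ℕ) : ∀ (R acc b : ℕ),
    (maskLoop T k R acc).testBit b = true ↔
      (acc.testBit b = true ∨
        ∃ i < k, b = (T >>> (7 * ((R >>> (7 * i)) &&& 127))) &&& 127) := by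
  induction k with
  | zero =>
    intro R acc b
    have h0 : maskLoop T 0 R acc = acc := rfl
    rw [h0]
    constructor
    · intro h; exact Or.inl h
    · rintro (h | ⟨i, hi, _⟩)
      · exact h
      · exact absurd hi (Nat.not_lt_zero _)
  | succ k ih =>
    intro R acc b
    have h1 : maskLoop T (k + 1) R acc =
        maskLoop T k (R >>> 7) (acc ||| gam T (R &&& 127)) := rfl
    rw [h1, ih]
    have hg : ∀ p, (gam T p).testBit b = true ↔ b = (T >>> (7 * p)) &&& 127 := by
      intro p
      have : gam T p = 2 ^ ((T >>> (7 * p)) &&& 127) := by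
        show (1 <<< ((T >>> (7 * p)) &&& 127)) = _
        rw [Nat.one_shiftLeft]
      rw [this, Nat.testBit_two_pow]
      simp [eq_comm]
    rw [Nat.testBit_or, Bool.or_eq_true, hg]
    constructor
    · rintro ((h | h) | ⟨i, hi, hb⟩)
      · exact Or.inl h
      · refine Or.inr ⟨0, Nat.succ_pos _, ?_⟩
        simpa using h
      · refine Or.inr ⟨i + 1, by omega, ?_⟩
        rw [← Nat.shiftRight_add] at hb
        rw [show 7 * (i + 1) = 7 + 7 * i by ring]
        exact hb
    · rintro (h | ⟨i, hi, hb⟩)
      · exact Or.inl (Or.inl h)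
      · rcases Nat.eq_zero_or_pos i with rfl | hpos
        · left; right
          simpa using hb
        · right
          obtain ⟨j, rfl⟩ : ∃ j, i = j + 1 := ⟨i - 1, by omega⟩
          refine ⟨j, by omega, ?_⟩
          rw [← Nat.shiftRight_add]
          rw [show 7 * (j + 1) = 7 + 7 * j by ring] at hb
          exact hb

theorem mask1_testBit (R T b : ℕ) : (mask1 R T).testBit b = true ↔
    ∃ i < rK1 R, b = (T >>> (7 * ((rL1 R >>> (7 * i)) &&& 127))) &&& 127 := by
  have h : mask1 R T = maskLoop T (rK1 R) (rL1 R) 0 := rfl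
  rw [h, maskLoop_testBit]
  simp

theorem mask0_testBit (R T b : ℕ) : (mask0 R T).testBit b = true ↔
    ∃ i < rK0 R, b = (T >>> (7 * ((rL0 R >>> (7 * i)) &&& 127))) &&& 127 := by
  have h : mask0 R T = maskLoop T (rK0 R) (rL0 R) 0 := rfl
  rw [h, maskLoop_testBit]
  simp

theorem gTab_zero_lane : ∀ p < 80, (gTab 0 >>> (7 * p)) &&& 127 = 79 - p := by
  decide +kernel

theorem laneSym_sub (p : ℕ) (hp : p < 80) : laneSym (79 - p) = symOf (ordTab p) := by
  unfold laneSym
  rw [show 79 - (79 - p) = p by omega]

theorem ruleOK_image {R T : ℕ} (hR : RuleOK R) (hT : TabOK T) :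
    ∀ S, Fam S → ¬ HitI (mask1 R T) (mask0 R T) S := by
  intro S hS hH
  obtain ⟨h1, h0, hF⟩ := hR
  obtain ⟨π, d, hT⟩ := hT
  refine hF (img π d S) (hS.img π d) ⟨?_, ?_⟩
  · intro b _ hb
    rw [mask1_testBit] at hb
    obtain ⟨i, hi, rfl⟩ := hb
    have hp := h1 i hi
    obtain ⟨hlt, hmem⟩ := hT S hS.1 _ hp
    rw [gTab_zero_lane _ hp, laneSym_sub _ hp, hmem]
    exact hH.1 _ hlt ((mask1_testBit _ _ _).2 ⟨i, hi, rfl⟩)
  · intro b _ hb
    rw [mask0_testBit] at hb
    obtain ⟨i, hi, rfl⟩ := hb
    have hp := h0 i hi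
    obtain ⟨hlt, hmem⟩ := hT S hS.1 _ hp
    rw [gTab_zero_lane _ hp, laneSym_sub _ hp, hmem]
    exact hH.2 _ hlt ((mask0_testBit _ _ _).2 ⟨i, hi, rfl⟩)

theorem bt_spec {s c : ℕ} (h : Tree.bt s c = true) :
    ∀ b, c.testBit b = true → s.testBit b = true := by
  intro b hb
  have h' : s &&& c = c := Nat.eq_of_beq_eq_true h
  have : (s &&& c).testBit b = true := by rw [h']; exact hb
  rw [Nat.testBit_and, Bool.and_eq_true] at this
  exact this.1

theorem patHit_sound {R T A w : ℕ} (hI : Inv A w) (hw : WOK w)
    (h : Tree.patHit R T A w = true) : ∀ S, Match A w S → HitI (mask1 R T) (mask0 R T) S := by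
  intro S hM
  have h' : Tree.patHit2 A w (mask1 R T) (mask0 R T) = true := h
  unfold Tree.patHit2 at h'
  rw [Bool.and_eq_true, Bool.and_eq_true] at h'
  obtain ⟨ha, hb, hc⟩ := h'
  have hb' : A &&& mask0 R T = 0 := Nat.eq_of_beq_eq_true hb
  have hc' : mask0 R T &&& (2 * w - 1) = 0 := Nat.eq_of_beq_eq_true hc
  constructor
  · intro b hb80 hm
    have hA := bt_spec ha b hm
    exact (hM b hb80 (hI b hA).1).1 hA
  · intro b hb80 hm hS
    have hA : A.testBit b = false := by
      have : (A &&& mask0 R T).testBit b = false := by rw [hb']; simp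
      rw [Nat.testBit_and, hm, Bool.and_true] at this
      exact this
    have hdec : w < 2 ^ b := by
      rcases hw with rfl | ⟨m, hm80, rfl⟩
      · positivity
      · by_contra hcon
        have hbm : b ≤ m := (Nat.pow_le_pow_iff_right (by norm_num)).1 (not_lt.1 hcon)
        have h2 : (mask0 R T &&& (2 * 2 ^ m - 1)).testBit b = false := by rw [hc']; simp
        rw [Nat.testBit_and, hm, Bool.true_and] at h2
        rw [show 2 * 2 ^ m = 2 ^ (m + 1) by ring, Nat.testBit_two_pow_sub_one] at h2
        simp at h2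
        omega
    have := (hM b hb80 hdec).2 hS
    rw [hA] at this
    exact absurd this (by simp)

theorem locChk_sound {A w W M : ℕ} (hI : Inv A w) (hw : WOK w) (hM : M &&& W = M)
    (hd : ∀ b, W.testBit b = true → w < 2 ^ b ∧ b < 80) (h : A &&& W = M) :
    ∀ S, Match A w S → HitI M (W ^^^ M) S := by
  intro S hS
  have hMW : ∀ b, M.testBit b = true → W.testBit b = true := by
    intro b hb
    have : (M &&& W).testBit b = true := by rw [hM]; exact hb
    rw [Nat.testBit_and, Bool.and_eq_true] at this
    exact this.2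
  constructor
  · intro b hb80 hm
    have hA : A.testBit b = true := by
      have : (A &&& W).testBit b = true := by rw [h]; exact hm
      rw [Nat.testBit_and, Bool.and_eq_true] at this
      exact this.1
    exact (hS b hb80 (hd b (hMW b hm)).1).1 hA
  · intro b hb80 hm hmem
    rw [Nat.testBit_xor] at hm
    have hW : W.testBit b = true ∧ M.testBit b = false := by
      by_cases hMb : M.testBit b = true
      · have := hMW b hMb
        rw [hMb, this] at hm
        simp at hm
      · have hMb' : M.testBit b = false := by simpa using hMb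
        rw [hMb'] at hm
        exact ⟨by simpa using hm, hMb'⟩
    have hA : A.testBit b = false := by
      have : (A &&& W).testBit b = false := by rw [h]; exact hW.2
      rw [Nat.testBit_and, hW.1, Bool.and_true] at this
      exact this
    have := (hS b hb80 (hd b hW.1).1).2 hmem
    rw [hA] at this
    exact absurd this (by simp)

end Pool.Agent.GS
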