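import Pool.Agent.GS.Base

/-!
Invariance of the representable and of the orientable sets under relabelling and duality.
-/

set_option autoImplicit false

namespace Pool.Agent.GS

/-! ### Combinatorics of the symbols -/

theorem valid_map (σ : Equiv.Perm (Fin 5)) {i j : Fin 5} {K : Finset (Fin 5)} :
    Valid (σ i) (σ j) (K.map σ.toEmbedding) ↔ Valid i j K := by
  unfold Valid
  simp

theorem valid_dualK (d : Bool) {i j : Fin 5} {K : Finset (Fin 5)} (h : Valid i j K) :
    Valid i j (dualK d i j K) := by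
  cases d
  · exact h
  · refine ⟨h.1, ?_, ?_⟩ <;> simp [dualK]

theorem dualK_comm (d : Bool) (i j : Fin 5) (K : Finset (Fin 5)) :
    dualK d i j K = dualK d j i K := by
  unfold dualK
  rw [Finset.pair_comm]

theorem dualK_map (σ : Equiv.Perm (Fin 5)) (d : Bool) (i j : Fin 5) (K : Finset (Fin 5)) :
    (dualK d i j K).map σ.toEmbedding = dualK d (σ i) (σ j) (K.map σ.toEmbedding) := by
  cases d
  · rfl
  · ext x
    simp only [dualK, if_true, Finset.mem_map_equiv, Finset.mem_sdiff, Finset.mem_univ,
      true_and, Finset.mem_insert, Finset.mem_singleton, Equiv.symm_apply_eq]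

theorem dualK_dualK (d d' : Bool) {i j : Fin 5} {K : Finset (Fin 5)} (h : Valid i j K) :
    dualK d' i j (dualK d i j K) = dualK (xor d d') i j K := by
  obtain ⟨_, hi, hj⟩ := h
  cases d <;> cases d'
  · rfl
  · rfl
  · rfl
  · ext x
    simp only [dualK, if_true, Finset.mem_sdiff, Finset.mem_univ, true_and, Bool.xor_self,
      Finset.mem_insert, Finset.mem_singleton, if_false, Bool.false_eq_true]
    constructor
    · rintro ⟨h1, h2⟩
      by_contra h3
      exact h1 ⟨h3, h2⟩
    · intro h1
      refine ⟨fun h2 => h2.1 h1, ?_⟩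
      rintro (rfl | rfl)
      · exact hi h1
      · exact hj h1

theorem isSymSet_img (π : Equiv.Perm (Fin 5)) (d : Bool) {S : SymSet} (hS : IsSymSet S) :
    IsSymSet (img π d S) := by
  constructor
  · intro i j K h
    exact h.1
  · intro i j K h
    refine ⟨h.1.symm, ?_⟩
    have h2 := hS.2 _ _ _ h.2
    rw [dualK_comm] at h2
    exact h2

theorem mem_img {π : Equiv.Perm (Fin 5)} {d : Bool} {S : SymSet} {i j : Fin 5}
    {K : Finset (Fin 5)} : (i, j, K) ∈ img π d S ↔ Valid i j K ∧
      (π.symm i, π.symm j, dualK d (π.symm i) (π.symm j) (K.map π.symm.toEmbedding)) ∈ S :=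
  Iff.rfl

theorem img_img (π π' : Equiv.Perm (Fin 5)) (d d' : Bool) (S : SymSet) :
    img π d (img π' d' S) = img (π * π') (xor d d') S := by
  ext ⟨i, j, K⟩
  rw [mem_img, mem_img, mem_img]
  constructor
  · rintro ⟨h1, -, h3⟩
    refine ⟨h1, ?_⟩
    rw [dualK_map, dualK_dualK _ _ ((valid_map π'.symm).2 ((valid_map π.symm).2 h1)),
      Finset.map_map] at h3
    exact h3
  · rintro ⟨h1, h3⟩
    refine ⟨h1, valid_dualK d ((valid_map π.symm).2 h1), ?_⟩
    rw [dualK_map, dualK_dualK _ _ ((valid_map π'.symm).2 ((valid_map π.symm).2 h1)),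
      Finset.map_map]
    exact h3

theorem img_one {S : SymSet} (hS : IsSymSet S) : img 1 false S = S := by
  ext ⟨i, j, K⟩
  rw [mem_img]
  have e : K.map (1 : Equiv.Perm (Fin 5)).symm.toEmbedding = K := by
    ext x
    simp [Finset.mem_map_equiv]
  rw [e]
  exact ⟨fun h => h.2, fun h => ⟨hS.1 i j K h, h⟩⟩

/-! ### Vanishing sets -/

/-- singularity of a square submatrix as a condition on one vector -/
theorem det_submatrix_eq_zero_iff {m n : Type*} [Fintype m] [DecidableEq m] [Fintype n]
    [DecidableEq n] (A : Matrix n n ℝ) (r c : m → n) (hc : Function.Injective c) :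
    (A.submatrix r c).det = 0 ↔ ∃ x : n → ℝ, x ≠ 0 ∧ (∀ k, k ∉ Set.range c → x k = 0) ∧
      ∀ b, (A.mulVec x) (r b) = 0 := by
  have key : ∀ (x : n → ℝ), (∀ k, k ∉ Set.range c → x k = 0) → ∀ l,
      (A.mulVec x) l = ∑ a, A l (c a) * x (c a) := by
    intro x hx l
    rw [Matrix.mulVec, dotProduct]
    symm
    apply Finset.sum_of_injOn c hc.injOn (fun _ _ => Finset.mem_coe.2 (Finset.mem_univ _))
    · intro k _ hk
      rw [hx k, mul_zero]
      rintro ⟨a, rfl⟩
      exact hk ⟨a, Finset.mem_coe.2 (Finset.mem_univ a), rfl⟩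
    · intro a _
      rfl
  rw [← Matrix.exists_mulVec_eq_zero_iff]
  constructor
  · rintro ⟨w, hw, h0⟩
    refine ⟨Function.extend c w 0, ?_, ?_, ?_⟩
    · intro h
      apply hw
      ext a
      have := congrFun h (c a)
      rwa [hc.extend_apply] at this
    · intro k hk
      rw [Function.extend_apply' _ _ _ (fun ⟨a, ha⟩ => hk ⟨a, ha⟩)]
      rfl
    · intro b
      rw [key _ (fun k hk => by
        rw [Function.extend_apply' _ _ _ (fun ⟨a, ha⟩ => hk ⟨a, ha⟩)]; rfl)]
      have h := congrFun h0 b
      simp only [Matrix.mulVec, dotProduct, Matrix.submatrix_apply, Pi.zero_apply] at h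
      rw [← h]
      exact Finset.sum_congr rfl fun a _ => by rw [hc.extend_apply]
  · rintro ⟨x, hx, hs, h0⟩
    refine ⟨fun a => x (c a), ?_, ?_⟩
    · intro h
      apply hx
      ext k
      by_cases hk : k ∈ Set.range c
      · obtain ⟨a, rfl⟩ := hk
        exact congrFun h a
      · exact hs k hk
    · ext b
      have h := h0 b
      rw [key x hs] at h
      simpa [Matrix.mulVec, dotProduct] using h

theorem elim_injective {i : Fin 5} {K : Finset (Fin 5)} (h : i ∉ K) :
    Function.Injective (Sum.elim (fun _ : Unit => i) (fun k : {k : Fin 5 // k ∈ K} => k.1)) := by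
  rintro (a | a) (b | b) hab
  · rfl
  · simp only [Sum.elim_inl, Sum.elim_inr] at hab
    exact (h (hab ▸ b.2)).elim
  · simp only [Sum.elim_inl, Sum.elim_inr] at hab
    exact (h (hab ▸ a.2)).elim
  · simp only [Sum.elim_inr] at hab
    exact congrArg _ (Subtype.ext hab)

/-- vanishing of an almost-principal minor as a condition on one vector -/
theorem apm_eq_zero_iff (A : Matrix (Fin 5) (Fin 5) ℝ) {i j : Fin 5} {K : Finset (Fin 5)}
    (hv : Valid i j K) :
    apm A i j K = 0 ↔ ∃ x : Fin 5 → ℝ, x ≠ 0 ∧ (∀ k, k ≠ j → k ∉ K → x k = 0) ∧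
      (A.mulVec x) i = 0 ∧ ∀ k ∈ K, (A.mulVec x) k = 0 := by
  rw [apm, det_submatrix_eq_zero_iff A _ _ (elim_injective hv.2.2)]
  apply exists_congr
  intro x
  apply and_congr Iff.rfl
  apply and_congr
  · apply forall_congr'
    intro k
    have : k ∉ Set.range (Sum.elim (fun _ : Unit => j)
        (fun k : {k : Fin 5 // k ∈ K} => k.1)) ↔ (k ≠ j ∧ k ∉ K) := by
      rw [Set.mem_range, not_exists]
      constructor
      · intro h
        exact ⟨fun h1 => h (Sum.inl ()) h1.symm, fun h1 => h (Sum.inr ⟨k, h1⟩) rfl⟩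
      · rintro ⟨h1, h2⟩ (a | a) h3
        · exact h1 h3.symm
        · exact h2 (h3 ▸ a.2)
    rw [this, and_imp]
  · constructor
    · intro h
      exact ⟨h (Sum.inl ()), fun k hk => h (Sum.inr ⟨k, hk⟩)⟩
    · rintro ⟨h1, h2⟩ (b | b)
      · exact h1
      · exact h2 b.1 b.2

theorem apm_swap {A : Matrix (Fin 5) (Fin 5) ℝ} (hA : A.transpose = A) (i j : Fin 5)
    (K : Finset (Fin 5)) : apm A i j K = apm A j i K := by
  unfold apm
  rw [← Matrix.det_transpose, Matrix.transpose_submatrix, hA]

theorem posDef_transpose {A : Matrix (Fin 5) (Fin 5) ℝ} (hA : A.PosDef) :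
    A.transpose = A := by
  have h := hA.isHermitian
  rw [Matrix.IsHermitian, Matrix.conjTranspose_eq_transpose_of_trivial] at h
  exact h

theorem isSymSet_vanSet {A : Matrix (Fin 5) (Fin 5) ℝ} (hA : A.PosDef) :
    IsSymSet (VanSet A) := by
  constructor
  · intro i j K h
    exact h.1
  · intro i j K h
    refine ⟨h.1.symm, ?_⟩
    have h2 := h.2
    rw [apm_swap (posDef_transpose hA)] at h2
    exact h2

theorem mem_vanSet {A : Matrix (Fin 5) (Fin 5) ℝ} {i j : Fin 5} {K : Finset (Fin 5)} :
    (i, j, K) ∈ VanSet A ↔ Valid i j K ∧ apm A i j K = 0 := Iff.rfl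

/-- relabelling -/
theorem apm_relabel (A : Matrix (Fin 5) (Fin 5) ℝ) (σ : Equiv.Perm (Fin 5)) {i j : Fin 5}
    {K : Finset (Fin 5)} (hv : Valid i j K) :
    apm (A.submatrix σ σ) i j K = 0 ↔ apm A (σ i) (σ j) (K.map σ.toEmbedding) = 0 := by
  rw [apm_eq_zero_iff _ hv, apm_eq_zero_iff _ ((valid_map σ).2 hv)]
  have key : ∀ (x : Fin 5 → ℝ) (k : Fin 5),
      ((A.submatrix σ σ).mulVec x) k = (A.mulVec (x ∘ σ.symm)) (σ k) := by
    intro x k
    have h1 : ((A.submatrix σ σ).mulVec x) k = ∑ l, A (σ k) (σ l) * x l := rfl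
    have h2 : (A.mulVec (x ∘ σ.symm)) (σ k) = ∑ l, A (σ k) l * x (σ.symm l) := rfl
    rw [h1, h2, ← Equiv.sum_comp σ (fun l => A (σ k) l * x (σ.symm l))]
    exact Finset.sum_congr rfl fun l _ => by rw [Equiv.symm_apply_apply]
  constructor
  · rintro ⟨x, hx, h1, h2, h3⟩
    refine ⟨x ∘ σ.symm, ?_, ?_, ?_, ?_⟩
    · intro h
      apply hx
      ext k
      have := congrFun h (σ k)
      simpa using this
    · intro k hk hK
      apply h1
      · rintro h
        exact hk (by rw [← h, Equiv.apply_symm_apply])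
      · rintro h
        exact hK (Finset.mem_map_equiv.2 h)
    · rw [← key]
      exact h2
    · intro k hk
      have := h3 (σ.symm k) (Finset.mem_map_equiv.1 hk)
      rw [key, Equiv.apply_symm_apply] at this
      exact this
  · rintro ⟨x, hx, h1, h2, h3⟩
    have e : (x ∘ σ) ∘ σ.symm = x := by
      ext k
      simp
    refine ⟨x ∘ σ, ?_, ?_, ?_, ?_⟩
    · intro h
      apply hx
      ext k
      have := congrFun h (σ.symm k)
      simpa using this
    · intro k hk hK
      apply h1
      · exact fun h => hk (σ.injective h)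
      · rintro h
        rw [Finset.mem_map_equiv, Equiv.symm_apply_apply] at h
        exact hK h
    · rw [key, e]
      exact h2
    · intro k hk
      rw [key, e]
      apply h3
      rw [Finset.mem_map_equiv, Equiv.symm_apply_apply]
      exact hk

/-- duality: complementary minors of the inverse matrix, one direction -/
theorem apm_dual_aux (A B : Matrix (Fin 5) (Fin 5) ℝ) (hAB : A * B = 1) {i j : Fin 5}
    {K : Finset (Fin 5)} (hv : Valid i j K) (h : apm B i j K = 0) :
    apm A i j (dualK true i j K) = 0 := by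
  have hBA : B * A = 1 := mul_eq_one_comm.1 hAB
  rw [apm_eq_zero_iff _ hv] at h
  rw [apm_eq_zero_iff _ (valid_dualK true hv)]
  obtain ⟨x, hx, h1, h2, h3⟩ := h
  have hA : A.mulVec (B.mulVec x) = x := by
    rw [Matrix.mulVec_mulVec, hAB, Matrix.one_mulVec]
  refine ⟨B.mulVec x, ?_, ?_, ?_, ?_⟩
  · intro h0
    apply hx
    rw [← hA, h0, Matrix.mulVec_zero]
  · intro k hk hK
    by_cases hi : k = i
    · rw [hi]
      exact h2
    · apply h3
      by_contra hk2
      apply hK
      simp [dualK, hk2, hi, hk]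
  · rw [hA]
    exact h1 i hv.1 hv.2.1
  · intro k hk
    rw [hA]
    simp only [dualK, if_true, Finset.mem_sdiff, Finset.mem_univ, true_and, Finset.mem_insert,
      Finset.mem_singleton, not_or] at hk
    exact h1 k hk.2.2 hk.1

theorem apm_dual (A B : Matrix (Fin 5) (Fin 5) ℝ) (hAB : A * B = 1) {i j : Fin 5}
    {K : Finset (Fin 5)} (hv : Valid i j K) :
    apm B i j K = 0 ↔ apm A i j (dualK true i j K) = 0 := by
  refine ⟨apm_dual_aux A B hAB hv, fun h => ?_⟩
  have h2 := apm_dual_aux B A (mul_eq_one_comm.1 hAB) (valid_dualK true hv) h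
  rwa [dualK_dualK _ _ hv, Bool.xor_self] at h2

theorem representable_relabel (σ : Equiv.Perm (Fin 5)) {S : SymSet} (h : Representable S) :
    Representable (img σ false S) := by
  obtain ⟨A, hA, rfl⟩ := h
  refine ⟨A.submatrix σ.symm σ.symm, hA.submatrix σ.symm.injective, ?_⟩
  ext ⟨i, j, K⟩
  rw [mem_img, mem_vanSet, mem_vanSet]
  constructor
  · rintro ⟨h1, h2⟩
    exact ⟨h1, (valid_map σ.symm).2 h1, (apm_relabel A σ.symm h1).1 h2⟩
  · rintro ⟨h1, h2, h3⟩
    exact ⟨h1, (apm_relabel A σ.symm h1).2 h3⟩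

theorem representable_dual {S : SymSet} (h : Representable S) :
    Representable (img 1 true S) := by
  obtain ⟨A, hA, rfl⟩ := h
  have hu : IsUnit A.det := hA.isUnit.map Matrix.detMonoidHom
  refine ⟨A⁻¹, hA.inv, ?_⟩
  ext ⟨i, j, K⟩
  rw [mem_img, mem_vanSet, mem_vanSet]
  have e : K.map (1 : Equiv.Perm (Fin 5)).symm.toEmbedding = K := by
    ext x
    simp [Finset.mem_map_equiv]
  rw [e]
  have hAB : A * A⁻¹ = 1 := Matrix.mul_nonsing_inv A hu
  constructor
  · rintro ⟨h1, h2⟩
    exact ⟨h1, valid_dualK true h1, (apm_dual A A⁻¹ hAB h1).1 h2⟩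
  · rintro ⟨h1, h2, h3⟩
    exact ⟨h1, (apm_dual A A⁻¹ hAB h1).2 h3⟩

theorem representable_img (π : Equiv.Perm (Fin 5)) (d : Bool) {S : SymSet}
    (h : Representable S) : Representable (img π d S) := by
  cases d
  · exact representable_relabel π h
  · have h2 := representable_relabel π (representable_dual h)
    rwa [img_img, mul_one] at h2

/-! ### Orientations -/

theorem Bal.swap12 {x y z : SignType} (h : Bal x y z) : Bal y x z := by
  revert x y z
  decide

theorem Bal.neg_neg_comm {x y z : SignType} (h : Bal (-x) y z) : Bal (-(-y)) (-x) z := by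
  rw [neg_neg]
  exact h.swap12

theorem orientable_relabel (σ : Equiv.Perm (Fin 5)) {S : SymSet} (h : Orientable S) :
    Orientable (img σ false S) := by
  obtain ⟨ε, h1, h2, h3⟩ := h
  refine ⟨fun i j K => ε (σ.symm i) (σ.symm j) (K.map σ.symm.toEmbedding), ?_, ?_, ?_⟩
  · intro i j K
    exact h1 _ _ _
  · intro i j K hv
    rw [mem_img, h2 _ _ _ ((valid_map σ.symm).2 hv)]
    exact ⟨fun h => ⟨hv, h⟩, fun h => h.2⟩
  · intro i j k L hij hik hjk hi hj hk
    have h := h3 (σ.symm i) (σ.symm j) (σ.symm k) (L.map σ.symm.toEmbedding)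
      (by simpa using hij) (by simpa using hik) (by simpa using hjk)
      (by simpa [Finset.mem_map_equiv] using hi) (by simpa [Finset.mem_map_equiv] using hj)
      (by simpa [Finset.mem_map_equiv] using hk)
    simp only [Finset.map_insert, Equiv.coe_toEmbedding]
    exact h

theorem orientable_dual {S : SymSet} (h : Orientable S) : Orientable (img 1 true S) := by
  obtain ⟨ε, h1, h2, h3⟩ := h
  refine ⟨fun i j K => -(ε i j (dualK true i j K)), ?_, ?_, ?_⟩
  · intro i j K
    simp only []
    rw [h1, dualK_comm]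
  · intro i j K hv
    rw [mem_img]
    have e : K.map (1 : Equiv.Perm (Fin 5)).symm.toEmbedding = K := by
      ext x
      simp [Finset.mem_map_equiv]
    rw [e]
    have h := h2 _ _ _ (valid_dualK true hv)
    constructor
    · intro h0
      exact ⟨hv, h.1 (by simpa using h0)⟩
    · rintro ⟨-, h0⟩
      simpa using h.2 h0
  · intro i j k L hij hik hjk hi hj hk
    -- `M` is the complement of `L ∪ {i, j, k}`
    obtain ⟨M, hM⟩ : ∃ M : Finset (Fin 5), M = (Finset.univ \ L) \ {i, j, k} := ⟨_, rfl⟩
    have mi : i ∉ M := by simp [hM]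
    have mj : j ∉ M := by simp [hM]
    have mk : k ∉ M := by simp [hM]
    have e1 : dualK true i j L = insert k M := by
      ext x
      simp only [dualK, if_true, hM, Finset.mem_sdiff, Finset.mem_univ, true_and,
        Finset.mem_insert, Finset.mem_singleton, not_or]
      constructor
      · rintro ⟨a, b, c⟩
        by_cases hx : x = k
        · exact Or.inl hx
        · exact Or.inr ⟨a, b, c, hx⟩
      · rintro (rfl | ⟨a, b, c, -⟩)
        · exact ⟨hk, hik.symm, hjk.symm⟩
        · exact ⟨a, b, c⟩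
    have e2 : dualK true i j (insert k L) = M := by
      ext x
      simp only [dualK, if_true, hM, Finset.mem_sdiff, Finset.mem_univ, true_and,
        Finset.mem_insert, Finset.mem_singleton, not_or]
      tauto
    have e3 : dualK true i k L = insert j M := by
      ext x
      simp only [dualK, if_true, hM, Finset.mem_sdiff, Finset.mem_univ, true_and,
        Finset.mem_insert, Finset.mem_singleton, not_or]
      constructor
      · rintro ⟨a, b, c⟩
        by_cases hx : x = j
        · exact Or.inl hx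
        · exact Or.inr ⟨a, b, hx, c⟩
      · rintro (rfl | ⟨a, b, -, c⟩)
        · exact ⟨hj, hij.symm, hjk⟩
        · exact ⟨a, b, c⟩
    have e4 : dualK true j k L = insert i M := by
      ext x
      simp only [dualK, if_true, hM, Finset.mem_sdiff, Finset.mem_univ, true_and,
        Finset.mem_insert, Finset.mem_singleton, not_or]
      constructor
      · rintro ⟨a, b, c⟩
        by_cases hx : x = i
        · exact Or.inl hx
        · exact Or.inr ⟨a, hx, b, c⟩
      · rintro (rfl | ⟨a, -, b, c⟩)
        · exact ⟨hi, hij, hik⟩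
        · exact ⟨a, b, c⟩
    have e5 : dualK true j k (insert i L) = M := by
      ext x
      simp only [dualK, if_true, hM, Finset.mem_sdiff, Finset.mem_univ, true_and,
        Finset.mem_insert, Finset.mem_singleton, not_or]
      tauto
    have e6 : dualK true i k (insert j L) = M := by
      ext x
      simp only [dualK, if_true, hM, Finset.mem_sdiff, Finset.mem_univ, true_and,
        Finset.mem_insert, Finset.mem_singleton, not_or]
      tauto
    simp only [e1, e2, e3, e4, e5, e6, neg_mul_neg]
    obtain ⟨b1, b2, b3⟩ := h3 i j k M hij hik hjk mi mj mk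
    obtain ⟨-, c2, -⟩ := h3 j i k M hij.symm hjk hik mj mi mk
    refine ⟨b3.neg_neg_comm, ?_, b1.neg_neg_comm⟩
    have c2' := c2.neg_neg_comm
    rw [h1 j i M, h1 j i (insert k M), mul_comm] at c2'
    exact c2'

theorem orientable_img (π : Equiv.Perm (Fin 5)) (d : Bool) {S : SymSet} (h : Orientable S) :
    Orientable (img π d S) := by
  cases d
  · exact orientable_relabel π h
  · have h2 := orientable_relabel π (orientable_dual h)
    rwa [img_img, mul_one] at h2

end Pool.Agent.GS
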