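import Pool.Agent.GS.TreeSem
import Pool.Agent.GS.TreeBase

/-!
Search tree: soundness of the lexicographic check.
-/

set_option autoImplicit false

namespace Pool.Agent.GS

open Classical in
/-- binary number with given digits -/
noncomputable def numOf (P : ℕ → Prop) (n : ℕ) : ℕ :=
  ∑ b ∈ Finset.range n, if P b then 2 ^ b else 0

theorem numOf_lt (P : ℕ → Prop) : ∀ n, numOf P n < 2 ^ n
  | 0 => by simp [numOf]
  | n + 1 => by
    have ih := numOf_lt P n
    unfold numOf at ih ⊢
    rw [Finset.sum_range_succ, pow_succ]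
    split_ifs <;> omega

theorem testBit_numOf (P : ℕ → Prop) (b : ℕ) :
    ∀ n, (numOf P n).testBit b = true ↔ b < n ∧ P b
  | 0 => by simp [numOf]
  | n + 1 => by
    classical
    have ih := testBit_numOf P b n
    have hlt := numOf_lt P n
    have h : numOf P (n + 1) = 2 ^ n * (if P n then 1 else 0) + numOf P n := by
      unfold numOf
      rw [Finset.sum_range_succ, add_comm]
      split_ifs <;> simp
    rw [h, Nat.testBit_two_pow_mul_add _ hlt]
    by_cases hb : b < n
    · rw [if_pos hb, ih]
      constructor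
      · rintro ⟨h1, h2⟩; exact ⟨by omega, h2⟩
      · rintro ⟨h1, h2⟩; exact ⟨hb, h2⟩
    · rw [if_neg hb]
      rcases Nat.eq_or_lt_of_le (Nat.le_of_not_lt hb) with h1 | h1
      · subst h1
        by_cases hP : P n
        · simp [hP]
        · simp [hP]
      · have h2 : ¬ b < n + 1 := by omega
        have h3 : ∃ k, b - n = k + 1 := ⟨b - n - 1, by omega⟩
        obtain ⟨k, hk⟩ := h3
        rw [hk]
        constructor
        · intro h4
          exfalso
          split_ifs at h4
          · rw [Nat.testBit_succ] at h4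
            simp at h4
          · simp at h4
        · rintro ⟨h4, _⟩
          exact absurd h4 h2

theorem testBit_codeOf (S : SymSet) (b : ℕ) :
    (codeOf S).testBit b = true ↔ b < 80 ∧ laneSym b ∈ S := by
  have h := testBit_numOf (fun b => laneSym b ∈ S) b 80
  unfold numOf at h
  unfold codeOf
  exact h

theorem imgTop_succ (A n T acc : ℕ) :
    Tree.imgTop A (n + 1) T acc =
      Tree.imgTop A n (T >>> 7) (2 * acc + ((A >>> (T &&& 127)) &&& 1)) := rfl

/-- the digits read by `imgTop` are at most those of `c` -/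
theorem imgTop_le (A c T : ℕ) (n : ℕ) : ∀ m acc, m + n ≤ 80 →
    (∀ p, m ≤ p → p < m + n → A.testBit ((T >>> (7 * p)) &&& 127) = true →
      c.testBit (79 - p) = true) →
    acc ≤ c >>> (80 - m) → Tree.imgTop A n (T >>> (7 * m)) acc ≤ c >>> (80 - (m + n)) := by
  induction n with
  | zero =>
    intro m acc _ _ h
    exact h
  | succ n ih =>
    intro m acc hmn hd hacc
    rw [imgTop_succ, ← Nat.shiftRight_add, show 7 * m + 7 = 7 * (m + 1) by ring,
      show m + (n + 1) = (m + 1) + n by ring]
    refine ih (m + 1) _ (by omega) (fun p h1 h2 => hd p (by omega) (by omega)) ?_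
    have hs : 80 - m = (80 - (m + 1)) + 1 := by omega
    rw [hs, Nat.shiftRight_add, Nat.shiftRight_one] at hacc
    have hbit := hd m (le_refl m) (by omega)
    rw [Nat.and_one_is_mod]
    have h79 : 80 - (m + 1) = 79 - m := by omega
    rw [h79] at hacc ⊢
    have h4 : (A >>> (T >>> (7 * m) &&& 127)) % 2 ≤ (c >>> (79 - m)) % 2 := by
      rcases Nat.mod_two_eq_zero_or_one (A >>> (T >>> (7 * m) &&& 127)) with h | h
      · omega
      · have h5 : A.testBit ((T >>> (7 * m)) &&& 127) = true := by
          rw [Nat.testBit_eq_decide_div_mod_eq, ← Nat.shiftRight_eq_div_pow]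
          exact decide_eq_true h
        have h6 := hbit h5
        rw [Nat.testBit_eq_decide_div_mod_eq, ← Nat.shiftRight_eq_div_pow] at h6
        have h7 : (c >>> (79 - m)) % 2 = 1 := of_decide_eq_true h6
        omega
    omega

/-- a state whose decided part has a larger copy contains no maximal set -/
theorem lexChk_sound {A w n T : ℕ} (hT : TabOK T) (hI : Inv A w) (_hw : WOK w)
    (h : Tree.lexChk A w n T = true) : ∀ S, IsSymSet S → MaxS S → Match A w S → False := by
  intro S hS hM hA
  obtain ⟨π, d, hπ⟩ := hT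
  have hlex : (n ≤ 80 ∧ w + 1 ≤ 1 <<< (80 - n)) ∧
      A >>> (80 - n) + 1 ≤ Tree.imgTop A n T 0 := by
    have h' := h
    unfold Tree.lexChk at h'
    rw [Bool.and_eq_true, Bool.and_eq_true] at h'
    exact ⟨⟨Nat.le_of_ble_eq_true h'.1.1, Nat.le_of_ble_eq_true h'.1.2⟩,
      Nat.le_of_ble_eq_true h'.2⟩
  obtain ⟨⟨hn, hw2⟩, hgt⟩ := hlex
  rw [Nat.one_shiftLeft] at hw2
  have himg := hM π d
  -- the top digits of `A` are those of the code of `S`
  have htop : A >>> (80 - n) = codeOf S >>> (80 - n) := by
    apply Nat.eq_of_testBit_eq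
    intro i
    rw [Nat.testBit_shiftRight, Nat.testBit_shiftRight, Bool.eq_iff_iff, testBit_codeOf]
    by_cases hi : (80 - n) + i < 80
    · rw [hA _ hi (lt_of_lt_of_le (by omega : w < 2 ^ (80 - n))
        (Nat.pow_le_pow_right (by norm_num) (Nat.le_add_right _ _)))]
      exact ⟨fun h1 => ⟨hi, h1⟩, fun h1 => h1.2⟩
    · constructor
      · intro h1
        exact absurd (hI _ h1).2 hi
      · rintro ⟨h1, _⟩
        exact absurd h1 hi
  have h2 := imgTop_le A (codeOf (img π d S)) T n 0 0 (by omega) (by
    intro p _ hp hbit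
    obtain ⟨h3, h4⟩ := hπ S hS p (by omega)
    rw [testBit_codeOf]
    refine ⟨by omega, ?_⟩
    have h5 : laneSym (79 - p) = symOf (ordTab p) := by
      unfold laneSym
      rw [show 79 - (79 - p) = p by omega]
    rw [h5, h4]
    exact (hA _ h3 (hI _ hbit).1).1 hbit) (Nat.zero_le _)
  simp only [Nat.mul_zero, Nat.shiftRight_zero, Nat.zero_add] at h2
  have h6 : codeOf (img π d S) >>> (80 - n) ≤ codeOf S >>> (80 - n) := by
    rw [Nat.shiftRight_eq_div_pow, Nat.shiftRight_eq_div_pow]
    exact Nat.div_le_div_right himg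
  omega

end Pool.Agent.GS
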