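import Pool.Agent.GS.RefCls
import Pool.Agent.GS.Rules

/-!
Validity of the inference rules from certificates.
-/

set_option autoImplicit false

namespace Pool.Agent.GS.Ref

open Matrix

/-- the first `n` base 100 digits of `h` are less than 80 -/
noncomputable def dok (n : ℕ) : ℕ → Bool :=
  Nat.rec (motive := fun _ => ℕ → Bool) (fun _ => true)
    (fun _ ih h => Bool.and (Nat.blt (Nat.mod h 100) 80) (force (Nat.div h 100) ih)) n

theorem dok_spec (n : ℕ) : ∀ h, dok n h = true → ∀ m < n, dig h m < 80 := by
  induction n with
  | zero => intro h _ m hm; omega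
  | succ n ih =>
    intro h hd m hm
    have e : dok (n + 1) h = Bool.and (Nat.blt (Nat.mod h 100) 80) (force (Nat.div h 100) (dok n)) :=
      rfl
    rw [e, force_eq] at hd
    simp only [Bool.and_eq_true] at hd
    cases m with
    | zero =>
      have h1 := hd.1
      rw [Nat.blt_eq] at h1
      unfold dig
      rw [pow_zero, Nat.div_one]
      exact h1
    | succ m =>
      have h1 := ih _ hd.2 m (by omega)
      unfold dig at *
      rw [pow_succ', ← Nat.div_div_eq_div_mul]
      exact h1

/-- certificates of the rules number `k, k + 1, ...` of the table `(p, z, T)` -/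
noncomputable def ruleL (p z T : ℕ) : List Cert → ℕ → Bool :=
  List.rec (motive := fun _ => ℕ → Bool) (fun _ => true)
    (fun c _ ih k => Bool.and
      (force (Nat.div T (Nat.pow 100 (Nat.mul (Nat.add p z) k))) fun h =>
        Bool.and (dok (Nat.add p z) h) (force (init p z h) (chk c)))
      (ih (Nat.succ k)))

theorem dig_digit (T w k m : ℕ) : dig (Nat.div T (Nat.pow 100 (w * k))) m = digit T (w * k + m) := by
  unfold dig digit
  rw [pow_add, ← Nat.div_div_eq_div_mul]
  rfl

theorem symOf_mem_decode_pow (s t : ℕ) (ht : t < 80) : symOf t ∈ decode (2 ^ s) ↔ s = t := by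
  rw [symOf_mem_decode _ t ht, Nat.testBit_two_pow]
  simp

theorem decode_sub (S : SymSet) (hS : IsSymSet S) (s : ℕ) (hs : s < 80) :
    decode (2 ^ s) ⊆ S ↔ symOf s ∈ S := by
  constructor
  · intro h; exact h ((symOf_mem_decode_pow s s hs).2 rfl)
  · intro h
    rintro ⟨i, j, K⟩ hx
    have hv : Valid i j K := hx.1
    rw [hS.mem_iff i j K hv]
    have h1 := ((isSymSet_decode (2 ^ s)).mem_iff i j K hv).1 hx
    have h80 : symIdx (min i j) (max i j) K < 80 := by
      rcases lt_or_gt_of_ne hv.1 with h' | h'
      · rw [min_eq_left h'.le, max_eq_right h'.le]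
        exact (symOf_symIdx i j K hv h').1
      · rw [min_eq_right h'.le, max_eq_left h'.le]
        exact (symOf_symIdx j i K hv.symm h').1
    rw [← (symOf_mem_decode_pow s _ h80).1 h1]
    exact h

theorem isSymSet_van {A : Matrix (Fin 5) (Fin 5) ℝ} (hA : A.PosDef) : IsSymSet (VanSet A) := by
  have hT : Aᵀ = A := by
    have := hA.isHermitian
    rwa [Matrix.IsHermitian, Matrix.conjTranspose_eq_transpose_of_trivial] at this
  constructor
  · intro i j K h; exact h.1
  · intro i j K h
    refine ⟨Valid.symm h.1, ?_⟩
    have h2 : apm A i j K = 0 := h.2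
    show apm A j i K = 0
    rw [← h2]
    unfold apm
    rw [← Matrix.det_transpose, Matrix.transpose_submatrix, hT]

theorem ruleL_spec (p z T : ℕ) (L : List Cert) : ∀ a, ruleL p z T L a = true → ∀ k, a ≤ k →
    k < a + L.length → ∀ S, Representable S → ¬ ViolatesRule S p z T k := by
  induction L with
  | nil => intro a _ k h1 h2; simp at h2; omega
  | cons c L ih =>
    intro a h k h1 h2 S hS hV
    have e0 : ruleL p z T (c :: L) a = Bool.and
      (force (Nat.div T (Nat.pow 100 (Nat.mul (Nat.add p z) a))) fun h =>
        Bool.and (dok (Nat.add p z) h) (force (init p z h) (chk c)))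
      (ruleL p z T L (Nat.succ a)) := rfl
    rw [e0, force_eq, force_eq] at h
    simp only [Bool.and_eq_true] at h
    obtain ⟨⟨hd, hc⟩, hL⟩ := h
    by_cases hk : k = a
    · subst hk
      obtain ⟨A, hA, rfl⟩ := hS
      have hSym := isSymSet_van hA
      have hd := dok_spec _ _ hd
      have e1 : ∀ m, dig (Nat.div T (Nat.pow 100 (Nat.mul (Nat.add p z) k))) m =
          digit T ((p + z) * k + m) := fun m => dig_digit T (p + z) k m
      have hval : ∀ s < 80, (val A (32 + s) = 0 ↔ symOf s ∈ VanSet A) := by
        intro s hs
        rw [val_A A s hs]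
        constructor
        · intro h0; exact ⟨(symOf_spec s hs).1, h0⟩
        · intro h0; exact h0.2
      refine pat_sound hc hA ?_ ?_
      · intro m hm
        have h80 := hd m (by rw [add_eq']; omega)
        rw [hval _ h80]
        rw [e1] at h80 ⊢
        exact (decode_sub _ hSym _ h80).1 (hV.1 m hm)
      · intro m hm1 hm2
        have h80 := hd m (by rw [add_eq']; omega)
        rw [Ne, hval _ h80]
        rw [e1] at h80 ⊢
        intro h0
        have h3 := hV.2 (m - p) (by omega)
        rw [show p + (m - p) = m by omega] at h3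
        exact h3 ((decode_sub _ hSym _ h80).2 h0)
    · exact ih (Nat.succ a) hL k (by simp only [Nat.succ_eq_add_one]; omega)
        (by simp only [List.length_cons, Nat.succ_eq_add_one] at h2 ⊢; omega) S hS hV

end Pool.Agent.GS.Ref
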