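import Pool.Agent.GS.Sem
import Pool.Agent.GS.RuleTabR
import Pool.Agent.GS.RefRule

/-!
The entries of the blocks `rR0`, ..., `rR34` describe the inference rules of `Rules.lean`.
-/

set_option autoImplicit false

namespace Pool.Agent.GS.Ref

/-- digit of the internal codes belonging to the symbol number `s` -/
def laneT : ℕ := 0x7895b967aa204676819097ca60c774717007eaa1486c4d98a705e1c96a3d781726224a6219802682e2cb485108c4c655cc4640e834e6964d3e1cf0444356ce24208852a38dcf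

def laneOf (s : ℕ) : ℕ := Nat.land (Nat.shiftRight laneT (Nat.mul 7 s)) 127

theorem laneOf_fin : ∀ s : Fin 80, laneOf s.val < 80 ∧ ordTab (79 - laneOf s.val) = s.val := by
  decide +kernel

theorem laneOf_lt (s : ℕ) (hs : s < 80) : laneOf s < 80 := (laneOf_fin ⟨s, hs⟩).1

theorem laneSym_laneOf (s : ℕ) (hs : s < 80) : laneSym (laneOf s) = symOf s := by
  unfold laneSym
  rw [(laneOf_fin ⟨s, hs⟩).2]

/-- the lanes of the first `n` base 100 digits of `r` are `1` in `M` -/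
noncomputable def lk (M n : ℕ) : ℕ → (ℕ → Bool) → Bool :=
  Nat.rec (motive := fun _ => ℕ → (ℕ → Bool) → Bool) (fun r k => k r)
    (fun _ ih r k => Bool.and
      (Nat.beq (Nat.land (Nat.shiftRight M (laneOf (Nat.mod r 100))) 1) 1)
      (force (Nat.div r 100) fun r' => ih r' k)) n

theorem lk_spec (M : ℕ) (n : ℕ) : ∀ (r : ℕ) (k : ℕ → Bool), lk M n r k = true →
    (∀ m < n, M.testBit (laneOf (dig r m)) = true) ∧ k (r / 100 ^ n) = true := by
  induction n with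
  | zero => intro r k hk; exact ⟨fun m hm => by omega, by simpa [lk] using hk⟩
  | succ n ih =>
    intro r k hk
    have e : lk M (n + 1) r k = Bool.and
      (Nat.beq (Nat.land (Nat.shiftRight M (laneOf (Nat.mod r 100))) 1) 1)
      (force (Nat.div r 100) fun r' => lk M n r' k) := rfl
    rw [e, force_eq] at hk
    simp only [Bool.and_eq_true] at hk
    obtain ⟨h1, h2⟩ := hk
    obtain ⟨i1, i2⟩ := ih _ _ h2
    constructor
    · intro m hm
      cases m with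
      | zero =>
        have h3 := Nat.eq_of_beq_eq_true h1
        rw [land_one_eq, shr_eq, Nat.testBit_shiftRight, add_zero] at h3
        have h4 : dig r 0 = Nat.mod r 100 := by
          unfold dig; rw [pow_zero, Nat.div_one]; rfl
        rw [h4]
        by_contra h5
        rw [Bool.not_eq_true] at h5
        rw [h5] at h3
        simp at h3
      | succ m =>
        have h3 := i1 m (by omega)
        have h4 : dig r (m + 1) = dig (Nat.div r 100) m := by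
          unfold dig
          rw [pow_succ', ← Nat.div_div_eq_div_mul]
          rfl
        rw [h4]; exact h3
    · rw [pow_succ', ← Nat.div_div_eq_div_mul]
      exact i2

/-- the entry `i` of the block `B` describes the rule number `k` of the table `(p, z, T)` -/
noncomputable def linkE (p z T B i k : ℕ) : Bool :=
  force (Nat.div T (Nat.pow 100 (Nat.mul (Nat.add p z) k))) fun r =>
  force (mask1 (entB B i) (gTab 0)) fun M1 =>
  force (mask0 (entB B i) (gTab 0)) fun M0 =>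
  Bool.and (dok (Nat.add p z) r) (lk M1 p r fun r' => lk M0 z r' fun _ => true)

theorem linkE_spec {p z T B i k : ℕ} (h : linkE p z T B i k = true) {S : SymSet}
    (hS : IsSymSet S) (hH : HitI (mask1 (entB B i) (gTab 0)) (mask0 (entB B i) (gTab 0)) S) :
    ViolatesRule S p z T k := by
  unfold linkE at h
  rw [force_eq, force_eq, force_eq, Bool.and_eq_true] at h
  obtain ⟨hd, h⟩ := h
  have hd := dok_spec _ _ hd
  obtain ⟨a1, a2⟩ := lk_spec _ p _ _ h
  obtain ⟨b1, -⟩ := lk_spec _ z _ _ a2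
  have e1 : ∀ m, dig (Nat.div T (Nat.pow 100 (Nat.mul (Nat.add p z) k))) m =
      digit T ((p + z) * k + m) := fun m => dig_digit T (p + z) k m
  constructor
  · intro m hm
    have h80 := hd m (by rw [add_eq']; omega)
    have h5 := a1 m hm
    have h6 := hH.1 _ (laneOf_lt _ h80) h5
    rw [laneSym_laneOf _ h80, e1] at h6
    rw [e1] at h80
    exact (decode_sub _ hS _ h80).2 h6
  · intro m hm
    have h80 := hd (p + m) (by rw [add_eq']; omega)
    have e2 : dig (Nat.div T (Nat.pow 100 (Nat.mul (Nat.add p z) k)) / 100 ^ p) m =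
        dig (Nat.div T (Nat.pow 100 (Nat.mul (Nat.add p z) k))) (p + m) := by
      unfold dig
      rw [pow_add, ← Nat.div_div_eq_div_mul]
    have h5 := b1 m hm
    rw [e2] at h5
    have h6 := hH.2 _ (laneOf_lt _ h80) h5
    rw [laneSym_laneOf _ h80, e1] at h6
    rw [e1] at h80
    exact fun h7 => h6 ((decode_sub _ hS _ h80).1 h7)

/-- `n` consecutive entries -/
noncomputable def linkL (p z T B n : ℕ) : ℕ → ℕ → Bool :=
  Nat.rec (motive := fun _ => ℕ → ℕ → Bool) (fun _ _ => true)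
    (fun _ ih i k => Bool.and (linkE p z T B i k) (ih (Nat.succ i) (Nat.succ k))) n

theorem linkL_spec (p z T B n : ℕ) : ∀ i k, linkL p z T B n i k = true → ∀ j, i ≤ j → j < i + n →
    ∀ S, IsSymSet S → HitI (mask1 (entB B j) (gTab 0)) (mask0 (entB B j) (gTab 0)) S →
    ∃ k' < k + n, ViolatesRule S p z T k' := by
  induction n with
  | zero => intro i k _ j h1 h2; omega
  | succ n ih =>
    intro i k h j h1 h2 S hS hH
    have e : linkL p z T B (n + 1) i k =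
        Bool.and (linkE p z T B i k) (linkL p z T B n (Nat.succ i) (Nat.succ k)) := rfl
    rw [e, Bool.and_eq_true] at h
    by_cases hj : j = i
    · subst hj
      exact ⟨k, by omega, linkE_spec h.1 hS hH⟩
    · obtain ⟨k', h3, h4⟩ := ih (Nat.succ i) (Nat.succ k) h.2 j
        (by simp only [Nat.succ_eq_add_one]; omega) (by simp only [Nat.succ_eq_add_one]; omega)
        S hS hH
      exact ⟨k', by simp only [Nat.succ_eq_add_one] at h3; omega, h4⟩

theorem seg0_0 : linkL 4 1 ruleT0 rR0 1 0 0 = true := by decide +kernel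
theorem seg0_1 : linkL 5 1 ruleT1 rR0 9 1 0 = true := by decide +kernel
theorem seg0_10 : linkL 5 2 ruleT2 rR0 9 10 0 = true := by decide +kernel
theorem seg0_19 : linkL 6 1 ruleT3 rR0 45 19 0 = true := by decide +kernel
theorem seg1_0 : linkL 6 1 ruleT3 rR1 64 0 45 = true := by decide +kernel
theorem seg2_0 : linkL 6 1 ruleT3 rR2 25 0 109 = true := by decide +kernel
theorem seg2_25 : linkL 6 2 ruleT4 rR2 39 25 0 = true := by decide +kernel
theorem seg3_0 : linkL 6 2 ruleT4 rR3 16 0 39 = true := by decide +kernel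
theorem seg3_16 : linkL 6 3 ruleT5 rR3 4 16 0 = true := by decide +kernel
theorem seg3_20 : linkL 7 1 ruleT6 rR3 44 20 0 = true := by decide +kernel
theorem seg4_0 : linkL 7 1 ruleT6 rR4 64 0 44 = true := by decide +kernel
theorem seg5_0 : linkL 7 1 ruleT6 rR5 64 0 108 = true := by decide +kernel
theorem seg6_0 : linkL 7 1 ruleT6 rR6 64 0 172 = true := by decide +kernel
theorem seg7_0 : linkL 7 1 ruleT6 rR7 64 0 236 = true := by decide +kernel
theorem seg8_0 : linkL 7 1 ruleT6 rR8 64 0 300 = true := by decide +kernel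
theorem seg9_0 : linkL 7 1 ruleT6 rR9 64 0 364 = true := by decide +kernel
theorem seg10_0 : linkL 7 1 ruleT6 rR10 57 0 428 = true := by decide +kernel
theorem seg10_57 : linkL 7 1 ruleT7 rR10 7 57 0 = true := by decide +kernel
theorem seg11_0 : linkL 7 1 ruleT7 rR11 64 0 7 = true := by decide +kernel
theorem seg12_0 : linkL 7 1 ruleT7 rR12 64 0 71 = true := by decide +kernel
theorem seg13_0 : linkL 7 1 ruleT7 rR13 64 0 135 = true := by decide +kernel
theorem seg14_0 : linkL 7 1 ruleT7 rR14 64 0 199 = true := by decide +kernel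
theorem seg15_0 : linkL 7 1 ruleT7 rR15 64 0 263 = true := by decide +kernel
theorem seg16_0 : linkL 7 1 ruleT7 rR16 64 0 327 = true := by decide +kernel
theorem seg17_0 : linkL 7 1 ruleT7 rR17 64 0 391 = true := by decide +kernel
theorem seg18_0 : linkL 7 1 ruleT7 rR18 30 0 455 = true := by decide +kernel
theorem seg18_30 : linkL 7 1 ruleT8 rR18 34 30 0 = true := by decide +kernel
theorem seg19_0 : linkL 7 1 ruleT8 rR19 64 0 34 = true := by decide +kernel
theorem seg20_0 : linkL 7 1 ruleT8 rR20 64 0 98 = true := by decide +kernel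
theorem seg21_0 : linkL 7 1 ruleT8 rR21 64 0 162 = true := by decide +kernel
theorem seg22_0 : linkL 7 1 ruleT8 rR22 64 0 226 = true := by decide +kernel
theorem seg23_0 : linkL 7 1 ruleT8 rR23 64 0 290 = true := by decide +kernel
theorem seg24_0 : linkL 7 1 ruleT8 rR24 64 0 354 = true := by decide +kernel
theorem seg25_0 : linkL 7 1 ruleT8 rR25 64 0 418 = true := by decide +kernel
theorem seg26_0 : linkL 7 1 ruleT8 rR26 3 0 482 = true := by decide +kernel
theorem seg26_3 : linkL 7 1 ruleT9 rR26 61 3 0 = true := by decide +kernel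
theorem seg27_0 : linkL 7 1 ruleT9 rR27 64 0 61 = true := by decide +kernel
theorem seg28_0 : linkL 7 1 ruleT9 rR28 64 0 125 = true := by decide +kernel
theorem seg29_0 : linkL 7 1 ruleT9 rR29 64 0 189 = true := by decide +kernel
theorem seg30_0 : linkL 7 1 ruleT9 rR30 64 0 253 = true := by decide +kernel
theorem seg31_0 : linkL 7 1 ruleT9 rR31 64 0 317 = true := by decide +kernel
theorem seg32_0 : linkL 7 1 ruleT9 rR32 64 0 381 = true := by decide +kernel
theorem seg33_0 : linkL 7 1 ruleT9 rR33 39 0 445 = true := by decide +kernel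
theorem seg33_39 : linkL 7 2 ruleT10 rR33 25 39 0 = true := by decide +kernel
theorem seg34_0 : linkL 7 2 ruleT10 rR34 40 0 25 = true := by decide +kernel
theorem seg34_40 : linkL 8 1 ruleT11 rR34 8 40 0 = true := by decide +kernel
theorem seg34_48 : linkL 8 2 ruleT12 rR34 1 48 0 = true := by decide +kernel
theorem seg34_49 : linkL 9 1 ruleT13 rR34 6 49 0 = true := by decide +kernel
theorem seg34_55 : linkL 9 2 ruleT14 rR34 8 55 0 = true := by decide +kernel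
theorem seg34_63 : linkL 10 1 ruleT15 rR34 1 63 0 = true := by decide +kernel

end Pool.Agent.GS.Ref

namespace Pool.Agent.GS

/-- the entry `e` describes a rule -/
def IsRuleEntry (e : ℕ) : Prop :=
  ∀ S, IsSymSet S → HitI (mask1 e (gTab 0)) (mask0 e (gTab 0)) S → Violates S

theorem viol_tab0 {S : SymSet} {k : ℕ} (hk : k < 1) (h : ViolatesRule S 4 1 ruleT0 k) :
    Violates S :=
  ⟨(4, 1, 1, ruleT0), by simp [ruleTab], k, hk, h⟩

theorem viol_tab1 {S : SymSet} {k : ℕ} (hk : k < 9) (h : ViolatesRule S 5 1 ruleT1 k) :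
    Violates S :=
  ⟨(5, 1, 9, ruleT1), by simp [ruleTab], k, hk, h⟩

theorem viol_tab2 {S : SymSet} {k : ℕ} (hk : k < 9) (h : ViolatesRule S 5 2 ruleT2 k) :
    Violates S :=
  ⟨(5, 2, 9, ruleT2), by simp [ruleTab], k, hk, h⟩

theorem viol_tab3 {S : SymSet} {k : ℕ} (hk : k < 134) (h : ViolatesRule S 6 1 ruleT3 k) :
    Violates S :=
  ⟨(6, 1, 134, ruleT3), by simp [ruleTab], k, hk, h⟩

theorem viol_tab4 {S : SymSet} {k : ℕ} (hk : k < 55) (h : ViolatesRule S 6 2 ruleT4 k) :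
    Violates S :=
  ⟨(6, 2, 55, ruleT4), by simp [ruleTab], k, hk, h⟩

theorem viol_tab5 {S : SymSet} {k : ℕ} (hk : k < 4) (h : ViolatesRule S 6 3 ruleT5 k) :
    Violates S :=
  ⟨(6, 3, 4, ruleT5), by simp [ruleTab], k, hk, h⟩

theorem viol_tab6 {S : SymSet} {k : ℕ} (hk : k < 485) (h : ViolatesRule S 7 1 ruleT6 k) :
    Violates S :=
  ⟨(7, 1, 485, ruleT6), by simp [ruleTab], k, hk, h⟩

theorem viol_tab7 {S : SymSet} {k : ℕ} (hk : k < 485) (h : ViolatesRule S 7 1 ruleT7 k) :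
    Violates S :=
  ⟨(7, 1, 485, ruleT7), by simp [ruleTab], k, hk, h⟩

theorem viol_tab8 {S : SymSet} {k : ℕ} (hk : k < 485) (h : ViolatesRule S 7 1 ruleT8 k) :
    Violates S :=
  ⟨(7, 1, 485, ruleT8), by simp [ruleTab], k, hk, h⟩

theorem viol_tab9 {S : SymSet} {k : ℕ} (hk : k < 484) (h : ViolatesRule S 7 1 ruleT9 k) :
    Violates S :=
  ⟨(7, 1, 484, ruleT9), by simp [ruleTab], k, hk, h⟩

theorem viol_tab10 {S : SymSet} {k : ℕ} (hk : k < 65) (h : ViolatesRule S 7 2 ruleT10 k) :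
    Violates S :=
  ⟨(7, 2, 65, ruleT10), by simp [ruleTab], k, hk, h⟩

theorem viol_tab11 {S : SymSet} {k : ℕ} (hk : k < 8) (h : ViolatesRule S 8 1 ruleT11 k) :
    Violates S :=
  ⟨(8, 1, 8, ruleT11), by simp [ruleTab], k, hk, h⟩

theorem viol_tab12 {S : SymSet} {k : ℕ} (hk : k < 1) (h : ViolatesRule S 8 2 ruleT12 k) :
    Violates S :=
  ⟨(8, 2, 1, ruleT12), by simp [ruleTab], k, hk, h⟩

theorem viol_tab13 {S : SymSet} {k : ℕ} (hk : k < 6) (h : ViolatesRule S 9 1 ruleT13 k) :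
    Violates S :=
  ⟨(9, 1, 6, ruleT13), by simp [ruleTab], k, hk, h⟩

theorem viol_tab14 {S : SymSet} {k : ℕ} (hk : k < 8) (h : ViolatesRule S 9 2 ruleT14 k) :
    Violates S :=
  ⟨(9, 2, 8, ruleT14), by simp [ruleTab], k, hk, h⟩

theorem viol_tab15 {S : SymSet} {k : ℕ} (hk : k < 1) (h : ViolatesRule S 10 1 ruleT15 k) :
    Violates S :=
  ⟨(10, 1, 1, ruleT15), by simp [ruleTab], k, hk, h⟩

theorem rR_ok_0 : ∀ i < 64, ∀ S, IsSymSet S →
    HitI (mask1 (entB rR0 i) (gTab 0)) (mask0 (entB rR0 i) (gTab 0)) S → Violates S := by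
  intro i hi S hS hH
  rcases Nat.lt_or_ge i 1 with h | h1
  · obtain ⟨k, h1, h2⟩ := Ref.linkL_spec _ _ _ _ _ _ _ Ref.seg0_0 i (Nat.zero_le i) h S hS hH
    exact viol_tab0 (by omega) h2
  rcases Nat.lt_or_ge i 10 with h | h10
  · obtain ⟨k, h1, h2⟩ := Ref.linkL_spec _ _ _ _ _ _ _ Ref.seg0_1 i h1 h S hS hH
    exact viol_tab1 (by omega) h2
  rcases Nat.lt_or_ge i 19 with h | h19
  · obtain ⟨k, h1, h2⟩ := Ref.linkL_spec _ _ _ _ _ _ _ Ref.seg0_10 i h10 h S hS hH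
    exact viol_tab2 (by omega) h2
  obtain ⟨k, h1, h2⟩ := Ref.linkL_spec _ _ _ _ _ _ _ Ref.seg0_19 i h19 hi S hS hH
  exact viol_tab3 (by omega) h2

theorem rR_ok_1 : ∀ i < 64, ∀ S, IsSymSet S →
    HitI (mask1 (entB rR1 i) (gTab 0)) (mask0 (entB rR1 i) (gTab 0)) S → Violates S := by
  intro i hi S hS hH
  obtain ⟨k, h1, h2⟩ := Ref.linkL_spec _ _ _ _ _ _ _ Ref.seg1_0 i (Nat.zero_le i) hi S hS hH
  exact viol_tab3 (by omega) h2

theorem rR_ok_2 : ∀ i < 64, ∀ S, IsSymSet S →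
    HitI (mask1 (entB rR2 i) (gTab 0)) (mask0 (entB rR2 i) (gTab 0)) S → Violates S := by
  intro i hi S hS hH
  rcases Nat.lt_or_ge i 25 with h | h25
  · obtain ⟨k, h1, h2⟩ := Ref.linkL_spec _ _ _ _ _ _ _ Ref.seg2_0 i (Nat.zero_le i) h S hS hH
    exact viol_tab3 (by omega) h2
  obtain ⟨k, h1, h2⟩ := Ref.linkL_spec _ _ _ _ _ _ _ Ref.seg2_25 i h25 hi S hS hH
  exact viol_tab4 (by omega) h2

theorem rR_ok_3 : ∀ i < 64, ∀ S, IsSymSet S →
    HitI (mask1 (entB rR3 i) (gTab 0)) (mask0 (entB rR3 i) (gTab 0)) S → Violates S := by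
  intro i hi S hS hH
  rcases Nat.lt_or_ge i 16 with h | h16
  · obtain ⟨k, h1, h2⟩ := Ref.linkL_spec _ _ _ _ _ _ _ Ref.seg3_0 i (Nat.zero_le i) h S hS hH
    exact viol_tab4 (by omega) h2
  rcases Nat.lt_or_ge i 20 with h | h20
  · obtain ⟨k, h1, h2⟩ := Ref.linkL_spec _ _ _ _ _ _ _ Ref.seg3_16 i h16 h S hS hH
    exact viol_tab5 (by omega) h2
  obtain ⟨k, h1, h2⟩ := Ref.linkL_spec _ _ _ _ _ _ _ Ref.seg3_20 i h20 hi S hS hH
  exact viol_tab6 (by omega) h2

theorem rR_ok_4 : ∀ i < 64, ∀ S, IsSymSet S →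
    HitI (mask1 (entB rR4 i) (gTab 0)) (mask0 (entB rR4 i) (gTab 0)) S → Violates S := by
  intro i hi S hS hH
  obtain ⟨k, h1, h2⟩ := Ref.linkL_spec _ _ _ _ _ _ _ Ref.seg4_0 i (Nat.zero_le i) hi S hS hH
  exact viol_tab6 (by omega) h2

theorem rR_ok_5 : ∀ i < 64, ∀ S, IsSymSet S →
    HitI (mask1 (entB rR5 i) (gTab 0)) (mask0 (entB rR5 i) (gTab 0)) S → Violates S := by
  intro i hi S hS hH
  obtain ⟨k, h1, h2⟩ := Ref.linkL_spec _ _ _ _ _ _ _ Ref.seg5_0 i (Nat.zero_le i) hi S hS hH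
  exact viol_tab6 (by omega) h2

theorem rR_ok_6 : ∀ i < 64, ∀ S, IsSymSet S →
    HitI (mask1 (entB rR6 i) (gTab 0)) (mask0 (entB rR6 i) (gTab 0)) S → Violates S := by
  intro i hi S hS hH
  obtain ⟨k, h1, h2⟩ := Ref.linkL_spec _ _ _ _ _ _ _ Ref.seg6_0 i (Nat.zero_le i) hi S hS hH
  exact viol_tab6 (by omega) h2

theorem rR_ok_7 : ∀ i < 64, ∀ S, IsSymSet S →
    HitI (mask1 (entB rR7 i) (gTab 0)) (mask0 (entB rR7 i) (gTab 0)) S → Violates S := by
  intro i hi S hS hH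
  obtain ⟨k, h1, h2⟩ := Ref.linkL_spec _ _ _ _ _ _ _ Ref.seg7_0 i (Nat.zero_le i) hi S hS hH
  exact viol_tab6 (by omega) h2

theorem rR_ok_8 : ∀ i < 64, ∀ S, IsSymSet S →
    HitI (mask1 (entB rR8 i) (gTab 0)) (mask0 (entB rR8 i) (gTab 0)) S → Violates S := by
  intro i hi S hS hH
  obtain ⟨k, h1, h2⟩ := Ref.linkL_spec _ _ _ _ _ _ _ Ref.seg8_0 i (Nat.zero_le i) hi S hS hH
  exact viol_tab6 (by omega) h2

theorem rR_ok_9 : ∀ i < 64, ∀ S, IsSymSet S →
    HitI (mask1 (entB rR9 i) (gTab 0)) (mask0 (entB rR9 i) (gTab 0)) S → Violates S := by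
  intro i hi S hS hH
  obtain ⟨k, h1, h2⟩ := Ref.linkL_spec _ _ _ _ _ _ _ Ref.seg9_0 i (Nat.zero_le i) hi S hS hH
  exact viol_tab6 (by omega) h2

theorem rR_ok_10 : ∀ i < 64, ∀ S, IsSymSet S →
    HitI (mask1 (entB rR10 i) (gTab 0)) (mask0 (entB rR10 i) (gTab 0)) S → Violates S := by
  intro i hi S hS hH
  rcases Nat.lt_or_ge i 57 with h | h57
  · obtain ⟨k, h1, h2⟩ := Ref.linkL_spec _ _ _ _ _ _ _ Ref.seg10_0 i (Nat.zero_le i) h S hS hH
    exact viol_tab6 (by omega) h2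
  obtain ⟨k, h1, h2⟩ := Ref.linkL_spec _ _ _ _ _ _ _ Ref.seg10_57 i h57 hi S hS hH
  exact viol_tab7 (by omega) h2

theorem rR_ok_11 : ∀ i < 64, ∀ S, IsSymSet S →
    HitI (mask1 (entB rR11 i) (gTab 0)) (mask0 (entB rR11 i) (gTab 0)) S → Violates S := by
  intro i hi S hS hH
  obtain ⟨k, h1, h2⟩ := Ref.linkL_spec _ _ _ _ _ _ _ Ref.seg11_0 i (Nat.zero_le i) hi S hS hH
  exact viol_tab7 (by omega) h2

theorem rR_ok_12 : ∀ i < 64, ∀ S, IsSymSet S →
    HitI (mask1 (entB rR12 i) (gTab 0)) (mask0 (entB rR12 i) (gTab 0)) S → Violates S := by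
  intro i hi S hS hH
  obtain ⟨k, h1, h2⟩ := Ref.linkL_spec _ _ _ _ _ _ _ Ref.seg12_0 i (Nat.zero_le i) hi S hS hH
  exact viol_tab7 (by omega) h2

theorem rR_ok_13 : ∀ i < 64, ∀ S, IsSymSet S →
    HitI (mask1 (entB rR13 i) (gTab 0)) (mask0 (entB rR13 i) (gTab 0)) S → Violates S := by
  intro i hi S hS hH
  obtain ⟨k, h1, h2⟩ := Ref.linkL_spec _ _ _ _ _ _ _ Ref.seg13_0 i (Nat.zero_le i) hi S hS hH
  exact viol_tab7 (by omega) h2

theorem rR_ok_14 : ∀ i < 64, ∀ S, IsSymSet S →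
    HitI (mask1 (entB rR14 i) (gTab 0)) (mask0 (entB rR14 i) (gTab 0)) S → Violates S := by
  intro i hi S hS hH
  obtain ⟨k, h1, h2⟩ := Ref.linkL_spec _ _ _ _ _ _ _ Ref.seg14_0 i (Nat.zero_le i) hi S hS hH
  exact viol_tab7 (by omega) h2

theorem rR_ok_15 : ∀ i < 64, ∀ S, IsSymSet S →
    HitI (mask1 (entB rR15 i) (gTab 0)) (mask0 (entB rR15 i) (gTab 0)) S → Violates S := by
  intro i hi S hS hH
  obtain ⟨k, h1, h2⟩ := Ref.linkL_spec _ _ _ _ _ _ _ Ref.seg15_0 i (Nat.zero_le i) hi S hS hH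
  exact viol_tab7 (by omega) h2

theorem rR_ok_16 : ∀ i < 64, ∀ S, IsSymSet S →
    HitI (mask1 (entB rR16 i) (gTab 0)) (mask0 (entB rR16 i) (gTab 0)) S → Violates S := by
  intro i hi S hS hH
  obtain ⟨k, h1, h2⟩ := Ref.linkL_spec _ _ _ _ _ _ _ Ref.seg16_0 i (Nat.zero_le i) hi S hS hH
  exact viol_tab7 (by omega) h2

theorem rR_ok_17 : ∀ i < 64, ∀ S, IsSymSet S →
    HitI (mask1 (entB rR17 i) (gTab 0)) (mask0 (entB rR17 i) (gTab 0)) S → Violates S := by
  intro i hi S hS hH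
  obtain ⟨k, h1, h2⟩ := Ref.linkL_spec _ _ _ _ _ _ _ Ref.seg17_0 i (Nat.zero_le i) hi S hS hH
  exact viol_tab7 (by omega) h2

theorem rR_ok_18 : ∀ i < 64, ∀ S, IsSymSet S →
    HitI (mask1 (entB rR18 i) (gTab 0)) (mask0 (entB rR18 i) (gTab 0)) S → Violates S := by
  intro i hi S hS hH
  rcases Nat.lt_or_ge i 30 with h | h30
  · obtain ⟨k, h1, h2⟩ := Ref.linkL_spec _ _ _ _ _ _ _ Ref.seg18_0 i (Nat.zero_le i) h S hS hH
    exact viol_tab7 (by omega) h2
  obtain ⟨k, h1, h2⟩ := Ref.linkL_spec _ _ _ _ _ _ _ Ref.seg18_30 i h30 hi S hS hH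
  exact viol_tab8 (by omega) h2

theorem rR_ok_19 : ∀ i < 64, ∀ S, IsSymSet S →
    HitI (mask1 (entB rR19 i) (gTab 0)) (mask0 (entB rR19 i) (gTab 0)) S → Violates S := by
  intro i hi S hS hH
  obtain ⟨k, h1, h2⟩ := Ref.linkL_spec _ _ _ _ _ _ _ Ref.seg19_0 i (Nat.zero_le i) hi S hS hH
  exact viol_tab8 (by omega) h2

theorem rR_ok_20 : ∀ i < 64, ∀ S, IsSymSet S →
    HitI (mask1 (entB rR20 i) (gTab 0)) (mask0 (entB rR20 i) (gTab 0)) S → Violates S := by
  intro i hi S hS hH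
  obtain ⟨k, h1, h2⟩ := Ref.linkL_spec _ _ _ _ _ _ _ Ref.seg20_0 i (Nat.zero_le i) hi S hS hH
  exact viol_tab8 (by omega) h2

theorem rR_ok_21 : ∀ i < 64, ∀ S, IsSymSet S →
    HitI (mask1 (entB rR21 i) (gTab 0)) (mask0 (entB rR21 i) (gTab 0)) S → Violates S := by
  intro i hi S hS hH
  obtain ⟨k, h1, h2⟩ := Ref.linkL_spec _ _ _ _ _ _ _ Ref.seg21_0 i (Nat.zero_le i) hi S hS hH
  exact viol_tab8 (by omega) h2

theorem rR_ok_22 : ∀ i < 64, ∀ S, IsSymSet S →
    HitI (mask1 (entB rR22 i) (gTab 0)) (mask0 (entB rR22 i) (gTab 0)) S → Violates S := by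
  intro i hi S hS hH
  obtain ⟨k, h1, h2⟩ := Ref.linkL_spec _ _ _ _ _ _ _ Ref.seg22_0 i (Nat.zero_le i) hi S hS hH
  exact viol_tab8 (by omega) h2

theorem rR_ok_23 : ∀ i < 64, ∀ S, IsSymSet S →
    HitI (mask1 (entB rR23 i) (gTab 0)) (mask0 (entB rR23 i) (gTab 0)) S → Violates S := by
  intro i hi S hS hH
  obtain ⟨k, h1, h2⟩ := Ref.linkL_spec _ _ _ _ _ _ _ Ref.seg23_0 i (Nat.zero_le i) hi S hS hH
  exact viol_tab8 (by omega) h2

theorem rR_ok_24 : ∀ i < 64, ∀ S, IsSymSet S →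
    HitI (mask1 (entB rR24 i) (gTab 0)) (mask0 (entB rR24 i) (gTab 0)) S → Violates S := by
  intro i hi S hS hH
  obtain ⟨k, h1, h2⟩ := Ref.linkL_spec _ _ _ _ _ _ _ Ref.seg24_0 i (Nat.zero_le i) hi S hS hH
  exact viol_tab8 (by omega) h2

theorem rR_ok_25 : ∀ i < 64, ∀ S, IsSymSet S →
    HitI (mask1 (entB rR25 i) (gTab 0)) (mask0 (entB rR25 i) (gTab 0)) S → Violates S := by
  intro i hi S hS hH
  obtain ⟨k, h1, h2⟩ := Ref.linkL_spec _ _ _ _ _ _ _ Ref.seg25_0 i (Nat.zero_le i) hi S hS hH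
  exact viol_tab8 (by omega) h2

theorem rR_ok_26 : ∀ i < 64, ∀ S, IsSymSet S →
    HitI (mask1 (entB rR26 i) (gTab 0)) (mask0 (entB rR26 i) (gTab 0)) S → Violates S := by
  intro i hi S hS hH
  rcases Nat.lt_or_ge i 3 with h | h3
  · obtain ⟨k, h1, h2⟩ := Ref.linkL_spec _ _ _ _ _ _ _ Ref.seg26_0 i (Nat.zero_le i) h S hS hH
    exact viol_tab8 (by omega) h2
  obtain ⟨k, h1, h2⟩ := Ref.linkL_spec _ _ _ _ _ _ _ Ref.seg26_3 i h3 hi S hS hH
  exact viol_tab9 (by omega) h2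

theorem rR_ok_27 : ∀ i < 64, ∀ S, IsSymSet S →
    HitI (mask1 (entB rR27 i) (gTab 0)) (mask0 (entB rR27 i) (gTab 0)) S → Violates S := by
  intro i hi S hS hH
  obtain ⟨k, h1, h2⟩ := Ref.linkL_spec _ _ _ _ _ _ _ Ref.seg27_0 i (Nat.zero_le i) hi S hS hH
  exact viol_tab9 (by omega) h2

theorem rR_ok_28 : ∀ i < 64, ∀ S, IsSymSet S →
    HitI (mask1 (entB rR28 i) (gTab 0)) (mask0 (entB rR28 i) (gTab 0)) S → Violates S := by
  intro i hi S hS hH
  obtain ⟨k, h1, h2⟩ := Ref.linkL_spec _ _ _ _ _ _ _ Ref.seg28_0 i (Nat.zero_le i) hi S hS hH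
  exact viol_tab9 (by omega) h2

theorem rR_ok_29 : ∀ i < 64, ∀ S, IsSymSet S →
    HitI (mask1 (entB rR29 i) (gTab 0)) (mask0 (entB rR29 i) (gTab 0)) S → Violates S := by
  intro i hi S hS hH
  obtain ⟨k, h1, h2⟩ := Ref.linkL_spec _ _ _ _ _ _ _ Ref.seg29_0 i (Nat.zero_le i) hi S hS hH
  exact viol_tab9 (by omega) h2

theorem rR_ok_30 : ∀ i < 64, ∀ S, IsSymSet S →
    HitI (mask1 (entB rR30 i) (gTab 0)) (mask0 (entB rR30 i) (gTab 0)) S → Violates S := by
  intro i hi S hS hH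
  obtain ⟨k, h1, h2⟩ := Ref.linkL_spec _ _ _ _ _ _ _ Ref.seg30_0 i (Nat.zero_le i) hi S hS hH
  exact viol_tab9 (by omega) h2

theorem rR_ok_31 : ∀ i < 64, ∀ S, IsSymSet S →
    HitI (mask1 (entB rR31 i) (gTab 0)) (mask0 (entB rR31 i) (gTab 0)) S → Violates S := by
  intro i hi S hS hH
  obtain ⟨k, h1, h2⟩ := Ref.linkL_spec _ _ _ _ _ _ _ Ref.seg31_0 i (Nat.zero_le i) hi S hS hH
  exact viol_tab9 (by omega) h2

theorem rR_ok_32 : ∀ i < 64, ∀ S, IsSymSet S →
    HitI (mask1 (entB rR32 i) (gTab 0)) (mask0 (entB rR32 i) (gTab 0)) S → Violates S := by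
  intro i hi S hS hH
  obtain ⟨k, h1, h2⟩ := Ref.linkL_spec _ _ _ _ _ _ _ Ref.seg32_0 i (Nat.zero_le i) hi S hS hH
  exact viol_tab9 (by omega) h2

theorem rR_ok_33 : ∀ i < 64, ∀ S, IsSymSet S →
    HitI (mask1 (entB rR33 i) (gTab 0)) (mask0 (entB rR33 i) (gTab 0)) S → Violates S := by
  intro i hi S hS hH
  rcases Nat.lt_or_ge i 39 with h | h39
  · obtain ⟨k, h1, h2⟩ := Ref.linkL_spec _ _ _ _ _ _ _ Ref.seg33_0 i (Nat.zero_le i) h S hS hH
    exact viol_tab9 (by omega) h2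
  obtain ⟨k, h1, h2⟩ := Ref.linkL_spec _ _ _ _ _ _ _ Ref.seg33_39 i h39 hi S hS hH
  exact viol_tab10 (by omega) h2

theorem rR_ok_34 : ∀ i < 64, ∀ S, IsSymSet S →
    HitI (mask1 (entB rR34 i) (gTab 0)) (mask0 (entB rR34 i) (gTab 0)) S → Violates S := by
  intro i hi S hS hH
  rcases Nat.lt_or_ge i 40 with h | h40
  · obtain ⟨k, h1, h2⟩ := Ref.linkL_spec _ _ _ _ _ _ _ Ref.seg34_0 i (Nat.zero_le i) h S hS hH
    exact viol_tab10 (by omega) h2
  rcases Nat.lt_or_ge i 48 with h | h48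
  · obtain ⟨k, h1, h2⟩ := Ref.linkL_spec _ _ _ _ _ _ _ Ref.seg34_40 i h40 h S hS hH
    exact viol_tab11 (by omega) h2
  rcases Nat.lt_or_ge i 49 with h | h49
  · obtain ⟨k, h1, h2⟩ := Ref.linkL_spec _ _ _ _ _ _ _ Ref.seg34_48 i h48 h S hS hH
    exact viol_tab12 (by omega) h2
  rcases Nat.lt_or_ge i 55 with h | h55
  · obtain ⟨k, h1, h2⟩ := Ref.linkL_spec _ _ _ _ _ _ _ Ref.seg34_49 i h49 h S hS hH
    exact viol_tab13 (by omega) h2
  rcases Nat.lt_or_ge i 63 with h | h63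
  · obtain ⟨k, h1, h2⟩ := Ref.linkL_spec _ _ _ _ _ _ _ Ref.seg34_55 i h55 h S hS hH
    exact viol_tab14 (by omega) h2
  obtain ⟨k, h1, h2⟩ := Ref.linkL_spec _ _ _ _ _ _ _ Ref.seg34_63 i h63 hi S hS hH
  exact viol_tab15 (by omega) h2

/-- all blocks -/
def rRBlocks : List ℕ :=
  [rR0, rR1, rR2, rR3, rR4, rR5, rR6, rR7, rR8, rR9, rR10, rR11, rR12, rR13, rR14, rR15, rR16, rR17, rR18, rR19, rR20, rR21, rR22, rR23, rR24, rR25, rR26, rR27, rR28, rR29, rR30, rR31, rR32, rR33, rR34]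

/-- every entry of every block describes an inference rule -/
theorem rR_link (B : ℕ) (hB : B ∈ rRBlocks) (i : ℕ) (hi : i < 64) : IsRuleEntry (entB B i) := by
  simp only [rRBlocks, List.mem_cons, List.not_mem_nil, or_false] at hB
  rcases hB with rfl | rfl | rfl | rfl | rfl | rfl | rfl | rfl | rfl | rfl | rfl | rfl | rfl | rfl | rfl | rfl | rfl | rfl | rfl | rfl | rfl | rfl | rfl | rfl | rfl | rfl | rfl | rfl | rfl | rfl | rfl | rfl | rfl | rfl | rfl
  · exact rR_ok_0 i hi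
  · exact rR_ok_1 i hi
  · exact rR_ok_2 i hi
  · exact rR_ok_3 i hi
  · exact rR_ok_4 i hi
  · exact rR_ok_5 i hi
  · exact rR_ok_6 i hi
  · exact rR_ok_7 i hi
  · exact rR_ok_8 i hi
  · exact rR_ok_9 i hi
  · exact rR_ok_10 i hi
  · exact rR_ok_11 i hi
  · exact rR_ok_12 i hi
  · exact rR_ok_13 i hi
  · exact rR_ok_14 i hi
  · exact rR_ok_15 i hi
  · exact rR_ok_16 i hi
  · exact rR_ok_17 i hi
  · exact rR_ok_18 i hi
  · exact rR_ok_19 i hi
  · exact rR_ok_20 i hi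
  · exact rR_ok_21 i hi
  · exact rR_ok_22 i hi
  · exact rR_ok_23 i hi
  · exact rR_ok_24 i hi
  · exact rR_ok_25 i hi
  · exact rR_ok_26 i hi
  · exact rR_ok_27 i hi
  · exact rR_ok_28 i hi
  · exact rR_ok_29 i hi
  · exact rR_ok_30 i hi
  · exact rR_ok_31 i hi
  · exact rR_ok_32 i hi
  · exact rR_ok_33 i hi
  · exact rR_ok_34 i hi

end Pool.Agent.GS
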