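import Pool.Agent.GS.RunS
import Pool.Agent.GS.K.NodeTab

/-!
All nodes of the node table are settled.
-/

set_option autoImplicit false

namespace Pool.Agent.GS

theorem nodes_ok (T : TablesOK) : ∀ m < 4096, ClaimCode (nodeTab m) := by
  intro m hm
  have h1 : m >>> 6 < 64 := by
    rw [Nat.shiftRight_eq_div_pow]
    omega
  have h2 : m &&& 63 < 64 := by
    have := Nat.and_two_pow_sub_one_eq_mod m 6
    norm_num at this
    rw [this]
    exact Nat.mod_lt _ (by norm_num)
  obtain ⟨s, hs⟩ := nBlk_ok (m >>> 6) h1 (m &&& 63) h2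
  exact chunkRun_sound T hs

end Pool.Agent.GS
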