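import Pool.Agent.GS.TabOK
import Pool.Agent.GS.NodesOK
import Pool.Agent.GS.Final
import Pool.Agent.GS.K.N.Top

/-!
The classification.
-/

set_option autoImplicit false

namespace Pool.Agent.GS

theorem classification : ∀ S : SymSet, Representable S ↔
    (IsSymSet S ∧ Orientable S ∧ ∀ (π : Equiv.Perm (Fin 5)) (d : Bool), ¬ Violates (img π d S)) :=
  final_of_root (root_sound tablesOK nodeTab (nodes_ok tablesOK) Tree.top_ok)

end Pool.Agent.GS
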