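import Pool.Agent.GS.PatDefs

/-!
Soundness of the refuter of non-orientable patterns.
-/

set_option autoImplicit false

namespace Pool.Agent.GS

/-- the sign of every symbol is possible in the state `st` -/
def Good (st : ℕ) (ε : Fin 5 → Fin 5 → Finset (Fin 5) → SignType) : Prop :=
  ∀ s < 80, st.testBit (3 * s + sc (sg ε s)) = true

/-! ### bits -/

theorem land_eq (a b : ℕ) : Nat.land a b = a &&& b := rfl
theorem lor_eq (a b : ℕ) : Nat.lor a b = a ||| b := rfl
theorem xor_eq (a b : ℕ) : Nat.xor a b = a ^^^ b := rfl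
theorem shr_eq (a b : ℕ) : Nat.shiftRight a b = a >>> b := rfl
theorem shl_eq (a b : ℕ) : Nat.shiftLeft a b = a <<< b := rfl

theorem bit1_eq (x i : ℕ) : bit1 x i = x.testBit i := by
  unfold bit1
  rw [land_eq, shr_eq, Nat.testBit]
  have h : (x >>> i) &&& 1 = (x >>> i) % 2 := Nat.and_one_is_mod _
  have h' : 1 &&& (x >>> i) = (x >>> i) % 2 := by rw [Nat.and_comm, h]
  show Nat.beq ((x >>> i) &&& 1) 1 = (1 &&& (x >>> i) != 0)
  rw [h, h']
  rcases Nat.mod_two_eq_zero_or_one (x >>> i) with h0 | h0 <;> rw [h0] <;> rfl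

theorem dm_eq (st s : ℕ) : dm st s = (st >>> (3 * s)) &&& 7 := rfl

theorem dm_lt (st s : ℕ) : dm st s < 8 := by
  rw [dm_eq]
  have := Nat.and_two_pow_sub_one_eq_mod (st >>> (3 * s)) 3
  norm_num at this
  rw [this]
  exact Nat.mod_lt _ (by norm_num)

theorem dm_testBit (st s v : ℕ) (hv : v < 3) : (dm st s).testBit v = st.testBit (3 * s + v) := by
  rw [dm_eq, Nat.testBit_and, Nat.testBit_shiftRight]
  have : (7 : ℕ).testBit v = true := by interval_cases v <;> decide
  rw [this, Bool.and_true]

theorem rmv_eq (st s v : ℕ) : rmv st s v = st ^^^ (1 <<< (3 * s + v)) := rfl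

theorem asg_eq (st s v : ℕ) : asg st s v = st ^^^ ((dm st s ^^^ (1 <<< v)) <<< (3 * s)) := rfl

theorem good_rmv {st s v : ℕ} {ε : Fin 5 → Fin 5 → Finset (Fin 5) → SignType} (h : Good st ε)
    (hv : v < 3) (hne : s < 80 → sc (sg ε s) ≠ v) : Good (rmv st s v) ε := by
  intro s' hs'
  rw [rmv_eq, Nat.testBit_xor, h s' hs', Nat.one_shiftLeft, Nat.testBit_two_pow]
  have h3 := sc_lt (sg ε s')
  have : ¬ (3 * s + v = 3 * s' + sc (sg ε s')) := by
    intro he
    have hss : s = s' := by omega
    subst hss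
    exact hne hs' (by omega)
  simp [this]

theorem one_shl_lt (v : ℕ) (hv : v < 3) : 1 <<< v < 8 := by
  interval_cases v <;> decide

theorem asg_testBit_same (st s v c : ℕ) (hc : c < 3) :
    (asg st s v).testBit (3 * s + c) = decide (v = c) := by
  rw [asg_eq, Nat.testBit_xor, Nat.testBit_shiftLeft, Nat.testBit_xor, ← dm_testBit st s c hc,
    Nat.one_shiftLeft]
  have : 3 * s + c - 3 * s = c := by omega
  rw [this, Nat.testBit_two_pow]
  have h2 : decide (3 * s + c ≥ 3 * s) = true := by simp
  rw [h2]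
  cases (dm st s).testBit c <;> simp

theorem asg_testBit_ne (st s v s' c : ℕ) (hv : v < 3) (hc : c < 3) (hs : s' ≠ s) :
    (asg st s v).testBit (3 * s' + c) = st.testBit (3 * s' + c) := by
  rw [asg_eq, Nat.testBit_xor, Nat.testBit_shiftLeft]
  have hlt : dm st s ^^^ (1 <<< v) < 2 ^ 3 := Nat.xor_lt_two_pow (dm_lt st s) (one_shl_lt v hv)
  by_cases hge : 3 * s' + c ≥ 3 * s
  · have : (dm st s ^^^ (1 <<< v)).testBit (3 * s' + c - 3 * s) = false := by
      apply Nat.testBit_lt_two_pow
      refine lt_of_lt_of_le hlt (Nat.pow_le_pow_right (by norm_num) ?_)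
      omega
    rw [this]; simp
  · simp [hge]

theorem good_asg {st s v : ℕ} {ε : Fin 5 → Fin 5 → Finset (Fin 5) → SignType} (h : Good st ε)
    (hv : v < 3) (he : s < 80 → sc (sg ε s) = v) : Good (asg st s v) ε := by
  intro s' hs'
  by_cases hss : s' = s
  · subst hss
    rw [asg_testBit_same _ _ _ _ (sc_lt _), he hs']
    simp
  · rw [asg_testBit_ne _ _ _ _ _ hv (sc_lt _) hss]
    exact h s' hs'

/-! ### relations -/

/-- number of the symbol `(i, j, K)` or `(j, i, K)` -/
def cod (i j : Fin 5) (K : Finset (Fin 5)) : ℕ := symIdx (min i j) (max i j) K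

def relOf (r : ℕ) : Fin 5 × Fin 5 × Fin 5 × Finset (Fin 5) × Fin 3 :=
  relData.getD r (0, 1, 2, ∅, 0)

theorem relTab_ok : ∀ r < 512,
    (relOf r).1 ≠ (relOf r).2.1 ∧ (relOf r).1 ≠ (relOf r).2.2.1 ∧
    (relOf r).2.1 ≠ (relOf r).2.2.1 ∧ (relOf r).1 ∉ (relOf r).2.2.2.1 ∧
    (relOf r).2.1 ∉ (relOf r).2.2.2.1 ∧ (relOf r).2.2.1 ∉ (relOf r).2.2.2.1 ∧
    sy (ent r) 0 = cod (relOf r).1 (relOf r).2.1 (relOf r).2.2.2.1 ∧
    sy (ent r) 1 = cod (relOf r).1 (relOf r).2.1 (insert (relOf r).2.2.1 (relOf r).2.2.2.1) ∧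
    sy (ent r) 2 = cod (relOf r).1 (relOf r).2.2.1
      (if (relOf r).2.2.2.2 = 2 then insert (relOf r).2.1 (relOf r).2.2.2.1 else (relOf r).2.2.2.1) ∧
    sy (ent r) 3 = cod (relOf r).2.1 (relOf r).2.2.1
      (if (relOf r).2.2.2.2 = 0 then (relOf r).2.2.2.1 else insert (relOf r).1 (relOf r).2.2.2.1) ∧
    (sy (ent r) 0 < 80 ∧ sy (ent r) 1 < 80 ∧ sy (ent r) 2 < 80 ∧ sy (ent r) 3 < 80) := by
  decide +kernel

theorem sg_cod {S : SymSet} {ε : Fin 5 → Fin 5 → Finset (Fin 5) → SignType}
    (h : IsOrientation S ε) {i j : Fin 5} {K : Finset (Fin 5)} (hv : Valid i j K) :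
    sg ε (cod i j K) = ε i j K := by
  unfold sg cod
  rcases lt_or_gt_of_ne hv.1 with h' | h'
  · rw [min_eq_left h'.le, max_eq_right h'.le, (symOf_symIdx i j K hv h').2]
  · rw [min_eq_right h'.le, max_eq_left h'.le, (symOf_symIdx j i K hv.symm h').2]
    exact h.1 j i K

theorem rel_ok {S : SymSet} {ε : Fin 5 → Fin 5 → Finset (Fin 5) → SignType}
    (h : IsOrientation S ε) (r : ℕ) (hr : r < 512) :
    Bal (-(sg ε (sy (ent r) 0))) (sg ε (sy (ent r) 1))
      (sg ε (sy (ent r) 2) * sg ε (sy (ent r) 3)) := by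
  obtain ⟨hij, hik, hjk, hi, hj, hk, e0, e1, e2, e3, -⟩ := relTab_ok r hr
  generalize (relOf r).1 = i at *
  generalize (relOf r).2.1 = j at *
  generalize (relOf r).2.2.1 = k at *
  generalize (relOf r).2.2.2.1 = L at *
  generalize (relOf r).2.2.2.2 = t at *
  have v0 : Valid i j L := ⟨hij, hi, hj⟩
  have v1 : Valid i j (insert k L) := ⟨hij, by simp [hik, hi], by simp [hjk, hj]⟩
  have v2 : Valid i k (if t = 2 then insert j L else L) := by
    split_ifs
    · exact ⟨hik, by simp [hij, hi], by simp [hjk.symm, hk]⟩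
    · exact ⟨hik, hi, hk⟩
  have v3 : Valid j k (if t = 0 then L else insert i L) := by
    split_ifs
    · exact ⟨hjk, hj, hk⟩
    · exact ⟨hjk, by simp [hij.symm, hj], by simp [hik.symm, hk]⟩
  rw [e0, e1, e2, e3, sg_cod h v0, sg_cod h v1, sg_cod h v2, sg_cod h v3]
  obtain ⟨b0, b1, b2⟩ := h.2.2 i j k L hij hik hjk hi hj hk
  fin_cases t
  · simpa using b0
  · simpa using b1
  · simpa using b2

/-! ### tables -/

theorem prd_ok : ∀ a < 8, ∀ b < 8, ∀ x y : SignType, a.testBit (sc x) = true →
    b.testBit (sc y) = true → (prd a b).testBit (sc (x * y)) = true := by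
  decide +kernel

theorem prd_lt : ∀ a < 8, ∀ b < 8, prd a b < 8 := by
  decide +kernel

def BlcP (a b c : ℕ) : Prop := ∀ x y z : SignType, Bal (-x) y z → a.testBit (sc x) = true →
    b.testBit (sc y) = true → c.testBit (sc z) = true → blc a b c = true

instance (a b c : ℕ) : Decidable (BlcP a b c) := by unfold BlcP; infer_instance

theorem blc_ok' : ∀ a < 8, ∀ b < 8, ∀ c < 8, BlcP a b c := by
  decide +kernel

theorem blc_ok (a : ℕ) (ha : a < 8) (b : ℕ) (hb : b < 8) (c : ℕ) (hc : c < 8)
    (x y z : SignType) (h1 : a.testBit (sc x) = true) (h2 : b.testBit (sc y) = true)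
    (h3 : c.testBit (sc z) = true) (h : Bal (-x) y z) : blc a b c = true :=
  blc_ok' a ha b hb c hc x y z h h1 h2 h3

theorem dsel_ok {st e p v q : ℕ} {ε : Fin 5 → Fin 5 → Finset (Fin 5) → SignType}
    (h : Good st ε) (hs : sy e q < 80) (hv : sc (sg ε (sy e p)) = v) :
    dsel st e p v q < 8 ∧ (dsel st e p v q).testBit (sc (sg ε (sy e q))) = true := by
  unfold dsel
  by_cases hpq : p = q
  · subst hpq
    rw [Nat.beq_refl]
    show Nat.shiftLeft 1 v < 8 ∧ (Nat.shiftLeft 1 v).testBit _ = true
    rw [shl_eq, ← hv]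
    refine ⟨one_shl_lt _ (sc_lt _), ?_⟩
    rw [Nat.one_shiftLeft, Nat.testBit_two_pow]
    simp
  · have : Nat.beq p q = false := by
      cases hb : Nat.beq p q
      · rfl
      · exact absurd (Nat.eq_of_beq_eq_true hb) hpq
    rw [this]
    show dm st (sy e q) < 8 ∧ (dm st (sy e q)).testBit _ = true
    exact ⟨dm_lt _ _, by rw [dm_testBit _ _ _ (sc_lt _)]; exact h _ hs⟩

theorem possQ_ok {S : SymSet} {ε : Fin 5 → Fin 5 → Finset (Fin 5) → SignType}
    (ho : IsOrientation S ε) {st r p v : ℕ} (h : Good st ε) (hr : r < 512)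
    (hv : sc (sg ε (sy (ent r) p)) = v) : possQ st (ent r) p v = true := by
  obtain ⟨-, -, -, -, -, -, -, -, -, -, l0, l1, l2, l3⟩ := relTab_ok r hr
  have hb := rel_ok ho r hr
  obtain ⟨a0, b0⟩ := dsel_ok (p := p) (v := v) h l0 hv
  obtain ⟨a1, b1⟩ := dsel_ok (p := p) (v := v) h l1 hv
  obtain ⟨a2, b2⟩ := dsel_ok (p := p) (v := v) h l2 hv
  obtain ⟨a3, b3⟩ := dsel_ok (p := p) (v := v) h l3 hv
  unfold possQ
  exact blc_ok _ a0 _ a1 _ (prd_lt _ a2 _ a3) _ _ _ b0 b1 (prd_ok _ a2 _ a3 _ _ b2 b3) hb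

/-! ### the machine -/

/-- no orientation is compatible with the state -/
def BadSt (S : SymSet) (st : ℕ) : Prop :=
  ∀ ε, IsOrientation S ε → ¬ Good st ε

theorem tR_lt (t : ℕ) : tR t < 512 := by
  show (t >>> 1) &&& 511 < 512
  have := Nat.and_two_pow_sub_one_eq_mod (t >>> 1) 9
  norm_num at this
  rw [this]
  exact Nat.mod_lt _ (by norm_num)

theorem tV_lt (t : ℕ) : tV t < 3 := Nat.mod_lt _ (by norm_num)
theorem tW_lt (t : ℕ) : tW t < 3 := Nat.mod_lt _ (by norm_num)

theorem tP_lt (t : ℕ) : tP t < 4 := by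
  show (t >>> 10) &&& 3 < 4
  have := Nat.and_two_pow_sub_one_eq_mod (t >>> 10) 2
  norm_num at this
  rw [this]
  exact Nat.mod_lt _ (by norm_num)

theorem sy_lt (r p : ℕ) (hr : r < 512) (hp : p < 4) : sy (ent r) p < 80 := by
  obtain ⟨-, -, -, -, -, -, -, -, -, -, l0, l1, l2, l3⟩ := relTab_ok r hr
  interval_cases p <;> assumption

theorem run_sound (k : ℕ → Bool) (S : SymSet) (fuel : ℕ) : ∀ (st : ℕ) (stk : List ℕ) (c : ℕ),
    run k fuel st stk c = true →
      BadSt S st ∧ (∀ st' ∈ stk, BadSt S st') ∧ ∃ c', k c' = true := by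
  induction fuel with
  | zero => intro st stk c h; exact absurd h (by simp [run])
  | succ n ih =>
    intro st stk c h
    have h1 : step (run k n) k st stk (nxt c) (tok c) = true := h
    clear h
    generalize nxt c = c1 at h1
    generalize tok c = t at h1
    unfold step at h1
    cases hb : Nat.beq (Nat.land t (nat_lit 1)) (nat_lit 1) with
    | true =>
      rw [hb] at h1
      have h2 : branch (run k n) st stk c1 (tS t) (tW t) = true := h1
      unfold branch at h2
      obtain ⟨g1, g2, g3⟩ := ih _ _ _ h2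
      refine ⟨?_, fun st' hst' => g2 st' (List.mem_cons_of_mem _ hst'), g3⟩
      intro ε hε hG
      by_cases hc : tS t < 80 → sc (sg ε (tS t)) = tW t
      · exact g1 ε hε (good_asg hG (tW_lt t) hc)
      · push Not at hc
        exact g2 _ List.mem_cons_self ε hε (good_rmv hG (tW_lt t) (fun _ => hc.2))
    | false =>
      rw [hb] at h1
      have h2 : derive (run k n) k st stk c1 (ent (tR t)) (tP t) (tV t) = true := h1
      unfold derive at h2
      cases hp : possQ st (ent (tR t)) (tP t) (tV t) with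
      | true => rw [hp] at h2; exact absurd h2 (by simp)
      | false =>
        rw [hp] at h2
        have hG' : ∀ ε, IsOrientation S ε → Good st ε →
            Good (rmv st (sy (ent (tR t)) (tP t)) (tV t)) ε := by
          intro ε hε hG
          refine good_rmv hG (tV_lt t) (fun _ he => ?_)
          have := possQ_ok hε hG (tR_lt t) he
          rw [hp] at this
          exact absurd this (by simp)
        cases hz : Nat.beq (dm (rmv st (sy (ent (tR t)) (tP t)) (tV t)) (sy (ent (tR t)) (tP t)))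
            (nat_lit 0) with
        | false =>
          rw [hz] at h2
          obtain ⟨g1, g2, g3⟩ := ih _ _ _ h2
          exact ⟨fun ε hε hG => g1 ε hε (hG' ε hε hG), g2, g3⟩
        | true =>
          rw [hz] at h2
          have h3 : pop (run k n) k stk c1 = true := h2
          have hbad : BadSt S st := by
            intro ε hε hG
            have h4 := hG' ε hε hG _ (sy_lt _ _ (tR_lt t) (tP_lt t))
            rw [← dm_testBit _ _ _ (sc_lt _), Nat.eq_of_beq_eq_true hz] at h4
            exact absurd h4 (by simp)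
          cases stk with
          | nil => exact ⟨hbad, by simp, c1, h3⟩
          | cons a l =>
            obtain ⟨g1, g2, g3⟩ := ih _ _ _ h3
            refine ⟨hbad, ?_, g3⟩
            intro st' hst'
            rcases List.mem_cons.mp hst' with rfl | hst'
            · exact g1
            · exact g2 _ hst'

/-! ### the initial state -/

def iniD (o z s : ℕ) : ℕ := if o.testBit s then 2 else if z.testBit s then 5 else 7

theorem iniD_lt (o z s : ℕ) : iniD o z s < 8 := by
  unfold iniD; split_ifs <;> norm_num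

theorem ini_succ (o z n : ℕ) : ini o z (n + 1) = ini o z n ||| (iniD o z n <<< (3 * n)) := by
  have h1 : ini o z (n + 1) = Nat.lor (ini o z n)
    (Nat.shiftLeft (Bool.rec (Bool.rec (nat_lit 7) (nat_lit 5) (bit1 z n)) (nat_lit 2)
      (bit1 o n)) (Nat.mul (nat_lit 3) n)) := rfl
  rw [h1, bit1_eq, bit1_eq, lor_eq, shl_eq]
  unfold iniD
  cases o.testBit n <;> cases z.testBit n <;> rfl

theorem ini_lt (o z n : ℕ) : ini o z n < 2 ^ (3 * n) := by
  induction n with
  | zero => exact Nat.one_pos
  | succ n ih =>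
    rw [ini_succ]
    apply Nat.or_lt_two_pow
    · exact lt_of_lt_of_le ih (Nat.pow_le_pow_right (by norm_num) (by omega))
    · rw [Nat.shiftLeft_eq]
      have := iniD_lt o z n
      calc iniD o z n * 2 ^ (3 * n) < 8 * 2 ^ (3 * n) :=
            Nat.mul_lt_mul_of_pos_right this (by positivity)
        _ = 2 ^ (3 * (n + 1)) := by rw [Nat.mul_add, Nat.pow_add]; ring

theorem ini_testBit (o z n s v : ℕ) (hs : s < n) (hv : v < 3) :
    (ini o z n).testBit (3 * s + v) = (iniD o z s).testBit v := by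
  induction n with
  | zero => omega
  | succ n ih =>
    rw [ini_succ, Nat.testBit_or, Nat.testBit_shiftLeft]
    rcases Nat.lt_succ_iff_lt_or_eq.mp hs with h | h
    · rw [ih h]
      have : ¬ (3 * s + v ≥ 3 * n) := by omega
      simp [this]
    · subst h
      have h1 : (ini o z s).testBit (3 * s + v) = false := by
        apply Nat.testBit_lt_two_pow
        exact lt_of_lt_of_le (ini_lt o z s) (Nat.pow_le_pow_right (by norm_num) (by omega))
      have h2 : 3 * s + v - 3 * s = v := by omega
      rw [h1, h2]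
      simp

/-! ### reorientation -/

def fs (a i : Fin 5) : SignType := if i = a then -1 else 1

/-- change the signs at `a` -/
def flip (a : Fin 5) (ε : Fin 5 → Fin 5 → Finset (Fin 5) → SignType) :
    Fin 5 → Fin 5 → Finset (Fin 5) → SignType :=
  fun i j K => fs a i * fs a j * ε i j K

theorem fs_cases (a i : Fin 5) : fs a i = 1 ∨ fs a i = -1 := by
  unfold fs; split_ifs <;> simp

theorem bal_flip : ∀ x y z w fi fj fk : SignType, (fi = 1 ∨ fi = -1) → (fj = 1 ∨ fj = -1) →
    (fk = 1 ∨ fk = -1) → Bal (-x) y (z * w) →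
    Bal (-(fi * fj * x)) (fi * fj * y) ((fi * fk * z) * (fj * fk * w)) := by
  decide +kernel

theorem flip_zero : ∀ x fi fj : SignType, (fi = 1 ∨ fi = -1) → (fj = 1 ∨ fj = -1) →
    (fi * fj * x = 0 ↔ x = 0) := by
  decide +kernel

theorem isOrientation_flip {S : SymSet} {ε : Fin 5 → Fin 5 → Finset (Fin 5) → SignType}
    (h : IsOrientation S ε) (a : Fin 5) : IsOrientation S (flip a ε) := by
  refine ⟨?_, ?_, ?_⟩
  · intro i j K
    show fs a i * fs a j * ε i j K = fs a j * fs a i * ε j i K
    rw [h.1 i j K, mul_comm (fs a i)]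
  · intro i j K hv
    show fs a i * fs a j * ε i j K = 0 ↔ _
    rw [flip_zero _ _ _ (fs_cases a i) (fs_cases a j)]
    exact h.2.1 i j K hv
  · intro i j k L hij hik hjk hi hj hk
    obtain ⟨b0, b1, b2⟩ := h.2.2 i j k L hij hik hjk hi hj hk
    exact ⟨bal_flip _ _ _ _ _ _ _ (fs_cases a i) (fs_cases a j) (fs_cases a k) b0,
      bal_flip _ _ _ _ _ _ _ (fs_cases a i) (fs_cases a j) (fs_cases a k) b1,
      bal_flip _ _ _ _ _ _ _ (fs_cases a i) (fs_cases a j) (fs_cases a k) b2⟩

theorem epm_lt (s : ℕ) : epm s < 32 := by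
  show (epTab >>> (5 * (s / 8))) &&& 31 < 32
  have := Nat.and_two_pow_sub_one_eq_mod (epTab >>> (5 * (s / 8))) 5
  norm_num at this
  rw [this]
  exact Nat.mod_lt _ (by norm_num)

theorem epm_ok : ∀ s < 80, ∀ a : Fin 5, ((epm s).testBit a.val = true ↔
    ((symOf s).1 = a ∨ (symOf s).2.1 = a)) := by
  decide +kernel

theorem sg_flip (a : Fin 5) (ε : Fin 5 → Fin 5 → Finset (Fin 5) → SignType) (s : ℕ)
    (hs : s < 80) :
    sg (flip a ε) s = if (epm s).testBit a.val = true then - sg ε s else sg ε s := by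
  have h1 := symOf_spec s hs
  have h2 := epm_ok s hs a
  have h3 : (symOf s).1 ≠ (symOf s).2.1 := ne_of_lt h1.2.1
  show fs a (symOf s).1 * fs a (symOf s).2.1 * sg ε s = _
  unfold fs
  by_cases ha : (symOf s).1 = a
  · have hb : (symOf s).2.1 ≠ a := fun hb => h3 (ha.trans hb.symm)
    rw [if_pos (h2.mpr (Or.inl ha)), if_pos ha, if_neg hb]
    simp
  · by_cases hb : (symOf s).2.1 = a
    · rw [if_pos (h2.mpr (Or.inr hb)), if_neg ha, if_pos hb]
      simp
    · have : ¬ ((epm s).testBit a.val = true) := by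
        rw [h2]; push Not; exact ⟨ha, hb⟩
      rw [if_neg this, if_neg ha, if_neg hb]
      simp

/-- symbols with a non-symmetric domain have both end points in `used` -/
def SymSt (st used : ℕ) : Prop :=
  ∀ s < 80, st.testBit (3 * s) = st.testBit (3 * s + 2) ∨
    ∀ a : Fin 5, (epm s).testBit a.val = true → used.testBit a.val = true

theorem sc_neg (x : SignType) : sc (-x) = 2 - sc x := by
  revert x; decide

theorem good_flip {st used : ℕ} {ε : Fin 5 → Fin 5 → Finset (Fin 5) → SignType} (a : Fin 5)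
    (hG : Good st ε) (hS : SymSt st used) (ha : used.testBit a.val = false) :
    Good st (flip a ε) := by
  intro s hs
  rw [sg_flip a ε s hs]
  split_ifs with h
  · rcases hS s hs with h1 | h1
    · have h2 := hG s hs
      rw [sc_neg]
      have h3 := sc_lt (sg ε s)
      generalize sc (sg ε s) = v at h2 h3
      interval_cases v
      · simpa [← h1] using h2
      · exact h2
      · simpa [h1] using h2
    · rw [h1 a h] at ha
      exact absurd ha (by simp)
  · exact hG s hs

theorem head_sound (go : ℕ → ℕ → Bool) (z : ℕ) (S : SymSet)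
    (hz : ∀ s < 80, z.testBit s = true → symOf s ∉ S) (m : ℕ) :
    ∀ (used st c : ℕ) (ε : Fin 5 → Fin 5 → Finset (Fin 5) → SignType), IsOrientation S ε →
      Good st ε → SymSt st used → head go z m used st c = true →
      ∃ (ε' : Fin 5 → Fin 5 → Finset (Fin 5) → SignType) (st' c' : ℕ), IsOrientation S ε' ∧
        Good st' ε' ∧ go st' c' = true := by
  induction m with
  | zero => intro used st c ε ho hG _ h; exact ⟨ε, st, c, ho, hG, h⟩
  | succ m ih =>
    intro used st c ε ho hG hS h
    have h1 : ((bit1 z (Nat.land c (nat_lit 127))).and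
      ((Nat.ble (Nat.land c (nat_lit 127)) (nat_lit 79)).and
      ((bit1 (epm (Nat.land c (nat_lit 127))) (Nat.land (Nat.shiftRight c (nat_lit 7)) (nat_lit 7))).and
      ((bit1 used (Nat.land (Nat.shiftRight c (nat_lit 7)) (nat_lit 7))).not)))).and
      (head go z m (Nat.lor used (epm (Nat.land c (nat_lit 127))))
        (asg st (Nat.land c (nat_lit 127)) (nat_lit 0)) (Nat.shiftRight c (nat_lit 10))) = true := h
    generalize Nat.land c (nat_lit 127) = s at h1
    generalize Nat.land (Nat.shiftRight c (nat_lit 7)) (nat_lit 7) = a at h1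
    rw [Bool.and_eq_true, Bool.and_eq_true, Bool.and_eq_true, Bool.and_eq_true, bit1_eq, bit1_eq,
      bit1_eq, Bool.not_eq_true'] at h1
    obtain ⟨⟨hzs, hs, hea, hua⟩, h2⟩ := h1
    have hs80 : s < 80 := Nat.lt_succ_of_le (Nat.le_of_ble_eq_true hs)
    have ha5 : a < 5 := by
      by_contra hcon
      have : (epm s).testBit a = false := by
        apply Nat.testBit_lt_two_pow
        exact lt_of_lt_of_le (epm_lt s)
          (le_trans (by norm_num) (Nat.pow_le_pow_right (by norm_num) (not_lt.mp hcon)))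
      rw [this] at hea
      exact absurd hea (by simp)
    have hne : sg ε s ≠ 0 := by
      intro h0
      exact hz s hs80 hzs ((ho.2.1 _ _ _ (symOf_spec s hs80).1).mp h0)
    obtain ⟨ε1, ho1, hG1, he1⟩ : ∃ ε1, IsOrientation S ε1 ∧ Good st ε1 ∧ sg ε1 s = 1 := by
      rcases (show ∀ x : SignType, x = 0 ∨ x = 1 ∨ x = -1 by decide) (sg ε s) with h0 | h0 | h0
      · exact absurd h0 hne
      · exact ⟨ε, ho, hG, h0⟩
      · refine ⟨flip ⟨a, ha5⟩ ε, isOrientation_flip ho _, good_flip _ hG hS hua, ?_⟩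
        rw [sg_flip _ _ _ hs80, if_pos hea, h0]
        rfl
    refine ih _ _ _ ε1 ho1 (good_asg hG1 (by norm_num) (fun _ => by rw [he1]; rfl)) ?_ h2
    intro s' hs'
    by_cases hss : s' = s
    · right
      intro b hb
      subst hss
      rw [lor_eq, Nat.testBit_or, hb, Bool.or_true]
    · rcases hS s' hs' with h3 | h3
      · left
        have e0 := asg_testBit_ne st s 0 s' 0 (by norm_num) (by norm_num) hss
        have e2 := asg_testBit_ne st s 0 s' 2 (by norm_num) (by norm_num) hss
        rw [Nat.add_zero] at e0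
        rw [e0, e2, h3]
      · right
        intro b hb
        rw [lor_eq, Nat.testBit_or, h3 b hb, Bool.true_or]

theorem head_run (go : ℕ → ℕ → Bool) (z : ℕ) (m : ℕ) : ∀ (used st c : ℕ),
    head go z m used st c = true → ∃ st' c', go st' c' = true := by
  induction m with
  | zero => intro used st c h; exact ⟨st, c, h⟩
  | succ m ih =>
    intro used st c h
    exact ih _ _ _ ((Bool.and_eq_true _ _).mp h).2

theorem patRun_sound {fuel o z c : ℕ} {k : ℕ → Bool} (h : patRun fuel o z c k = true) :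
    PatInvalid o z ∧ ∃ c', k c' = true := by
  have key : ∀ S, Orientable S → (∀ s < 80, o.testBit s = true → symOf s ∈ S) →
      (∀ s < 80, z.testBit s = true → symOf s ∉ S) → False := by
    intro S hO h1 h2
    obtain ⟨ε, hε⟩ := hO
    have hG : Good (ini o z (nat_lit 80)) ε := by
      intro s hs
      rw [ini_testBit o z 80 s _ hs (sc_lt _)]
      have hv := (symOf_spec s hs).1
      have hz := hε.2.1 _ _ _ hv
      unfold iniD
      split_ifs with ho' hz'
      · have : sg ε s = 0 := hz.mpr (h1 s hs ho')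
        rw [this]; decide
      · have : sg ε s ≠ 0 := fun h0 => h2 s hs hz' (hz.mp h0)
        revert this
        generalize sg ε s = x
        revert x; decide
      · generalize sg ε s = x
        revert x; decide
    have hS : SymSt (ini o z (nat_lit 80)) (nat_lit 0) := by
      intro s hs
      left
      have e0 := ini_testBit o z 80 s 0 hs (by norm_num)
      have e2 := ini_testBit o z 80 s 2 hs (by norm_num)
      rw [Nat.add_zero] at e0
      show (ini o z 80).testBit (3 * s) = (ini o z 80).testBit (3 * s + 2)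
      rw [e0, e2]
      unfold iniD
      split_ifs <;> decide
    obtain ⟨ε', st', c', ho', hG', hgo⟩ := head_sound _ z S h2 _ _ _ _ ε hε hG hS h
    exact (run_sound k S fuel st' [] c' hgo).1 ε' ho' hG'
  refine ⟨fun S _ hO hc => key S hO hc.1 hc.2, ?_⟩
  obtain ⟨st', c', hgo⟩ := head_run _ _ _ _ _ _ h
  exact (run_sound k ∅ fuel st' [] c' hgo).2.2

/-- the `n`-th entry of a table of patterns: symbols contained, symbols avoided -/
def ruleO (R n : ℕ) : ℕ := lo80 (Nat.shiftRight R (Nat.mul (nat_lit 160) n))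
def ruleZ (R n : ℕ) : ℕ :=
  lo80 (Nat.shiftRight (Nat.shiftRight R (Nat.mul (nat_lit 160) n)) (nat_lit 80))

theorem patAll_sound (fuel : ℕ) (n : ℕ) : ∀ (R c : ℕ), patAll n fuel R c = true →
    ∀ i < n, PatInvalid (ruleO R i) (ruleZ R i) := by
  induction n with
  | zero => intro R c _ i hi; omega
  | succ n ih =>
    intro R c h i hi
    have h1 : patRun fuel (lo80 R) (lo80 (Nat.shiftRight R (nat_lit 80))) c
      (fun c' => patAll n fuel (Nat.shiftRight R (nat_lit 160)) c') = true := h
    obtain ⟨h2, c', h3⟩ := patRun_sound h1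
    cases i with
    | zero =>
      have e : Nat.shiftRight R (Nat.mul (nat_lit 160) 0) = R := rfl
      unfold ruleO ruleZ
      rw [e]
      exact h2
    | succ i =>
      have h4 := ih _ _ h3 i (by omega)
      have e : ruleO R (i + 1) = ruleO (Nat.shiftRight R (nat_lit 160)) i ∧
          ruleZ R (i + 1) = ruleZ (Nat.shiftRight R (nat_lit 160)) i := by
        have : Nat.shiftRight R (Nat.mul (nat_lit 160) (i + 1)) =
            Nat.shiftRight (Nat.shiftRight R (nat_lit 160)) (Nat.mul (nat_lit 160) i) := by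
          show R >>> (160 * (i + 1)) = (R >>> 160) >>> (160 * i)
          rw [← Nat.shiftRight_add]
          congr 1
          ring
        unfold ruleO ruleZ
        rw [this]
        exact ⟨rfl, rfl⟩
      rw [e.1, e.2]
      exact h4

end Pool.Agent.GS
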