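import Pool.Agent.GS.Base
import Pool.Agent.GS.K.Ref

/-!
Refutation of non-orientable patterns. The state of the checker is a number with three binary digits
for each of the 80 symbols (digit `3 s + v`: the sign with code `v` is still possible for symbol `s`;
codes: `0` plus, `1` zero, `2` minus). The certificate is a stream of tokens of 14 binary digits.
-/

set_option autoImplicit false
set_option linter.unusedVariables false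

namespace Pool.Agent.GS

/-- no orientable set contains the symbols with digits in `o` and avoids those with digits in `z` -/
def PatInvalid (o z : ℕ) : Prop :=
  ∀ S, IsSymSet S → Orientable S → ¬ ((∀ s < 80, o.testBit s = true → symOf s ∈ S) ∧
    (∀ s < 80, z.testBit s = true → symOf s ∉ S))

/-- the sign of the symbol with number `s` -/
def sg (ε : Fin 5 → Fin 5 → Finset (Fin 5) → SignType) (s : ℕ) : SignType :=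
  ε (symOf s).1 (symOf s).2.1 (symOf s).2.2

/-- code of a sign -/
def sc (x : SignType) : ℕ := if x = 1 then 0 else if x = 0 then 1 else 2

theorem sc_lt (x : SignType) : sc x < 3 := by
  revert x; decide

theorem sc_inj : ∀ x y : SignType, sc x = sc y → x = y := by decide

/-! ### tables -/

/-- the relations: entry `r` (28 digits) has the four symbols of relation `r` -/
def relTab : ℕ := nat_lit 0x402008040200804020080402008040200804020080402008040200804020080402008040200804020080402008040200804020080402008040200804020080402008040200804020080402008040200804020080402008040200804020080402008040200804020080402008040200807f0e7cb7d0a74a7b066c979026485ece7cd5cca74c5ac65c958c25482e6e7ce2c6a6cc2a665ca28624c87f2e3c37d2a3427b262c179222404ed63c54cd23444ac61c148c21401e763c61c722c41a661c218620c05f35bb35d31b325b25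ab15921a304f15bb54d11b344b059b149019300e79bb60c71ab40a699b208618b02f38f9b2d30f1a2b28e992920e181f18f9d1d10f1c1b08d991900d180ed8f9e0cd0e9c0ac8d9a08c0c988eee7cb8efe7cb86ee7cb8cea74a8cfa74a84ea74a8ae66c98af66c982e66c988e264888f264880e26486eae7cd6ebe7cd66ae7cd6caa74c6cba74c64aa74c6aa65c96ab65c962a65c968a254868b254860a25483e4e7ce3e5e7ce364e7ce3c4a6cc3c5a6cc344a6cc3a465ca3a565ca32465ca38424c838524c830424c88f2dfbb8d29f3a8b25eb98921e384eb5fbd4cb1f3c46a5db944a1d381e55fbe1c51ebc1645dba1441cb86f357ab6d3172a6b256a969216284ef57ad4cf172c46e55a944e15280e597ae0c516ac06495aa04414a83f38b933d30b123b28a913920a101ef8b951cf0b1416e899114e09100eb8b960cb0a9406a899204a08909eee3c39efe3c396ee3c39cea3429cfa34294ea3429ae62c19af62c192e62c198e224098f224090e22406e8e3c56e9e3c56a8e3c56c8a3446c9a344688a34466861c166961c162861c164821406492140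60821403e2e3c63e3e3c63a2e3c63c2a2c43c3a2c4382a2c436261c236361c232261c234220c034320c030220c09f0dfbb9f1dfbb970dfbb9d09f3a9d19f3a9509f3a9b05eb99b15eb99305eb99901e389911e389101e385e95fbd5e9dfbd5a95fbd5c91f3c5c99f3c5891f3c5685db9568ddb95285db95481d385489d385081d382e35fbe2e3dfbe2a35fbe2c31ebc2c39ebc2831ebc2625dba262ddba2225dba2421cb82429cb82021cb86f153a36d1132267052a165012205ef53a55cf132456e51a154e11200e393a60a312a406291a202210a03f1878b3d1070a370868935006082ef878d2cf070c26e858924e05080e9878e0a9068c068858a02804889eadbb39ebdbb39aadbb39ca9b329cb9b3298a9b3296a5ab196b5ab192a5ab194a1a3094b1a3090a1a308e8dbb58e9dbb58a8dbb58c89b348c99b348889b3486859b186959b182859b18481930849193080819303e0dbb63e1dbb63c0dbb63a09ab43a19ab43809ab436059b236159b234059b232018b032118b030018b09ecd7ab9edd7ab9acd7ab9cc972a9cd972a98c972a96c56a996d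56a992c56a994c162894d162890c16287e957ad7e9d7ad7a957ad7c9172c7c9972c789172c76855a9768d5a972855a97481528748952870815282e157ae2e1d7ae2c157ae2a116ac2a196ac28116ac26055aa260d5aa24055aa22014a822094a820014a88ed53a38edd3a38ad53a38cd13228cd932288d132286c52a186cd2a182c52a184c122084c922080c12207eb53a57ebd3a57ab53a57cb13247cb932478b132476a51a176ad1a172a51a174a112074a912070a11201e193a61e1d3a61c193a61a112a41a152a418112a416091a2160d1a214091a212010a012050a010010a03ed83833ad030236c828132c02002eb83852ab030426a818122a01001e983861a90284168818212800809e4cf9b9e5cf9b9c4cf9b9a48f1a9a58f1a9848f1a9644e999654e999444e999240e189250e189040e188e2cf9d8e3cf9d8c2cf9d8a28f1c8a38f1c8828f1c8624d998634d998424d998220d188230d188020d186e0cf9e6e1cf9e6c0cf9e6a08e9c6a18e9c6808e9c6604d9a6614d9a6404d9a6200c986210c986000c989e6cb939e7cb939c6cb939a68b1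29a78b129868b129664a919674a919464a919260a109270a109060a107e34b957e3cb957c34b957a30b147a38b147830b147624991762c99174249917220910722891070209105e14b965e1cb965c14b965a10a945a18a945810a945604992560c99254049925200890520889050008908e7478b8e7c78b8c7478b8a7070a8a7870a887070a8664689866c68984646898260608826860880606087e5478d7e5c78d7c5478d7a5070c7a5870c785070c7644589764c58974445897240508724850870405084e1878e4e1c78e4c1878e4a1068c4a1468c481068c460858a460c58a440858a4200488420448840004886e783836e7c3836c783836a703026a7430268703026668281666c28164682816260200626420060602005e583855e5c3855c583855a503045a5430458503045648181564c18154481815240100524410050401004e383864e3c3864c383864a302844a3428448302844628182462c1824428182422008042240804020080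

/-- end points of the pair of symbol `s`, five digits for `s / 8` -/
def epTab : ℕ := nat_lit 0x314649468a4a3

def relData : List (Fin 5 × Fin 5 × Fin 5 × Finset (Fin 5) × Fin 3) :=
  [(0, 1, 2, ∅, 0), (0, 1, 2, ∅, 2), (0, 1, 2, ∅, 1), (0, 1, 2, {3}, 0),
   (0, 1, 2, {3}, 2), (0, 1, 2, {3}, 1), (0, 1, 2, {4}, 0), (0, 1, 2, {4}, 2),
   (0, 1, 2, {4}, 1), (0, 1, 2, {3, 4}, 0), (0, 1, 2, {3, 4}, 2), (0, 1, 2, {3, 4}, 1),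
   (0, 1, 3, ∅, 0), (0, 1, 3, ∅, 2), (0, 1, 3, ∅, 1), (0, 1, 3, {2}, 0),
   (0, 1, 3, {2}, 2), (0, 1, 3, {2}, 1), (0, 1, 3, {4}, 0), (0, 1, 3, {4}, 2),
   (0, 1, 3, {4}, 1), (0, 1, 3, {2, 4}, 0), (0, 1, 3, {2, 4}, 2), (0, 1, 3, {2, 4}, 1),
   (0, 1, 4, ∅, 0), (0, 1, 4, ∅, 2), (0, 1, 4, ∅, 1), (0, 1, 4, {2}, 0),
   (0, 1, 4, {2}, 2), (0, 1, 4, {2}, 1), (0, 1, 4, {3}, 0), (0, 1, 4, {3}, 2),
   (0, 1, 4, {3}, 1), (0, 1, 4, {2, 3}, 0), (0, 1, 4, {2, 3}, 2), (0, 1, 4, {2, 3}, 1),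
   (0, 2, 1, ∅, 0), (0, 2, 1, ∅, 2), (0, 2, 1, ∅, 1), (0, 2, 1, {3}, 0),
   (0, 2, 1, {3}, 2), (0, 2, 1, {3}, 1), (0, 2, 1, {4}, 0), (0, 2, 1, {4}, 2),
   (0, 2, 1, {4}, 1), (0, 2, 1, {3, 4}, 0), (0, 2, 1, {3, 4}, 2), (0, 2, 1, {3, 4}, 1),
   (0, 2, 3, ∅, 0), (0, 2, 3, ∅, 2), (0, 2, 3, ∅, 1), (0, 2, 3, {1}, 0),
   (0, 2, 3, {1}, 2), (0, 2, 3, {1}, 1), (0, 2, 3, {4}, 0), (0, 2, 3, {4}, 2),
   (0, 2, 3, {4}, 1), (0, 2, 3, {1, 4}, 0), (0, 2, 3, {1, 4}, 2), (0, 2, 3, {1, 4}, 1),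
   (0, 2, 4, ∅, 0), (0, 2, 4, ∅, 2), (0, 2, 4, ∅, 1), (0, 2, 4, {1}, 0),
   (0, 2, 4, {1}, 2), (0, 2, 4, {1}, 1), (0, 2, 4, {3}, 0), (0, 2, 4, {3}, 2),
   (0, 2, 4, {3}, 1), (0, 2, 4, {1, 3}, 0), (0, 2, 4, {1, 3}, 2), (0, 2, 4, {1, 3}, 1),
   (0, 3, 1, ∅, 0), (0, 3, 1, ∅, 2), (0, 3, 1, ∅, 1), (0, 3, 1, {2}, 0),
   (0, 3, 1, {2}, 2), (0, 3, 1, {2}, 1), (0, 3, 1, {4}, 0), (0, 3, 1, {4}, 2),
   (0, 3, 1, {4}, 1), (0, 3, 1, {2, 4}, 0), (0, 3, 1, {2, 4}, 2), (0, 3, 1, {2, 4}, 1),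
   (0, 3, 2, ∅, 0), (0, 3, 2, ∅, 2), (0, 3, 2, ∅, 1), (0, 3, 2, {1}, 0),
   (0, 3, 2, {1}, 2), (0, 3, 2, {1}, 1), (0, 3, 2, {4}, 0), (0, 3, 2, {4}, 2),
   (0, 3, 2, {4}, 1), (0, 3, 2, {1, 4}, 0), (0, 3, 2, {1, 4}, 2), (0, 3, 2, {1, 4}, 1),
   (0, 3, 4, ∅, 0), (0, 3, 4, ∅, 2), (0, 3, 4, ∅, 1), (0, 3, 4, {1}, 0),
   (0, 3, 4, {1}, 2), (0, 3, 4, {1}, 1), (0, 3, 4, {2}, 0), (0, 3, 4, {2}, 2),
   (0, 3, 4, {2}, 1), (0, 3, 4, {1, 2}, 0), (0, 3, 4, {1, 2}, 2), (0, 3, 4, {1, 2}, 1),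
   (0, 4, 1, ∅, 0), (0, 4, 1, ∅, 2), (0, 4, 1, ∅, 1), (0, 4, 1, {2}, 0),
   (0, 4, 1, {2}, 2), (0, 4, 1, {2}, 1), (0, 4, 1, {3}, 0), (0, 4, 1, {3}, 2),
   (0, 4, 1, {3}, 1), (0, 4, 1, {2, 3}, 0), (0, 4, 1, {2, 3}, 2), (0, 4, 1, {2, 3}, 1),
   (0, 4, 2, ∅, 0), (0, 4, 2, ∅, 2), (0, 4, 2, ∅, 1), (0, 4, 2, {1}, 0),
   (0, 4, 2, {1}, 2), (0, 4, 2, {1}, 1), (0, 4, 2, {3}, 0), (0, 4, 2, {3}, 2),
   (0, 4, 2, {3}, 1), (0, 4, 2, {1, 3}, 0), (0, 4, 2, {1, 3}, 2), (0, 4, 2, {1, 3}, 1),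
   (0, 4, 3, ∅, 0), (0, 4, 3, ∅, 2), (0, 4, 3, ∅, 1), (0, 4, 3, {1}, 0),
   (0, 4, 3, {1}, 2), (0, 4, 3, {1}, 1), (0, 4, 3, {2}, 0), (0, 4, 3, {2}, 2),
   (0, 4, 3, {2}, 1), (0, 4, 3, {1, 2}, 0), (0, 4, 3, {1, 2}, 2), (0, 4, 3, {1, 2}, 1),
   (1, 0, 2, ∅, 1), (1, 0, 2, {3}, 1), (1, 0, 2, {4}, 1), (1, 0, 2, {3, 4}, 1),
   (1, 0, 3, ∅, 1), (1, 0, 3, {2}, 1), (1, 0, 3, {4}, 1), (1, 0, 3, {2, 4}, 1),
   (1, 0, 4, ∅, 1), (1, 0, 4, {2}, 1), (1, 0, 4, {3}, 1), (1, 0, 4, {2, 3}, 1),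
   (1, 2, 0, ∅, 0), (1, 2, 0, ∅, 2), (1, 2, 0, ∅, 1), (1, 2, 0, {3}, 0),
   (1, 2, 0, {3}, 2), (1, 2, 0, {3}, 1), (1, 2, 0, {4}, 0), (1, 2, 0, {4}, 2),
   (1, 2, 0, {4}, 1), (1, 2, 0, {3, 4}, 0), (1, 2, 0, {3, 4}, 2), (1, 2, 0, {3, 4}, 1),
   (1, 2, 3, ∅, 0), (1, 2, 3, ∅, 2), (1, 2, 3, ∅, 1), (1, 2, 3, {0}, 0),
   (1, 2, 3, {0}, 2), (1, 2, 3, {0}, 1), (1, 2, 3, {4}, 0), (1, 2, 3, {4}, 2),
   (1, 2, 3, {4}, 1), (1, 2, 3, {0, 4}, 0), (1, 2, 3, {0, 4}, 2), (1, 2, 3, {0, 4}, 1),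
   (1, 2, 4, ∅, 0), (1, 2, 4, ∅, 2), (1, 2, 4, ∅, 1), (1, 2, 4, {0}, 0),
   (1, 2, 4, {0}, 2), (1, 2, 4, {0}, 1), (1, 2, 4, {3}, 0), (1, 2, 4, {3}, 2),
   (1, 2, 4, {3}, 1), (1, 2, 4, {0, 3}, 0), (1, 2, 4, {0, 3}, 2), (1, 2, 4, {0, 3}, 1),
   (1, 3, 0, ∅, 0), (1, 3, 0, ∅, 2), (1, 3, 0, ∅, 1), (1, 3, 0, {2}, 0),
   (1, 3, 0, {2}, 2), (1, 3, 0, {2}, 1), (1, 3, 0, {4}, 0), (1, 3, 0, {4}, 2),
   (1, 3, 0, {4}, 1), (1, 3, 0, {2, 4}, 0), (1, 3, 0, {2, 4}, 2), (1, 3, 0, {2, 4}, 1),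
   (1, 3, 2, ∅, 0), (1, 3, 2, ∅, 2), (1, 3, 2, ∅, 1), (1, 3, 2, {0}, 0),
   (1, 3, 2, {0}, 2), (1, 3, 2, {0}, 1), (1, 3, 2, {4}, 0), (1, 3, 2, {4}, 2),
   (1, 3, 2, {4}, 1), (1, 3, 2, {0, 4}, 0), (1, 3, 2, {0, 4}, 2), (1, 3, 2, {0, 4}, 1),
   (1, 3, 4, ∅, 0), (1, 3, 4, ∅, 2), (1, 3, 4, ∅, 1), (1, 3, 4, {0}, 0),
   (1, 3, 4, {0}, 2), (1, 3, 4, {0}, 1), (1, 3, 4, {2}, 0), (1, 3, 4, {2}, 2),
   (1, 3, 4, {2}, 1), (1, 3, 4, {0, 2}, 0), (1, 3, 4, {0, 2}, 2), (1, 3, 4, {0, 2}, 1),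
   (1, 4, 0, ∅, 0), (1, 4, 0, ∅, 2), (1, 4, 0, ∅, 1), (1, 4, 0, {2}, 0),
   (1, 4, 0, {2}, 2), (1, 4, 0, {2}, 1), (1, 4, 0, {3}, 0), (1, 4, 0, {3}, 2),
   (1, 4, 0, {3}, 1), (1, 4, 0, {2, 3}, 0), (1, 4, 0, {2, 3}, 2), (1, 4, 0, {2, 3}, 1),
   (1, 4, 2, ∅, 0), (1, 4, 2, ∅, 2), (1, 4, 2, ∅, 1), (1, 4, 2, {0}, 0),
   (1, 4, 2, {0}, 2), (1, 4, 2, {0}, 1), (1, 4, 2, {3}, 0), (1, 4, 2, {3}, 2),
   (1, 4, 2, {3}, 1), (1, 4, 2, {0, 3}, 0), (1, 4, 2, {0, 3}, 2), (1, 4, 2, {0, 3}, 1),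
   (1, 4, 3, ∅, 0), (1, 4, 3, ∅, 2), (1, 4, 3, ∅, 1), (1, 4, 3, {0}, 0),
   (1, 4, 3, {0}, 2), (1, 4, 3, {0}, 1), (1, 4, 3, {2}, 0), (1, 4, 3, {2}, 2),
   (1, 4, 3, {2}, 1), (1, 4, 3, {0, 2}, 0), (1, 4, 3, {0, 2}, 2), (1, 4, 3, {0, 2}, 1),
   (2, 0, 1, ∅, 1), (2, 0, 1, {3}, 1), (2, 0, 1, {4}, 1), (2, 0, 1, {3, 4}, 1),
   (2, 0, 3, ∅, 1), (2, 0, 3, {1}, 1), (2, 0, 3, {4}, 1), (2, 0, 3, {1, 4}, 1),
   (2, 0, 4, ∅, 1), (2, 0, 4, {1}, 1), (2, 0, 4, {3}, 1), (2, 0, 4, {1, 3}, 1),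
   (2, 1, 0, ∅, 1), (2, 1, 0, {3}, 1), (2, 1, 0, {4}, 1), (2, 1, 0, {3, 4}, 1),
   (2, 1, 3, ∅, 1), (2, 1, 3, {0}, 1), (2, 1, 3, {4}, 1), (2, 1, 3, {0, 4}, 1),
   (2, 1, 4, ∅, 1), (2, 1, 4, {0}, 1), (2, 1, 4, {3}, 1), (2, 1, 4, {0, 3}, 1),
   (2, 3, 0, ∅, 0), (2, 3, 0, ∅, 2), (2, 3, 0, ∅, 1), (2, 3, 0, {1}, 0),
   (2, 3, 0, {1}, 2), (2, 3, 0, {1}, 1), (2, 3, 0, {4}, 0), (2, 3, 0, {4}, 2),
   (2, 3, 0, {4}, 1), (2, 3, 0, {1, 4}, 0), (2, 3, 0, {1, 4}, 2), (2, 3, 0, {1, 4}, 1),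
   (2, 3, 1, ∅, 0), (2, 3, 1, ∅, 2), (2, 3, 1, ∅, 1), (2, 3, 1, {0}, 0),
   (2, 3, 1, {0}, 2), (2, 3, 1, {0}, 1), (2, 3, 1, {4}, 0), (2, 3, 1, {4}, 2),
   (2, 3, 1, {4}, 1), (2, 3, 1, {0, 4}, 0), (2, 3, 1, {0, 4}, 2), (2, 3, 1, {0, 4}, 1),
   (2, 3, 4, ∅, 0), (2, 3, 4, ∅, 2), (2, 3, 4, ∅, 1), (2, 3, 4, {0}, 0),
   (2, 3, 4, {0}, 2), (2, 3, 4, {0}, 1), (2, 3, 4, {1}, 0), (2, 3, 4, {1}, 2),
   (2, 3, 4, {1}, 1), (2, 3, 4, {0, 1}, 0), (2, 3, 4, {0, 1}, 2), (2, 3, 4, {0, 1}, 1),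
   (2, 4, 0, ∅, 0), (2, 4, 0, ∅, 2), (2, 4, 0, ∅, 1), (2, 4, 0, {1}, 0),
   (2, 4, 0, {1}, 2), (2, 4, 0, {1}, 1), (2, 4, 0, {3}, 0), (2, 4, 0, {3}, 2),
   (2, 4, 0, {3}, 1), (2, 4, 0, {1, 3}, 0), (2, 4, 0, {1, 3}, 2), (2, 4, 0, {1, 3}, 1),
   (2, 4, 1, ∅, 0), (2, 4, 1, ∅, 2), (2, 4, 1, ∅, 1), (2, 4, 1, {0}, 0),
   (2, 4, 1, {0}, 2), (2, 4, 1, {0}, 1), (2, 4, 1, {3}, 0), (2, 4, 1, {3}, 2),
   (2, 4, 1, {3}, 1), (2, 4, 1, {0, 3}, 0), (2, 4, 1, {0, 3}, 2), (2, 4, 1, {0, 3}, 1),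
   (2, 4, 3, ∅, 0), (2, 4, 3, ∅, 2), (2, 4, 3, ∅, 1), (2, 4, 3, {0}, 0),
   (2, 4, 3, {0}, 2), (2, 4, 3, {0}, 1), (2, 4, 3, {1}, 0), (2, 4, 3, {1}, 2),
   (2, 4, 3, {1}, 1), (2, 4, 3, {0, 1}, 0), (2, 4, 3, {0, 1}, 2), (2, 4, 3, {0, 1}, 1),
   (3, 0, 1, ∅, 1), (3, 0, 1, {2}, 1), (3, 0, 1, {4}, 1), (3, 0, 1, {2, 4}, 1),
   (3, 0, 2, ∅, 1), (3, 0, 2, {1}, 1), (3, 0, 2, {4}, 1), (3, 0, 2, {1, 4}, 1),
   (3, 0, 4, ∅, 1), (3, 0, 4, {1}, 1), (3, 0, 4, {2}, 1), (3, 0, 4, {1, 2}, 1),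
   (3, 1, 0, ∅, 1), (3, 1, 0, {2}, 1), (3, 1, 0, {4}, 1), (3, 1, 0, {2, 4}, 1),
   (3, 1, 2, ∅, 1), (3, 1, 2, {0}, 1), (3, 1, 2, {4}, 1), (3, 1, 2, {0, 4}, 1),
   (3, 1, 4, ∅, 1), (3, 1, 4, {0}, 1), (3, 1, 4, {2}, 1), (3, 1, 4, {0, 2}, 1),
   (3, 2, 0, ∅, 1), (3, 2, 0, {1}, 1), (3, 2, 0, {4}, 1), (3, 2, 0, {1, 4}, 1),
   (3, 2, 1, ∅, 1), (3, 2, 1, {0}, 1), (3, 2, 1, {4}, 1), (3, 2, 1, {0, 4}, 1),
   (3, 2, 4, ∅, 1), (3, 2, 4, {0}, 1), (3, 2, 4, {1}, 1), (3, 2, 4, {0, 1}, 1),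
   (3, 4, 0, ∅, 0), (3, 4, 0, ∅, 2), (3, 4, 0, ∅, 1), (3, 4, 0, {1}, 0),
   (3, 4, 0, {1}, 2), (3, 4, 0, {1}, 1), (3, 4, 0, {2}, 0), (3, 4, 0, {2}, 2),
   (3, 4, 0, {2}, 1), (3, 4, 0, {1, 2}, 0), (3, 4, 0, {1, 2}, 2), (3, 4, 0, {1, 2}, 1),
   (3, 4, 1, ∅, 0), (3, 4, 1, ∅, 2), (3, 4, 1, ∅, 1), (3, 4, 1, {0}, 0),
   (3, 4, 1, {0}, 2), (3, 4, 1, {0}, 1), (3, 4, 1, {2}, 0), (3, 4, 1, {2}, 2),
   (3, 4, 1, {2}, 1), (3, 4, 1, {0, 2}, 0), (3, 4, 1, {0, 2}, 2), (3, 4, 1, {0, 2}, 1),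
   (3, 4, 2, ∅, 0), (3, 4, 2, ∅, 2), (3, 4, 2, ∅, 1), (3, 4, 2, {0}, 0),
   (3, 4, 2, {0}, 2), (3, 4, 2, {0}, 1), (3, 4, 2, {1}, 0), (3, 4, 2, {1}, 2),
   (3, 4, 2, {1}, 1), (3, 4, 2, {0, 1}, 0), (3, 4, 2, {0, 1}, 2), (3, 4, 2, {0, 1}, 1),
   (4, 0, 1, ∅, 1), (4, 0, 1, {2}, 1), (4, 0, 1, {3}, 1), (4, 0, 1, {2, 3}, 1),
   (4, 0, 2, ∅, 1), (4, 0, 2, {1}, 1), (4, 0, 2, {3}, 1), (4, 0, 2, {1, 3}, 1),
   (4, 0, 3, ∅, 1), (4, 0, 3, {1}, 1), (4, 0, 3, {2}, 1), (4, 0, 3, {1, 2}, 1),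
   (4, 1, 0, ∅, 1), (4, 1, 0, {2}, 1), (4, 1, 0, {3}, 1), (4, 1, 0, {2, 3}, 1),
   (4, 1, 2, ∅, 1), (4, 1, 2, {0}, 1), (4, 1, 2, {3}, 1), (4, 1, 2, {0, 3}, 1),
   (4, 1, 3, ∅, 1), (4, 1, 3, {0}, 1), (4, 1, 3, {2}, 1), (4, 1, 3, {0, 2}, 1),
   (4, 2, 0, ∅, 1), (4, 2, 0, {1}, 1), (4, 2, 0, {3}, 1), (4, 2, 0, {1, 3}, 1),
   (4, 2, 1, ∅, 1), (4, 2, 1, {0}, 1), (4, 2, 1, {3}, 1), (4, 2, 1, {0, 3}, 1),
   (4, 2, 3, ∅, 1), (4, 2, 3, {0}, 1), (4, 2, 3, {1}, 1), (4, 2, 3, {0, 1}, 1),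
   (4, 3, 0, ∅, 1), (4, 3, 0, {1}, 1), (4, 3, 0, {2}, 1), (4, 3, 0, {1, 2}, 1),
   (4, 3, 1, ∅, 1), (4, 3, 1, {0}, 1), (4, 3, 1, {2}, 1), (4, 3, 1, {0, 2}, 1),
   (4, 3, 2, ∅, 1), (4, 3, 2, {0}, 1), (4, 3, 2, {1}, 1), (4, 3, 2, {0, 1}, 1),
   (0, 1, 2, ∅, 0), (0, 1, 2, ∅, 0), (0, 1, 2, ∅, 0), (0, 1, 2, ∅, 0),
   (0, 1, 2, ∅, 0), (0, 1, 2, ∅, 0), (0, 1, 2, ∅, 0), (0, 1, 2, ∅, 0),
   (0, 1, 2, ∅, 0), (0, 1, 2, ∅, 0), (0, 1, 2, ∅, 0), (0, 1, 2, ∅, 0),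
   (0, 1, 2, ∅, 0), (0, 1, 2, ∅, 0), (0, 1, 2, ∅, 0), (0, 1, 2, ∅, 0),
   (0, 1, 2, ∅, 0), (0, 1, 2, ∅, 0), (0, 1, 2, ∅, 0), (0, 1, 2, ∅, 0),
   (0, 1, 2, ∅, 0), (0, 1, 2, ∅, 0), (0, 1, 2, ∅, 0), (0, 1, 2, ∅, 0),
   (0, 1, 2, ∅, 0), (0, 1, 2, ∅, 0), (0, 1, 2, ∅, 0), (0, 1, 2, ∅, 0),
   (0, 1, 2, ∅, 0), (0, 1, 2, ∅, 0), (0, 1, 2, ∅, 0), (0, 1, 2, ∅, 0)]

/-! ### the checker -/

def ent (r : ℕ) : ℕ :=
  Nat.land (Nat.shiftRight relTab (Nat.mul (nat_lit 28) r)) (nat_lit 268435455)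

noncomputable def step (ih : ℕ → List ℕ → ℕ → Bool) (k : ℕ → Bool) (st : ℕ) (stk : List ℕ)
    (c t : ℕ) : Bool :=
  Bool.rec (derive ih k st stk c (ent (tR t)) (tP t) (tV t)) (branch ih st stk c (tS t) (tW t))
    (Nat.beq (Nat.land t (nat_lit 1)) (nat_lit 1))

/-- the machine: state, stack of open branches, token stream; `k` is called with the rest of the
stream when all branches are closed -/
noncomputable def run (k : ℕ → Bool) (fuel : ℕ) : ℕ → List ℕ → ℕ → Bool :=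
  Nat.rec (fun _ _ _ => false) (fun _ ih st stk c => step ih k st stk (nxt c) (tok c)) fuel

/-- initial state of the symbols `s < n` -/
noncomputable def ini (o z n : ℕ) : ℕ :=
  Nat.rec (nat_lit 0) (fun s acc => Nat.lor acc
    (Nat.shiftLeft (Bool.rec (Bool.rec (nat_lit 7) (nat_lit 5)
      (Nat.beq (Nat.land (Nat.shiftRight z s) (nat_lit 1)) (nat_lit 1))) (nat_lit 2)
      (Nat.beq (Nat.land (Nat.shiftRight o s) (nat_lit 1)) (nat_lit 1)))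
      (Nat.mul (nat_lit 3) s))) n

def epm (s : ℕ) : ℕ :=
  Nat.land (Nat.shiftRight epTab (Nat.mul (nat_lit 5) (Nat.div s (nat_lit 8)))) (nat_lit 31)

/-- header: `m` symbols which may be assumed positive, 10 digits each (symbol, new end point) -/
noncomputable def head (go : ℕ → ℕ → Bool) (z m : ℕ) : ℕ → ℕ → ℕ → Bool :=
  Nat.rec (fun _ st c => go st c)
    (fun _ ih used st c =>
      ((bit1 z (Nat.land c (nat_lit 127))).and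
      ((Nat.ble (Nat.land c (nat_lit 127)) (nat_lit 79)).and
      ((bit1 (epm (Nat.land c (nat_lit 127))) (Nat.land (Nat.shiftRight c (nat_lit 7)) (nat_lit 7))).and
      ((bit1 used (Nat.land (Nat.shiftRight c (nat_lit 7)) (nat_lit 7))).not)))).and
      (ih (Nat.lor used (epm (Nat.land c (nat_lit 127))))
        (asg st (Nat.land c (nat_lit 127)) (nat_lit 0)) (Nat.shiftRight c (nat_lit 10)))) m

/-- check the pattern `(o, z)` with the certificate at the beginning of the stream `c`; `k` gets the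
rest of the stream. The first three digits of the certificate are the length of the header. -/
noncomputable def patRun (fuel o z c : ℕ) (k : ℕ → Bool) : Bool :=
  head (fun st c' => run k fuel st [] c') z (Nat.land c (nat_lit 7)) (nat_lit 0)
    (ini o z (nat_lit 80)) (Nat.shiftRight c (nat_lit 3))

def lo80 (x : ℕ) : ℕ := Nat.land x (nat_lit 1208925819614629174706175)

/-- check `n` patterns (160 digits each in `R`: first `o`, then `z`) with the stream `c` -/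
noncomputable def patAll (n fuel : ℕ) : ℕ → ℕ → Bool :=
  Nat.rec (fun _ _ => true)
    (fun _ ih R c => patRun fuel (lo80 R) (lo80 (Nat.shiftRight R (nat_lit 80))) c
      (fun c' => ih (Nat.shiftRight R (nat_lit 160)) c')) n

end Pool.Agent.GS
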