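import Pool.Agent.GS.RunSem
import Pool.Agent.GS.HitS
import Pool.Agent.GS.K.PosChk

/-!
The local pattern tables `posTab`: every entry is unused or the image of a pattern which is never
hit.
-/

set_option autoImplicit false

namespace Pool.Agent.GS

theorem posAll_spec : ∀ n, (Nat.rec true (fun p ih => Bool.and
    (Tree.posL p (List.getD posTab p 0) (List.getD Tree.posCert p 0) 128) ih) n : Bool) = true →
    ∀ p < n, Tree.posL p (List.getD posTab p 0) (List.getD Tree.posCert p 0) 128 = true := by
  intro n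
  induction n with
  | zero => intro _ p hp; omega
  | succ n ih =>
    intro h p hp
    have h' := (Bool.and_eq_true _ _).mp h
    rcases Nat.lt_succ_iff_lt_or_eq.mp hp with h1 | h1
    · exact ih h'.2 p h1
    · rw [h1]; exact h'.1

theorem posL_spec (p T C : ℕ) : ∀ n, Tree.posL p T C n = true → ∀ k < n,
    Tree.posE p (T >>> (168 * k)) (C >>> (16 * k)) = true := by
  intro n
  induction n with
  | zero => intro _ p hp; omega
  | succ n ih =>
    intro h k hk
    have e : Tree.posL p T C (n + 1) = Bool.and (Tree.posE p (Nat.shiftRight T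
      (Nat.mul (nat_lit 168) n)) (Nat.shiftRight C (Nat.mul (nat_lit 16) n)))
      (Tree.posL p T C n) := rfl
    rw [e] at h
    have h' := (Bool.and_eq_true _ _).mp h
    rcases Nat.lt_succ_iff_lt_or_eq.mp hk with h1 | h1
    · exact ih h'.2 k h1
    · rw [h1]; exact h'.1

theorem low_digits (W s : ℕ) (h : (W >>> s) <<< s = W) : ∀ b, W.testBit b = true → s ≤ b := by
  intro b hb
  by_contra hc
  rw [← h, Nat.testBit_shiftLeft] at hb
  have : decide (b ≥ s) = false := by
    rw [decide_eq_false_iff_not]; omega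
  rw [this] at hb
  simp at hb

theorem digits_lt (E : ℕ) : ∀ b, (E &&& Tree.M80).testBit b = true → b < 80 := by
  intro b hb
  have hM : Tree.M80 = 2 ^ 80 - 1 := by decide +kernel
  rw [hM, Nat.testBit_land] at hb
  have h1 : (2 ^ 80 - 1).testBit b = true := by
    cases h : (2 ^ 80 - 1).testBit b
    · rw [h] at hb; simp at hb
    · rfl
  rw [Nat.testBit_two_pow_sub_one] at h1
  exact of_decide_eq_true h1

theorem entOK_of_hit {p W M F : ℕ} (hp : p < 80) (hW : ∀ b, W.testBit b = true → 79 - p < b ∧ b < 80)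
    (hMW : M &&& W = M)
    (hN : ∀ S, Fam S → ¬ HitI (M ||| (1 - F) <<< (79 - p)) ((W ^^^ M) ||| F <<< (79 - p)) S)
    (A : ℕ) (S : SymSet) (hS : Fam S)
    (hA : ∀ b < 80, 79 - p < b → (A.testBit b = true ↔ laneSym b ∈ S)) (hX : A &&& W = M) :
    (F = 0 → laneSym (79 - p) ∉ S) ∧ (F = 1 → laneSym (79 - p) ∈ S) := by
  have hM : ∀ b, M.testBit b = true → W.testBit b = true := by
    intro b hb
    rw [← hMW, Nat.testBit_and, Bool.and_eq_true] at hb
    exact hb.2
  have h1 : ∀ b < 80, M.testBit b = true → laneSym b ∈ S := by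
    intro b hb80 hb
    have h2 := hb
    rw [← hX, Nat.testBit_and, Bool.and_eq_true] at h2
    exact (hA b hb80 (hW b h2.2).1).1 h2.1
  have h0 : ∀ b < 80, (W ^^^ M).testBit b = true → laneSym b ∉ S := by
    intro b hb80 hb hmem
    rw [Nat.testBit_xor] at hb
    by_cases hMb : M.testBit b = true
    · rw [hM b hMb, hMb] at hb
      simp at hb
    · have hMb' : M.testBit b = false := by simpa using hMb
      rw [hMb'] at hb
      have hWb : W.testBit b = true := by simpa using hb
      have := (hA b hb80 (hW b hWb).1).2 hmem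
      have h3 : (A &&& W).testBit b = true := by
        rw [Nat.testBit_and, this, hWb]; rfl
      rw [hX, hMb'] at h3
      exact absurd h3 (by simp)
  have hbit : ∀ b, (1 <<< (79 - p)).testBit b = true ↔ b = 79 - p := by
    intro b
    rw [Nat.one_shiftLeft, Nat.testBit_two_pow]
    simp [eq_comm]
  constructor
  · rintro rfl hmem
    refine hN S hS ⟨?_, ?_⟩
    · intro b hb80 hb
      rw [Nat.testBit_or, Bool.or_eq_true] at hb
      rcases hb with hb | hb
      · exact h1 b hb80 hb
      · rw [Nat.sub_zero, hbit] at hb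
        rw [hb]; exact hmem
    · intro b hb80 hb
      rw [Nat.testBit_or, Bool.or_eq_true] at hb
      rcases hb with hb | hb
      · exact h0 b hb80 hb
      · rw [Nat.zero_shiftLeft] at hb
        simp at hb
  · rintro rfl
    by_contra hmem
    refine hN S hS ⟨?_, ?_⟩
    · intro b hb80 hb
      rw [Nat.testBit_or, Bool.or_eq_true] at hb
      rcases hb with hb | hb
      · exact h1 b hb80 hb
      · rw [Nat.sub_self, Nat.zero_shiftLeft] at hb
        simp at hb
    · intro b hb80 hb
      rw [Nat.testBit_or, Bool.or_eq_true] at hb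
      rcases hb with hb | hb
      · exact h0 b hb80 hb
      · rw [hbit] at hb
        rw [hb]; exact hmem

theorem ruleE_lt (n : ℕ) (hn : n < 64) : ruleE n = entB rO0 n := by
  have h1 : Nat.shiftRight n (nat_lit 6) = 0 := by
    show n >>> 6 = 0
    rw [Nat.shiftRight_eq_div_pow]
    exact Nat.div_eq_of_lt hn
  have h2 : Nat.land n (nat_lit 63) = n := by
    show n &&& 63 = n
    have := Nat.and_two_pow_sub_one_eq_mod n 6
    rw [show (63 : ℕ) = 2 ^ 6 - 1 by norm_num, this]
    exact Nat.mod_eq_of_lt hn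
  unfold ruleE
  rw [h1, h2]
  rfl

theorem posE_spec (hR : ∀ n < 4096, RuleOK (ruleE n)) (hG : ∀ h < 256, TabOK (gTab h))
    {p E c : ℕ} (hp : p < 80) (h : Tree.posE p E c = true) : EntOK p E := by
  intro A S hS hA hX
  have hX' : (A &&& (E &&& Tree.M80)) ^^^ ((E >>> 80) &&& Tree.M80) = 0 := hX
  have hX2 : A &&& (E &&& Tree.M80) = (E >>> 80) &&& Tree.M80 := by
    have := congrArg (fun x => x ^^^ ((E >>> 80) &&& Tree.M80)) hX'
    simpa [Nat.xor_assoc] using this
  unfold Tree.posE at h
  cases hc : Nat.beq (Nat.land (Nat.shiftRight c (nat_lit 14)) (nat_lit 1)) (nat_lit 1) with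
  | false =>
    rw [hc] at h
    have h0 := (Bool.and_eq_true _ _).mp h
    have e1 : E &&& Tree.M80 = 0 := Nat.eq_of_beq_eq_true h0.1
    have e2 : (E >>> 80) &&& Tree.M80 = 1 := Nat.eq_of_beq_eq_true h0.2
    rw [e1, e2] at hX2
    simp at hX2
  | true =>
    rw [hc] at h
    have hr : Nat.land c (nat_lit 63) < 64 := Nat.lt_succ_of_le Nat.and_le_right
    have hh : Nat.land (Nat.shiftRight c (nat_lit 6)) (nat_lit 255) < 256 :=
      Nat.lt_succ_of_le Nat.and_le_right
    have hN := ruleOK_image (hR _ (lt_trans hr (by norm_num))) (hG _ hh)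
    rw [ruleE_lt _ hr] at hN
    have h0 := (Bool.and_eq_true _ _).mp h
    have h1 := (Bool.and_eq_true _ _).mp h0.2
    have h2 := (Bool.and_eq_true _ _).mp h1.2
    have e1 := Nat.eq_of_beq_eq_true h0.1
    have e2 := Nat.eq_of_beq_eq_true h1.1
    have e3 := Nat.eq_of_beq_eq_true h2.1
    have e4 := Nat.eq_of_beq_eq_true h2.2
    rw [e1, e2] at hN
    refine entOK_of_hit hp (fun b hb => ⟨?_, digits_lt _ b hb⟩) e3 hN A S hS hA hX2
    have := low_digits _ _ e4 b hb
    have h80 : Nat.sub (nat_lit 80) p = 80 - p := rfl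
    rw [h80] at this
    omega

theorem posTab_ok' (hR : ∀ n < 4096, RuleOK (ruleE n)) (hG : ∀ h < 256, TabOK (gTab h)) :
    ∀ p < 80, ∀ k < 128, EntOK p ((posTab.getD p 0) >>> (168 * k)) := by
  intro p hp k hk
  exact posE_spec hR hG hp
    (posL_spec _ _ _ _ (posAll_spec 80 Tree.posChk p hp) k hk)

end Pool.Agent.GS
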