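import Pool.Agent.GS.RefSound

/-!
Soundness of the certificate checker.
-/

namespace Pool.Agent.GS.Ref

open Finset

/-! ### digits -/

theorem digits_eq (W : ℕ) : ∀ (n : ℕ) (e e' : ℕ → ℕ), (∀ s, e s < W) → (∀ s, e' s < W) →
    ∑ s ∈ range n, e s * W ^ s = ∑ s ∈ range n, e' s * W ^ s → ∀ s < n, e s = e' s := by
  intro n
  induction n with
  | zero => intro e e' _ _ _ s hs; omega
  | succ n ih =>
    intro e e' he he' h s hs
    have split : ∀ f : ℕ → ℕ, ∑ s ∈ range (n + 1), f s * W ^ s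
        = f 0 + W * ∑ s ∈ range n, f (s + 1) * W ^ s := by
      intro f
      rw [Finset.sum_range_succ', Finset.mul_sum, add_comm]
      congr 1
      · simp
      · apply Finset.sum_congr rfl
        intro i _
        rw [pow_succ]; ring
    rw [split e, split e'] at h
    have h0 : e 0 = e' 0 := by
      have := congrArg (· % W) h
      simp only [Nat.add_mul_mod_self_left] at this
      rwa [Nat.mod_eq_of_lt (he 0), Nat.mod_eq_of_lt (he' 0)] at this
    have hW : 0 < W := lt_of_le_of_lt (Nat.zero_le _) (he 0)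
    have h1 : ∑ s ∈ range n, e (s + 1) * W ^ s = ∑ s ∈ range n, e' (s + 1) * W ^ s := by
      rw [h0] at h
      exact Nat.eq_of_mul_eq_mul_left hW (Nat.add_left_cancel h)
    cases s with
    | zero => exact h0
    | succ s =>
      exact ih (fun s => e (s + 1)) (fun s => e' (s + 1)) (fun s => he _) (fun s => he' _) h1 s
        (by omega)

/-- `S` represents the exponent vector `e` in base `2 ^ 32` -/
def Rep (S tot : ℕ) (e : ℕ → ℕ) : Prop :=
  S = ∑ s ∈ range 256, e s * (2 ^ 32) ^ s ∧ ∀ s, e s ≤ tot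

/-- logarithm of the monomial with exponent vector `e` -/
noncomputable def Lg (v : ℕ → ℝ) (e : ℕ → ℕ) : ℝ := ∑ s ∈ range 256, (e s : ℝ) * Real.log |v s|

theorem rep_zero : Rep 0 0 (fun _ => 0) := by
  refine ⟨by simp, by simp⟩

theorem tA_lt (t : ℕ) : tA t < 256 :=
  Nat.lt_of_le_of_lt (Nat.and_le_right (n := _) (m := 255)) (by norm_num)
theorem tB_lt (t : ℕ) : tB t < 256 :=
  Nat.lt_of_le_of_lt (Nat.and_le_right (n := _) (m := 255)) (by norm_num)

/-- add `m` at the two factors of the term `t` -/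
def bump (e : ℕ → ℕ) (m t : ℕ) : ℕ → ℕ :=
  fun s => e s + (if s = tA t then m else 0) + (if s = tB t then m else 0)

theorem rep_add {S tot : ℕ} {e : ℕ → ℕ} (h : Rep S tot e) (m t : ℕ) :
    Rep (add2 S m t) (Nat.add tot (Nat.add m m)) (bump e m t) := by
  obtain ⟨h1, h2⟩ := h
  refine ⟨?_, ?_⟩
  · have key : ∀ a, a < 256 → ∑ s ∈ range 256, (if s = a then m else 0) * (2 ^ 32) ^ s
        = m * (2 ^ 32) ^ a := by
      intro a ha
      rw [Finset.sum_eq_single a]
      · simp
      · intro b _ hb; simp [hb]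
      · intro hb; exact absurd (Finset.mem_range.2 ha) hb
    have hsh : ∀ a, Nat.shiftLeft m (Nat.mul 32 a) = m * (2 ^ 32) ^ a := by
      intro a
      rw [shl_eq, mul_eq', Nat.shiftLeft_eq, pow_mul]
    unfold add2 bump
    rw [hsh, hsh, add_eq', add_eq']
    simp only [add_mul, Finset.sum_add_distrib]
    rw [key _ (tA_lt t), key _ (tB_lt t), ← h1]
    ring
  · intro s
    have := h2 s
    unfold bump
    rw [add_eq', add_eq']
    split <;> split <;> omega

theorem lg_bump (v : ℕ → ℝ) (e : ℕ → ℕ) (m t : ℕ) :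
    Lg v (bump e m t) = Lg v e + (m : ℝ) * (Real.log |v (tA t)| + Real.log |v (tB t)|) := by
  have key : ∀ a, a < 256 → ∑ s ∈ range 256, ((if s = a then m else 0 : ℕ) : ℝ) * Real.log |v s|
      = m * Real.log |v a| := by
    intro a ha
    rw [Finset.sum_eq_single a]
    · simp
    · intro b _ hb; simp [hb]
    · intro hb; exact absurd (Finset.mem_range.2 ha) hb
  unfold Lg bump
  simp only [Nat.cast_add, add_mul, Finset.sum_add_distrib]
  rw [key _ (tA_lt t), key _ (tB_lt t)]
  ring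

theorem log_tval {v : ℕ → ℝ} {t : ℕ} (h : tval v t ≠ 0) :
    Real.log |tval v t| = Real.log |v (tA t)| + Real.log |v (tB t)| := by
  unfold tval at *
  have ha : v (tA t) ≠ 0 := by
    intro h0; apply h; rw [h0]; ring
  have hb : v (tB t) ≠ 0 := by
    intro h0; apply h; rw [h0]; ring
  rw [abs_mul, abs_mul]
  have : |(if t.testBit 0 = true then (-1 : ℝ) else 1)| = 1 := by
    cases t.testBit 0 <;> simp
  rw [this, one_mul, Real.log_mul (abs_ne_zero.2 ha) (abs_ne_zero.2 hb)]

theorem okf6 {r : ℝ} (h : okf 6 r) : 0 < r := by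
  have h1 := h.2.1 (by decide)
  have h2 := h.2.2 (by decide)
  rcases lt_trichotomy r 0 with h3 | h3 | h3
  · exact absurd (sign_neg h3) h1
  · exact absurd (by rw [h3]; simp) h2
  · exact h3

theorem okf5 {r : ℝ} (h : okf 5 r) : r < 0 := by
  have h1 := h.1 (by decide)
  have h2 := h.2.2 (by decide)
  rcases lt_trichotomy r 0 with h3 | h3 | h3
  · exact h3
  · exact absurd (by rw [h3]; simp) h2
  · exact absurd (sign_pos h3) h1

theorem okf3 {r : ℝ} (h : okf 3 r) : r = 0 := by
  have h1 := h.1 (by decide)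
  have h2 := h.2.1 (by decide)
  rcases lt_trichotomy r 0 with h3 | h3 | h3
  · exact absurd (sign_neg h3) h2
  · exact h3
  · exact absurd (sign_pos h3) h1

theorem okf7 {r : ℝ} (h : okf 7 r) : False := by
  have h1 := h.1 (by decide)
  have h2 := h.2.1 (by decide)
  have h0 := h.2.2 (by decide)
  rcases lt_trichotomy r 0 with h3 | h3 | h3
  · exact absurd (sign_neg h3) h2
  · exact absurd (by rw [h3]; simp) h0
  · exact absurd (sign_pos h3) h1

theorem okf_six {r : ℝ} (h : 0 < r) : okf 6 r := by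
  unfold okf; rw [sign_pos h]; decide
theorem okf_five {r : ℝ} (h : r < 0) : okf 5 r := by
  unfold okf; rw [sign_neg h]; decide
theorem okf_three {r : ℝ} (h : r = 0) : okf 3 r := by
  unfold okf; rw [h]; simp only [sign_zero]; decide
theorem okf_four {r : ℝ} (h : r ≠ 0) : okf 4 r := by
  unfold okf okg
  refine ⟨fun h0 => absurd h0 (by decide), fun h0 => absurd h0 (by decide), fun _ => ?_⟩
  simpa using h
theorem okf_zero (r : ℝ) : okf 0 r := by
  unfold okf okg
  exact ⟨fun h0 => absurd h0 (by decide), fun h0 => absurd h0 (by decide),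
    fun h0 => absurd h0 (by decide)⟩

theorem maskI_fin : ∀ a b c : Fin 8,
    Nat.beq (Nat.land (Nat.shiftRight maskI (Nat.add (Nat.mul 64 a.val)
      (Nat.add (Nat.mul 8 b.val) c.val))) 1) 1 = true →
    (a.val = 6 ∧ b.val = 5 ∧ c.val = 5) ∨ (a.val = 5 ∧ b.val = 6 ∧ c.val = 6) := by
  decide +kernel

theorem maskE_fin : ∀ a b c : Fin 8,
    Nat.beq (Nat.land (Nat.shiftRight maskE (Nat.add (Nat.mul 64 a.val)
      (Nat.add (Nat.mul 8 b.val) c.val))) 1) 1 = true →
    (a.val = 6 ∧ b.val = 5 ∧ c.val = 3) ∨ (a.val = 5 ∧ b.val = 6 ∧ c.val = 3) := by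
  decide +kernel

theorem entI {v : ℕ → ℝ} (hrel : ∀ r, RelOK v (getRel r)) {st : ℕ} (h : StOK v st) (r p : ℕ)
    (hp : p < 8) (he : entOK maskI st (getRel r) p = true) :
    Real.log |v (tA (Nat.shiftRight (getRel r) (off1 p)))| +
      Real.log |v (tB (Nat.shiftRight (getRel r) (off1 p)))| <
    Real.log |v (tA (Nat.shiftRight (getRel r) (off0 p)))| +
      Real.log |v (tB (Nat.shiftRight (getRel r) (off0 p)))| := by
  obtain ⟨e0, e1, e2, e3⟩ := perm_ok (hrel r) p hp
  have k0 := tF_ok h _ e1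
  have k1 := tF_ok h _ e2
  have k2 := tF_ok h _ e3
  have hm := maskI_fin ⟨_, tF_lt st (Nat.shiftRight (getRel r) (off0 p))⟩
    ⟨_, tF_lt st (Nat.shiftRight (getRel r) (off1 p))⟩
    ⟨_, tF_lt st (Nat.shiftRight (getRel r) (off2 p))⟩ he
  simp only at hm
  generalize hT0 : Nat.shiftRight (getRel r) (off0 p) = t0 at *
  generalize hT1 : Nat.shiftRight (getRel r) (off1 p) = t1 at *
  generalize hT2 : Nat.shiftRight (getRel r) (off2 p) = t2 at *
  rcases hm with ⟨a0, a1, a2⟩ | ⟨a0, a1, a2⟩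
  · rw [a0] at k0; rw [a1] at k1; rw [a2] at k2
    have b0 := okf6 k0; have b1 := okf5 k1; have b2 := okf5 k2
    rw [← log_tval b0.ne', ← log_tval b1.ne]
    apply Real.log_lt_log (abs_pos.2 b1.ne)
    rw [abs_of_neg b1, abs_of_pos b0]; linarith
  · rw [a0] at k0; rw [a1] at k1; rw [a2] at k2
    have b0 := okf5 k0; have b1 := okf6 k1; have b2 := okf6 k2
    rw [← log_tval b0.ne, ← log_tval b1.ne']
    apply Real.log_lt_log (abs_pos.2 b1.ne')
    rw [abs_of_neg b0, abs_of_pos b1]; linarith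

theorem entE {v : ℕ → ℝ} (hrel : ∀ r, RelOK v (getRel r)) {st : ℕ} (h : StOK v st) (r p : ℕ)
    (hp : p < 8) (he : entOK maskE st (getRel r) p = true) :
    Real.log |v (tA (Nat.shiftRight (getRel r) (off1 p)))| +
      Real.log |v (tB (Nat.shiftRight (getRel r) (off1 p)))| =
    Real.log |v (tA (Nat.shiftRight (getRel r) (off0 p)))| +
      Real.log |v (tB (Nat.shiftRight (getRel r) (off0 p)))| := by
  obtain ⟨e0, e1, e2, e3⟩ := perm_ok (hrel r) p hp
  have k0 := tF_ok h _ e1
  have k1 := tF_ok h _ e2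
  have k2 := tF_ok h _ e3
  have hm := maskE_fin ⟨_, tF_lt st (Nat.shiftRight (getRel r) (off0 p))⟩
    ⟨_, tF_lt st (Nat.shiftRight (getRel r) (off1 p))⟩
    ⟨_, tF_lt st (Nat.shiftRight (getRel r) (off2 p))⟩ he
  simp only at hm
  generalize hT0 : Nat.shiftRight (getRel r) (off0 p) = t0 at *
  generalize hT1 : Nat.shiftRight (getRel r) (off1 p) = t1 at *
  generalize hT2 : Nat.shiftRight (getRel r) (off2 p) = t2 at *
  rcases hm with ⟨a0, a1, a2⟩ | ⟨a0, a1, a2⟩
  · rw [a0] at k0; rw [a1] at k1; rw [a2] at k2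
    have b0 := okf6 k0; have b1 := okf5 k1; have b2 := okf3 k2
    rw [← log_tval b0.ne', ← log_tval b1.ne]
    rw [abs_of_neg b1, abs_of_pos b0]; congr 1; linarith
  · rw [a0] at k0; rw [a1] at k1; rw [a2] at k2
    have b0 := okf5 k0; have b1 := okf6 k1; have b2 := okf3 k2
    rw [← log_tval b0.ne, ← log_tval b1.ne']
    rw [abs_of_neg b0, abs_of_pos b1]; congr 1; linarith

theorem loopF_succ (mask st n c sb ss tot : ℕ) (k : ℕ → ℕ → ℕ → ℕ → Bool) :
    loopF mask st (n + 1) c sb ss tot k = Bool.rec (motive := fun _ => Bool) false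
      (loopF mask st n (Nat.shiftRight c 32)
        (add2 sb (Nat.succ (Nat.land (Nat.shiftRight c 14) 262143))
          (Nat.shiftRight (getRel c) (off0 (Nat.land (Nat.shiftRight c 11) 7))))
        (add2 ss (Nat.succ (Nat.land (Nat.shiftRight c 14) 262143))
          (Nat.shiftRight (getRel c) (off1 (Nat.land (Nat.shiftRight c 11) 7))))
        (Nat.add tot (Nat.add (Nat.succ (Nat.land (Nat.shiftRight c 14) 262143))
          (Nat.succ (Nat.land (Nat.shiftRight c 14) 262143)))) k)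
      (entOK mask st (getRel c) (Nat.land (Nat.shiftRight c 11) 7)) := by
  have : loopF mask st (n + 1) c sb ss tot k =
      force (getRel c) fun code =>
      force (Nat.land (Nat.shiftRight c 11) 7) fun p =>
      force (Nat.succ (Nat.land (Nat.shiftRight c 14) 262143)) fun m =>
      Bool.rec (motive := fun _ => Bool) false
        (force (add2 sb m (Nat.shiftRight code (off0 p))) fun sb' =>
        force (add2 ss m (Nat.shiftRight code (off1 p))) fun ss' =>
        force (Nat.add tot (Nat.add m m)) fun tot' =>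
        loopF mask st n (Nat.shiftRight c 32) sb' ss' tot' k)
        (entOK mask st code p) := rfl
  rw [this, force_eq, force_eq, force_eq, force_eq, force_eq, force_eq]

theorem loopI_ok {v : ℕ → ℝ} (hrel : ∀ r, RelOK v (getRel r)) {st : ℕ} (h : StOK v st)
    (k : ℕ → ℕ → ℕ → ℕ → Bool) (n : ℕ) : ∀ (c sb ss tot : ℕ) (eB eS : ℕ → ℕ),
    Rep sb tot eB → Rep ss tot eS → loopF maskI st n c sb ss tot k = true →
    ∃ (c' sb' ss' tot' : ℕ) (eB' eS' : ℕ → ℕ), Rep sb' tot' eB' ∧ Rep ss' tot' eS' ∧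
      k c' sb' ss' tot' = true ∧ Lg v eB - Lg v eS ≤ Lg v eB' - Lg v eS' ∧
      (0 < n → Lg v eB - Lg v eS < Lg v eB' - Lg v eS') := by
  induction n with
  | zero =>
    intro c sb ss tot eB eS hB hS hk
    exact ⟨c, sb, ss, tot, eB, eS, hB, hS, hk, le_refl _, fun h0 => by omega⟩
  | succ n ih =>
    intro c sb ss tot eB eS hB hS hk
    rw [loopF_succ] at hk
    cases he : entOK maskI st (getRel c) (Nat.land (Nat.shiftRight c 11) 7) with
    | false => rw [he] at hk; exact absurd hk (by simp)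
    | true =>
      rw [he] at hk
      simp only at hk
      have hlt := entI hrel h c _ (land7_lt _) he
      obtain ⟨c', sb', ss', tot', eB', eS', r1, r2, r3, r4, r5⟩ :=
        ih _ _ _ _ _ _ (rep_add hB _ _) (rep_add hS _ _) hk
      refine ⟨c', sb', ss', tot', eB', eS', r1, r2, r3, ?_⟩
      rw [lg_bump, lg_bump] at r4
      have hm : (0 : ℝ) < ((Nat.succ (Nat.land (Nat.shiftRight c 14) 262143) : ℕ) : ℝ) := by
        positivity
      have := mul_lt_mul_of_pos_left hlt hm
      constructor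
      · linarith
      · intro _; linarith

theorem loopE_ok {v : ℕ → ℝ} (hrel : ∀ r, RelOK v (getRel r)) {st : ℕ} (h : StOK v st)
    (k : ℕ → ℕ → ℕ → ℕ → Bool) (n : ℕ) : ∀ (c sb ss tot : ℕ) (eB eS : ℕ → ℕ),
    Rep sb tot eB → Rep ss tot eS → loopF maskE st n c sb ss tot k = true →
    ∃ (c' sb' ss' tot' : ℕ) (eB' eS' : ℕ → ℕ), Rep sb' tot' eB' ∧ Rep ss' tot' eS' ∧
      k c' sb' ss' tot' = true ∧ Lg v eB - Lg v eS = Lg v eB' - Lg v eS' := by
  induction n with
  | zero =>
    intro c sb ss tot eB eS hB hS hk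
    exact ⟨c, sb, ss, tot, eB, eS, hB, hS, hk, rfl⟩
  | succ n ih =>
    intro c sb ss tot eB eS hB hS hk
    rw [loopF_succ] at hk
    cases he : entOK maskE st (getRel c) (Nat.land (Nat.shiftRight c 11) 7) with
    | false => rw [he] at hk; exact absurd hk (by simp)
    | true =>
      rw [he] at hk
      simp only at hk
      have hlt := entE hrel h c _ (land7_lt _) he
      obtain ⟨c', sb', ss', tot', eB', eS', r1, r2, r3, r4⟩ :=
        ih _ _ _ _ _ _ (rep_add hB _ _) (rep_add hS _ _) hk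
      refine ⟨c', sb', ss', tot', eB', eS', r1, r2, r3, ?_⟩
      rw [lg_bump, lg_bump, hlt] at r4
      linarith

theorem rep_shift {S tot : ℕ} {e : ℕ → ℕ} (h : Rep S tot e) (ht : tot < 2 ^ 32) :
    Nat.shiftRight S 32 = ∑ s ∈ range 255, e (s + 1) * (2 ^ 32) ^ s := by
  obtain ⟨h1, h2⟩ := h
  have : S = e 0 + 2 ^ 32 * ∑ s ∈ range 255, e (s + 1) * (2 ^ 32) ^ s := by
    have h3 : ∑ s ∈ range 256, e s * (2 ^ 32) ^ s =
        (∑ s ∈ range 255, e (s + 1) * (2 ^ 32) ^ (s + 1)) + e 0 * (2 ^ 32) ^ 0 :=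
      Finset.sum_range_succ' _ 255
    have h4 : (∑ s ∈ range 255, e (s + 1) * (2 ^ 32) ^ (s + 1)) =
        2 ^ 32 * ∑ s ∈ range 255, e (s + 1) * (2 ^ 32) ^ s := by
      rw [Finset.mul_sum]
      apply Finset.sum_congr rfl
      intro i _
      rw [pow_succ]; ring
    rw [h1, h3, h4, pow_zero, mul_one, add_comm]
  rw [shr_eq, Nat.shiftRight_eq_div_pow, this, Nat.add_mul_div_left _ _ (by norm_num),
    Nat.div_eq_of_lt (lt_of_le_of_lt (h2 0) ht), zero_add]

theorem fin_ok {v : ℕ → ℝ} (hv0 : v 0 = 1) {sb ss tot : ℕ} {eB eS : ℕ → ℕ}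
    (hB : Rep sb tot eB) (hS : Rep ss tot eS) (h : finF sb ss tot = true) :
    Lg v eB = Lg v eS := by
  unfold finF at h
  rw [Bool.and_eq_true] at h
  obtain ⟨h1, h2⟩ := h
  have h1 := Nat.eq_of_beq_eq_true h1
  have h2 : tot < 2147483648 := by
    rw [Nat.blt_eq] at h2; exact h2
  have ht : tot < 2 ^ 32 := by omega
  rw [rep_shift hB ht, rep_shift hS ht] at h1
  have hd := digits_eq (2 ^ 32) 255 (fun s => eB (s + 1)) (fun s => eS (s + 1))
    (fun s => lt_of_le_of_lt (hB.2 _) ht) (fun s => lt_of_le_of_lt (hS.2 _) ht) h1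
  unfold Lg
  apply Finset.sum_congr rfl
  intro s hs
  cases s with
  | zero => rw [hv0]; simp
  | succ s =>
    have := hd s (by have := Finset.mem_range.1 hs; omega)
    rw [this]

theorem fcase {v : ℕ → ℝ} (hrel : ∀ r, RelOK v (getRel r)) (hv0 : v 0 = 1) {st : ℕ}
    (h : StOK v st) {ni ne code : ℕ} (hc : chk (.f ni ne code) st = true) : False := by
  have : chk (.f ni ne code) st = Bool.and (Nat.blt 0 ni)
      (loopF maskI st ni code 0 0 0 fun c sb ss tot =>
        loopF maskE st ne c sb ss tot fun _ sb ss tot => finF sb ss tot) := rfl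
  rw [this] at hc
  simp only [Bool.and_eq_true] at hc
  obtain ⟨h1, h2⟩ := hc
  have h1 : 0 < ni := by rw [Nat.blt_eq] at h1; exact h1
  obtain ⟨c', sb', ss', tot', eB', eS', r1, r2, r3, _, r5⟩ :=
    loopI_ok hrel h _ ni _ _ _ _ _ _ rep_zero rep_zero h2
  obtain ⟨c'', sb'', ss'', tot'', eB'', eS'', q1, q2, q3, q4⟩ :=
    loopE_ok hrel h _ ne _ _ _ _ _ _ r1 r2 r3
  have := fin_ok hv0 q1 q2 q3
  have := r5 h1
  simp only [sub_self] at this
  linarith

theorem bit2_of {st y : ℕ} (h1 : Nat.beq (Nat.land (fl st y) 4) 4 = true) :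
    (fl st y).testBit 2 = true := by
  have h4 : Nat.testBit (Nat.land (fl st y) 4) 2 = Nat.testBit 4 2 :=
    congrArg (fun z => Nat.testBit z 2) (Nat.eq_of_beq_eq_true h1)
  rw [land_testBit (fl st y) 4 2] at h4
  have h6 : Nat.testBit 4 2 = true := by decide
  rw [h6, Bool.and_true] at h4
  exact h4

theorem ne_of_flag {v : ℕ → ℝ} {st y : ℕ} (h : StOK v st)
    (h1 : Nat.beq (Nat.land (fl st y) 4) 4 = true) : v y ≠ 0 := by
  have h5 := (h y).2.2 (bit2_of h1)
  simpa using h5

end Pool.Agent.GS.Ref
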