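import Pool.Agent.GS.RefLink

/-!
Soundness of the class certificates: initial state, normalisation of signs along a forest.
-/

namespace Pool.Agent.GS.Ref

open Matrix

/-! ### changing the sign of a row and column -/

theorem lapR_scale (d : Fin 5 → ℝ) (S : Fin 5 → Fin 5 → ℝ) (f f' : List (Fin 5) → ℝ) (P : ℝ)
    (n : ℕ) (hf : ∀ l : List (Fin 5), l.length = n → f' l = P * (l.map d).prod * f l)
    (r : Fin 5) : ∀ (cs pre : List (Fin 5)) (s : ℝ), pre.length + cs.length = n + 1 →
    lapR (fun i j => d i * d j * S i j) f' r pre cs s =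
      d r * P * ((pre ++ cs).map d).prod * lapR S f r pre cs s := by
  intro cs
  induction cs with
  | nil => intro pre s _; simp [lapR]
  | cons c cs ih =>
    intro pre s hl
    rw [lapR, lapR, hf (pre ++ cs) (by simp at hl ⊢; omega),
      ih (pre ++ [c]) (-s) (by simp at hl ⊢; omega)]
    simp only [List.map_append, List.prod_append, List.map_cons, List.prod_cons,
      List.append_assoc, List.cons_append, List.nil_append]
    ring

theorem mdet_scale (d : Fin 5 → ℝ) (S : Fin 5 → Fin 5 → ℝ) : ∀ (rs cs : List (Fin 5)),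
    rs.length = cs.length → mdet (fun i j => d i * d j * S i j) rs cs =
      (rs.map d).prod * (cs.map d).prod * mdet S rs cs := by
  intro rs
  induction rs with
  | nil =>
    intro cs h
    have : cs = [] := by
      cases cs with
      | nil => rfl
      | cons _ _ => simp at h
    rw [this]; simp [mdet]
  | cons r rs ih =>
    intro cs h
    rw [mdet, mdet, lapR_scale d S (mdet S rs) _ ((rs.map d).prod) rs.length
      (fun l hl => ih l hl.symm) r cs [] 1 (by simp at h ⊢; omega)]
    simp only [List.map_cons, List.prod_cons, List.nil_append]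

/-- sign change at the vertex `v` -/
def dZ (v i : Fin 5) : ℤ := if i = v then -1 else 1
noncomputable def dR (v i : Fin 5) : ℝ := if i = v then -1 else 1

theorem dR_cast (v i : Fin 5) : dR v i = ((dZ v i : ℤ) : ℝ) := by
  unfold dR dZ; split <;> simp

/-- `A` with row and column `v` negated -/
noncomputable def flip (v : Fin 5) (A : Matrix (Fin 5) (Fin 5) ℝ) : Matrix (Fin 5) (Fin 5) ℝ :=
  Matrix.of fun i j => dR v i * dR v j * A i j

theorem flip_posDef {A : Matrix (Fin 5) (Fin 5) ℝ} (hA : A.PosDef) (v : Fin 5) :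
    (flip v A).PosDef := by
  have h1 : flip v A = (Matrix.diagonal (dR v))ᴴ * A * Matrix.diagonal (dR v) := by
    ext i j
    rw [Matrix.mul_diagonal, Matrix.diagonal_conjTranspose, Matrix.diagonal_mul]
    simp [flip]; ring
  rw [h1]
  apply hA.conjTranspose_mul_mul_same
  intro x y hxy
  funext i
  have h2 := congrFun hxy i
  rw [Matrix.mulVec_diagonal, Matrix.mulVec_diagonal] at h2
  have h3 : dR v i ≠ 0 := by unfold dR; split <;> norm_num
  exact mul_left_cancel₀ h3 h2

theorem ent_flip (v : Fin 5) (A : Matrix (Fin 5) (Fin 5) ℝ) :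
    ent (flip v A) = fun i j => dR v i * dR v j * ent A i j := rfl

theorem sym_flip : ∀ s : Fin 142, ∀ v : Fin 5,
    (symT.getD s.val ([], [])).1.length = (symT.getD s.val ([], [])).2.length ∧
    (((symT.getD s.val ([], [])).1.map (dZ v)).prod * ((symT.getD s.val ([], [])).2.map (dZ v)).prod
      = if (em s.val).testBit v.val then -1 else 1) := by
  decide +kernel

theorem em_big (s : ℕ) (hs : 142 ≤ s) : em s = 0 := by
  unfold em
  have h0 : emT < 2 ^ (5 * 142) := by decide +kernel
  have h1 : emT < 2 ^ (Nat.mul 5 s) := by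
    apply lt_of_lt_of_le h0
    apply Nat.pow_le_pow_right (by norm_num)
    rw [mul_eq']; omega
  rw [land_eq, shr_eq, Nat.shiftRight_eq_div_pow, Nat.div_eq_of_lt h1]
  simp

theorem val_flip (v : Fin 5) (A : Matrix (Fin 5) (Fin 5) ℝ) (s : ℕ) :
    val (flip v A) s = (if (em s).testBit v.val then -1 else 1) * val A s := by
  by_cases hs : s < 142
  · obtain ⟨h1, h2⟩ := sym_flip ⟨s, hs⟩ v
    simp only at h1 h2
    unfold val sv
    rw [ent_flip, mdet_scale _ _ _ _ h1]
    congr 1
    have h3 : ∀ l : List (Fin 5), (l.map (dR v)).prod = (((l.map (dZ v)).prod : ℤ) : ℝ) := by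
      intro l
      induction l with
      | nil => simp
      | cons a l ih => simp only [List.map_cons, List.prod_cons]; rw [ih, dR_cast]; push_cast; ring
    rw [h3, h3, ← Int.cast_mul, h2]
    split <;> simp
  · have hs : 142 ≤ s := by omega
    rw [em_big s hs]
    have h1 : symT.getD s ([], []) = ([], []) := by
      rw [List.getD_eq_default]
      have : symT.length = 142 := by decide +kernel
      omega
    unfold val sv
    rw [h1]
    simp [mdet]

/-! ### normalisation of a sign -/

theorem vm_spec : ∀ v : Fin 5, ∀ s : Fin 142, (em s.val).testBit v.val = true →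
    (vm v.val).testBit (4 * s.val) = true := by
  decide +kernel

theorem xor_eq (x y : ℕ) : Nat.xor x y = x ^^^ y := rfl

theorem canW_spec {st y v : ℕ} (h : canW st y v = true) : v < 5 ∧
    (em y).testBit v = true ∧ ∀ s, (em s).testBit v = true →
      (fl st s).testBit 0 = (fl st s).testBit 1 := by
  unfold canW at h
  simp only [Bool.and_eq_true] at h
  obtain ⟨h1, h2, h3⟩ := h
  have h1 : v < 5 := by rw [Nat.blt_eq] at h1; exact h1
  have h2 := Nat.eq_of_beq_eq_true h2
  rw [land_one_eq] at h2
  have b1 : (em y).testBit v = true := by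
    rw [shr_eq, Nat.testBit_shiftRight, add_zero] at h2
    cases hb : (em y).testBit v with
    | true => rfl
    | false => rw [hb] at h2; exact absurd h2 (by simp)
  refine ⟨h1, b1, ?_⟩
  intro s hs
  by_cases hs2 : s < 142
  · have h4 := vm_spec ⟨v, h1⟩ ⟨s, hs2⟩ hs
    simp only at h4
    have h5 := congrArg (fun z => Nat.testBit z (4 * s)) (Nat.eq_of_beq_eq_true h3)
    have h6 : (st.testBit (4 * s) != st.testBit (4 * s + 1)) = false := by
      have h7 : Nat.testBit (Nat.land (Nat.xor st (Nat.shiftRight st 1)) (vm v)) (4 * s) =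
          (st.testBit (4 * s) != st.testBit (4 * s + 1)) := by
        rw [land_testBit, h4, Bool.and_true, xor_eq, Nat.testBit_xor, shr_eq,
          Nat.testBit_shiftRight, Nat.add_comm 1 (4 * s)]
      rw [← h7, h5]
      simp
    rw [fl_testBit, fl_testBit, Nat.add_zero]
    revert h6
    cases st.testBit (4 * s) <;> cases st.testBit (4 * s + 1) <;> simp
  · rw [em_big s (by omega)] at hs
    simp at hs

theorem neg_aux1 : ∀ s : SignType, s ≠ -1 → -s ≠ 1 := by decide
theorem neg_aux2 : ∀ s : SignType, s ≠ 1 → -s ≠ -1 := by decide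
theorem neg_aux3 : ∀ s : SignType, s ≠ 0 → -s ≠ 0 := by decide

theorem flip_ok {A : Matrix (Fin 5) (Fin 5) ℝ} {st : ℕ} (h : StOK (val A) st) (v : Fin 5)
    (hs : ∀ s, (em s).testBit v.val = true → (fl st s).testBit 0 = (fl st s).testBit 1) :
    StOK (val (flip v A)) st := by
  intro s
  rw [val_flip]
  by_cases hb : (em s).testBit v.val = true
  · rw [if_pos hb]
    have h1 := hs s hb
    have h0 := h s
    unfold okf okg at *
    have e : SignType.sign (-1 * val A s) = - SignType.sign (val A s) := by
      rw [neg_one_mul, Left.sign_neg]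
    rw [e]
    generalize SignType.sign (val A s) = sg at *
    obtain ⟨a, b, c⟩ := h0
    rw [h1] at a ⊢
    refine ⟨fun hx => ?_, fun hx => ?_, fun hx => ?_⟩
    · exact neg_aux1 _ (b hx)
    · exact neg_aux2 _ (a hx)
    · exact neg_aux3 _ (c hx)
  · rw [if_neg hb, one_mul]; exact h s

/-- the matrix can be chosen with nonnegative value at `y` -/
theorem norm_ok {A : Matrix (Fin 5) (Fin 5) ℝ} (hA : A.PosDef) {st : ℕ} (h : StOK (val A) st)
    {y v : ℕ} (hc : canW st y v = true) :
    ∃ B : Matrix (Fin 5) (Fin 5) ℝ, B.PosDef ∧ StOK (val B) st ∧ 0 ≤ val B y := by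
  obtain ⟨hv, h1, h2⟩ := canW_spec hc
  rcases le_or_gt 0 (val A y) with h0 | h0
  · exact ⟨A, hA, h, h0⟩
  · refine ⟨flip ⟨v, hv⟩ A, flip_posDef hA _, flip_ok h ⟨v, hv⟩ h2, ?_⟩
    rw [val_flip, if_pos h1]
    linarith

/-- soundness of the certificate checker -/
theorem chk_sound : ∀ (c : Cert) (A : Matrix (Fin 5) (Fin 5) ℝ) (st : ℕ), A.PosDef →
    StOK (val A) st → chk c st = true → False := by
  intro c
  induction c with
  | run n code k ih =>
    intro A st hA h hc
    have : chk (.run n code k) st = force (runS n code st) (chk k) := rfl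
    rw [this, force_eq] at hc
    exact ih A _ hA (runS_ok (val_rel hA) n code h) hc
  | x y =>
    intro A st hA h hc
    have : chk (.x y) st = Nat.beq (fl st y) 7 := rfl
    rw [this] at hc
    have h7 := h y
    rw [Nat.eq_of_beq_eq_true hc] at h7
    exact okf7 h7
  | b y p n ihp ihn =>
    intro A st hA h hc
    have : chk (.b y p n) st = Bool.and (Nat.beq (Nat.land (fl st y) 4) 4)
      (Bool.and (force (setF st y 6) (chk p)) (force (setF st y 5) (chk n))) := rfl
    rw [this, force_eq, force_eq] at hc
    simp only [Bool.and_eq_true] at hc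
    obtain ⟨h1, h2, h3⟩ := hc
    rcases lt_or_gt_of_ne (ne_of_flag h h1) with hlt | hgt
    · exact ihn A _ hA (setF_ok h (by norm_num) (okf_five hlt)) h3
    · exact ihp A _ hA (setF_ok h (by norm_num) (okf_six hgt)) h2
  | t y p n z ihp ihn ihz =>
    intro A st hA h hc
    have : chk (.t y p n z) st =
      Bool.and (force (setF st y 6) (chk p)) (Bool.and (force (setF st y 5) (chk n))
        (force (setF st y 3) (chk z))) := rfl
    rw [this, force_eq, force_eq, force_eq] at hc
    simp only [Bool.and_eq_true] at hc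
    obtain ⟨h1, h2, h3⟩ := hc
    rcases lt_trichotomy (val A y) 0 with hlt | heq | hgt
    · exact ihn A _ hA (setF_ok h (by norm_num) (okf_five hlt)) h2
    · exact ihz A _ hA (setF_ok h (by norm_num) (okf_three heq)) h3
    · exact ihp A _ hA (setF_ok h (by norm_num) (okf_six hgt)) h1
  | w y v p ihp =>
    intro A st hA h hc
    have : chk (.w y v p) st = Bool.and (Nat.beq (Nat.land (fl st y) 4) 4)
      (Bool.and (canW st y v) (force (setF st y 6) (chk p))) := rfl
    rw [this, force_eq] at hc
    simp only [Bool.and_eq_true] at hc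
    obtain ⟨h1, h2, h3⟩ := hc
    obtain ⟨B, hB, hst, h0⟩ := norm_ok hA h h2
    have hpos : 0 < val B y := lt_of_le_of_ne h0 (ne_of_flag hst h1).symm
    exact ihp B _ hB (setF_ok hst (by norm_num) (okf_six hpos)) h3
  | v y v p z ihp ihz =>
    intro A st hA h hc
    have : chk (.v y v p z) st = Bool.and (canW st y v)
      (Bool.and (force (setF st y 6) (chk p)) (force (setF st y 3) (chk z))) := rfl
    rw [this, force_eq, force_eq] at hc
    simp only [Bool.and_eq_true] at hc
    obtain ⟨h1, h2, h3⟩ := hc
    obtain ⟨B, hB, hst, h0⟩ := norm_ok hA h h1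
    rcases h0.lt_or_eq with hpos | heq
    · exact ihp B _ hB (setF_ok hst (by norm_num) (okf_six hpos)) h2
    · exact ihz B _ hB (setF_ok hst (by norm_num) (okf_three heq.symm)) h3
  | f ni ne code =>
    intro A st hA h hc
    exact fcase (val_rel hA) (val_zero A) h hc

/-! ### the initial state -/

theorem st0_fl : ∀ s < 32, fl 0x66666666666666666666666666666666 s = 6 := by decide +kernel

theorem st0_big (s : ℕ) (hs : 32 ≤ s) : fl 0x66666666666666666666666666666666 s = 0 := by
  unfold fl
  have h1 : (0x66666666666666666666666666666666 : ℕ) < 2 ^ (Nat.mul 4 s) := by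
    apply lt_of_lt_of_le (b := 2 ^ 128) (by norm_num)
    apply Nat.pow_le_pow_right (by norm_num)
    rw [mul_eq']; omega
  rw [land_eq, shr_eq, Nat.shiftRight_eq_div_pow, Nat.div_eq_of_lt h1]
  simp

theorem st0_ok {A : Matrix (Fin 5) (Fin 5) ℝ} (hA : A.PosDef) :
    StOK (val A) 0x66666666666666666666666666666666 := by
  intro s
  by_cases hs : s < 32
  · rw [st0_fl s hs]; exact okf_six (val_pos hA s hs)
  · rw [st0_big s (by omega)]; exact okf_zero _

/-- the `m`-th base 100 digit -/
def dig (h m : ℕ) : ℕ := h / 100 ^ m % 100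

theorem initP_ok {v : ℕ → ℝ} (x : ℕ) (hx : x < 8) (n : ℕ) : ∀ (h st : ℕ) (k : ℕ → ℕ → ℕ),
    StOK v st → (∀ m < n, okf x (v (32 + dig h m))) →
    ∃ st', initP x n h st k = k (h / 100 ^ n) st' ∧ StOK v st' := by
  induction n with
  | zero => intro h st k hst _; exact ⟨st, by simp [initP], hst⟩
  | succ n ih =>
    intro h st k hst hd
    have e : initP x (n + 1) h st k = force (setF st (Nat.add 32 (Nat.mod h 100)) x) fun st' =>
      force (Nat.div h 100) fun h' => initP x n h' st' k := rfl
    rw [e, force_eq, force_eq]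
    have h0 : okf x (v (Nat.add 32 (Nat.mod h 100))) := by
      have := hd 0 (by omega)
      unfold dig at this
      rw [pow_zero, Nat.div_one] at this
      exact this
    obtain ⟨st', e1, e2⟩ := ih (Nat.div h 100) _ k (setF_ok hst hx h0) (by
      intro m hm
      have := hd (m + 1) (by omega)
      unfold dig at *
      rw [pow_succ', ← Nat.div_div_eq_div_mul] at this
      exact this)
    refine ⟨st', ?_, e2⟩
    rw [e1]
    congr 1
    rw [pow_succ', ← Nat.div_div_eq_div_mul]
    rfl

/-- a pattern with a certificate is impossible -/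
theorem pat_sound {p z h : ℕ} {c : Cert} (hc : chk c (init p z h) = true)
    {A : Matrix (Fin 5) (Fin 5) ℝ} (hA : A.PosDef) (h1 : ∀ m < p, val A (32 + dig h m) = 0)
    (h2 : ∀ m, p ≤ m → m < p + z → val A (32 + dig h m) ≠ 0) : False := by
  obtain ⟨st', e1, s1⟩ := initP_ok 3 (by norm_num) p h 0x66666666666666666666666666666666
    (fun h' st' => initP 4 z h' st' fun _ st'' => st'') (st0_ok hA)
    (fun m hm => okf_three (h1 m hm))
  obtain ⟨st'', e2, s2⟩ := initP_ok 4 (by norm_num) z (h / 100 ^ p) st' (fun _ st'' => st'') s1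
    (by
      intro m hm
      apply okf_four
      have := h2 (p + m) (by omega) (by omega)
      unfold dig at *
      rw [pow_add, ← Nat.div_div_eq_div_mul] at this
      exact this)
  have : init p z h = st'' := by
    unfold init
    rw [e1, e2]
  rw [this] at hc
  exact chk_sound c A st'' hA s2 hc

end Pool.Agent.GS.Ref
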