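import Pool.Agent.GS.RefTab

/-!
Kernel-friendly constraint propagation on sign flags.
State: 4 bits per symbol, bit 0 = not positive, bit 1 = not negative, bit 2 = not zero.
-/

namespace Pool.Agent.GS.Ref

/-- force evaluation of a natural number in the kernel -/
@[reducible] def force {α : Type} (n : ℕ) (k : ℕ → α) : α :=
  Nat.rec (motive := fun _ => α) (k 0) (fun m _ => k (Nat.succ m)) n

/-- flags of the symbol `s` in the state -/
@[reducible] def fl (st s : ℕ) : ℕ := Nat.land (Nat.shiftRight st (Nat.mul 4 s)) 7

/-- the packed relation `r` (64 bit slots) -/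
@[reducible] def getRel (r : ℕ) : ℕ :=
  Nat.land (Nat.shiftRight (relPc (Nat.land (Nat.shiftRight r 6) 31))
    (Nat.mul 64 (Nat.land r 63))) 0x3FFFFFFFFFFFFF

@[reducible] def tA (t : ℕ) : ℕ := Nat.land (Nat.shiftRight t 2) 255
@[reducible] def tB (t : ℕ) : ℕ := Nat.land (Nat.shiftRight t 10) 255

/-- flags of a product -/
@[reducible] def prodF (c x y : ℕ) : ℕ :=
  Nat.land (Nat.shiftRight prodT (Nat.add (Nat.mul 256 c)
    (Nat.add (Nat.mul 32 x) (Nat.mul 4 y)))) 7

/-- flags of a term -/
@[reducible] def tF (st t : ℕ) : ℕ := prodF (Nat.land t 3) (fl st (tA t)) (fl st (tB t))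

/-- flags of a term given the flags of the two other terms -/
@[reducible] def sumF (x y : ℕ) : ℕ :=
  Nat.land (Nat.shiftRight sumT (Nat.add (Nat.mul 32 x) (Nat.mul 4 y))) 7

/-- flags of a factor, given the flags of the term and of the other factor -/
@[reducible] def divF (c x y : ℕ) : ℕ :=
  Nat.land (Nat.shiftRight divT (Nat.add (Nat.mul 256 c)
    (Nat.add (Nat.mul 32 x) (Nat.mul 4 y)))) 7

/-- bit offsets of the three terms for the six permutations (slots 6, 7 repeat the identity) -/
@[reducible] def off0 (p : ℕ) : ℕ := Nat.land (Nat.shiftRight 0x924492000 (Nat.mul 6 p)) 63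
@[reducible] def off1 (p : ℕ) : ℕ := Nat.land (Nat.shiftRight 0x492480900912 (Nat.mul 6 p)) 63
@[reducible] def off2 (p : ℕ) : ℕ := Nat.land (Nat.shiftRight 0x9240120244a4 (Nat.mul 6 p)) 63

@[reducible] def upd (st c need y z : ℕ) : ℕ :=
  Nat.lor st (Nat.shiftLeft (divF c need (fl st z)) (Nat.mul 4 y))

/-- one propagation step; `f = 0`: derive factor a of the first term, else factor b -/
@[reducible] def stepU (st tu need f : ℕ) : ℕ :=
  Nat.rec (motive := fun _ => ℕ) (upd st (Nat.land tu 3) need (tA tu) (tB tu))
    (fun _ _ => upd st (Nat.land tu 3) need (tB tu) (tA tu)) f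

/-- one step of the propagation: token = relation (11 bits), permutation (3 bits), side (1 bit) -/
@[reducible] def stepS (st tok : ℕ) : ℕ :=
  force (getRel tok) fun code =>
  force (Nat.land (Nat.shiftRight tok 11) 7) fun p =>
  stepU st (Nat.shiftRight code (off0 p))
    (sumF (tF st (Nat.shiftRight code (off1 p))) (tF st (Nat.shiftRight code (off2 p))))
    (Nat.land (Nat.shiftRight tok 14) 1)

/-- `n` propagation steps, 15 bits per token -/
@[reducible] def runS (n : ℕ) : ℕ → ℕ → ℕ :=
  Nat.rec (motive := fun _ => ℕ → ℕ → ℕ) (fun _ st => st)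
    (fun _ ih code st => force (stepS st code) fun st' => ih (Nat.shiftRight code 15) st') n

/-- final check of a product certificate -/
@[reducible] def finF (sb ss tot : ℕ) : Bool :=
  Bool.and (Nat.beq (Nat.shiftRight sb 32) (Nat.shiftRight ss 32)) (Nat.blt tot 2147483648)

/-- one entry of the product certificate: relation (11), permutation (3), multiplicity minus one (18) -/
@[reducible] def entOK (mask st code p : ℕ) : Bool :=
  Nat.beq (Nat.land (Nat.shiftRight mask
    (Nat.add (Nat.mul 64 (tF st (Nat.shiftRight code (off0 p))))
      (Nat.add (Nat.mul 8 (tF st (Nat.shiftRight code (off1 p))))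
        (tF st (Nat.shiftRight code (off2 p)))))) 1) 1

@[reducible] def add2 (s m t : ℕ) : ℕ :=
  Nat.add s (Nat.add (Nat.shiftLeft m (Nat.mul 32 (tA t))) (Nat.shiftLeft m (Nat.mul 32 (tB t))))

@[reducible] def loopF (mask st : ℕ) (n : ℕ) : ℕ → ℕ → ℕ → ℕ → (ℕ → ℕ → ℕ → ℕ → Bool) → Bool :=
  Nat.rec (motive := fun _ => ℕ → ℕ → ℕ → ℕ → (ℕ → ℕ → ℕ → ℕ → Bool) → Bool)
    (fun c sb ss tot k => k c sb ss tot)
    (fun _ ih c sb ss tot k =>
      force (getRel c) fun code =>
      force (Nat.land (Nat.shiftRight c 11) 7) fun p =>
      force (Nat.succ (Nat.land (Nat.shiftRight c 14) 262143)) fun m =>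
      Bool.rec (motive := fun _ => Bool) false
        (force (add2 sb m (Nat.shiftRight code (off0 p))) fun sb' =>
        force (add2 ss m (Nat.shiftRight code (off1 p))) fun ss' =>
        force (Nat.add tot (Nat.add m m)) fun tot' =>
        ih (Nat.shiftRight c 32) sb' ss' tot' k)
        (entOK mask st code p)) n

/-- masks of the accepted flag triples: inequality and equality entries -/
def maskI : ℕ := 0x200000000000004000000000000000000000000000000000000000000000000000000000000000000000000000000000000000000000
def maskE : ℕ := 0x80000000000000800000000000000000000000000000000000000000000000000000000000000000000000000000000000000000000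

/-- certificates: propagation run, contradiction at a symbol, branching on the sign of a nonzero
symbol, branching on the sign of any symbol, sign normalisation at a vertex (nonzero symbol, any
symbol), product certificate -/
inductive Cert
  | run (n code : ℕ) (k : Cert)
  | x (y : ℕ)
  | b (y : ℕ) (p n : Cert)
  | t (y : ℕ) (p n z : Cert)
  | w (y v : ℕ) (p : Cert)
  | v (y v : ℕ) (p z : Cert)
  | f (ni ne code : ℕ)

@[reducible] def setF (st y x : ℕ) : ℕ := Nat.lor st (Nat.shiftLeft x (Nat.mul 4 y))

/-- vertex masks of the symbols, 5 bits each -/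
def emT : ℕ := 0x3def7bdeef77bbdfbddedefef6f77bf7bbddefc6318c6318a5294a52946318c6318c94a5294a525294a5294a318c6318c68c6318c6314a5294a529294a5294a518c6318c630000000000000000000000000000000000000000

@[reducible] def em (s : ℕ) : ℕ := Nat.land (Nat.shiftRight emT (Nat.mul 5 s)) 31

/-- masks (bit `4 s`) of the symbols containing the vertex -/
def vmT0 : ℕ := 0x1111111111111111111111110000000000000000000000000000000000000000000000001111111111111111111111111111111100000000000000000000000000000000
def vmT1 : ℕ := 0x1111110011110011110011111111110000000000000000000000001111111111111111111111110000000000000000000000001111111100000000000000000000000000000000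
def vmT2 : ℕ := 0x1111111100111100111111110011110000000011111111111111110000000000000000111111110000000000000000111111110000000000000000000000000000000000000000
def vmT3 : ℕ := 0x1111111111001111111100111100111111111100000000111111110000000011111111000000000000000011111111000000000000000000000000000000000000000000000000
def vmT4 : ℕ := 0x1111111111111111001111001111001111111111111111000000001111111100000000000000001111111100000000000000000000000000000000000000000000000000000000

@[reducible] def vm (v : ℕ) : ℕ := sel v vmT0 (sel (Nat.sub v 1) vmT1 (sel (Nat.sub v 2) vmT2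
  (sel (Nat.sub v 3) vmT3 vmT4)))

/-- the sign of the symbol `y` may be normalised by the vertex `v`: `y` contains `v`, and no symbol
with asymmetric flags contains `v` -/
def canW (st y v : ℕ) : Bool :=
  Bool.and (Nat.blt v 5) (Bool.and (Nat.beq (Nat.land (Nat.shiftRight (em y) v) 1) 1)
    (Nat.beq (Nat.land (Nat.xor st (Nat.shiftRight st 1)) (vm v)) 0))

/-- the checker of refutation certificates -/
noncomputable def chk : Cert → ℕ → Bool :=
  Cert.rec (motive := fun _ => ℕ → Bool)
    (fun n code _ ih st => force (runS n code st) ih)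
    (fun y st => Nat.beq (fl st y) 7)
    (fun y _ _ ihp ihn st => Bool.and (Nat.beq (Nat.land (fl st y) 4) 4)
      (Bool.and (force (setF st y 6) ihp) (force (setF st y 5) ihn)))
    (fun y _ _ _ ihp ihn ihz st =>
      Bool.and (force (setF st y 6) ihp) (Bool.and (force (setF st y 5) ihn)
        (force (setF st y 3) ihz)))
    (fun y v _ ihp st => Bool.and (Nat.beq (Nat.land (fl st y) 4) 4)
      (Bool.and (canW st y v) (force (setF st y 6) ihp)))
    (fun y v _ _ ihp ihz st => Bool.and (canW st y v)
      (Bool.and (force (setF st y 6) ihp) (force (setF st y 3) ihz)))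
    (fun ni ne code st =>
      Bool.and (Nat.blt 0 ni)
        (loopF maskI st ni code 0 0 0 fun c sb ss tot =>
          loopF maskE st ne c sb ss tot fun _ sb ss tot => finF sb ss tot))

/-- base 100 digits of `h`: the first `p` digits are symbols known to be zero, the next `z` digits
are symbols known to be nonzero -/
@[reducible] def initP (x : ℕ) (n : ℕ) : ℕ → ℕ → (ℕ → ℕ → ℕ) → ℕ :=
  Nat.rec (motive := fun _ => ℕ → ℕ → (ℕ → ℕ → ℕ) → ℕ) (fun h st k => k h st)
    (fun _ ih h st k => force (setF st (Nat.add 32 (Nat.mod h 100)) x) fun st' =>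
      force (Nat.div h 100) fun h' => ih h' st' k) n

/-- initial state of a pattern -/
@[reducible] def init (p z h : ℕ) : ℕ :=
  initP 3 p h 0x66666666666666666666666666666666 fun h' st' => initP 4 z h' st' fun _ st'' => st''

end Pool.Agent.GS.Ref
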