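import Pool.Agent.GS.RefIDefs

/-!
Soundness of the refutation machine for internal lanes.
-/

set_option autoImplicit false
set_option linter.unusedVariables false

namespace Pool.Agent.GS.RI

/-- sign of the lane `b` -/
def lg (ε : Fin 5 → Fin 5 → Finset (Fin 5) → SignType) (b : ℕ) : SignType := sg ε (ordTab (79 - b))

theorem ord_lt : ∀ b < 80, ordTab (79 - b) < 80 := by decide +kernel

/-- the sign of every lane is possible in the state `st` -/
def GoodI (st : ℕ) (ε : Fin 5 → Fin 5 → Finset (Fin 5) → SignType) : Prop :=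
  ∀ s < 80, st.testBit (3 * s + sc (lg ε s)) = true

theorem goodI_rmv {st s v : ℕ} {ε : Fin 5 → Fin 5 → Finset (Fin 5) → SignType} (h : GoodI st ε)
    (hv : v < 3) (hne : s < 80 → sc (lg ε s) ≠ v) : GoodI (rmv st s v) ε := by
  intro s' hs'
  rw [rmv_eq, Nat.testBit_xor, h s' hs', Nat.one_shiftLeft, Nat.testBit_two_pow]
  have h3 := sc_lt (lg ε s')
  have : ¬ (3 * s + v = 3 * s' + sc (lg ε s')) := by
    intro he
    have hss : s = s' := by omega
    subst hss
    exact hne hs' (by omega)
  simp [this]

theorem goodI_asg {st s v : ℕ} {ε : Fin 5 → Fin 5 → Finset (Fin 5) → SignType} (h : GoodI st ε)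
    (hv : v < 3) (he : s < 80 → sc (lg ε s) = v) : GoodI (asg st s v) ε := by
  intro s' hs'
  by_cases hss : s' = s
  · subst hss
    rw [asg_testBit_same _ _ _ _ (sc_lt _), he hs']
    simp
  · rw [asg_testBit_ne _ _ _ _ _ hv (sc_lt _) hss]
    exact h s' hs'

/-! ### relations -/

theorem tabI_ok : ∀ r < 512,
    (ordTab (79 - sy (entI r) 0) = sy (ent r) 0 ∧ ordTab (79 - sy (entI r) 1) = sy (ent r) 1 ∧
    ordTab (79 - sy (entI r) 2) = sy (ent r) 2 ∧ ordTab (79 - sy (entI r) 3) = sy (ent r) 3) ∧
    (sy (entI r) 0 < 80 ∧ sy (entI r) 1 < 80 ∧ sy (entI r) 2 < 80 ∧ sy (entI r) 3 < 80) := by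
  decide +kernel

theorem rel_okI {S : SymSet} {ε : Fin 5 → Fin 5 → Finset (Fin 5) → SignType}
    (h : IsOrientation S ε) (r : ℕ) (hr : r < 512) :
    Bal (-(lg ε (sy (entI r) 0))) (lg ε (sy (entI r) 1))
      (lg ε (sy (entI r) 2) * lg ε (sy (entI r) 3)) := by
  obtain ⟨⟨e0, e1, e2, e3⟩, -⟩ := tabI_ok r hr
  unfold lg
  rw [e0, e1, e2, e3]
  exact rel_ok h r hr

theorem dsel_okI {st e p v q : ℕ} {ε : Fin 5 → Fin 5 → Finset (Fin 5) → SignType}
    (h : GoodI st ε) (hs : sy e q < 80) (hv : sc (lg ε (sy e p)) = v) :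
    dsel st e p v q < 8 ∧ (dsel st e p v q).testBit (sc (lg ε (sy e q))) = true := by
  unfold dsel
  by_cases hpq : p = q
  · subst hpq
    rw [Nat.beq_refl]
    show Nat.shiftLeft 1 v < 8 ∧ (Nat.shiftLeft 1 v).testBit _ = true
    rw [shl_eq, ← hv]
    refine ⟨one_shl_lt _ (sc_lt _), ?_⟩
    rw [Nat.one_shiftLeft, Nat.testBit_two_pow]
    simp
  · have : Nat.beq p q = false := by
      cases hb : Nat.beq p q
      · rfl
      · exact absurd (Nat.eq_of_beq_eq_true hb) hpq
    rw [this]
    show dm st (sy e q) < 8 ∧ (dm st (sy e q)).testBit _ = true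
    exact ⟨dm_lt _ _, by rw [dm_testBit _ _ _ (sc_lt _)]; exact h _ hs⟩

theorem possQ_okI {S : SymSet} {ε : Fin 5 → Fin 5 → Finset (Fin 5) → SignType}
    (ho : IsOrientation S ε) {st r p v : ℕ} (h : GoodI st ε) (hr : r < 512)
    (hv : sc (lg ε (sy (entI r) p)) = v) : possQ st (entI r) p v = true := by
  obtain ⟨-, l0, l1, l2, l3⟩ := tabI_ok r hr
  have hb := rel_okI ho r hr
  obtain ⟨a0, b0⟩ := dsel_okI (p := p) (v := v) h l0 hv
  obtain ⟨a1, b1⟩ := dsel_okI (p := p) (v := v) h l1 hv
  obtain ⟨a2, b2⟩ := dsel_okI (p := p) (v := v) h l2 hv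
  obtain ⟨a3, b3⟩ := dsel_okI (p := p) (v := v) h l3 hv
  unfold possQ
  exact blc_ok _ a0 _ a1 _ (prd_lt _ a2 _ a3) _ _ _ b0 b1 (prd_ok _ a2 _ a3 _ _ b2 b3) hb

/-! ### the machine -/

/-- no orientation is compatible with the state -/
def BadI (S : SymSet) (st : ℕ) : Prop :=
  ∀ ε, IsOrientation S ε → ¬ GoodI st ε

theorem syI_lt (r p : ℕ) (hr : r < 512) (hp : p < 4) : sy (entI r) p < 80 := by
  obtain ⟨-, l0, l1, l2, l3⟩ := tabI_ok r hr
  interval_cases p <;> assumption

theorem runI_sound (k : ℕ → Bool) (S : SymSet) (fuel : ℕ) : ∀ (st : ℕ) (stk : List ℕ) (c : ℕ),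
    runI k fuel st stk c = true →
      BadI S st ∧ (∀ st' ∈ stk, BadI S st') ∧ ∃ c', k c' = true := by
  induction fuel with
  | zero => intro st stk c h; exact absurd h (by simp [runI])
  | succ n ih =>
    intro st stk c h
    have h1 : stepI (runI k n) k st stk (nxt c) (tok c) = true := h
    clear h
    generalize nxt c = c1 at h1
    generalize tok c = t at h1
    unfold stepI at h1
    cases hb : Nat.beq (Nat.land t (nat_lit 1)) (nat_lit 1) with
    | true =>
      rw [hb] at h1
      have h2 : branch (runI k n) st stk c1 (tS t) (tW t) = true := h1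
      unfold branch at h2
      obtain ⟨g1, g2, g3⟩ := ih _ _ _ h2
      refine ⟨?_, fun st' hst' => g2 st' (List.mem_cons_of_mem _ hst'), g3⟩
      intro ε hε hG
      by_cases hc : tS t < 80 → sc (lg ε (tS t)) = tW t
      · exact g1 ε hε (goodI_asg hG (tW_lt t) hc)
      · push Not at hc
        exact g2 _ List.mem_cons_self ε hε (goodI_rmv hG (tW_lt t) (fun _ => hc.2))
    | false =>
      rw [hb] at h1
      have h2 : derive (runI k n) k st stk c1 (entI (tR t)) (tP t) (tV t) = true := h1
      unfold derive at h2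
      cases hp : possQ st (entI (tR t)) (tP t) (tV t) with
      | true => rw [hp] at h2; exact absurd h2 (by simp)
      | false =>
        rw [hp] at h2
        have hG' : ∀ ε, IsOrientation S ε → GoodI st ε →
            GoodI (rmv st (sy (entI (tR t)) (tP t)) (tV t)) ε := by
          intro ε hε hG
          refine goodI_rmv hG (tV_lt t) (fun _ he => ?_)
          have := possQ_okI hε hG (tR_lt t) he
          rw [hp] at this
          exact absurd this (by simp)
        cases hz : Nat.beq (dm (rmv st (sy (entI (tR t)) (tP t)) (tV t)) (sy (entI (tR t)) (tP t)))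
            (nat_lit 0) with
        | false =>
          rw [hz] at h2
          obtain ⟨g1, g2, g3⟩ := ih _ _ _ h2
          exact ⟨fun ε hε hG => g1 ε hε (hG' ε hε hG), g2, g3⟩
        | true =>
          rw [hz] at h2
          have h3 : pop (runI k n) k stk c1 = true := h2
          have hbad : BadI S st := by
            intro ε hε hG
            have h4 := hG' ε hε hG _ (syI_lt _ _ (tR_lt t) (tP_lt t))
            rw [← dm_testBit _ _ _ (sc_lt _), Nat.eq_of_beq_eq_true hz] at h4
            exact absurd h4 (by simp)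
          cases stk with
          | nil => exact ⟨hbad, by simp, c1, h3⟩
          | cons a l =>
            obtain ⟨g1, g2, g3⟩ := ih _ _ _ h3
            refine ⟨hbad, ?_, g3⟩
            intro st' hst'
            rcases List.mem_cons.mp hst' with rfl | hst'
            · exact g1
            · exact g2 _ hst'

/-! ### reorientation -/

theorem epI_lt (s : ℕ) : epI s < 32 := by
  show (epTabI >>> (5 * s)) &&& 31 < 32
  have := Nat.and_two_pow_sub_one_eq_mod (epTabI >>> (5 * s)) 5
  norm_num at this
  rw [this]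
  exact Nat.mod_lt _ (by norm_num)

theorem epI_eq : ∀ b < 80, epI b = epm (ordTab (79 - b)) := by
  decide +kernel

theorem lg_flip (a : Fin 5) (ε : Fin 5 → Fin 5 → Finset (Fin 5) → SignType) (b : ℕ)
    (hb : b < 80) :
    lg (flip a ε) b = if (epI b).testBit a.val = true then - lg ε b else lg ε b := by
  unfold lg
  rw [sg_flip a ε _ (ord_lt b hb), epI_eq b hb]

/-- lanes with a non-symmetric domain have both end points in `used` -/
def SymI (st used : ℕ) : Prop :=
  ∀ s < 80, st.testBit (3 * s) = st.testBit (3 * s + 2) ∨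
    ∀ a : Fin 5, (epI s).testBit a.val = true → used.testBit a.val = true

theorem goodI_flip {st used : ℕ} {ε : Fin 5 → Fin 5 → Finset (Fin 5) → SignType} (a : Fin 5)
    (hG : GoodI st ε) (hS : SymI st used) (ha : used.testBit a.val = false) :
    GoodI st (flip a ε) := by
  intro s hs
  rw [lg_flip a ε s hs]
  split_ifs with h
  · rcases hS s hs with h1 | h1
    · have h2 := hG s hs
      rw [sc_neg]
      have h3 := sc_lt (lg ε s)
      generalize sc (lg ε s) = v at h2 h3
      interval_cases v
      · simpa [← h1] using h2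
      · exact h2
      · simpa [h1] using h2
    · rw [h1 a h] at ha
      exact absurd ha (by simp)
  · exact hG s hs

theorem headI_sound (go : ℕ → ℕ → Bool) (S : SymSet) (m : ℕ) :
    ∀ (used st c : ℕ) (ε : Fin 5 → Fin 5 → Finset (Fin 5) → SignType), IsOrientation S ε →
      GoodI st ε → SymI st used → headI go m used st c = true →
      ∃ (ε' : Fin 5 → Fin 5 → Finset (Fin 5) → SignType) (st' c' : ℕ), IsOrientation S ε' ∧
        GoodI st' ε' ∧ go st' c' = true := by
  induction m with
  | zero => intro used st c ε ho hG _ h; exact ⟨ε, st, c, ho, hG, h⟩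
  | succ m ih =>
    intro used st c ε ho hG hS h
    have h1 : ((Nat.beq (dm st (Nat.land c (nat_lit 127))) (nat_lit 5)).and
      ((Nat.ble (Nat.land c (nat_lit 127)) (nat_lit 79)).and
      ((bit1 (epI (Nat.land c (nat_lit 127))) (Nat.land (Nat.shiftRight c (nat_lit 7)) (nat_lit 7))).and
      ((bit1 used (Nat.land (Nat.shiftRight c (nat_lit 7)) (nat_lit 7))).not)))).and
      (headI go m (Nat.lor used (epI (Nat.land c (nat_lit 127))))
        (asg st (Nat.land c (nat_lit 127)) (nat_lit 0)) (Nat.shiftRight c (nat_lit 10))) = true := h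
    generalize Nat.land c (nat_lit 127) = s at h1
    generalize Nat.land (Nat.shiftRight c (nat_lit 7)) (nat_lit 7) = a at h1
    rw [Bool.and_eq_true, Bool.and_eq_true, Bool.and_eq_true, Bool.and_eq_true, bit1_eq,
      bit1_eq, Bool.not_eq_true'] at h1
    obtain ⟨⟨hzs, hs, hea, hua⟩, h2⟩ := h1
    have hs80 : s < 80 := Nat.lt_succ_of_le (Nat.le_of_ble_eq_true hs)
    have ha5 : a < 5 := by
      by_contra hcon
      have : (epI s).testBit a = false := by
        apply Nat.testBit_lt_two_pow
        exact lt_of_lt_of_le (epI_lt s)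
          (le_trans (by norm_num) (Nat.pow_le_pow_right (by norm_num) (not_lt.mp hcon)))
      rw [this] at hea
      exact absurd hea (by simp)
    have hne : lg ε s ≠ 0 := by
      intro h0
      have h4 := hG s hs80
      rw [← dm_testBit _ _ _ (sc_lt _), Nat.eq_of_beq_eq_true hzs, h0] at h4
      revert h4
      decide
    obtain ⟨ε1, ho1, hG1, he1⟩ : ∃ ε1, IsOrientation S ε1 ∧ GoodI st ε1 ∧ lg ε1 s = 1 := by
      rcases (show ∀ x : SignType, x = 0 ∨ x = 1 ∨ x = -1 by decide) (lg ε s) with h0 | h0 | h0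
      · exact absurd h0 hne
      · exact ⟨ε, ho, hG, h0⟩
      · refine ⟨flip ⟨a, ha5⟩ ε, isOrientation_flip ho _, goodI_flip _ hG hS hua, ?_⟩
        rw [lg_flip _ _ _ hs80, if_pos hea, h0]
        rfl
    refine ih _ _ _ ε1 ho1 (goodI_asg hG1 (by norm_num) (fun _ => by rw [he1]; rfl)) ?_ h2
    intro s' hs'
    by_cases hss : s' = s
    · right
      intro b hb
      subst hss
      rw [lor_eq, Nat.testBit_or, hb, Bool.or_true]
    · rcases hS s' hs' with h3 | h3
      · left
        have e0 := asg_testBit_ne st s 0 s' 0 (by norm_num) (by norm_num) hss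
        have e2 := asg_testBit_ne st s 0 s' 2 (by norm_num) (by norm_num) hss
        rw [Nat.add_zero] at e0
        rw [e0, e2, h3]
      · right
        intro b hb
        rw [lor_eq, Nat.testBit_or, h3 b hb, Bool.true_or]

theorem headI_run (go : ℕ → ℕ → Bool) (m : ℕ) : ∀ (used st c : ℕ),
    headI go m used st c = true → ∃ st' c', go st' c' = true := by
  induction m with
  | zero => intro used st c h; exact ⟨st, c, h⟩
  | succ m ih =>
    intro used st c h
    exact ih _ _ _ ((Bool.and_eq_true _ _).mp h).2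

theorem coreRun_sound {fuel st c : ℕ} {k : ℕ → Bool} (h : coreRun fuel st c k = true) :
    (∃ c', k c' = true) ∧ ∀ (S : SymSet) (ε : Fin 5 → Fin 5 → Finset (Fin 5) → SignType),
      IsOrientation S ε → GoodI st ε → SymI st 0 → False := by
  constructor
  · obtain ⟨st', c', hgo⟩ := headI_run _ _ _ _ _ h
    exact (runI_sound k ∅ fuel st' [] c' hgo).2.2
  · intro S ε hε hG hS
    obtain ⟨ε', st', c', ho', hG', hgo⟩ := headI_sound _ S _ _ _ _ ε hε hG hS h
    exact (runI_sound k S fuel st' [] c' hgo).1 ε' ho' hG'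

/-! ### spreading -/

theorem sp1_lor (s m x y : ℕ) : sp1 s m (x ||| y) = sp1 s m x ||| sp1 s m y := by
  show ((x ||| y) ||| ((x ||| y) <<< s)) &&& m = ((x ||| (x <<< s)) &&& m) ||| ((y ||| (y <<< s)) &&& m)
  apply Nat.eq_of_testBit_eq
  intro i
  simp only [Nat.testBit_and, Nat.testBit_or, Nat.testBit_shiftLeft]
  cases x.testBit i <;> cases y.testBit i <;> cases m.testBit i <;> cases x.testBit (i - s) <;>
    cases y.testBit (i - s) <;> by_cases h : i ≥ s <;> simp [h]

theorem spread_lor (x y : ℕ) : spread (x ||| y) = spread x ||| spread y := by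
  unfold spread
  simp only [sp1_lor]

theorem spread_zero : spread 0 = 0 := by decide +kernel

theorem spread_pow : ∀ b < 80, spread (2 ^ b) = 2 ^ (3 * b) := by decide +kernel

theorem spread_testBit (n : ℕ) : n ≤ 80 → ∀ x < 2 ^ n, ∀ b v, v < 3 →
    (spread x).testBit (3 * b + v) = (x.testBit b && decide (v = 0)) := by
  induction n with
  | zero =>
    intro _ x hx b v hv
    have : x = 0 := by simpa using hx
    subst this
    rw [spread_zero]
    simp
  | succ n ih =>
    intro hn x hx b v hv
    have hsplit : x = (x % 2 ^ n) ||| (if x.testBit n then 2 ^ n else 0) := by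
      apply Nat.eq_of_testBit_eq
      intro i
      rw [Nat.testBit_or, Nat.testBit_mod_two_pow]
      rcases lt_trichotomy i n with h | h | h
      · have : (if x.testBit n then 2 ^ n else 0 : ℕ).testBit i = false := by
          split_ifs
          · rw [Nat.testBit_two_pow]; simp; omega
          · simp
        rw [this]; simp [h]
      · subst h
        cases hxi : x.testBit i <;> simp
      · have h1 : x.testBit i = false :=
          Nat.testBit_lt_two_pow (lt_of_lt_of_le hx (Nat.pow_le_pow_right (by norm_num) h))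
        have h2 : (if x.testBit n then 2 ^ n else 0 : ℕ).testBit i = false := by
          split_ifs
          · rw [Nat.testBit_two_pow]; simp; omega
          · simp
        rw [h1, h2]; simp
    have h1 := ih (by omega) (x % 2 ^ n) (Nat.mod_lt _ (by positivity)) b v hv
    conv_lhs => rw [hsplit, spread_lor, Nat.testBit_or, h1]
    rw [Nat.testBit_mod_two_pow]
    have h2 : (spread (if x.testBit n then 2 ^ n else 0)).testBit (3 * b + v) =
        (decide (b = n) && (x.testBit n && decide (v = 0))) := by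
      split_ifs with h
      · rw [spread_pow n (by omega), Nat.testBit_two_pow, h]
        by_cases hb : b = n
        · subst hb
          by_cases hv0 : v = 0
          · subst hv0; simp
          · have : ¬ (3 * b = 3 * b + v) := by omega
            simp [hv0]
        · have : ¬ (3 * n = 3 * b + v) := by omega
          simp [hb, this]
      · rw [spread_zero]
        have : x.testBit n = false := by simpa using h
        simp [this]
    rw [h2]
    rcases lt_trichotomy b n with h | h | h
    · have : ¬ b = n := by omega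
      simp [h, this]
    · subst h
      simp
    · have h3 : x.testBit b = false :=
        Nat.testBit_lt_two_pow (lt_of_lt_of_le hx (Nat.pow_le_pow_right (by norm_num) h))
      have h4 : ¬ b = n := by omega
      simp [h3, h4]

theorem lt_two_pow_80 {x : ℕ} (h : ∀ b, x.testBit b = true → b < 80) : x < 2 ^ 80 := by
  apply Nat.lt_pow_two_of_testBit
  intro i hi
  cases hx : x.testBit i
  · rfl
  · exact absurd (h i hx) (by omega)

theorem rep3_testBit {x : ℕ} (hx : x < 2 ^ 80) (b v : ℕ) (hv : v < 3) :
    (rep3 (spread x)).testBit (3 * b + v) = x.testBit b := by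
  show (spread x ||| (spread x <<< 1 ||| spread x <<< 2)).testBit (3 * b + v) = x.testBit b
  rw [Nat.testBit_or, Nat.testBit_or, Nat.testBit_shiftLeft, Nat.testBit_shiftLeft,
    spread_testBit 80 le_rfl x hx b v hv]
  interval_cases v
  · have e0 : (spread x).testBit (3 * b + 0 - 1) = false ∨ ¬ (3 * b + 0 ≥ 1) := by
      by_cases hb : b = 0
      · right; omega
      · left
        have : 3 * b + 0 - 1 = 3 * (b - 1) + 2 := by omega
        rw [this, spread_testBit 80 le_rfl x hx _ _ (by norm_num)]
        simp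
    have e1 : (spread x).testBit (3 * b + 0 - 2) = false ∨ ¬ (3 * b + 0 ≥ 2) := by
      by_cases hb : b = 0
      · right; omega
      · left
        have : 3 * b + 0 - 2 = 3 * (b - 1) + 1 := by omega
        rw [this, spread_testBit 80 le_rfl x hx _ _ (by norm_num)]
        simp
    rcases e0 with e0 | e0 <;> rcases e1 with e1 | e1 <;> simp_all
  · have e0 : 3 * b + 1 - 1 = 3 * b + 0 := by omega
    have e1 : (spread x).testBit (3 * b + 1 - 2) = false ∨ ¬ (3 * b + 1 ≥ 2) := by
      by_cases hb : b = 0
      · right; omega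
      · left
        have : 3 * b + 1 - 2 = 3 * (b - 1) + 2 := by omega
        rw [this, spread_testBit 80 le_rfl x hx _ _ (by norm_num)]
        simp
    rw [e0, spread_testBit 80 le_rfl x hx _ _ (by norm_num)]
    rcases e1 with e1 | e1 <;> simp_all
  · have e0 : 3 * b + 2 - 1 = 3 * b + 1 := by omega
    have e1 : 3 * b + 2 - 2 = 3 * b + 0 := by omega
    rw [e0, e1, spread_testBit 80 le_rfl x hx _ _ (by norm_num),
      spread_testBit 80 le_rfl x hx _ _ (by norm_num)]
    simp

theorem rep2_testBit {x : ℕ} (hx : x < 2 ^ 80) (b v : ℕ) (hv : v < 3) :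
    (rep2 (spread x)).testBit (3 * b + v) = (x.testBit b && decide (v ≠ 1)) := by
  show (spread x ||| spread x <<< 2).testBit (3 * b + v) = _
  rw [Nat.testBit_or, Nat.testBit_shiftLeft, spread_testBit 80 le_rfl x hx b v hv]
  interval_cases v
  · have e1 : (spread x).testBit (3 * b + 0 - 2) = false ∨ ¬ (3 * b + 0 ≥ 2) := by
      by_cases hb : b = 0
      · right; omega
      · left
        have : 3 * b + 0 - 2 = 3 * (b - 1) + 1 := by omega
        rw [this, spread_testBit 80 le_rfl x hx _ _ (by norm_num)]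
        simp
    rcases e1 with e1 | e1 <;> simp_all
  · have e1 : (spread x).testBit (3 * b + 1 - 2) = false ∨ ¬ (3 * b + 1 ≥ 2) := by
      by_cases hb : b = 0
      · right; omega
      · left
        have : 3 * b + 1 - 2 = 3 * (b - 1) + 2 := by omega
        rw [this, spread_testBit 80 le_rfl x hx _ _ (by norm_num)]
        simp
    rcases e1 with e1 | e1 <;> simp_all
  · have e1 : 3 * b + 2 - 2 = 3 * b + 0 := by omega
    rw [e1, spread_testBit 80 le_rfl x hx _ _ (by norm_num)]
    simp

theorem shl1_testBit {x : ℕ} (hx : x < 2 ^ 80) (b v : ℕ) (hv : v < 3) :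
    ((spread x) <<< 1).testBit (3 * b + v) = (x.testBit b && decide (v = 1)) := by
  rw [Nat.testBit_shiftLeft]
  interval_cases v
  · have e1 : (spread x).testBit (3 * b + 0 - 1) = false ∨ ¬ (3 * b + 0 ≥ 1) := by
      by_cases hb : b = 0
      · right; omega
      · left
        have : 3 * b + 0 - 1 = 3 * (b - 1) + 2 := by omega
        rw [this, spread_testBit 80 le_rfl x hx _ _ (by norm_num)]
        simp
    rcases e1 with e1 | e1 <;> simp_all
  · have e1 : 3 * b + 1 - 1 = 3 * b + 0 := by omega
    rw [e1, spread_testBit 80 le_rfl x hx _ _ (by norm_num)]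
    simp
  · have e1 : 3 * b + 2 - 1 = 3 * b + 1 := by omega
    rw [e1, spread_testBit 80 le_rfl x hx _ _ (by norm_num)]
    simp

theorem M5_testBit : ∀ b < 80, ∀ v < 3, M5.testBit (3 * b + v) = decide (v ≠ 1) := by
  decide +kernel

theorem M7_testBit : ∀ b < 80, ∀ v < 3, M7.testBit (3 * b + v) = true := by
  decide +kernel

theorem pred_testBit {w : ℕ} (hw : w = 0 ∨ ∃ m < 80, w = 2 ^ m) (b v : ℕ) (hv : v < 3) :
    (Nat.pred (Nat.mul (nat_lit 8) (Nat.mul w (Nat.mul w w)))).testBit (3 * b + v) =
      decide (2 ^ b ≤ w) := by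
  rcases hw with rfl | ⟨m, -, rfl⟩
  · simp
  · have e : Nat.pred (Nat.mul (nat_lit 8) (Nat.mul (2 ^ m) (Nat.mul (2 ^ m) (2 ^ m)))) =
        2 ^ (3 * m + 3) - 1 := by
      show 8 * (2 ^ m * (2 ^ m * 2 ^ m)) - 1 = _
      congr 1
      rw [show 3 * m + 3 = 3 + (m + (m + m)) by ring, pow_add, pow_add, pow_add]
      norm_num
    rw [e, Nat.testBit_two_pow_sub_one]
    have : (2 ^ b ≤ 2 ^ m) ↔ b ≤ m := Nat.pow_le_pow_iff_right (by norm_num)
    rw [decide_eq_decide, this]
    omega

/-! ### the two entry points -/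

theorem stAW_testBit {A w : ℕ} (hA : A < 2 ^ 80) (hw : w = 0 ∨ ∃ m < 80, w = 2 ^ m) (b v : ℕ)
    (hb : b < 80) (hv : v < 3) : (stAW A w).testBit (3 * b + v) =
      ((decide (v ≠ 1) || decide (2 ^ b ≤ w)) ^^ A.testBit b) := by
  show ((M5 ||| Nat.pred (Nat.mul (nat_lit 8) (Nat.mul w (Nat.mul w w)))) ^^^
    rep3 (spread A)).testBit (3 * b + v) = _
  rw [Nat.testBit_xor, Nat.testBit_or, M5_testBit b hb v hv, pred_testBit hw b v hv,
    rep3_testBit hA b v hv]

theorem refRun_sound {A w c : ℕ} {k : ℕ → Bool} (h : refRun A w c k = true)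
    (hA : ∀ b, A.testBit b = true → w < 2 ^ b ∧ b < 80) (hw : w = 0 ∨ ∃ m < 80, w = 2 ^ m) :
    (∃ c', k c' = true) ∧ ∀ S, Orientable S → ¬ Match A w S := by
  obtain ⟨h1, h2⟩ := coreRun_sound h
  refine ⟨h1, fun S hO hM => ?_⟩
  obtain ⟨ε, hε⟩ := hO
  have hA80 : A < 2 ^ 80 := lt_two_pow_80 (fun b hb => (hA b hb).2)
  have hbit : ∀ b < 80, ∀ v < 3, (stAW A w).testBit (3 * b + v) = true ↔
      ((A.testBit b = true ∧ v = 1) ∨ (A.testBit b = false ∧ (v ≠ 1 ∨ 2 ^ b ≤ w))) := by
    intro b hb v hv
    rw [stAW_testBit hA80 hw b v hb hv]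
    cases hAb : A.testBit b with
    | true =>
      have h3 : ¬ (2 ^ b ≤ w) := by have := (hA b hAb).1; omega
      simp only [h3, decide_false, Bool.or_false, Bool.xor_true, true_and, Bool.not_eq_true',
        decide_eq_false_iff_not]
      simp
    | false => simp
  refine h2 S ε hε ?_ ?_
  · intro b hb
    rw [hbit b hb _ (sc_lt _)]
    have hv := (symOf_spec (ordTab (79 - b)) (ord_lt b hb)).1
    have hz := hε.2.1 _ _ _ hv
    cases hAb : A.testBit b with
    | true =>
      left
      refine ⟨rfl, ?_⟩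
      have h3 : lg ε b = 0 := hz.mpr ((hM b hb (hA b hAb).1).mp hAb)
      rw [h3]; rfl
    | false =>
      right
      refine ⟨rfl, ?_⟩
      by_cases hwb : 2 ^ b ≤ w
      · exact Or.inr hwb
      · left
        have h3 : lg ε b ≠ 0 := by
          intro h0
          have := (hM b hb (by omega)).mpr (hz.mp h0)
          rw [hAb] at this
          exact absurd this (by simp)
        revert h3
        generalize lg ε b = x
        revert x; decide
  · intro b hb
    left
    have e0 := hbit b hb 0 (by norm_num)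
    have e2 := hbit b hb 2 (by norm_num)
    rw [Nat.add_zero] at e0
    rw [Bool.eq_iff_iff, e0, e2]
    simp

theorem stOZ_testBit {o z : ℕ} (ho : o < 2 ^ 80) (hz : z < 2 ^ 80) (b v : ℕ)
    (hb : b < 80) (hv : v < 3) : (stOZ o z).testBit (3 * b + v) =
      ((true ^^ (o.testBit b && decide (v ≠ 1))) ^^ (z.testBit b && decide (v = 1))) := by
  show ((M7 ^^^ rep2 (spread o)) ^^^ (spread z) <<< 1).testBit (3 * b + v) = _
  rw [Nat.testBit_xor, Nat.testBit_xor, M7_testBit b hb v hv, rep2_testBit ho b v hv,
    shl1_testBit hz b v hv]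

theorem patRunI_sound {fuel o z c : ℕ} {k : ℕ → Bool} (h : patRunI fuel o z c k = true)
    (ho : o < 2 ^ 80) (hz : z < 2 ^ 80) :
    (∃ c', k c' = true) ∧ PatInvalidI o z := by
  obtain ⟨h1, h2⟩ := coreRun_sound h
  refine ⟨h1, fun S _ hO hH => ?_⟩
  obtain ⟨ε, hε⟩ := hO
  refine h2 S ε hε ?_ ?_
  · intro b hb
    rw [stOZ_testBit ho hz b _ hb (sc_lt _)]
    have hv := (symOf_spec (ordTab (79 - b)) (ord_lt b hb)).1
    have hz0 := hε.2.1 _ _ _ hv
    have a1 : o.testBit b = true → lg ε b = 0 := fun h3 => hz0.mpr (hH.1 b hb h3)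
    have a2 : z.testBit b = true → lg ε b ≠ 0 := fun h3 h0 => hH.2 b hb h3 (hz0.mp h0)
    revert a1 a2
    generalize lg ε b = x
    generalize o.testBit b = p
    generalize z.testBit b = q
    revert x p q
    decide
  · intro b hb
    left
    have e0 := stOZ_testBit ho hz b 0 hb (by norm_num)
    have e2 := stOZ_testBit ho hz b 2 hb (by norm_num)
    rw [Nat.add_zero] at e0
    rw [e0, e2]
    simp

/-! ### blocks of patterns -/

theorem gam_lt : ∀ p < 128, gam (gTab 0) p < 2 ^ 80 := by
  decide +kernel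

theorem land127_lt (R : ℕ) : Nat.land R (nat_lit 127) < 128 := by
  show R &&& 127 < 128
  have := Nat.and_two_pow_sub_one_eq_mod R 7
  norm_num at this
  rw [this]
  exact Nat.mod_lt _ (by norm_num)

theorem maskLoop_lt (k : ℕ) : ∀ (R acc : ℕ), acc < 2 ^ 80 →
    maskLoop (gTab 0) k R acc < 2 ^ 80 := by
  induction k with
  | zero => intro R acc h; exact h
  | succ k ih =>
    intro R acc h
    exact ih _ _ (Nat.or_lt_two_pow h (gam_lt _ (land127_lt R)))

theorem mask1_lt (R : ℕ) : mask1 R (gTab 0) < 2 ^ 80 := maskLoop_lt _ _ _ (by norm_num)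
theorem mask0_lt (R : ℕ) : mask0 R (gTab 0) < 2 ^ 80 := maskLoop_lt _ _ _ (by norm_num)

theorem patAllI_sound (fuel : ℕ) (n : ℕ) : ∀ (R c : ℕ), patAllI n fuel R c = true →
    ∀ i < n, PatInvalidI (mask1 (entB R i) (gTab 0)) (mask0 (entB R i) (gTab 0)) := by
  induction n with
  | zero => intro R c _ i hi; omega
  | succ n ih =>
    intro R c h i hi
    have h1 : patRunI fuel (mask1 (Nat.land R M128) (gTab 0)) (mask0 (Nat.land R M128) (gTab 0)) c
      (fun c' => patAllI n fuel (Nat.shiftRight R (nat_lit 128)) c') = true := h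
    obtain ⟨⟨c', h3⟩, h2⟩ := patRunI_sound h1 (mask1_lt _) (mask0_lt _)
    cases i with
    | zero =>
      have e : entB R 0 = Nat.land R M128 := rfl
      rw [e]
      exact h2
    | succ i =>
      have h4 := ih _ _ h3 i (by omega)
      have e : entB R (i + 1) = entB (Nat.shiftRight R (nat_lit 128)) i := by
        have : Nat.shiftRight R (Nat.mul (nat_lit 128) (i + 1)) =
            Nat.shiftRight (Nat.shiftRight R (nat_lit 128)) (Nat.mul (nat_lit 128) i) := by
          show R >>> (128 * (i + 1)) = (R >>> 128) >>> (128 * i)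
          rw [← Nat.shiftRight_add]
          congr 1
          ring
        unfold entB
        rw [this]
      rw [e]
      exact h4

/-- entries `i0 ≤ i < i0 + n` of the block -/
theorem patAllI_from (fuel n i0 B c : ℕ)
    (h : patAllI n fuel (Nat.shiftRight B (Nat.mul (nat_lit 128) i0)) c = true) :
    ∀ i, i0 ≤ i → i < i0 + n →
      PatInvalidI (mask1 (entB B i) (gTab 0)) (mask0 (entB B i) (gTab 0)) := by
  intro i hi hi'
  have h1 := patAllI_sound fuel n _ _ h (i - i0) (by omega)
  have e : entB (Nat.shiftRight B (Nat.mul (nat_lit 128) i0)) (i - i0) = entB B i := by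
    have : Nat.shiftRight (Nat.shiftRight B (Nat.mul (nat_lit 128) i0))
        (Nat.mul (nat_lit 128) (i - i0)) = Nat.shiftRight B (Nat.mul (nat_lit 128) i) := by
      show (B >>> (128 * i0)) >>> (128 * (i - i0)) = B >>> (128 * i)
      rw [← Nat.shiftRight_add]
      congr 1
      rw [← Nat.mul_add]
      congr 1
      omega
    unfold entB
    rw [this]
  rw [e] at h1
  exact h1

end Pool.Agent.GS.RI
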