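import Pool.Agent.GS.Wit
import Pool.Agent.GS.K.Mask

/-!
Search tree: semantic notions and pattern entries. Lane `b` of a code (`0 ≤ b < 80`) is the binary
digit `b`; it belongs to the symbol `laneSym b = symOf (ordTab (79 - b))`, i.e. to the position
`79 - b`.
-/

set_option autoImplicit false

namespace Pool.Agent.GS

/-- the symbol of the digit `b` of an internal code -/
def laneSym (b : ℕ) : Fin 5 × Fin 5 × Finset (Fin 5) := symOf (ordTab (79 - b))

/-- `S` contains the symbols with digits in `o` and avoids those with digits in `z` -/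
def HitI (o z : ℕ) (S : SymSet) : Prop :=
  (∀ b < 80, o.testBit b = true → laneSym b ∈ S) ∧ (∀ b < 80, z.testBit b = true → laneSym b ∉ S)

/-- no orientable set is hit -/
def PatInvalidI (o z : ℕ) : Prop := ∀ S, IsSymSet S → Orientable S → ¬ HitI o z S

/-- `S` agrees with `A` on the decided lanes (those with weight `> w`) -/
def Match (A w : ℕ) (S : SymSet) : Prop :=
  ∀ b < 80, w < 2 ^ b → (A.testBit b = true ↔ laneSym b ∈ S)

end Pool.Agent.GS
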