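import Pool.Agent.GS.RefRel

namespace Pool.Agent.GS.Ref

theorem relc1266 : relsP 1266 2 = true := by decide +kernel
theorem relc1268 : relsP 1268 2 = true := by decide +kernel
theorem relc1270 : relsP 1270 10 = true := by decide +kernel
theorem relc1280 : relsP 1280 27 = true := by decide +kernel
theorem relc1307 : relsP 1307 39 = true := by decide +kernel
theorem relc1346 : relsP 1346 13 = true := by decide +kernel
theorem relc1359 : relsP 1359 22 = true := by decide +kernel
theorem relc1381 : relsP 1381 15 = true := by decide +kernel
theorem relc1396 : relsP 1396 14 = true := by decide +kernel
theorem relc1410 : relsP 1410 2 = true := by decide +kernel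
theorem relc1412 : relsP 1412 5 = true := by decide +kernel
theorem relc1417 : relsP 1417 12 = true := by decide +kernel
theorem relc1429 : relsP 1429 10 = true := by decide +kernel
theorem relc1439 : relsP 1439 24 = true := by decide +kernel
theorem relc1463 : relsP 1463 2 = true := by decide +kernel
theorem relc1465 : relsP 1465 2 = true := by decide +kernel
theorem relc1467 : relsP 1467 5 = true := by decide +kernel
theorem relc1472 : relsP 1472 12 = true := by decide +kernel
theorem relc1484 : relsP 1484 2 = true := by decide +kernel
theorem relc1486 : relsP 1486 2 = true := by decide +kernel
theorem relc1488 : relsP 1488 5 = true := by decide +kernel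
theorem relc1493 : relsP 1493 12 = true := by decide +kernel
theorem relc1505 : relsP 1505 2 = true := by decide +kernel
theorem relc1507 : relsP 1507 2 = true := by decide +kernel
theorem relc1509 : relsP 1509 2 = true := by decide +kernel
theorem relc1511 : relsP 1511 2 = true := by decide +kernel
theorem relc1513 : relsP 1513 2 = true := by decide +kernel
theorem relc1515 : relsP 1515 2 = true := by decide +kernel
theorem relc1517 : relsP 1517 2 = true := by decide +kernel
theorem relc1519 : relsP 1519 151 = true := by decide +kernel
theorem relc1670 : relsP 1670 151 = true := by decide +kernel
theorem relc1821 : relsP 1821 151 = true := by decide +kernel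
theorem relc1972 : relsP 1972 76 = true := by decide +kernel

end Pool.Agent.GS.Ref
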