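import Pool.Agent.GS.RefRel0
import Pool.Agent.GS.RefRel1

namespace Pool.Agent.GS.Ref

theorem getRel_land (r : ℕ) : getRel r = getRel (Nat.land r 2047) := by
  have h1 : Nat.land (Nat.shiftRight (Nat.land r 2047) 6) 31 = Nat.land (Nat.shiftRight r 6) 31 := by
    change ((r &&& 2047) >>> 6) &&& 31 = (r >>> 6) &&& 31
    rw [Nat.shiftRight_and_distrib, Nat.and_assoc]
    rfl
  have h2 : Nat.land (Nat.land r 2047) 63 = Nat.land r 63 := by
    change (r &&& 2047) &&& 63 = r &&& 63
    rw [Nat.and_assoc]
    rfl
  unfold getRel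
  rw [h1, h2]

theorem relP_all (r : ℕ) : relP (getRel r) = true := by
  rw [getRel_land]
  have hr : Nat.land r 2047 < 2048 := Nat.lt_of_le_of_lt (Nat.and_le_right) (by norm_num)
  generalize Nat.land r 2047 = q at hr
  rcases Nat.lt_or_ge q 151 with h | h0
  · exact relsP_spec 0 151 relc0 q (Nat.zero_le q) (by omega)
  rcases Nat.lt_or_ge q 302 with h | h151
  · exact relsP_spec 151 151 relc151 q h0 (by omega)
  rcases Nat.lt_or_ge q 434 with h | h302
  · exact relsP_spec 302 132 relc302 q h151 (by omega)
  rcases Nat.lt_or_ge q 499 with h | h434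
  · exact relsP_spec 434 65 relc434 q h302 (by omega)
  rcases Nat.lt_or_ge q 528 with h | h499
  · exact relsP_spec 499 29 relc499 q h434 (by omega)
  rcases Nat.lt_or_ge q 547 with h | h528
  · exact relsP_spec 528 19 relc528 q h499 (by omega)
  rcases Nat.lt_or_ge q 666 with h | h547
  · exact relsP_spec 547 119 relc547 q h528 (by omega)
  rcases Nat.lt_or_ge q 739 with h | h666
  · exact relsP_spec 666 73 relc666 q h547 (by omega)
  rcases Nat.lt_or_ge q 753 with h | h739
  · exact relsP_spec 739 14 relc739 q h666 (by omega)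
  rcases Nat.lt_or_ge q 777 with h | h753
  · exact relsP_spec 753 24 relc753 q h739 (by omega)
  rcases Nat.lt_or_ge q 831 with h | h777
  · exact relsP_spec 777 54 relc777 q h753 (by omega)
  rcases Nat.lt_or_ge q 842 with h | h831
  · exact relsP_spec 831 11 relc831 q h777 (by omega)
  rcases Nat.lt_or_ge q 865 with h | h842
  · exact relsP_spec 842 23 relc842 q h831 (by omega)
  rcases Nat.lt_or_ge q 876 with h | h865
  · exact relsP_spec 865 11 relc865 q h842 (by omega)
  rcases Nat.lt_or_ge q 899 with h | h876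
  · exact relsP_spec 876 23 relc876 q h865 (by omega)
  rcases Nat.lt_or_ge q 901 with h | h899
  · exact relsP_spec 899 2 relc899 q h876 (by omega)
  rcases Nat.lt_or_ge q 903 with h | h901
  · exact relsP_spec 901 2 relc901 q h899 (by omega)
  rcases Nat.lt_or_ge q 910 with h | h903
  · exact relsP_spec 903 7 relc903 q h901 (by omega)
  rcases Nat.lt_or_ge q 932 with h | h910
  · exact relsP_spec 910 22 relc910 q h903 (by omega)
  rcases Nat.lt_or_ge q 1054 with h | h932
  · exact relsP_spec 932 122 relc932 q h910 (by omega)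
  rcases Nat.lt_or_ge q 1109 with h | h1054
  · exact relsP_spec 1054 55 relc1054 q h932 (by omega)
  rcases Nat.lt_or_ge q 1120 with h | h1109
  · exact relsP_spec 1109 11 relc1109 q h1054 (by omega)
  rcases Nat.lt_or_ge q 1146 with h | h1120
  · exact relsP_spec 1120 26 relc1120 q h1109 (by omega)
  rcases Nat.lt_or_ge q 1198 with h | h1146
  · exact relsP_spec 1146 52 relc1146 q h1120 (by omega)
  rcases Nat.lt_or_ge q 1212 with h | h1198
  · exact relsP_spec 1198 14 relc1198 q h1146 (by omega)
  rcases Nat.lt_or_ge q 1232 with h | h1212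
  · exact relsP_spec 1212 20 relc1212 q h1198 (by omega)
  rcases Nat.lt_or_ge q 1246 with h | h1232
  · exact relsP_spec 1232 14 relc1232 q h1212 (by omega)
  rcases Nat.lt_or_ge q 1266 with h | h1246
  · exact relsP_spec 1246 20 relc1246 q h1232 (by omega)
  rcases Nat.lt_or_ge q 1268 with h | h1266
  · exact relsP_spec 1266 2 relc1266 q h1246 (by omega)
  rcases Nat.lt_or_ge q 1270 with h | h1268
  · exact relsP_spec 1268 2 relc1268 q h1266 (by omega)
  rcases Nat.lt_or_ge q 1280 with h | h1270
  · exact relsP_spec 1270 10 relc1270 q h1268 (by omega)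
  rcases Nat.lt_or_ge q 1307 with h | h1280
  · exact relsP_spec 1280 27 relc1280 q h1270 (by omega)
  rcases Nat.lt_or_ge q 1346 with h | h1307
  · exact relsP_spec 1307 39 relc1307 q h1280 (by omega)
  rcases Nat.lt_or_ge q 1359 with h | h1346
  · exact relsP_spec 1346 13 relc1346 q h1307 (by omega)
  rcases Nat.lt_or_ge q 1381 with h | h1359
  · exact relsP_spec 1359 22 relc1359 q h1346 (by omega)
  rcases Nat.lt_or_ge q 1396 with h | h1381
  · exact relsP_spec 1381 15 relc1381 q h1359 (by omega)
  rcases Nat.lt_or_ge q 1410 with h | h1396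
  · exact relsP_spec 1396 14 relc1396 q h1381 (by omega)
  rcases Nat.lt_or_ge q 1412 with h | h1410
  · exact relsP_spec 1410 2 relc1410 q h1396 (by omega)
  rcases Nat.lt_or_ge q 1417 with h | h1412
  · exact relsP_spec 1412 5 relc1412 q h1410 (by omega)
  rcases Nat.lt_or_ge q 1429 with h | h1417
  · exact relsP_spec 1417 12 relc1417 q h1412 (by omega)
  rcases Nat.lt_or_ge q 1439 with h | h1429
  · exact relsP_spec 1429 10 relc1429 q h1417 (by omega)
  rcases Nat.lt_or_ge q 1463 with h | h1439
  · exact relsP_spec 1439 24 relc1439 q h1429 (by omega)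
  rcases Nat.lt_or_ge q 1465 with h | h1463
  · exact relsP_spec 1463 2 relc1463 q h1439 (by omega)
  rcases Nat.lt_or_ge q 1467 with h | h1465
  · exact relsP_spec 1465 2 relc1465 q h1463 (by omega)
  rcases Nat.lt_or_ge q 1472 with h | h1467
  · exact relsP_spec 1467 5 relc1467 q h1465 (by omega)
  rcases Nat.lt_or_ge q 1484 with h | h1472
  · exact relsP_spec 1472 12 relc1472 q h1467 (by omega)
  rcases Nat.lt_or_ge q 1486 with h | h1484
  · exact relsP_spec 1484 2 relc1484 q h1472 (by omega)
  rcases Nat.lt_or_ge q 1488 with h | h1486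
  · exact relsP_spec 1486 2 relc1486 q h1484 (by omega)
  rcases Nat.lt_or_ge q 1493 with h | h1488
  · exact relsP_spec 1488 5 relc1488 q h1486 (by omega)
  rcases Nat.lt_or_ge q 1505 with h | h1493
  · exact relsP_spec 1493 12 relc1493 q h1488 (by omega)
  rcases Nat.lt_or_ge q 1507 with h | h1505
  · exact relsP_spec 1505 2 relc1505 q h1493 (by omega)
  rcases Nat.lt_or_ge q 1509 with h | h1507
  · exact relsP_spec 1507 2 relc1507 q h1505 (by omega)
  rcases Nat.lt_or_ge q 1511 with h | h1509
  · exact relsP_spec 1509 2 relc1509 q h1507 (by omega)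
  rcases Nat.lt_or_ge q 1513 with h | h1511
  · exact relsP_spec 1511 2 relc1511 q h1509 (by omega)
  rcases Nat.lt_or_ge q 1515 with h | h1513
  · exact relsP_spec 1513 2 relc1513 q h1511 (by omega)
  rcases Nat.lt_or_ge q 1517 with h | h1515
  · exact relsP_spec 1515 2 relc1515 q h1513 (by omega)
  rcases Nat.lt_or_ge q 1519 with h | h1517
  · exact relsP_spec 1517 2 relc1517 q h1515 (by omega)
  rcases Nat.lt_or_ge q 1670 with h | h1519
  · exact relsP_spec 1519 151 relc1519 q h1517 (by omega)
  rcases Nat.lt_or_ge q 1821 with h | h1670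
  · exact relsP_spec 1670 151 relc1670 q h1519 (by omega)
  rcases Nat.lt_or_ge q 1972 with h | h1821
  · exact relsP_spec 1821 151 relc1821 q h1670 (by omega)
  rcases Nat.lt_or_ge q 2048 with h | h1972
  · exact relsP_spec 1972 76 relc1972 q h1821 (by omega)
  omega

end Pool.Agent.GS.Ref
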