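import Pool.Agent.GS.RefChk
import Pool.Agent.GS.RefRelAll
import Pool.Agent.GS.Base

/-!
Link between the minors of the checker and the definitions of the statement.
-/

namespace Pool.Agent.GS.Ref

open Matrix

/-- the entries of a matrix as a function -/
def ent (A : Matrix (Fin 5) (Fin 5) ℝ) : Fin 5 → Fin 5 → ℝ := fun i j => A i j

theorem apm_eq_mdet (A : Matrix (Fin 5) (Fin 5) ℝ) (i j : Fin 5) (l : List (Fin 5))
    (hl : l.Nodup) : apm A i j l.toFinset = mdet (ent A) (i :: l) (j :: l) := by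
  have h1 : ∀ x : Fin 5, x :: l = List.ofFn (Fin.cons x l.get : Fin (l.length + 1) → Fin 5) := by
    intro x
    rw [List.ofFn_succ]
    simp
  rw [h1 i, h1 j, mdet_ofFn]
  let e' : Fin l.length ≃ {k // k ∈ l.toFinset} :=
    (hl.getEquiv l).trans (Equiv.subtypeEquivRight (by simp))
  let e : Fin (l.length + 1) ≃ Unit ⊕ {k // k ∈ l.toFinset} :=
    (finSuccEquiv l.length).trans ((Equiv.optionEquivSumPUnit _).trans
      ((Equiv.sumComm _ _).trans (Equiv.sumCongr (Equiv.refl _) e')))
  unfold apm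
  rw [← Matrix.det_submatrix_equiv_self e]
  congr 1
  ext a b
  refine Fin.cases ?_ (fun a => ?_) a <;> refine Fin.cases ?_ (fun b => ?_) b <;>
    simp [e, e', Matrix.submatrix_apply, ent]

theorem mdet_pos {A : Matrix (Fin 5) (Fin 5) ℝ} (hA : A.PosDef) (l : List (Fin 5))
    (hl : l.Nodup) : 0 < mdet (ent A) l l := by
  have h1 : l = List.ofFn l.get := by simp
  have h2 : mdet (ent A) l l = (A.submatrix l.get l.get).det := by
    conv_lhs => rw [h1]
    rw [mdet_ofFn]
    rfl
  rw [h2]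
  have hinj : Function.Injective l.get := List.nodup_iff_injective_get.1 hl
  exact (hA.submatrix hinj).det_pos

theorem ent_symm {A : Matrix (Fin 5) (Fin 5) ℝ} (hA : A.PosDef) (i j : Fin 5) :
    ent A i j = ent A j i := by
  have := hA.isHermitian.apply i j
  simpa [ent] using this.symm

/-- the values of the 142 symbols of a matrix -/
noncomputable def val (A : Matrix (Fin 5) (Fin 5) ℝ) (s : ℕ) : ℝ := sv (ent A) s

theorem val_rel {A : Matrix (Fin 5) (Fin 5) ℝ} (hA : A.PosDef) (r : ℕ) :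
    RelOK (val A) (getRel r) :=
  relP_spec (ent A) (ent_symm hA) (relP_all r)

theorem val_zero (A : Matrix (Fin 5) (Fin 5) ℝ) : val A 0 = 1 := by
  have : symT.getD 0 ([], []) = ([], []) := by decide
  unfold val sv
  rw [this]; rfl

theorem symT_P : ∀ s < 32, (symT.getD s ([], [])).1.Nodup ∧
    (symT.getD s ([], [])).2 = (symT.getD s ([], [])).1 := by
  decide +kernel

theorem val_pos {A : Matrix (Fin 5) (Fin 5) ℝ} (hA : A.PosDef) (s : ℕ) (hs : s < 32) :
    0 < val A s := by
  obtain ⟨h1, h2⟩ := symT_P s hs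
  unfold val sv
  rw [h2]
  exact mdet_pos hA _ h1

/-- list part of an almost principal symbol -/
theorem symT_A : ∀ s < 80, ∃ l : List (Fin 5), l.Nodup ∧ (symOf s).2.2 = l.toFinset ∧
    symT.getD (32 + s) ([], []) = ((symOf s).1 :: l, (symOf s).2.1 :: l) := by
  have h : ∀ s < 80, ((symT.getD (32 + s) ([], [])).1.tail).Nodup ∧
      (symOf s).2.2 = ((symT.getD (32 + s) ([], [])).1.tail).toFinset ∧
      symT.getD (32 + s) ([], []) = ((symOf s).1 :: (symT.getD (32 + s) ([], [])).1.tail,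
        (symOf s).2.1 :: (symT.getD (32 + s) ([], [])).1.tail) := by
    decide +kernel
  intro s hs
  exact ⟨_, h s hs⟩

theorem val_A (A : Matrix (Fin 5) (Fin 5) ℝ) (s : ℕ) (hs : s < 80) :
    val A (32 + s) = apm A (symOf s).1 (symOf s).2.1 (symOf s).2.2 := by
  obtain ⟨l, h1, h2, h3⟩ := symT_A s hs
  rw [h2, apm_eq_mdet _ _ _ _ h1]
  unfold val sv
  rw [h3]

end Pool.Agent.GS.Ref
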