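import Pool.Agent.GS.RefPoly

/-!
Minors by Laplace expansion on lists, equality with `Matrix.det`, polynomial version.
-/

namespace Pool.Agent.GS.Ref

noncomputable def lapR (S : Fin 5 → Fin 5 → ℝ) (f : List (Fin 5) → ℝ) (r : Fin 5) :
    List (Fin 5) → List (Fin 5) → ℝ → ℝ
  | _, [], _ => 0
  | pre, c :: cs, s => s * S r c * f (pre ++ cs) + lapR S f r (pre ++ [c]) cs (-s)

/-- the minor with row list and column list -/
noncomputable def mdet (S : Fin 5 → Fin 5 → ℝ) : List (Fin 5) → List (Fin 5) → ℝ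
  | [], _ => 1
  | r :: rs, cs => lapR S (mdet S rs) r [] cs 1

theorem lapR_ofFn (S : Fin 5 → Fin 5 → ℝ) (f : List (Fin 5) → ℝ) (r : Fin 5) :
    ∀ (n : ℕ) (C : Fin n → Fin 5) (pre : List (Fin 5)) (s : ℝ),
    lapR S f r pre (List.ofFn C) s
      = ∑ j : Fin n, s * (-1) ^ (j : ℕ) * S r (C j) * f (pre ++ (List.ofFn C).eraseIdx j) := by
  intro n
  induction n with
  | zero => intro C pre s; simp [lapR]
  | succ n ih =>
    intro C pre s
    rw [List.ofFn_succ, lapR, ih, Fin.sum_univ_succ]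
    congr 1
    · simp
    · apply Finset.sum_congr rfl
      intro j _
      simp only [Fin.val_succ, List.eraseIdx_cons_succ, List.append_assoc, List.cons_append,
        List.nil_append]
      ring

theorem eraseIdx_ofFn {n : ℕ} (C : Fin (n + 1) → Fin 5) (j : Fin (n + 1)) :
    (List.ofFn C).eraseIdx j = List.ofFn (fun a => C (j.succAbove a)) := by
  apply List.ext_getElem
  · rw [List.length_eraseIdx]; simp; omega
  · intro i h1 h2
    rw [List.getElem_eraseIdx]
    simp only [List.length_ofFn] at h2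
    split
    · next h =>
      simp only [List.getElem_ofFn]
      congr 1
      have : (⟨i, h2⟩ : Fin n).castSucc < j := by
        rw [Fin.lt_def]; exact h
      rw [Fin.succAbove_of_castSucc_lt _ _ this]
      rfl
    · next h =>
      simp only [List.getElem_ofFn]
      congr 1
      have : j ≤ (⟨i, h2⟩ : Fin n).castSucc := by
        rw [Fin.le_def]; simp only [Fin.val_castSucc]; omega
      rw [Fin.succAbove_of_le_castSucc _ _ this]
      rfl

theorem mdet_ofFn (S : Fin 5 → Fin 5 → ℝ) : ∀ (n : ℕ) (R C : Fin n → Fin 5),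
    mdet S (List.ofFn R) (List.ofFn C) = Matrix.det (Matrix.of fun a b => S (R a) (C b)) := by
  intro n
  induction n with
  | zero => intro R C; simp [mdet]
  | succ n ih =>
    intro R C
    rw [List.ofFn_succ, mdet, lapR_ofFn, Matrix.det_succ_row_zero]
    apply Finset.sum_congr rfl
    intro j _
    rw [List.nil_append, eraseIdx_ofFn, ih]
    simp only [one_mul, Matrix.of_apply]
    congr 1

/-- the code (prime) of the entry `(i,j)` -/
def vc (i j : Fin 5) : ℕ :=
  match i.val, j.val with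
  | 0, 0 => 2 | 0, 1 => 3 | 0, 2 => 5 | 0, 3 => 7 | 0, 4 => 11
  | 1, 0 => 3 | 1, 1 => 13 | 1, 2 => 17 | 1, 3 => 19 | 1, 4 => 23
  | 2, 0 => 5 | 2, 1 => 17 | 2, 2 => 29 | 2, 3 => 31 | 2, 4 => 37
  | 3, 0 => 7 | 3, 1 => 19 | 3, 2 => 31 | 3, 3 => 41 | 3, 4 => 43
  | 4, 0 => 11 | 4, 1 => 23 | 4, 2 => 37 | 4, 3 => 43 | 4, 4 => 47
  | _, _ => 2

theorem vc_prime (i j : Fin 5) : (vc i j).Prime := by
  fin_cases i <;> fin_cases j <;> simp only [vc] <;> norm_num

/-- real values of the primes -/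
noncomputable def xv (S : Fin 5 → Fin 5 → ℝ) (p : ℕ) : ℝ :=
  match p with
  | 2 => S 0 0 | 3 => S 0 1 | 5 => S 0 2 | 7 => S 0 3 | 11 => S 0 4
  | 13 => S 1 1 | 17 => S 1 2 | 19 => S 1 3 | 23 => S 1 4
  | 29 => S 2 2 | 31 => S 2 3 | 37 => S 2 4
  | 41 => S 3 3 | 43 => S 3 4
  | 47 => S 4 4
  | _ => 0

theorem xv_vc (S : Fin 5 → Fin 5 → ℝ) (hS : ∀ i j, S i j = S j i) (i j : Fin 5) :
    xv S (vc i j) = S i j := by
  fin_cases i <;> fin_cases j <;> simp [vc, xv] <;> exact hS _ _

/-- polynomial Laplace recursion -/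
noncomputable def lapP (f : List (Fin 5) → Pol) (r : Fin 5) :
    List (Fin 5) → List (Fin 5) → ℤ → Pol
  | _, [], _ => []
  | pre, c :: cs, s => padd 200 (pshift (vc r c) s (f (pre ++ cs))) (lapP f r (pre ++ [c]) cs (-s))

noncomputable def pdet : List (Fin 5) → List (Fin 5) → Pol
  | [], _ => [(1, 1)]
  | r :: rs, cs => lapP (pdet rs) r [] cs 1

theorem lapP_spec (S : Fin 5 → Fin 5 → ℝ) (hS : ∀ i j, S i j = S j i)
    (f : List (Fin 5) → Pol) (g : List (Fin 5) → ℝ)
    (hf : ∀ l, good (f l) ∧ pev (xv S) (f l) = g l) (r : Fin 5) :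
    ∀ (cs pre : List (Fin 5)) (s : ℤ), good (lapP f r pre cs s) ∧
      pev (xv S) (lapP f r pre cs s) = lapR S g r pre cs s := by
  intro cs
  induction cs with
  | nil => intro pre s; exact ⟨good_nil, by simp [lapP, lapR]⟩
  | cons c cs ih =>
    intro pre s
    have hv : vc r c ≠ 0 := (vc_prime r c).ne_zero
    obtain ⟨g1, e1⟩ := hf (pre ++ cs)
    obtain ⟨g2, e2⟩ := ih (pre ++ [c]) (-s)
    constructor
    · exact good_padd _ _ _ (good_pshift hv _ _ g1) g2
    · rw [lapP, pev_padd, pev_pshift _ hv _ _ g1, e1, e2, lapR, mev_prime _ (vc_prime r c),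
        xv_vc S hS]
      push_cast; ring

theorem pdet_spec (S : Fin 5 → Fin 5 → ℝ) (hS : ∀ i j, S i j = S j i) :
    ∀ rs cs : List (Fin 5), good (pdet rs cs) ∧ pev (xv S) (pdet rs cs) = mdet S rs cs := by
  intro rs
  induction rs with
  | nil =>
    intro cs
    refine ⟨?_, ?_⟩
    · intro t ht; simp [pdet] at ht; simp [ht]
    · simp [pdet, mdet, mev_one]
  | cons r rs ih =>
    intro cs
    have := lapP_spec S hS (pdet rs) (mdet S rs) (fun l => ih l) r cs [] 1
    refine ⟨this.1, ?_⟩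
    rw [pdet, this.2, mdet]; simp

end Pool.Agent.GS.Ref
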