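import Mathlib

/-!
Sparse polynomials with monomials coded by products of primes, for kernel computations.
-/

namespace Pool.Agent.GS.Ref

/-- evaluation of a monomial code (product of primes) -/
noncomputable def mev (x : ℕ → ℝ) (m : ℕ) : ℝ := m.factorization.prod fun p e => x p ^ e

theorem mev_mul (x : ℕ → ℝ) {a b : ℕ} (ha : a ≠ 0) (hb : b ≠ 0) :
    mev x (a * b) = mev x a * mev x b := by
  unfold mev
  rw [Nat.factorization_mul ha hb, Finsupp.prod_add_index']
  · intro p; simp
  · intro p m n; exact pow_add _ _ _

theorem mev_prime (x : ℕ → ℝ) {p : ℕ} (hp : p.Prime) : mev x p = x p := by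
  unfold mev
  rw [hp.factorization]
  simp

theorem mev_one (x : ℕ → ℝ) : mev x 1 = 1 := by
  unfold mev; simp

abbrev Pol := List (ℕ × ℤ)

noncomputable def pev (x : ℕ → ℝ) : Pol → ℝ
  | [] => 0
  | t :: l => (t.2 : ℝ) * mev x t.1 + pev x l

@[simp] theorem pev_nil (x : ℕ → ℝ) : pev x [] = 0 := rfl
@[simp] theorem pev_cons (x : ℕ → ℝ) (t : ℕ × ℤ) (l : Pol) :
    pev x (t :: l) = (t.2 : ℝ) * mev x t.1 + pev x l := rfl

theorem pev_append (x : ℕ → ℝ) (p q : Pol) : pev x (p ++ q) = pev x p + pev x q := by
  induction p with
  | nil => simp
  | cons t l ih => simp [ih]; ring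

/-- all codes nonzero -/
def good (p : Pol) : Prop := ∀ t ∈ p, t.1 ≠ 0

theorem good_nil : good [] := by intro t ht; simp at ht

theorem good_cons {t : ℕ × ℤ} {l : Pol} : good (t :: l) ↔ t.1 ≠ 0 ∧ good l := by
  simp [good]

theorem good_append {p q : Pol} (hp : good p) (hq : good q) : good (p ++ q) := by
  intro t ht
  rcases List.mem_append.1 ht with h | h
  · exact hp t h
  · exact hq t h

/-- one step of merging sorted polynomials -/
def pstep (ih : Pol → Pol → Pol) (p q : Pol) : Pol :=
  match p with
  | [] => q
  | s :: p' =>
    match q with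
    | [] => s :: p'
    | t :: q' =>
      match Nat.blt s.1 t.1 with
      | true => s :: ih p' (t :: q')
      | false =>
        match Nat.blt t.1 s.1 with
        | true => t :: ih (s :: p') q'
        | false =>
          match s.2 + t.2 with
          | Int.ofNat 0 => ih p' q'
          | c => (s.1, c) :: ih p' q'

/-- merge sorted polynomials (with fuel) -/
noncomputable def padd (f : ℕ) : Pol → Pol → Pol :=
  Nat.rec (motive := fun _ => Pol → Pol → Pol) (fun p q => p ++ q) (fun _ ih => pstep ih) f

theorem padd_zero (p q : Pol) : padd 0 p q = p ++ q := rfl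
theorem padd_succ (f : ℕ) (p q : Pol) : padd (f + 1) p q = pstep (padd f) p q := rfl

theorem pev_padd (x : ℕ → ℝ) (f : ℕ) : ∀ p q : Pol, pev x (padd f p q) = pev x p + pev x q := by
  induction f with
  | zero => intro p q; rw [padd_zero, pev_append]
  | succ f ih =>
    intro p q
    rw [padd_succ]
    cases p with
    | nil => simp [pstep]
    | cons s p' =>
      cases q with
      | nil => simp [pstep]
      | cons t q' =>
        rw [pstep]
        cases h1 : Nat.blt s.1 t.1 with
        | true => simp only [pev_cons]; rw [ih]; simp only [pev_cons]; ring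
        | false =>
          cases h2 : Nat.blt t.1 s.1 with
          | true => simp only [pev_cons]; rw [ih]; simp only [pev_cons]; ring
          | false =>
            have e1 : s.1 = t.1 := by
              have a1 : ¬ s.1 < t.1 := by
                intro h; rw [← Nat.blt_eq] at h; rw [h] at h1; exact absurd h1 (by simp)
              have a2 : ¬ t.1 < s.1 := by
                intro h; rw [← Nat.blt_eq] at h; rw [h] at h2; exact absurd h2 (by simp)
              omega
            have e2 : (s.2 : ℝ) * mev x s.1 + (t.2 : ℝ) * mev x t.1
                = ((s.2 + t.2 : ℤ) : ℝ) * mev x s.1 := by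
              rw [← e1]; push_cast; ring
            simp only [pev_cons]
            split
            · next h =>
              rw [ih]
              rw [h] at e2
              have : (((Int.ofNat 0 : ℤ)) : ℝ) = 0 := by simp
              rw [this] at e2
              linarith
            · simp only [pev_cons]; rw [ih]; linarith

theorem good_padd (f : ℕ) : ∀ p q : Pol, good p → good q → good (padd f p q) := by
  induction f with
  | zero => intro p q hp hq; rw [padd_zero]; exact good_append hp hq
  | succ f ih =>
    intro p q hp hq
    rw [padd_succ]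
    cases p with
    | nil => simpa [pstep] using hq
    | cons s p' =>
      cases q with
      | nil => simpa [pstep] using hp
      | cons t q' =>
        rw [pstep]
        obtain ⟨hs, hp'⟩ := good_cons.1 hp
        obtain ⟨ht, hq'⟩ := good_cons.1 hq
        cases h1 : Nat.blt s.1 t.1 with
        | true => exact good_cons.2 ⟨hs, ih _ _ hp' hq⟩
        | false =>
          cases h2 : Nat.blt t.1 s.1 with
          | true => exact good_cons.2 ⟨ht, ih _ _ hp hq'⟩
          | false =>
            simp only
            split
            · exact ih _ _ hp' hq'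
            · exact good_cons.2 ⟨hs, ih _ _ hp' hq'⟩

/-- multiplication by a monomial -/
def pshift (m : ℕ) (c : ℤ) : Pol → Pol
  | [] => []
  | t :: l => (m * t.1, c * t.2) :: pshift m c l

theorem pev_pshift (x : ℕ → ℝ) {m : ℕ} (hm : m ≠ 0) (c : ℤ) : ∀ p : Pol, good p →
    pev x (pshift m c p) = (c : ℝ) * mev x m * pev x p := by
  intro p
  induction p with
  | nil => intro _; simp [pshift]
  | cons t l ih =>
    intro hg
    obtain ⟨ht, hl⟩ := good_cons.1 hg
    simp only [pshift, pev_cons]
    rw [ih hl, mev_mul x hm ht]
    push_cast; ring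

theorem good_pshift {m : ℕ} (hm : m ≠ 0) (c : ℤ) : ∀ p : Pol, good p → good (pshift m c p) := by
  intro p
  induction p with
  | nil => intro _; simpa [pshift] using good_nil
  | cons t l ih =>
    intro hg
    obtain ⟨ht, hl⟩ := good_cons.1 hg
    exact good_cons.2 ⟨Nat.mul_ne_zero hm ht, ih hl⟩

/-- list of shifted polynomials -/
def shifts : Pol → Pol → List Pol
  | [], _ => []
  | t :: l, q => pshift t.1 t.2 q :: shifts l q

/-- merge neighbours -/
noncomputable def pairs : List Pol → List Pol
  | a :: b :: l => padd 4000 a b :: pairs l
  | l => l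

/-- merge all -/
noncomputable def mall : ℕ → List Pol → Pol
  | 0, l => l.foldr (padd 4000) []
  | n + 1, l => mall n (pairs l)

theorem pairs_spec (x : ℕ → ℝ) : ∀ l : List Pol,
    ((pairs l).map (pev x)).sum = (l.map (pev x)).sum := by
  intro l
  induction l using pairs.induct with
  | case1 a b l ih => simp only [pairs, List.map_cons, List.sum_cons]; rw [ih, pev_padd]; ring
  | case2 l h =>
    rcases l with _ | ⟨a, _ | ⟨b, l⟩⟩
    · simp [pairs]
    · simp [pairs]
    · exact absurd rfl (h a b l)

theorem mall_spec (x : ℕ → ℝ) (n : ℕ) : ∀ l : List Pol,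
    pev x (mall n l) = (l.map (pev x)).sum := by
  induction n with
  | zero =>
    intro l
    rw [mall]
    induction l with
    | nil => simp
    | cons a l ih => simp only [List.foldr_cons, List.map_cons, List.sum_cons]; rw [pev_padd, ih]
  | succ n ih => intro l; rw [mall, ih, pairs_spec]

theorem shifts_spec (x : ℕ → ℝ) : ∀ p q : Pol, good p → good q →
    ((shifts p q).map (pev x)).sum = pev x p * pev x q := by
  intro p
  induction p with
  | nil => intro q _ _; simp [shifts]
  | cons t l ih =>
    intro q hp hq
    obtain ⟨ht, hl⟩ := good_cons.1 hp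
    simp only [shifts, List.map_cons, List.sum_cons, pev_cons]
    rw [pev_pshift x ht _ _ hq, ih q hl hq]
    ring

/-- product of polynomials -/
noncomputable def pmul (p q : Pol) : Pol := mall 7 (shifts p q)

theorem pev_pmul (x : ℕ → ℝ) (p q : Pol) (hp : good p) (hq : good q) :
    pev x (pmul p q) = pev x p * pev x q := by
  rw [pmul, mall_spec, shifts_spec x p q hp hq]

/-- scalar times polynomial -/
def psc (c : ℤ) : Pol → Pol
  | [] => []
  | t :: l => (t.1, c * t.2) :: psc c l

theorem pev_psc (x : ℕ → ℝ) (c : ℤ) (p : Pol) : pev x (psc c p) = (c : ℝ) * pev x p := by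
  induction p with
  | nil => simp [psc]
  | cons t l ih => simp only [psc, pev_cons]; rw [ih]; push_cast; ring

def isNil : Pol → Bool
  | [] => true
  | _ :: _ => false

theorem isNil_iff {p : Pol} (h : isNil p = true) : p = [] := by
  cases p with
  | nil => rfl
  | cons _ _ => simp [isNil] at h

end Pool.Agent.GS.Ref
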