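import Pool.Agent.GS.RefCore

/-!
The 1520 trinomial relations between the 142 minors, checked by polynomial arithmetic.
-/

namespace Pool.Agent.GS.Ref

/-- the value of the symbol number `s` -/
noncomputable def sv (S : Fin 5 → Fin 5 → ℝ) (s : ℕ) : ℝ :=
  mdet S (symT.getD s ([], [])).1 (symT.getD s ([], [])).2

def decE (n : ℕ) : ℕ × ℤ := (Nat.shiftRight n 4, Int.ofNat (Nat.land n 15) - 8)

def polD (s : ℕ) : Pol := (polE.getD s [25]).map decE

theorem pol_check : symT.map (fun p => pdet p.1 p.2) = polE.map (fun l => l.map decE) := by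
  decide +kernel

theorem polD_eq (s : ℕ) :
    polD s = pdet (symT.getD s ([], [])).1 (symT.getD s ([], [])).2 := by
  have h1 : (polE.map (fun l => l.map decE)).getD s ([25].map decE) = polD s := by
    rw [List.getD_map]; rfl
  have h2 : (symT.map (fun p => pdet p.1 p.2)).getD s (pdet [] []) =
      pdet (symT.getD s ([], [])).1 (symT.getD s ([], [])).2 := by
    rw [← List.getD_map (f := fun p : List (Fin 5) × List (Fin 5) => pdet p.1 p.2) (d := ([], []))]
  have h3 : ([25].map decE) = pdet [] [] := by decide +kernel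
  rw [← h1, ← h2, pol_check, h3]

theorem polD_spec (S : Fin 5 → Fin 5 → ℝ) (hS : ∀ i j, S i j = S j i) (s : ℕ) :
    good (polD s) ∧ pev (xv S) (polD s) = sv S s := by
  rw [polD_eq]
  exact pdet_spec S hS _ _

/-- polynomial of a packed term -/
noncomputable def termP (t : ℕ) : Pol :=
  match Nat.land t 1 with
  | 0 => pmul (polD (tA t)) (polD (tB t))
  | _ => psc (-1) (pmul (polD (tA t)) (polD (tB t)))

/-- the real value of a packed term -/
noncomputable def tval (v : ℕ → ℝ) (t : ℕ) : ℝ :=
  (if t.testBit 0 then -1 else 1) * v (tA t) * v (tB t)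

theorem land_one_eq (t : ℕ) : Nat.land t 1 = if t.testBit 0 then 1 else 0 := by
  have : Nat.land t 1 = t % 2 := Nat.and_one_is_mod t
  rw [this, Nat.testBit_zero]
  rcases Nat.mod_two_eq_zero_or_one t with h | h <;> simp [h]

theorem termP_spec (S : Fin 5 → Fin 5 → ℝ) (hS : ∀ i j, S i j = S j i) (t : ℕ) :
    pev (xv S) (termP t) = tval (sv S) t := by
  obtain ⟨ga, ea⟩ := polD_spec S hS (tA t)
  obtain ⟨gb, eb⟩ := polD_spec S hS (tB t)
  unfold termP tval
  rw [land_one_eq]
  cases h : t.testBit 0 with
  | false => simp only [Bool.false_eq_true, if_false]; rw [pev_pmul _ _ _ ga gb, ea, eb]; ring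
  | true =>
    simp only [if_true]
    rw [pev_psc, pev_pmul _ _ _ ga gb, ea, eb]; push_cast; ring

/-- the square flag is correct -/
def sqOK (t : ℕ) : Bool :=
  match Nat.land t 2 with
  | 0 => true
  | _ => Nat.beq (tA t) (tB t)

theorem sqOK_spec {t : ℕ} (h : sqOK t = true) (h1 : t.testBit 1 = true) : tA t = tB t := by
  unfold sqOK at h
  split at h
  · next h2 =>
    exfalso
    have : (Nat.land t 2).testBit 1 = true := by
      have : Nat.land t 2 = t &&& 2 := rfl
      rw [this, Nat.testBit_and, h1]; rfl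
    rw [h2] at this; simp at this
  · exact Nat.eq_of_beq_eq_true h

/-- validity of a packed relation -/
noncomputable def relP (c : ℕ) : Bool :=
  (isNil (padd 4000 (termP c) (padd 4000 (termP (Nat.shiftRight c 18))
    (termP (Nat.shiftRight c 36))))) && (sqOK c && (sqOK (Nat.shiftRight c 18) &&
      sqOK (Nat.shiftRight c 36)))

/-- the relation `c` holds for the values `v` -/
def RelOK (v : ℕ → ℝ) (c : ℕ) : Prop :=
  tval v c + tval v (Nat.shiftRight c 18) + tval v (Nat.shiftRight c 36) = 0 ∧
  (c.testBit 1 = true → tA c = tB c) ∧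
  ((Nat.shiftRight c 18).testBit 1 = true → tA (Nat.shiftRight c 18) = tB (Nat.shiftRight c 18)) ∧
  ((Nat.shiftRight c 36).testBit 1 = true → tA (Nat.shiftRight c 36) = tB (Nat.shiftRight c 36))

theorem relP_spec (S : Fin 5 → Fin 5 → ℝ) (hS : ∀ i j, S i j = S j i) {c : ℕ}
    (h : relP c = true) : RelOK (sv S) c := by
  unfold relP at h
  simp only [Bool.and_eq_true] at h
  obtain ⟨h0, h1, h2, h3⟩ := h
  refine ⟨?_, sqOK_spec h1, sqOK_spec h2, sqOK_spec h3⟩
  have := congrArg (pev (xv S)) (isNil_iff h0)
  rw [pev_padd, pev_padd, termP_spec S hS, termP_spec S hS, termP_spec S hS] at this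
  rw [pev_nil] at this
  linarith

/-- the relations `a, ..., a + n - 1` are valid -/
noncomputable def relsP (a : ℕ) : ℕ → Bool
  | 0 => true
  | n + 1 => relP (getRel (Nat.add a n)) && relsP a n

theorem relsP_spec (a : ℕ) : ∀ n, relsP a n = true → ∀ r, a ≤ r → r < a + n →
    relP (getRel r) = true := by
  intro n
  induction n with
  | zero => intro _ r h1 h2; omega
  | succ n ih =>
    intro h r h1 h2
    simp only [relsP, Bool.and_eq_true] at h
    by_cases hr : r = a + n
    · rw [hr]; exact h.1
    · exact ih h.2 r h1 (by omega)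

end Pool.Agent.GS.Ref
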