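import Pool.Agent.GS.RefRel

namespace Pool.Agent.GS.Ref

theorem relc0 : relsP 0 151 = true := by decide +kernel
theorem relc151 : relsP 151 151 = true := by decide +kernel
theorem relc302 : relsP 302 132 = true := by decide +kernel
theorem relc434 : relsP 434 65 = true := by decide +kernel
theorem relc499 : relsP 499 29 = true := by decide +kernel
theorem relc528 : relsP 528 19 = true := by decide +kernel
theorem relc547 : relsP 547 119 = true := by decide +kernel
theorem relc666 : relsP 666 73 = true := by decide +kernel
theorem relc739 : relsP 739 14 = true := by decide +kernel
theorem relc753 : relsP 753 24 = true := by decide +kernel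
theorem relc777 : relsP 777 54 = true := by decide +kernel
theorem relc831 : relsP 831 11 = true := by decide +kernel
theorem relc842 : relsP 842 23 = true := by decide +kernel
theorem relc865 : relsP 865 11 = true := by decide +kernel
theorem relc876 : relsP 876 23 = true := by decide +kernel
theorem relc899 : relsP 899 2 = true := by decide +kernel
theorem relc901 : relsP 901 2 = true := by decide +kernel
theorem relc903 : relsP 903 7 = true := by decide +kernel
theorem relc910 : relsP 910 22 = true := by decide +kernel
theorem relc932 : relsP 932 122 = true := by decide +kernel
theorem relc1054 : relsP 1054 55 = true := by decide +kernel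
theorem relc1109 : relsP 1109 11 = true := by decide +kernel
theorem relc1120 : relsP 1120 26 = true := by decide +kernel
theorem relc1146 : relsP 1146 52 = true := by decide +kernel
theorem relc1198 : relsP 1198 14 = true := by decide +kernel
theorem relc1212 : relsP 1212 20 = true := by decide +kernel
theorem relc1232 : relsP 1232 14 = true := by decide +kernel
theorem relc1246 : relsP 1246 20 = true := by decide +kernel

end Pool.Agent.GS.Ref
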