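import Pool.Agent.GS.RefRel

/-!
Soundness of the flag propagation.
-/

namespace Pool.Agent.GS.Ref

/-- the flags `x` are correct for the sign `s` -/
def okg (x : ℕ) (s : SignType) : Prop :=
  (x.testBit 0 = true → s ≠ 1) ∧ (x.testBit 1 = true → s ≠ -1) ∧ (x.testBit 2 = true → s ≠ 0)

instance (x : ℕ) (s : SignType) : Decidable (okg x s) := by unfold okg; infer_instance

/-- the flags `x` are correct for the real number `r` -/
def okf (x : ℕ) (r : ℝ) : Prop := okg x (SignType.sign r)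

/-- sign factor of a term code -/
def sgc (c : ℕ) : SignType := if c.testBit 0 then -1 else 1

theorem prodF_fin' : ∀ c : Fin 4, ∀ x y : Fin 8, ∀ s t : SignType, okg x.val s → okg y.val t →
    (c.val.testBit 1 = true → s = t) → okg (prodF c.val x.val y.val) (sgc c.val * s * t) := by
  decide +kernel

theorem prodF_fin (c : ℕ) (hc : c < 4) (x : ℕ) (hx : x < 8) (y : ℕ) (hy : y < 8)
    (s t : SignType) (h1 : okg x s) (h2 : okg y t)
    (h3 : c.testBit 1 = true → s = t) : okg (prodF c x y) (sgc c * s * t) :=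
  prodF_fin' ⟨c, hc⟩ ⟨x, hx⟩ ⟨y, hy⟩ s t h1 h2 h3

/-- possible sign triples of three real numbers with sum zero -/
def compat (a b c : SignType) : Prop :=
  (a = 0 ∧ b = 0 ∧ c = 0) ∨ ((a = 1 ∨ b = 1 ∨ c = 1) ∧ (a = -1 ∨ b = -1 ∨ c = -1))

instance (a b c : SignType) : Decidable (compat a b c) := by unfold compat; infer_instance

theorem sumF_fin' : ∀ x y : Fin 8, ∀ r s t : SignType, compat r s t → okg x.val s →
    okg y.val t → okg (sumF x.val y.val) r := by
  decide +kernel

theorem sumF_fin (x : ℕ) (hx : x < 8) (y : ℕ) (hy : y < 8) (r s t : SignType)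
    (h : compat r s t) (h1 : okg x s) (h2 : okg y t) : okg (sumF x y) r :=
  sumF_fin' ⟨x, hx⟩ ⟨y, hy⟩ r s t h h1 h2

theorem divF_fin' : ∀ c : Fin 4, ∀ x y : Fin 8, ∀ s t : SignType,
    okg x.val (sgc c.val * s * t) → okg y.val t → (c.val.testBit 1 = true → s = t) →
    okg (divF c.val x.val y.val) s := by
  decide +kernel

theorem divF_fin (c : ℕ) (hc : c < 4) (x : ℕ) (hx : x < 8) (y : ℕ) (hy : y < 8)
    (s t : SignType) (h1 : okg x (sgc c * s * t)) (h2 : okg y t)
    (h3 : c.testBit 1 = true → s = t) : okg (divF c x y) s :=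
  divF_fin' ⟨c, hc⟩ ⟨x, hx⟩ ⟨y, hy⟩ s t h1 h2 h3

theorem sum_compat {a b c : ℝ} (h : a + b + c = 0) :
    compat (SignType.sign a) (SignType.sign b) (SignType.sign c) := by
  unfold compat
  rcases lt_trichotomy a 0 with ha | ha | ha <;> rcases lt_trichotomy b 0 with hb | hb | hb <;>
    rcases lt_trichotomy c 0 with hc | hc | hc <;>
    simp [sign_neg, sign_pos, ha, hb, hc] <;> linarith

theorem land7_lt (x : ℕ) : Nat.land x 7 < 8 :=
  Nat.lt_of_le_of_lt (Nat.and_le_right (n := x) (m := 7)) (by norm_num)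

theorem land3_lt (x : ℕ) : Nat.land x 3 < 4 :=
  Nat.lt_of_le_of_lt (Nat.and_le_right (n := x) (m := 3)) (by norm_num)

theorem land_testBit (x y i : ℕ) : (Nat.land x y).testBit i = (x.testBit i && y.testBit i) :=
  Nat.testBit_and x y i

theorem sgc_sign (c t : ℕ) (h : c = Nat.land t 3) :
    SignType.sign (if t.testBit 0 = true then (-1 : ℝ) else 1) = sgc c := by
  have : c.testBit 0 = t.testBit 0 := by rw [h, land_testBit]; simp
  unfold sgc
  rw [this]
  cases t.testBit 0 <;> simp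

/-- the state is correct for the values `v` -/
def StOK (v : ℕ → ℝ) (st : ℕ) : Prop := ∀ s, okf (fl st s) (v s)

theorem tval_sign (v : ℕ → ℝ) (t : ℕ) : SignType.sign (tval v t) =
    sgc (Nat.land t 3) * SignType.sign (v (tA t)) * SignType.sign (v (tB t)) := by
  unfold tval
  rw [sign_mul, sign_mul, sgc_sign _ t rfl]

theorem bit1_iff (t : ℕ) : (Nat.land t 3).testBit 1 = t.testBit 1 := by
  rw [land_testBit]; simp [Nat.testBit]

theorem tF_ok {v : ℕ → ℝ} {st : ℕ} (h : StOK v st) (t : ℕ)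
    (hsq : t.testBit 1 = true → tA t = tB t) : okf (tF st t) (tval v t) := by
  unfold okf
  rw [tval_sign]
  apply prodF_fin _ (land3_lt _) _ (land7_lt _) _ (land7_lt _) _ _ (h _) (h _)
  intro h1
  rw [bit1_iff] at h1
  rw [hsq h1]

theorem sumF_ok {x y : ℕ} {a b c : ℝ} (h : a + b + c = 0) (hx : x < 8) (hy : y < 8)
    (hb : okf x b) (hc : okf y c) : okf (sumF x y) a :=
  sumF_fin x hx y hy _ _ _ (sum_compat h) hb hc

theorem lor_eq (x y : ℕ) : Nat.lor x y = x ||| y := rfl
theorem land_eq (x y : ℕ) : Nat.land x y = x &&& y := rfl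
theorem shr_eq (x y : ℕ) : Nat.shiftRight x y = x >>> y := rfl
theorem shl_eq (x y : ℕ) : Nat.shiftLeft x y = x <<< y := rfl
theorem mul_eq' (x y : ℕ) : Nat.mul x y = x * y := rfl
theorem add_eq' (x y : ℕ) : Nat.add x y = x + y := rfl

theorem fl_testBit (st s i : ℕ) : (fl st s).testBit i = (st.testBit (4 * s + i) && decide (i < 3)) := by
  unfold fl
  rw [land_eq, shr_eq, mul_eq', Nat.testBit_and, Nat.testBit_shiftRight]
  congr 1
  have : (7 : ℕ) = 2 ^ 3 - 1 := by norm_num
  rw [this, Nat.testBit_two_pow_sub_one]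

/-- adding flags to a symbol -/
theorem setF_ok {v : ℕ → ℝ} {st : ℕ} (h : StOK v st) {x y : ℕ} (hx : x < 8) (hy : okf x (v y)) :
    StOK v (Nat.lor st (Nat.shiftLeft x (Nat.mul 4 y))) := by
  intro s
  have key : ∀ i, i < 3 → (fl (Nat.lor st (Nat.shiftLeft x (Nat.mul 4 y))) s).testBit i = true →
      (fl st s).testBit i = true ∨ (s = y ∧ x.testBit i = true) := by
    intro i hi hb
    rw [fl_testBit] at hb
    simp only [Bool.and_eq_true, decide_eq_true_eq] at hb
    obtain ⟨hb, _⟩ := hb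
    rw [lor_eq, shl_eq, mul_eq', Nat.testBit_or, Bool.or_eq_true] at hb
    rcases hb with hb | hb
    · left; rw [fl_testBit]; simp [hb, hi]
    · right
      rw [Nat.testBit_shiftLeft] at hb
      simp only [Bool.and_eq_true, decide_eq_true_eq] at hb
      obtain ⟨h1, h2⟩ := hb
      have hlt : 4 * s + i - 4 * y < 3 := by
        by_contra hge
        have hge' : 3 ≤ 4 * s + i - 4 * y := by omega
        have : x < 2 ^ (4 * s + i - 4 * y) :=
          lt_of_lt_of_le (by simpa using hx) (Nat.pow_le_pow_right (by norm_num) hge')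
        rw [Nat.testBit_lt_two_pow this] at h2
        exact absurd h2 (by simp)
      have hs : s = y := by omega
      refine ⟨hs, ?_⟩
      have : 4 * s + i - 4 * y = i := by omega
      rwa [this] at h2
  have h0 := h s
  unfold okf okg at *
  refine ⟨fun hb => ?_, fun hb => ?_, fun hb => ?_⟩
  · rcases key 0 (by norm_num) hb with h1 | ⟨h1, h2⟩
    · exact h0.1 h1
    · rw [h1]; exact hy.1 h2
  · rcases key 1 (by norm_num) hb with h1 | ⟨h1, h2⟩
    · exact h0.2.1 h1
    · rw [h1]; exact hy.2.1 h2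
  · rcases key 2 (by norm_num) hb with h1 | ⟨h1, h2⟩
    · exact h0.2.2 h1
    · rw [h1]; exact hy.2.2 h2

theorem force_eq {α : Type} (n : ℕ) (k : ℕ → α) : force n k = k n := by
  cases n <;> rfl

/-- the three terms of a relation in the order of the permutation `p` -/
theorem perm_ok {v : ℕ → ℝ} {c : ℕ} (h : RelOK v c) (p : ℕ) (hp : p < 8) :
    tval v (Nat.shiftRight c (off0 p)) + tval v (Nat.shiftRight c (off1 p)) +
      tval v (Nat.shiftRight c (off2 p)) = 0 ∧
    ((Nat.shiftRight c (off0 p)).testBit 1 = true →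
      tA (Nat.shiftRight c (off0 p)) = tB (Nat.shiftRight c (off0 p))) ∧
    ((Nat.shiftRight c (off1 p)).testBit 1 = true →
      tA (Nat.shiftRight c (off1 p)) = tB (Nat.shiftRight c (off1 p))) ∧
    ((Nat.shiftRight c (off2 p)).testBit 1 = true →
      tA (Nat.shiftRight c (off2 p)) = tB (Nat.shiftRight c (off2 p))) := by
  obtain ⟨h0, h1, h2, h3⟩ := h
  have hc : Nat.shiftRight c 0 = c := rfl
  have h1' : (Nat.shiftRight c 0).testBit 1 = true → tA (Nat.shiftRight c 0) = tB (Nat.shiftRight c 0) := by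
    rw [hc]; exact h1
  have h0' : tval v (Nat.shiftRight c 0) + tval v (Nat.shiftRight c 18)
      + tval v (Nat.shiftRight c 36) = 0 := by rw [hc]; exact h0
  have hoff : (off0 p = 0 ∧ off1 p = 18 ∧ off2 p = 36) ∨ (off0 p = 0 ∧ off1 p = 36 ∧ off2 p = 18) ∨
      (off0 p = 18 ∧ off1 p = 0 ∧ off2 p = 36) ∨ (off0 p = 18 ∧ off1 p = 36 ∧ off2 p = 0) ∨
      (off0 p = 36 ∧ off1 p = 0 ∧ off2 p = 18) ∨ (off0 p = 36 ∧ off1 p = 18 ∧ off2 p = 0) := by
    revert p
    decide +kernel
  rcases hoff with ⟨a, b, d⟩ | ⟨a, b, d⟩ | ⟨a, b, d⟩ | ⟨a, b, d⟩ | ⟨a, b, d⟩ | ⟨a, b, d⟩ <;>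
    rw [a, b, d]
  · exact ⟨h0', h1', h2, h3⟩
  · exact ⟨by linarith, h1', h3, h2⟩
  · exact ⟨by linarith, h2, h1', h3⟩
  · exact ⟨by linarith, h2, h3, h1'⟩
  · exact ⟨by linarith, h3, h1', h2⟩
  · exact ⟨by linarith, h3, h2, h1'⟩

theorem tF_lt (st t : ℕ) : tF st t < 8 := land7_lt _

theorem upd_ok {v : ℕ → ℝ} {st : ℕ} (h : StOK v st) {c need y z : ℕ} (hc : c < 4) (hn : need < 8)
    (h1 : okg need (sgc c * SignType.sign (v y) * SignType.sign (v z)))
    (h2 : c.testBit 1 = true → y = z) : StOK v (upd st c need y z) := by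
  unfold upd
  apply setF_ok h (land7_lt _)
  unfold okf
  apply divF_fin c hc need hn _ (land7_lt _) _ (SignType.sign (v z)) h1 (h z)
  intro hb; rw [h2 hb]

theorem stepS_ok {v : ℕ → ℝ} (hrel : ∀ r, RelOK v (getRel r)) {st : ℕ} (h : StOK v st) (tok : ℕ) :
    StOK v (stepS st tok) := by
  unfold stepS
  rw [force_eq, force_eq]
  have hp : Nat.land (Nat.shiftRight tok 11) 7 < 8 := land7_lt _
  obtain ⟨e0, e1, e2, e3⟩ := perm_ok (hrel tok) _ hp
  generalize Nat.land (Nat.shiftRight tok 11) 7 = p at *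
  generalize getRel tok = c at *
  have hs := sumF_ok e0 (tF_lt st _) (tF_lt st _) (tF_ok h _ e2) (tF_ok h _ e3)
  unfold okf at hs
  rw [tval_sign] at hs
  unfold stepU
  cases Nat.land (Nat.shiftRight tok 14) 1 with
  | zero =>
    apply upd_ok h (land3_lt _) (land7_lt _) hs
    intro hb; rw [bit1_iff] at hb; exact e1 hb
  | succ k =>
    apply upd_ok h (land3_lt _) (land7_lt _)
    · rw [mul_assoc, mul_comm (SignType.sign (v (tB _))), ← mul_assoc]; exact hs
    · intro hb; rw [bit1_iff] at hb; exact (e1 hb).symm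

theorem runS_ok {v : ℕ → ℝ} (hrel : ∀ r, RelOK v (getRel r)) (n : ℕ) :
    ∀ {st : ℕ} (code : ℕ), StOK v st → StOK v (runS n code st) := by
  induction n with
  | zero => intro st code h; exact h
  | succ n ih =>
    intro st code h
    have : runS (n + 1) code st = force (stepS st code) fun st' => runS n (Nat.shiftRight code 15) st' := rfl
    rw [this, force_eq]
    exact ih _ (stepS_ok hrel h _)

end Pool.Agent.GS.Ref
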