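import Pool.Agent.GS.K.RuleTab
import Pool.Agent.GS.Sem
import Pool.Agent.GS.RuleTabO
import Pool.Agent.GS.RuleTabR
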