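import Pool.Agent.GS.TreeSem
import Pool.Agent.GS.RuleTab
import Pool.Agent.GS.LinkR

/-!
No set of the family is hit by an entry of the table `ruleE`.
-/

set_option autoImplicit false

namespace Pool.Agent.GS.Ref

/-- the first `k` lanes (7 digits each) of `r` are less than `80` -/
noncomputable def posChk (k : ℕ) : ℕ → Bool :=
  Nat.rec (motive := fun _ => ℕ → Bool) (fun _ => true)
    (fun _ ih r => Bool.and (Nat.blt (Nat.land r 127) 80) (force (Nat.shiftRight r 7) ih)) k

theorem posChk_spec (k : ℕ) : ∀ r, posChk k r = true → ∀ i < k, (r >>> (7 * i)) &&& 127 < 80 := by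
  induction k with
  | zero => intro r _ i hi; omega
  | succ k ih =>
    intro r h i hi
    have e : posChk (k + 1) r = Bool.and (Nat.blt (Nat.land r 127) 80)
      (force (Nat.shiftRight r 7) (posChk k)) := rfl
    rw [e, force_eq, Bool.and_eq_true] at h
    cases i with
    | zero =>
      have h1 := h.1
      rw [Nat.blt_eq] at h1
      simpa using h1
    | succ i =>
      have h1 := ih _ h.2 i (by omega)
      have e2 : r >>> (7 * (i + 1)) = (Nat.shiftRight r 7) >>> (7 * i) := by
        show r >>> (7 * (i + 1)) = (r >>> 7) >>> (7 * i)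
        rw [← Nat.shiftRight_add]
        congr 1
        ring
      rw [e2]
      exact h1

/-- the positions of the first `n` entries of the block `B` are less than `80` -/
noncomputable def blkChk (B n : ℕ) : Bool :=
  Nat.rec (motive := fun _ => Bool) true
    (fun i ih => Bool.and (force (entB B i) fun e =>
      Bool.and (posChk (rK1 e) (rL1 e)) (posChk (rK0 e) (rL0 e))) ih) n

theorem blkChk_spec (B n : ℕ) : blkChk B n = true → ∀ i < n,
    (∀ j < rK1 (entB B i), (rL1 (entB B i) >>> (7 * j)) &&& 127 < 80) ∧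
    (∀ j < rK0 (entB B i), (rL0 (entB B i) >>> (7 * j)) &&& 127 < 80) := by
  induction n with
  | zero => intro _ i hi; omega
  | succ n ih =>
    intro h i hi
    have e : blkChk B (n + 1) = Bool.and (force (entB B n) fun e =>
      Bool.and (posChk (rK1 e) (rL1 e)) (posChk (rK0 e) (rL0 e))) (blkChk B n) := rfl
    rw [e, force_eq, Bool.and_eq_true, Bool.and_eq_true] at h
    by_cases hq : i = n
    · rw [hq]
      exact ⟨posChk_spec _ _ h.1.1, posChk_spec _ _ h.1.2⟩
    · exact ih h.2 i (by omega)

theorem blkChk_all : ∀ q : Fin 64, blkChk (rBlk q.val) 64 = true := by decide +kernel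

theorem rBlk_mem : ∀ q : Fin 35, rBlk (29 + q.val) ∈ rRBlocks := by decide +kernel

end Pool.Agent.GS.Ref

namespace Pool.Agent.GS

/-- no set of the family is hit by an entry of the table, provided that the first 1856 entries are not
orientable -/
theorem ruleE_ok (hO : ∀ q < 29, ∀ i < 64,
    PatInvalidI (mask1 (entB (rBlk q) i) (gTab 0)) (mask0 (entB (rBlk q) i) (gTab 0))) :
    ∀ n < 4096, RuleOK (ruleE n) := by
  intro n hn
  have hq : n >>> 6 < 64 := by rw [Nat.shiftRight_eq_div_pow]; omega
  have hi : n &&& 63 < 64 := Nat.lt_of_le_of_lt Nat.and_le_right (by norm_num)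
  show RuleOK (entB (rBlk (n >>> 6)) (n &&& 63))
  generalize n >>> 6 = q at hq
  generalize n &&& 63 = i at hi
  obtain ⟨h1, h2⟩ := Ref.blkChk_spec _ _ (Ref.blkChk_all ⟨q, hq⟩) i hi
  refine ⟨h1, h2, ?_⟩
  intro S hS hH
  rcases Nat.lt_or_ge q 29 with h3 | h3
  · exact hO q h3 i hi S hS.1 hS.2.1 hH
  · have h4 := Ref.rBlk_mem ⟨q - 29, by omega⟩
    simp only at h4
    rw [show 29 + (q - 29) = q by omega] at h4
    have h5 := rR_link _ h4 i hi S hS.1 hH
    have h6 := hS.2.2 1 false
    rw [img_one hS.1] at h6
    exact h6 h5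

end Pool.Agent.GS
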