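import Pool.Agent.GS.RefI
import Pool.Agent.GS.K.RuleTab
import Pool.Agent.GS.K.RuleK0
import Pool.Agent.GS.K.RuleK1
import Pool.Agent.GS.K.RuleK2

/-!
The blocks `rBlk 0, …, rBlk 28` consist of patterns which no orientable set contains.
-/

set_option autoImplicit false

namespace Pool.Agent.GS.RI

theorem rO_ok_0 : ∀ i < 64,
    PatInvalidI (mask1 (entB rO0 i) (gTab 0)) (mask0 (entB rO0 i) (gTab 0)) := by
  intro i hi
  exact patAllI_from _ _ 0 _ _ rchk_0_0 i (by omega) (by omega)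

theorem rO_ok_1 : ∀ i < 64,
    PatInvalidI (mask1 (entB rO1 i) (gTab 0)) (mask0 (entB rO1 i) (gTab 0)) := by
  intro i hi
  rcases Nat.lt_or_ge i 35 with h0 | h0
  · exact patAllI_from _ _ 0 _ _ rchk_1_0 i (by omega) (by omega)
  exact patAllI_from _ _ 35 _ _ rchk_1_1 i (by omega) (by omega)

theorem rO_ok_2 : ∀ i < 64,
    PatInvalidI (mask1 (entB rO2 i) (gTab 0)) (mask0 (entB rO2 i) (gTab 0)) := by
  intro i hi
  rcases Nat.lt_or_ge i 39 with h0 | h0
  · exact patAllI_from _ _ 0 _ _ rchk_2_0 i (by omega) (by omega)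
  exact patAllI_from _ _ 39 _ _ rchk_2_1 i (by omega) (by omega)

theorem rO_ok_3 : ∀ i < 64,
    PatInvalidI (mask1 (entB rO3 i) (gTab 0)) (mask0 (entB rO3 i) (gTab 0)) := by
  intro i hi
  rcases Nat.lt_or_ge i 41 with h0 | h0
  · exact patAllI_from _ _ 0 _ _ rchk_3_0 i (by omega) (by omega)
  exact patAllI_from _ _ 41 _ _ rchk_3_1 i (by omega) (by omega)

theorem rO_ok_4 : ∀ i < 64,
    PatInvalidI (mask1 (entB rO4 i) (gTab 0)) (mask0 (entB rO4 i) (gTab 0)) := by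
  intro i hi
  rcases Nat.lt_or_ge i 45 with h0 | h0
  · exact patAllI_from _ _ 0 _ _ rchk_4_0 i (by omega) (by omega)
  exact patAllI_from _ _ 45 _ _ rchk_4_1 i (by omega) (by omega)

theorem rO_ok_5 : ∀ i < 64,
    PatInvalidI (mask1 (entB rO5 i) (gTab 0)) (mask0 (entB rO5 i) (gTab 0)) := by
  intro i hi
  rcases Nat.lt_or_ge i 41 with h0 | h0
  · exact patAllI_from _ _ 0 _ _ rchk_5_0 i (by omega) (by omega)
  exact patAllI_from _ _ 41 _ _ rchk_5_1 i (by omega) (by omega)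

theorem rO_ok_6 : ∀ i < 64,
    PatInvalidI (mask1 (entB rO6 i) (gTab 0)) (mask0 (entB rO6 i) (gTab 0)) := by
  intro i hi
  rcases Nat.lt_or_ge i 34 with h0 | h0
  · exact patAllI_from _ _ 0 _ _ rchk_6_0 i (by omega) (by omega)
  rcases Nat.lt_or_ge i 61 with h1 | h1
  · exact patAllI_from _ _ 34 _ _ rchk_6_1 i (by omega) (by omega)
  exact patAllI_from _ _ 61 _ _ rchk_6_2 i (by omega) (by omega)

theorem rO_ok_7 : ∀ i < 64,
    PatInvalidI (mask1 (entB rO7 i) (gTab 0)) (mask0 (entB rO7 i) (gTab 0)) := by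
  intro i hi
  rcases Nat.lt_or_ge i 34 with h0 | h0
  · exact patAllI_from _ _ 0 _ _ rchk_7_0 i (by omega) (by omega)
  exact patAllI_from _ _ 34 _ _ rchk_7_1 i (by omega) (by omega)

theorem rO_ok_8 : ∀ i < 64,
    PatInvalidI (mask1 (entB rO8 i) (gTab 0)) (mask0 (entB rO8 i) (gTab 0)) := by
  intro i hi
  rcases Nat.lt_or_ge i 40 with h0 | h0
  · exact patAllI_from _ _ 0 _ _ rchk_8_0 i (by omega) (by omega)
  exact patAllI_from _ _ 40 _ _ rchk_8_1 i (by omega) (by omega)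

theorem rO_ok_9 : ∀ i < 64,
    PatInvalidI (mask1 (entB rO9 i) (gTab 0)) (mask0 (entB rO9 i) (gTab 0)) := by
  intro i hi
  rcases Nat.lt_or_ge i 43 with h0 | h0
  · exact patAllI_from _ _ 0 _ _ rchk_9_0 i (by omega) (by omega)
  exact patAllI_from _ _ 43 _ _ rchk_9_1 i (by omega) (by omega)

theorem rO_ok_10 : ∀ i < 64,
    PatInvalidI (mask1 (entB rO10 i) (gTab 0)) (mask0 (entB rO10 i) (gTab 0)) := by
  intro i hi
  rcases Nat.lt_or_ge i 35 with h0 | h0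
  · exact patAllI_from _ _ 0 _ _ rchk_10_0 i (by omega) (by omega)
  exact patAllI_from _ _ 35 _ _ rchk_10_1 i (by omega) (by omega)

theorem rO_ok_11 : ∀ i < 64,
    PatInvalidI (mask1 (entB rO11 i) (gTab 0)) (mask0 (entB rO11 i) (gTab 0)) := by
  intro i hi
  rcases Nat.lt_or_ge i 43 with h0 | h0
  · exact patAllI_from _ _ 0 _ _ rchk_11_0 i (by omega) (by omega)
  exact patAllI_from _ _ 43 _ _ rchk_11_1 i (by omega) (by omega)

theorem rO_ok_12 : ∀ i < 64,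
    PatInvalidI (mask1 (entB rO12 i) (gTab 0)) (mask0 (entB rO12 i) (gTab 0)) := by
  intro i hi
  rcases Nat.lt_or_ge i 48 with h0 | h0
  · exact patAllI_from _ _ 0 _ _ rchk_12_0 i (by omega) (by omega)
  exact patAllI_from _ _ 48 _ _ rchk_12_1 i (by omega) (by omega)

theorem rO_ok_13 : ∀ i < 64,
    PatInvalidI (mask1 (entB rO13 i) (gTab 0)) (mask0 (entB rO13 i) (gTab 0)) := by
  intro i hi
  rcases Nat.lt_or_ge i 43 with h0 | h0
  · exact patAllI_from _ _ 0 _ _ rchk_13_0 i (by omega) (by omega)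
  exact patAllI_from _ _ 43 _ _ rchk_13_1 i (by omega) (by omega)

theorem rO_ok_14 : ∀ i < 64,
    PatInvalidI (mask1 (entB rO14 i) (gTab 0)) (mask0 (entB rO14 i) (gTab 0)) := by
  intro i hi
  rcases Nat.lt_or_ge i 38 with h0 | h0
  · exact patAllI_from _ _ 0 _ _ rchk_14_0 i (by omega) (by omega)
  exact patAllI_from _ _ 38 _ _ rchk_14_1 i (by omega) (by omega)

theorem rO_ok_15 : ∀ i < 64,
    PatInvalidI (mask1 (entB rO15 i) (gTab 0)) (mask0 (entB rO15 i) (gTab 0)) := by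
  intro i hi
  rcases Nat.lt_or_ge i 39 with h0 | h0
  · exact patAllI_from _ _ 0 _ _ rchk_15_0 i (by omega) (by omega)
  exact patAllI_from _ _ 39 _ _ rchk_15_1 i (by omega) (by omega)

theorem rO_ok_16 : ∀ i < 64,
    PatInvalidI (mask1 (entB rO16 i) (gTab 0)) (mask0 (entB rO16 i) (gTab 0)) := by
  intro i hi
  rcases Nat.lt_or_ge i 46 with h0 | h0
  · exact patAllI_from _ _ 0 _ _ rchk_16_0 i (by omega) (by omega)
  exact patAllI_from _ _ 46 _ _ rchk_16_1 i (by omega) (by omega)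

theorem rO_ok_17 : ∀ i < 64,
    PatInvalidI (mask1 (entB rO17 i) (gTab 0)) (mask0 (entB rO17 i) (gTab 0)) := by
  intro i hi
  rcases Nat.lt_or_ge i 43 with h0 | h0
  · exact patAllI_from _ _ 0 _ _ rchk_17_0 i (by omega) (by omega)
  exact patAllI_from _ _ 43 _ _ rchk_17_1 i (by omega) (by omega)

theorem rO_ok_18 : ∀ i < 64,
    PatInvalidI (mask1 (entB rO18 i) (gTab 0)) (mask0 (entB rO18 i) (gTab 0)) := by
  intro i hi
  rcases Nat.lt_or_ge i 41 with h0 | h0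
  · exact patAllI_from _ _ 0 _ _ rchk_18_0 i (by omega) (by omega)
  exact patAllI_from _ _ 41 _ _ rchk_18_1 i (by omega) (by omega)

theorem rO_ok_19 : ∀ i < 64,
    PatInvalidI (mask1 (entB rO19 i) (gTab 0)) (mask0 (entB rO19 i) (gTab 0)) := by
  intro i hi
  rcases Nat.lt_or_ge i 44 with h0 | h0
  · exact patAllI_from _ _ 0 _ _ rchk_19_0 i (by omega) (by omega)
  exact patAllI_from _ _ 44 _ _ rchk_19_1 i (by omega) (by omega)

theorem rO_ok_20 : ∀ i < 64,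
    PatInvalidI (mask1 (entB rO20 i) (gTab 0)) (mask0 (entB rO20 i) (gTab 0)) := by
  intro i hi
  rcases Nat.lt_or_ge i 28 with h0 | h0
  · exact patAllI_from _ _ 0 _ _ rchk_20_0 i (by omega) (by omega)
  exact patAllI_from _ _ 28 _ _ rchk_20_1 i (by omega) (by omega)

theorem rO_ok_21 : ∀ i < 64,
    PatInvalidI (mask1 (entB rO21 i) (gTab 0)) (mask0 (entB rO21 i) (gTab 0)) := by
  intro i hi
  rcases Nat.lt_or_ge i 42 with h0 | h0
  · exact patAllI_from _ _ 0 _ _ rchk_21_0 i (by omega) (by omega)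
  exact patAllI_from _ _ 42 _ _ rchk_21_1 i (by omega) (by omega)

theorem rO_ok_22 : ∀ i < 64,
    PatInvalidI (mask1 (entB rO22 i) (gTab 0)) (mask0 (entB rO22 i) (gTab 0)) := by
  intro i hi
  rcases Nat.lt_or_ge i 43 with h0 | h0
  · exact patAllI_from _ _ 0 _ _ rchk_22_0 i (by omega) (by omega)
  exact patAllI_from _ _ 43 _ _ rchk_22_1 i (by omega) (by omega)

theorem rO_ok_23 : ∀ i < 64,
    PatInvalidI (mask1 (entB rO23 i) (gTab 0)) (mask0 (entB rO23 i) (gTab 0)) := by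
  intro i hi
  rcases Nat.lt_or_ge i 35 with h0 | h0
  · exact patAllI_from _ _ 0 _ _ rchk_23_0 i (by omega) (by omega)
  exact patAllI_from _ _ 35 _ _ rchk_23_1 i (by omega) (by omega)

theorem rO_ok_24 : ∀ i < 64,
    PatInvalidI (mask1 (entB rO24 i) (gTab 0)) (mask0 (entB rO24 i) (gTab 0)) := by
  intro i hi
  rcases Nat.lt_or_ge i 33 with h0 | h0
  · exact patAllI_from _ _ 0 _ _ rchk_24_0 i (by omega) (by omega)
  exact patAllI_from _ _ 33 _ _ rchk_24_1 i (by omega) (by omega)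

theorem rO_ok_25 : ∀ i < 64,
    PatInvalidI (mask1 (entB rO25 i) (gTab 0)) (mask0 (entB rO25 i) (gTab 0)) := by
  intro i hi
  rcases Nat.lt_or_ge i 38 with h0 | h0
  · exact patAllI_from _ _ 0 _ _ rchk_25_0 i (by omega) (by omega)
  exact patAllI_from _ _ 38 _ _ rchk_25_1 i (by omega) (by omega)

theorem rO_ok_26 : ∀ i < 64,
    PatInvalidI (mask1 (entB rO26 i) (gTab 0)) (mask0 (entB rO26 i) (gTab 0)) := by
  intro i hi
  rcases Nat.lt_or_ge i 30 with h0 | h0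
  · exact patAllI_from _ _ 0 _ _ rchk_26_0 i (by omega) (by omega)
  exact patAllI_from _ _ 30 _ _ rchk_26_1 i (by omega) (by omega)

theorem rO_ok_27 : ∀ i < 64,
    PatInvalidI (mask1 (entB rO27 i) (gTab 0)) (mask0 (entB rO27 i) (gTab 0)) := by
  intro i hi
  rcases Nat.lt_or_ge i 40 with h0 | h0
  · exact patAllI_from _ _ 0 _ _ rchk_27_0 i (by omega) (by omega)
  exact patAllI_from _ _ 40 _ _ rchk_27_1 i (by omega) (by omega)

theorem rO_ok_28 : ∀ i < 64,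
    PatInvalidI (mask1 (entB rO28 i) (gTab 0)) (mask0 (entB rO28 i) (gTab 0)) := by
  intro i hi
  rcases Nat.lt_or_ge i 39 with h0 | h0
  · exact patAllI_from _ _ 0 _ _ rchk_28_0 i (by omega) (by omega)
  exact patAllI_from _ _ 39 _ _ rchk_28_1 i (by omega) (by omega)

end Pool.Agent.GS.RI

namespace Pool.Agent.GS

theorem rO_ok : ∀ q < 29, ∀ i < 64,
    PatInvalidI (mask1 (entB (rBlk q) i) (gTab 0)) (mask0 (entB (rBlk q) i) (gTab 0)) := by
  intro q hq
  match q, hq with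
  | 0, _ => exact (show rBlk 0 = rO0 from rfl) ▸ RI.rO_ok_0
  | 1, _ => exact (show rBlk 1 = rO1 from rfl) ▸ RI.rO_ok_1
  | 2, _ => exact (show rBlk 2 = rO2 from rfl) ▸ RI.rO_ok_2
  | 3, _ => exact (show rBlk 3 = rO3 from rfl) ▸ RI.rO_ok_3
  | 4, _ => exact (show rBlk 4 = rO4 from rfl) ▸ RI.rO_ok_4
  | 5, _ => exact (show rBlk 5 = rO5 from rfl) ▸ RI.rO_ok_5
  | 6, _ => exact (show rBlk 6 = rO6 from rfl) ▸ RI.rO_ok_6
  | 7, _ => exact (show rBlk 7 = rO7 from rfl) ▸ RI.rO_ok_7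
  | 8, _ => exact (show rBlk 8 = rO8 from rfl) ▸ RI.rO_ok_8
  | 9, _ => exact (show rBlk 9 = rO9 from rfl) ▸ RI.rO_ok_9
  | 10, _ => exact (show rBlk 10 = rO10 from rfl) ▸ RI.rO_ok_10
  | 11, _ => exact (show rBlk 11 = rO11 from rfl) ▸ RI.rO_ok_11
  | 12, _ => exact (show rBlk 12 = rO12 from rfl) ▸ RI.rO_ok_12
  | 13, _ => exact (show rBlk 13 = rO13 from rfl) ▸ RI.rO_ok_13
  | 14, _ => exact (show rBlk 14 = rO14 from rfl) ▸ RI.rO_ok_14
  | 15, _ => exact (show rBlk 15 = rO15 from rfl) ▸ RI.rO_ok_15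
  | 16, _ => exact (show rBlk 16 = rO16 from rfl) ▸ RI.rO_ok_16
  | 17, _ => exact (show rBlk 17 = rO17 from rfl) ▸ RI.rO_ok_17
  | 18, _ => exact (show rBlk 18 = rO18 from rfl) ▸ RI.rO_ok_18
  | 19, _ => exact (show rBlk 19 = rO19 from rfl) ▸ RI.rO_ok_19
  | 20, _ => exact (show rBlk 20 = rO20 from rfl) ▸ RI.rO_ok_20
  | 21, _ => exact (show rBlk 21 = rO21 from rfl) ▸ RI.rO_ok_21
  | 22, _ => exact (show rBlk 22 = rO22 from rfl) ▸ RI.rO_ok_22
  | 23, _ => exact (show rBlk 23 = rO23 from rfl) ▸ RI.rO_ok_23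
  | 24, _ => exact (show rBlk 24 = rO24 from rfl) ▸ RI.rO_ok_24
  | 25, _ => exact (show rBlk 25 = rO25 from rfl) ▸ RI.rO_ok_25
  | 26, _ => exact (show rBlk 26 = rO26 from rfl) ▸ RI.rO_ok_26
  | 27, _ => exact (show rBlk 27 = rO27 from rfl) ▸ RI.rO_ok_27
  | 28, _ => exact (show rBlk 28 = rO28 from rfl) ▸ RI.rO_ok_28
  | n + 29, h => omega

end Pool.Agent.GS
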