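import Pool.Agent.GS.Wit

/-!
Soundness of the integer witnesses of `Wit.lean`.
-/

set_option autoImplicit false
set_option linter.unusedVariables false

namespace Pool.Agent.GS

/-! ### Residues modulo `Q` -/

theorem Q_eq : Q = 2 ^ 1024 := by decide +kernel
theorem Q2_eq : Q2 = 2 ^ 2048 := by decide +kernel
theorem Qh_eq : Qh + 1 = 2 ^ 1023 := by decide +kernel

theorem Q_pos : 0 < Q := by rw [Q_eq]; positivity

theorem Q2_eq' : Q2 = Q * Q := by
  rw [Q2_eq, Q_eq, ← pow_add]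

/-- the natural number `x` is the residue modulo `Q` of the integer `X`, whose absolute value is
at most `2 ^ k` -/
def Rep (k : ℕ) (x : ℕ) (X : ℤ) : Prop := (x : ℤ) = X % (Q : ℤ) ∧ |X| ≤ 2 ^ k

theorem Rep.lt {k x : ℕ} {X : ℤ} (h : Rep k x X) : x < Q := by
  have h1 : (x : ℤ) < (Q : ℤ) := by
    rw [h.1]
    exact Int.emod_lt_of_pos _ (by exact_mod_cast Q_pos)
  exact_mod_cast h1

theorem Rep.modEq {k x : ℕ} {X : ℤ} (h : Rep k x X) : (x : ℤ) ≡ X [ZMOD (Q : ℤ)] := by
  unfold Int.ModEq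
  rw [h.1, Int.emod_emod_of_dvd _ (dvd_refl _)]

theorem Rep.ms {k p x y z : ℕ} {P X Y Z : ℤ} (hp : Rep k p P) (hx : Rep k x X) (hy : Rep k y Y)
    (hz : Rep k z Z) : Rep (2 * k + 1) (ms p x y z) (P * X - Y * Z) := by
  constructor
  · have hyz : y * z ≤ Q2 := by
      rw [Q2_eq']
      exact Nat.mul_le_mul hy.lt.le hz.lt.le
    have h1 : ((Pool.Agent.GS.ms p x y z : ℕ) : ℤ) = ((p : ℤ) * x + (Q2 - y * z)) % (Q : ℤ) := by
      have : Pool.Agent.GS.ms p x y z = (p * x + (Q2 - y * z)) % Q := rfl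
      rw [this]
      push_cast [hyz]
      rfl
    rw [h1]
    have h2 : ((p : ℤ) * x + (Q2 - y * z)) ≡ P * X - Y * Z [ZMOD (Q : ℤ)] := by
      have h3 : (Q2 : ℤ) ≡ 0 [ZMOD (Q : ℤ)] := by
        rw [Q2_eq', Int.modEq_zero_iff_dvd]
        push_cast
        exact dvd_mul_right _ _
      have h4 := (hp.modEq.mul hx.modEq).add (h3.sub (hy.modEq.mul hz.modEq))
      have h5 : P * X + (0 - Y * Z) = P * X - Y * Z := by ring
      rwa [h5] at h4
    exact h2
  · calc |P * X - Y * Z| ≤ |P * X| + |Y * Z| := abs_sub _ _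
      _ = |P| * |X| + |Y| * |Z| := by rw [abs_mul, abs_mul]
      _ ≤ 2 ^ k * 2 ^ k + 2 ^ k * 2 ^ k := by
          gcongr
          · exact hp.2
          · exact hx.2
          · exact hy.2
          · exact hz.2
      _ = 2 ^ (2 * k + 1) := by ring

theorem Rep.eq_zero_iff {k x : ℕ} {X : ℤ} (h : Rep k x X) (hk : k ≤ 1023) : x = 0 ↔ X = 0 := by
  have hlt : |X| < (Q : ℤ) := by
    refine lt_of_le_of_lt h.2 ?_
    rw [Q_eq, Nat.cast_pow, Nat.cast_two]
    exact pow_lt_pow_right₀ (by norm_num) (by omega)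
  constructor
  · intro h0
    have h1 := h.1
    rw [h0] at h1
    have h2 : (Q : ℤ) ∣ X := Int.dvd_of_emod_eq_zero h1.symm
    exact Int.eq_zero_of_abs_lt_dvd h2 hlt
  · intro h0
    have h1 := h.1
    rw [h0, Int.zero_emod] at h1
    exact_mod_cast h1

theorem Rep.pos {k x : ℕ} {X : ℤ} (h : Rep k x X) (hk : k ≤ 1023) (hx : posQ x = true) :
    0 < X := by
  unfold posQ at hx
  rw [Bool.and_eq_true] at hx
  obtain ⟨h1, h2⟩ := hx
  have h1' : 1 ≤ x := Nat.le_of_ble_eq_true h1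
  have h2' : x ≤ Qh := Nat.le_of_ble_eq_true h2
  have h3 : x < 2 ^ 1023 := by
    rw [← Qh_eq]; omega
  by_contra hX
  rw [not_lt] at hX
  have hX0 : X ≠ 0 := by
    intro h0
    have := (h.eq_zero_iff hk).2 h0
    omega
  have hXn : X < 0 := lt_of_le_of_ne hX hX0
  have habs : -X ≤ 2 ^ 1023 := by
    have := h.2
    rw [abs_of_neg hXn] at this
    exact this.trans (pow_le_pow_right₀ (by norm_num) hk)
  have hQ : (Q : ℤ) = 2 * 2 ^ 1023 := by
    rw [Q_eq, ← pow_succ', Nat.cast_pow, Nat.cast_two]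
  have h6 : (x : ℤ) < 2 ^ 1023 := by exact_mod_cast h3
  generalize (2 : ℤ) ^ 1023 = H at habs hQ h6
  have h4 : X % (Q : ℤ) = X + Q := by
    rw [← Int.add_emod_right X (Q : ℤ)]
    apply Int.emod_eq_of_lt
    · rw [hQ]; linarith
    · linarith
  have h5 := h.1
  rw [h4, hQ] at h5
  linarith

/-! ### Iterated pivoting -/

/-- one (division free) pivoting step, entries modulo `Q` -/
def stepN (f : Fin 5 → Fin 5 → ℕ) (k i j : Fin 5) : ℕ :=
  bif Nat.ble i.val j.val then ms (f k k) (f i j) (f k i) (f k j)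
  else ms (f k k) (f j i) (f k j) (f k i)

/-- iterated (division free) Schur complements, entries modulo `Q` -/
def valN : List (Fin 5) → (Fin 5 → Fin 5 → ℕ) → Fin 5 → Fin 5 → ℕ
  | [], f => f
  | k :: K, f => valN K (stepN f k)

/-- one (division free) pivoting step over a ring -/
def stepR {R : Type*} [CommRing R] (F : Fin 5 → Fin 5 → R) (k i j : Fin 5) : R :=
  F k k * F i j - F k i * F k j

/-- iterated (division free) Schur complements over a ring -/
def valR {R : Type*} [CommRing R] : List (Fin 5) → (Fin 5 → Fin 5 → R) → Fin 5 → Fin 5 → R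
  | [], F => F
  | k :: K, F => valR K (stepR F k)

/-- the bit bound after `n` pivoting steps -/
def bnd : ℕ → ℕ → ℕ
  | k, 0 => k
  | k, n + 1 => bnd (2 * k + 1) n

theorem stepR_symm {R : Type*} [CommRing R] {F : Fin 5 → Fin 5 → R} (h : ∀ i j, F i j = F j i)
    (k i j : Fin 5) : stepR F k i j = stepR F k j i := by
  unfold stepR
  rw [h i j]
  ring

theorem Rep.step {b : ℕ} {f : Fin 5 → Fin 5 → ℕ} {F : Fin 5 → Fin 5 → ℤ}
    (hF : ∀ i j, F i j = F j i) (h : ∀ i j, Rep b (f i j) (F i j)) (k i j : Fin 5) :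
    Rep (2 * b + 1) (stepN f k i j) (stepR F k i j) := by
  unfold stepN
  cases Nat.ble i.val j.val
  · rw [stepR_symm hF]
    exact (h k k).ms (h j i) (h k j) (h k i)
  · exact (h k k).ms (h i j) (h k i) (h k j)

theorem rep_val (K : List (Fin 5)) : ∀ (b : ℕ) (f : Fin 5 → Fin 5 → ℕ) (F : Fin 5 → Fin 5 → ℤ),
    (∀ i j, F i j = F j i) → (∀ i j, Rep b (f i j) (F i j)) →
    ∀ i j, Rep (bnd b K.length) (valN K f i j) (valR K F i j) := by
  induction K with
  | nil => intro b f F hF h i j; exact h i j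
  | cons a K ih =>
    intro b f F hF h i j
    exact ih (2 * b + 1) _ _ (stepR_symm hF a) (fun i j => Rep.step hF h a i j) i j

theorem valR_cast (K : List (Fin 5)) : ∀ (F : Fin 5 → Fin 5 → ℤ) (i j : Fin 5),
    ((valR K F i j : ℤ) : ℝ) = valR K (fun i j => (F i j : ℝ)) i j := by
  induction K with
  | nil => intro F i j; rfl
  | cons a K ih =>
    intro F i j
    unfold valR
    rw [ih]
    congr 1
    funext i j
    unfold stepR
    push_cast
    rfl

/-- the symmetric `5 x 5` matrix with the given entries -/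
def mat5 {R : Type*} (a00 a01 a02 a03 a04 a11 a12 a13 a14 a22 a23 a24 a33 a34 a44 : R)
    (i j : Fin 5) : R :=
  ![![a00, a01, a02, a03, a04], ![a01, a11, a12, a13, a14], ![a02, a12, a22, a23, a24],
    ![a03, a13, a23, a33, a34], ![a04, a14, a24, a34, a44]] i j

/-- the symbols in the internal order, with the conditioning sets as increasing lists -/
def tabL : List (List (Fin 5) × Fin 5 × Fin 5) :=
  [([], 0, 1), ([], 0, 2), ([], 0, 3), ([], 0, 4), ([], 1, 2), ([], 1, 3), ([], 1, 4),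
   ([], 2, 3), ([], 2, 4), ([], 3, 4), ([0], 1, 2), ([0], 1, 3), ([0], 1, 4), ([0], 2, 3),
   ([0], 2, 4), ([0], 3, 4), ([0, 1], 2, 3), ([0, 1], 2, 4), ([0, 1], 3, 4), ([0, 1, 2], 3, 4),
   ([0, 1, 3], 2, 4), ([0, 1, 4], 2, 3), ([0, 2], 1, 3), ([0, 2], 1, 4), ([0, 2], 3, 4),
   ([0, 2, 3], 1, 4), ([0, 2, 4], 1, 3), ([0, 3], 1, 2), ([0, 3], 1, 4), ([0, 3], 2, 4),
   ([0, 3, 4], 1, 2), ([0, 4], 1, 2), ([0, 4], 1, 3), ([0, 4], 2, 3), ([1], 0, 2), ([1], 0, 3),
   ([1], 0, 4), ([1], 2, 3), ([1], 2, 4), ([1], 3, 4), ([1, 2], 0, 3), ([1, 2], 0, 4),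
   ([1, 2], 3, 4), ([1, 2, 3], 0, 4), ([1, 2, 4], 0, 3), ([1, 3], 0, 2), ([1, 3], 0, 4),
   ([1, 3], 2, 4), ([1, 3, 4], 0, 2), ([1, 4], 0, 2), ([1, 4], 0, 3), ([1, 4], 2, 3),
   ([2], 0, 1), ([2], 0, 3), ([2], 0, 4), ([2], 1, 3), ([2], 1, 4), ([2], 3, 4), ([2, 3], 0, 1),
   ([2, 3], 0, 4), ([2, 3], 1, 4), ([2, 3, 4], 0, 1), ([2, 4], 0, 1), ([2, 4], 0, 3),
   ([2, 4], 1, 3), ([3], 0, 1), ([3], 0, 2), ([3], 0, 4), ([3], 1, 2), ([3], 1, 4), ([3], 2, 4),
   ([3, 4], 0, 1), ([3, 4], 0, 2), ([3, 4], 1, 2), ([4], 0, 1), ([4], 0, 2), ([4], 0, 3),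
   ([4], 1, 2), ([4], 1, 3), ([4], 2, 3)]

theorem E5_eq (a00 a01 a02 a03 a04 a11 a12 a13 a14 a22 a23 a24 a33 a34 a44 acc : ℕ) :
    E5 a00 a01 a02 a03 a04 a11 a12 a13 a14 a22 a23 a24 a33 a34 a44 acc =
      tabL.foldl (fun acc s => push acc (valN s.1
        (mat5 a00 a01 a02 a03 a04 a11 a12 a13 a14 a22 a23 a24 a33 a34 a44) s.2.1 s.2.2)) acc := by
  rfl

theorem tabL_length : tabL.length = 80 := rfl

theorem tabL_spec : ∀ p < 80, (tabL.getD p ([], 0, 0)).1.Nodup ∧
    (tabL.getD p ([], 0, 0)).2.1 ∉ (tabL.getD p ([], 0, 0)).1 ∧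
    (tabL.getD p ([], 0, 0)).2.2 ∉ (tabL.getD p ([], 0, 0)).1 ∧
    (tabL.getD p ([], 0, 0)).2.1 ≠ (tabL.getD p ([], 0, 0)).2.2 ∧
    (tabL.getD p ([], 0, 0)).1.length ≤ 3 ∧
    symOf (ordTab p) = ((tabL.getD p ([], 0, 0)).2.1, (tabL.getD p ([], 0, 0)).2.2,
      (tabL.getD p ([], 0, 0)).1.toFinset) := by
  decide +kernel

/-! ### The bits -/

theorem push_testBit_zero (acc x : ℕ) : (push acc x).testBit 0 = decide (x = 0) := by
  have h : push acc x = 2 * acc + (1 - x) := rfl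
  rw [h, Nat.testBit_zero]
  rcases Nat.eq_zero_or_pos x with hx | hx
  · subst hx
    simp [Nat.add_mod]
  · have h1 : 1 - x = 0 := by omega
    have h2 : x ≠ 0 := by omega
    simp [h1, h2]

theorem push_testBit_succ (acc x t : ℕ) : (push acc x).testBit (t + 1) = acc.testBit t := by
  have h : push acc x = 2 * acc + (1 - x) := rfl
  rw [h, Nat.testBit_succ]
  congr 1
  omega

theorem foldl_push {α : Type*} (d : α) (v : α → ℕ) (l : List α) : ∀ acc t : ℕ,
    t < l.length → (l.foldl (fun acc s => push acc (v s)) acc).testBit t =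
      decide (v (l.getD (l.length - 1 - t) d) = 0) := by
  induction l using List.reverseRecOn with
  | nil => intro acc t ht; simp at ht
  | append_singleton l a ih =>
    intro acc t ht
    rw [List.foldl_append]
    simp only [List.foldl_cons, List.foldl_nil]
    cases t with
    | zero =>
      rw [push_testBit_zero]
      simp
    | succ t =>
      rw [push_testBit_succ, ih acc t (by simpa using ht)]
      have h1 : (l ++ [a]).length - 1 - (t + 1) = l.length - 1 - t := by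
        simp; omega
      rw [h1]
      have h2 : l.length - 1 - t < l.length := by
        simp at ht; omega
      rw [List.getD_append _ _ _ _ h2]

/-! ### Almost-principal minors -/

/-- an almost-principal minor in terms of an enumeration of the conditioning set -/
theorem apm_eq (A : Matrix (Fin 5) (Fin 5) ℝ) (i j : Fin 5) (K : Finset (Fin 5)) {n : ℕ}
    (v : Fin n → Fin 5) (hv : Function.Injective v) (hK : ∀ x, x ∈ K ↔ ∃ t, v t = x) :
    apm A i j K = (A.submatrix (Fin.cons i v : Fin (n + 1) → Fin 5)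
      (Fin.cons j v : Fin (n + 1) → Fin 5)).det := by
  classical
  let e0 : Fin n ≃ {k : Fin 5 // k ∈ K} :=
    Equiv.ofBijective (fun t => ⟨v t, (hK _).2 ⟨t, rfl⟩⟩) (by
      constructor
      · intro s t h
        exact hv (congrArg Subtype.val h)
      · rintro ⟨x, hx⟩
        obtain ⟨t, ht⟩ := (hK x).1 hx
        exact ⟨t, Subtype.ext ht⟩)
  let e : Fin (n + 1) ≃ Unit ⊕ {k : Fin 5 // k ∈ K} :=
    (finSuccEquiv n).trans ((Equiv.optionCongr e0).trans
      ((Equiv.optionEquivSumPUnit _).trans (Equiv.sumComm _ _)))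
  unfold apm
  rw [← Matrix.det_submatrix_equiv_self e]
  congr 1
  ext s t
  have hs : ∀ (x : Fin 5) (s : Fin (n + 1)),
      Sum.elim (fun _ : Unit => x) (fun k : {k : Fin 5 // k ∈ K} => k.1) (e s) =
        (Fin.cons x v : Fin (n + 1) → Fin 5) s := by
    intro x s
    refine Fin.cases ?_ (fun s => ?_) s
    · simp [e]
    · simp only [e, Equiv.trans_apply, finSuccEquiv_succ]
      rfl
  simp only [Matrix.submatrix_apply, hs]

theorem apm_nil (A : Matrix (Fin 5) (Fin 5) ℝ) (i j : Fin 5) : apm A i j ∅ = A i j := by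
  rw [apm_eq A i j ∅ ![] (by intro a; exact a.elim0) (by simp)]
  exact (Matrix.det_fin_one _).trans rfl

theorem apm_one (A : Matrix (Fin 5) (Fin 5) ℝ) (hA : ∀ i j, A i j = A j i) (i j k : Fin 5) :
    apm A i j {k} = A k k * A i j - A k i * A k j := by
  rw [apm_eq A i j {k} ![k] (by intro a b _; exact Subsingleton.elim a b) (by
    intro x; simp [eq_comm])]
  rw [Matrix.det_fin_two]
  simp only [Matrix.submatrix_apply, Fin.cons_zero, Fin.cons_one, Matrix.cons_val_fin_one,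
    Fin.isValue]
  have h1 : (Fin.cons i ![k] : Fin 2 → Fin 5) 1 = k := rfl
  have h2 : (Fin.cons j ![k] : Fin 2 → Fin 5) 1 = k := rfl
  rw [hA i k]
  ring

theorem apm_two (A : Matrix (Fin 5) (Fin 5) ℝ) (hA : ∀ i j, A i j = A j i) (i j k l : Fin 5)
    (hkl : k ≠ l) :
    A k k * apm A i j {k, l} = stepR (stepR (fun i j => A i j) k) l i j := by
  rw [apm_eq A i j {k, l} ![k, l] (by
      intro a b
      fin_cases a <;> fin_cases b <;> simp [hkl, hkl.symm]) (by
    intro x; simp [Fin.exists_fin_two, eq_comm])]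
  rw [Matrix.det_fin_three]
  have h1 : ∀ i : Fin 5, (Fin.cons i ![k, l] : Fin 3 → Fin 5) 1 = k := fun i => rfl
  have h2 : ∀ i : Fin 5, (Fin.cons i ![k, l] : Fin 3 → Fin 5) 2 = l := fun i => rfl
  simp only [Matrix.submatrix_apply, Fin.cons_zero, h1, h2, stepR]
  rw [hA i k, hA i l, hA l k]
  ring

theorem apm_three (A : Matrix (Fin 5) (Fin 5) ℝ) (hA : ∀ i j, A i j = A j i) (i j k l m : Fin 5)
    (hkl : k ≠ l) (hkm : k ≠ m) (hlm : l ≠ m) :
    A k k ^ 2 * (A k k * A l l - A k l * A k l) * apm A i j {k, l, m} =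
      stepR (stepR (stepR (fun i j => A i j) k) l) m i j := by
  rw [apm_eq A i j {k, l, m} ![k, l, m] (by
      intro a b
      fin_cases a <;> fin_cases b <;> simp [hkl, hkl.symm, hkm, hkm.symm, hlm, hlm.symm]) (by
    intro x; simp [Fin.exists_fin_succ, eq_comm])]
  rw [Matrix.det_succ_row_zero]
  have h1 : ∀ i : Fin 5, (Fin.cons i ![k, l, m] : Fin 4 → Fin 5) 1 = k := fun i => rfl
  have h2 : ∀ i : Fin 5, (Fin.cons i ![k, l, m] : Fin 4 → Fin 5) 2 = l := fun i => rfl
  have h3 : ∀ i : Fin 5, (Fin.cons i ![k, l, m] : Fin 4 → Fin 5) 3 = m := fun i => rfl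
  simp only [Fin.sum_univ_succ, Matrix.det_fin_three, Matrix.submatrix_apply]
  simp [Fin.succAbove, stepR, h1, h2, h3]
  rw [hA i k, hA i l, hA i m, hA l k, hA m k, hA m l]
  ring

theorem minor_two_pos {A : Matrix (Fin 5) (Fin 5) ℝ} (hA : A.PosDef) {k l : Fin 5} (h : k ≠ l) :
    0 < A k k * A l l - A k l * A k l := by
  have hs : A l k = A k l := by
    have := hA.isHermitian.apply k l
    simpa using this
  have h1 := hA.dotProduct_mulVec_pos (x := fun t => if t = l then A k k else if t = k then -A k l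
    else 0) (by
      intro h0
      have := congrFun h0 l
      simp at this
      exact (hA.diag_pos (i := k)).ne' this)
  have hk := hA.diag_pos (i := k)
  have h2 : star (fun t => if t = l then A k k else if t = k then -A k l else 0) ⬝ᵥ
      (A.mulVec fun t => if t = l then A k k else if t = k then -A k l else 0) =
      A k k * (A k k * A l l - A k l * A k l) := by
    have hsub : ∀ f : Fin 5 → ℝ, ∑ t, (if t = l then A k k else if t = k then -A k l else 0) * f t =
        A k k * f l - A k l * f k := by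
      intro f
      have : ∀ t, (if t = l then A k k else if t = k then -A k l else 0) * f t =
          (if t = l then A k k * f l else 0) + (if t = k then -A k l * f k else 0) := by
        intro t
        by_cases h3 : t = l
        · subst h3; simp [h.symm]
        · by_cases h4 : t = k
          · subst h4; simp [h3]
          · simp [h3, h4]
      rw [Finset.sum_congr rfl fun t _ => this t, Finset.sum_add_distrib]
      simp
      ring
    simp only [dotProduct, Matrix.mulVec, star_trivial]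
    rw [hsub]
    have hsub' : ∀ s, ∑ t, A s t * (if t = l then A k k else if t = k then -A k l else 0) =
        A k k * A s l - A k l * A s k := by
      intro s
      rw [← hsub (fun t => A s t)]
      exact Finset.sum_congr rfl fun t _ => mul_comm _ _
    rw [hsub', hsub', hs]
    ring
  rw [h2] at h1
  exact (mul_pos_iff_of_pos_left hk).1 h1

theorem val_eq_zero_iff {A : Matrix (Fin 5) (Fin 5) ℝ} (hA : A.PosDef) (i j : Fin 5) :
    ∀ K : List (Fin 5), K.Nodup → K.length ≤ 3 →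
      (valR K (fun i j => A i j) i j = 0 ↔ apm A i j K.toFinset = 0) := by
  have hs : ∀ i j, A i j = A j i := by
    intro i j
    have := hA.isHermitian.apply j i
    simpa using this
  have hd : ∀ k, 0 < A k k := fun k => hA.diag_pos
  intro K hK hl
  match K, hK, hl with
  | [], _, _ =>
    have : ([] : List (Fin 5)).toFinset = ∅ := rfl
    rw [this, apm_nil]
    rfl
  | [k], _, _ =>
    have : [k].toFinset = {k} := by simp
    rw [this, apm_one A hs]
    rfl
  | [k, l], hK, _ =>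
    have h1 : [k, l].toFinset = {k, l} := by simp
    have hkl : k ≠ l := by simpa using hK
    have h2 : valR [k, l] (fun i j => A i j) i j = A k k * apm A i j {k, l} := by
      rw [apm_two A hs i j k l hkl]; rfl
    rw [h1, h2, mul_eq_zero, or_iff_right (hd k).ne']
  | [k, l, m], hK, _ =>
    have h1 : [k, l, m].toFinset = {k, l, m} := by simp
    have hK' : (k ≠ l ∧ k ≠ m) ∧ l ≠ m := by simpa using hK
    have h2 : valR [k, l, m] (fun i j => A i j) i j =
        A k k ^ 2 * (A k k * A l l - A k l * A k l) * apm A i j {k, l, m} := by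
      rw [apm_three A hs i j k l m hK'.1.1 hK'.1.2 hK'.2]; rfl
    rw [h1, h2, mul_eq_zero, or_iff_right
      (mul_pos (pow_pos (hd k) 2) (minor_two_pos hA hK'.1.1)).ne']
  | _ :: _ :: _ :: _ :: _, _, hl =>
    simp only [List.length_cons] at hl
    omega

/-! ### Positive definiteness -/

/-- the quadratic form of a symmetric function on `Fin n` -/
def qf {n : ℕ} (F : Fin n → Fin n → ℝ) (x : Fin n → ℝ) : ℝ := ∑ i, ∑ j, F i j * x i * x j

/-- the (division free) Schur complement -/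
def schur {n : ℕ} (F : Fin (n + 1) → Fin (n + 1) → ℝ) (i j : Fin n) : ℝ :=
  F 0 0 * F i.succ j.succ - F 0 i.succ * F 0 j.succ

def PD {n : ℕ} (F : Fin n → Fin n → ℝ) : Prop := ∀ x : Fin n → ℝ, x ≠ 0 → 0 < qf F x

theorem qf_schur {n : ℕ} (F : Fin (n + 1) → Fin (n + 1) → ℝ) (hF : ∀ i j, F i j = F j i)
    (x : Fin (n + 1) → ℝ) :
    F 0 0 * qf F x = (∑ j, F 0 j * x j) ^ 2 + qf (schur F) (fun i => x i.succ) := by
  unfold qf schur
  simp only [Fin.sum_univ_succ, Finset.sum_add_distrib, mul_add, sub_mul,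
    Finset.sum_sub_distrib]
  have h1 : (∑ i : Fin n, F i.succ 0 * x i.succ * x 0) = x 0 * ∑ i : Fin n, F 0 i.succ * x i.succ := by
    rw [Finset.mul_sum]
    exact Finset.sum_congr rfl fun i _ => by rw [hF]; ring
  have h2 : (∑ i : Fin n, F 0 i.succ * x 0 * x i.succ) = x 0 * ∑ i : Fin n, F 0 i.succ * x i.succ := by
    rw [Finset.mul_sum]
    exact Finset.sum_congr rfl fun i _ => by ring
  have h3 : (∑ i : Fin n, ∑ j : Fin n, F 0 i.succ * F 0 j.succ * x i.succ * x j.succ) =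
      (∑ i : Fin n, F 0 i.succ * x i.succ) ^ 2 := by
    rw [sq, Finset.sum_mul_sum]
    exact Finset.sum_congr rfl fun i _ => Finset.sum_congr rfl fun j _ => by ring
  have h4 : (∑ i : Fin n, ∑ j : Fin n, F 0 0 * F i.succ j.succ * x i.succ * x j.succ) =
      F 0 0 * ∑ i : Fin n, ∑ j : Fin n, F i.succ j.succ * x i.succ * x j.succ := by
    simp only [Finset.mul_sum]
    exact Finset.sum_congr rfl fun i _ => Finset.sum_congr rfl fun j _ => by ring
  rw [h1, h2, h3, h4]
  ring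

theorem PD.of_schur {n : ℕ} {F : Fin (n + 1) → Fin (n + 1) → ℝ} (hF : ∀ i j, F i j = F j i)
    (h0 : 0 < F 0 0) (h : PD (schur F)) : PD F := by
  intro x hx
  have h1 := qf_schur F hF x
  by_cases hx' : (fun i : Fin n => x i.succ) = 0
  · have hx0 : x 0 ≠ 0 := by
      intro h2
      apply hx
      funext i
      refine Fin.cases h2 (fun i => congrFun hx' i) i
    have h2 : qf (schur F) (fun i => x i.succ) = 0 := by
      rw [hx']; simp [qf]
    have h3 : ∑ j, F 0 j * x j = F 0 0 * x 0 := by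
      rw [Fin.sum_univ_succ]
      have : ∑ i : Fin n, F 0 i.succ * x i.succ = 0 :=
        Finset.sum_eq_zero fun i _ => by rw [show x i.succ = 0 from congrFun hx' i]; ring
      rw [this, add_zero]
    rw [h2, h3, add_zero] at h1
    have h4 : 0 < F 0 0 * qf F x := by rw [h1]; positivity
    exact (mul_pos_iff_of_pos_left h0).1 h4
  · have h2 := h _ hx'
    have h4 : 0 < F 0 0 * qf F x := by rw [h1]; positivity
    exact (mul_pos_iff_of_pos_left h0).1 h4

theorem schur_symm {n : ℕ} {F : Fin (n + 1) → Fin (n + 1) → ℝ} (hF : ∀ i j, F i j = F j i)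
    (i j : Fin n) : schur F i j = schur F j i := by
  unfold schur
  rw [hF i.succ j.succ]
  ring

theorem posDef_of_PD {n : ℕ} {A : Matrix (Fin n) (Fin n) ℝ} (hA : ∀ i j, A i j = A j i)
    (h : PD (fun i j => A i j)) : A.PosDef := by
  refine Matrix.PosDef.of_dotProduct_mulVec_pos ?_ ?_
  · ext i j
    simp [hA i j]
  · intro x hx
    have h1 := h x hx
    have h2 : star x ⬝ᵥ A.mulVec x = qf (fun i j => A i j) x := by
      simp only [qf, dotProduct, Matrix.mulVec, star_trivial, Finset.mul_sum]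
      exact Finset.sum_congr rfl fun i _ => Finset.sum_congr rfl fun j _ => by ring
    rw [h2]
    exact h1

/-- a symmetric matrix with positive iterated pivots is positive definite -/
theorem posDef_of_pivots {A : Matrix (Fin 5) (Fin 5) ℝ} (hA : ∀ i j, A i j = A j i)
    (h0 : 0 < valR [] (fun i j => A i j) 0 0) (h1 : 0 < valR [0] (fun i j => A i j) 1 1)
    (h2 : 0 < valR [0, 1] (fun i j => A i j) 2 2) (h3 : 0 < valR [0, 1, 2] (fun i j => A i j) 3 3)
    (h4 : 0 < valR [0, 1, 2, 3] (fun i j => A i j) 4 4) : A.PosDef := by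
  apply posDef_of_PD hA
  have s0 : ∀ i j, (fun i j => A i j) i j = (fun i j => A i j) j i := hA
  have s1 := schur_symm s0
  have s2 := schur_symm s1
  have s3 := schur_symm s2
  have s4 := schur_symm s3
  refine PD.of_schur s0 h0 (PD.of_schur s1 h1 (PD.of_schur s2 h2 (PD.of_schur s3 h3
    (PD.of_schur s4 h4 ?_))))
  intro x hx
  exact (hx (Subsingleton.elim _ _)).elim

/-! ### Soundness -/

theorem PD5_eq (a00 a01 a02 a03 a04 a11 a12 a13 a14 a22 a23 a24 a33 a34 a44 : ℕ) :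
    PD5 a00 a01 a02 a03 a04 a11 a12 a13 a14 a22 a23 a24 a33 a34 a44 =
      ((posQ (valN [] (mat5 a00 a01 a02 a03 a04 a11 a12 a13 a14 a22 a23 a24 a33 a34 a44) 0 0)).and
      ((posQ (valN [0] (mat5 a00 a01 a02 a03 a04 a11 a12 a13 a14 a22 a23 a24 a33 a34 a44) 1 1)).and
      ((posQ (valN [0, 1]
        (mat5 a00 a01 a02 a03 a04 a11 a12 a13 a14 a22 a23 a24 a33 a34 a44) 2 2)).and
      ((posQ (valN [0, 1, 2]
        (mat5 a00 a01 a02 a03 a04 a11 a12 a13 a14 a22 a23 a24 a33 a34 a44) 3 3)).and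
      (posQ (valN [0, 1, 2, 3]
        (mat5 a00 a01 a02 a03 a04 a11 a12 a13 a14 a22 a23 a24 a33 a34 a44) 4 4)))))) := by
  rfl

theorem mat5_symm {R : Type*} (a00 a01 a02 a03 a04 a11 a12 a13 a14 a22 a23 a24 a33 a34 a44 : R)
    (i j : Fin 5) : mat5 a00 a01 a02 a03 a04 a11 a12 a13 a14 a22 a23 a24 a33 a34 a44 i j =
      mat5 a00 a01 a02 a03 a04 a11 a12 a13 a14 a22 a23 a24 a33 a34 a44 j i := by
  fin_cases i <;> fin_cases j <;> rfl

/-- a family of natural numbers representing integers of at most 63 bits, which passes the test,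
gives a positive definite matrix -/
theorem wit1_sound {c a00 a01 a02 a03 a04 a11 a12 a13 a14 a22 a23 a24 a33 a34 a44 : ℕ}
    (h : wit1 c a00 a01 a02 a03 a04 a11 a12 a13 a14 a22 a23 a24 a33 a34 a44 = true)
    (h00 : ∃ A, Rep 63 a00 A) (h01 : ∃ A, Rep 63 a01 A) (h02 : ∃ A, Rep 63 a02 A)
    (h03 : ∃ A, Rep 63 a03 A) (h04 : ∃ A, Rep 63 a04 A) (h11 : ∃ A, Rep 63 a11 A)
    (h12 : ∃ A, Rep 63 a12 A) (h13 : ∃ A, Rep 63 a13 A) (h14 : ∃ A, Rep 63 a14 A)
    (h22 : ∃ A, Rep 63 a22 A) (h23 : ∃ A, Rep 63 a23 A) (h24 : ∃ A, Rep 63 a24 A)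
    (h33 : ∃ A, Rep 63 a33 A) (h34 : ∃ A, Rep 63 a34 A) (h44 : ∃ A, Rep 63 a44 A) :
    ∃ A : Matrix (Fin 5) (Fin 5) ℝ, A.PosDef ∧ IC c (VanSet A) := by
  obtain ⟨A00, h00⟩ := h00
  obtain ⟨A01, h01⟩ := h01
  obtain ⟨A02, h02⟩ := h02
  obtain ⟨A03, h03⟩ := h03
  obtain ⟨A04, h04⟩ := h04
  obtain ⟨A11, h11⟩ := h11
  obtain ⟨A12, h12⟩ := h12
  obtain ⟨A13, h13⟩ := h13
  obtain ⟨A14, h14⟩ := h14
  obtain ⟨A22, h22⟩ := h22
  obtain ⟨A23, h23⟩ := h23
  obtain ⟨A24, h24⟩ := h24
  obtain ⟨A33, h33⟩ := h33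
  obtain ⟨A34, h34⟩ := h34
  obtain ⟨A44, h44⟩ := h44
  unfold wit1 at h
  rw [Bool.and_eq_true] at h
  obtain ⟨hc, hp⟩ := h
  have hc := Nat.eq_of_beq_eq_true hc
  rw [E5_eq] at hc
  rw [PD5_eq] at hp
  simp only [Bool.and_eq_true] at hp
  obtain ⟨p0, p1, p2, p3, p4⟩ := hp
  set f := mat5 a00 a01 a02 a03 a04 a11 a12 a13 a14 a22 a23 a24 a33 a34 a44 with hf
  set F := mat5 A00 A01 A02 A03 A04 A11 A12 A13 A14 A22 A23 A24 A33 A34 A44 with hF
  have hR : ∀ i j, Rep 63 (f i j) (F i j) := by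
    intro i j
    fin_cases i <;> fin_cases j <;> assumption
  have hFs : ∀ i j, F i j = F j i := fun i j => mat5_symm _ _ _ _ _ _ _ _ _ _ _ _ _ _ _ i j
  have hv := fun K => rep_val K 63 f F hFs hR
  set A : Matrix (Fin 5) (Fin 5) ℝ := fun i j => (F i j : ℝ) with hA
  have hAs : ∀ i j, A i j = A j i := fun i j => by simp only [hA]; rw [hFs]
  have hcast : ∀ (K : List (Fin 5)) (i j : Fin 5),
      valR K (fun i j => A i j) i j = ((valR K F i j : ℤ) : ℝ) := fun K i j => (valR_cast K F i j).symm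
  have hPD : A.PosDef := by
    refine posDef_of_pivots hAs ?_ ?_ ?_ ?_ ?_
    · rw [hcast]; exact_mod_cast (hv [] 0 0).pos (by decide) p0
    · rw [hcast]; exact_mod_cast (hv [0] 1 1).pos (by decide) p1
    · rw [hcast]; exact_mod_cast (hv [0, 1] 2 2).pos (by decide) p2
    · rw [hcast]; exact_mod_cast (hv [0, 1, 2] 3 3).pos (by decide) p3
    · rw [hcast]; exact_mod_cast (hv [0, 1, 2, 3] 4 4).pos (by decide) p4
  refine ⟨A, hPD, ?_⟩
  intro p hp
  obtain ⟨q1, q2, q3, q4, q5, q6⟩ := tabL_spec p hp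
  have hb := foldl_push ([], 0, 0)
    (fun s : List (Fin 5) × Fin 5 × Fin 5 => valN s.1 f s.2.1 s.2.2) tabL 0 (79 - p)
    (by rw [tabL_length]; omega)
  rw [← hc]
  have hb' : tabL.length - 1 - (79 - p) = p := by rw [tabL_length]; omega
  rw [hb'] at hb
  have hzero : (nat_lit 0 : ℕ) = 0 := rfl
  rw [hb, q6, decide_eq_true_eq]
  generalize tabL.getD p ([], 0, 0) = s at q1 q2 q3 q4 q5 q6
  obtain ⟨K, i, j⟩ := s
  simp only at q1 q2 q3 q4 q5 ⊢
  have hk : bnd 63 K.length ≤ 1023 := by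
    have : ∀ n ≤ 3, bnd 63 n ≤ 1023 := by decide
    exact this _ q5
  rw [(hv K i j).eq_zero_iff hk]
  have h1 := val_eq_zero_iff hPD i j K q1 q5
  rw [hcast] at h1
  have h2 : valR K F i j = 0 ↔ ((valR K F i j : ℤ) : ℝ) = 0 := by
    rw [Int.cast_eq_zero]
  rw [h2, h1]
  constructor
  · intro h3
    exact ⟨⟨q4, by simpa using q2, by simpa using q3⟩, h3⟩
  · intro h3
    exact h3.2

/-- decoded entries represent integers with at most 63 bits -/
theorem rep_dec {b m off : ℕ} (hb : 1 ≤ b) (hb' : b ≤ 64) (hm : m = 2 ^ b - 1)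
    (hoff : off + 2 ^ (b - 1) = Q) (x : ℕ) : ∃ A, Rep 63 (dec m off x) A := by
  refine ⟨((x % 2 ^ b : ℕ) : ℤ) - 2 ^ (b - 1), ?_, ?_⟩
  · have h1 : dec m off x = (x % 2 ^ b + off) % Q := by
      have : dec m off x = ((x &&& m) + off) % Q := rfl
      rw [this, hm, Nat.and_two_pow_sub_one_eq_mod]
    rw [h1]
    push_cast
    have h2 : ((off : ℤ)) = Q - 2 ^ (b - 1) := by
      have : (off : ℤ) + 2 ^ (b - 1) = Q := by exact_mod_cast hoff
      linarith
    rw [h2]
    have h3 : (x : ℤ) % 2 ^ b + ((Q : ℤ) - 2 ^ (b - 1)) = (x : ℤ) % 2 ^ b - 2 ^ (b - 1) + Q := by ring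
    rw [h3, Int.add_emod_right]
  · have h1 : x % 2 ^ b < 2 ^ b := Nat.mod_lt _ (by positivity)
    have h2 : (2 : ℤ) ^ b = 2 * 2 ^ (b - 1) := by
      rw [← pow_succ', Nat.sub_add_cancel hb]
    have h3 : ((x % 2 ^ b : ℕ) : ℤ) < 2 ^ b := by exact_mod_cast h1
    have h4 : (0 : ℤ) ≤ ((x % 2 ^ b : ℕ) : ℤ) := by positivity
    have h5 : |((x % 2 ^ b : ℕ) : ℤ) - 2 ^ (b - 1)| ≤ 2 ^ (b - 1) := by
      rw [abs_le]
      constructor <;> linarith
    exact h5.trans (pow_le_pow_right₀ (by norm_num) (by omega))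

theorem witOK_sound {b m off c r : ℕ} (hb : 1 ≤ b) (hb' : b ≤ 64) (hm : m = 2 ^ b - 1)
    (hoff : off + 2 ^ (b - 1) = Q) (h : witOK b m off c r = true) :
    ∃ A : Matrix (Fin 5) (Fin 5) ℝ, A.PosDef ∧ IC c (VanSet A) := by
  have hd := rep_dec hb hb' hm hoff
  exact wit1_sound h (hd _) (hd _) (hd _) (hd _) (hd _) (hd _) (hd _) (hd _) (hd _) (hd _) (hd _)
    (hd _) (hd _) (hd _) (hd _)

theorem wit_sound_0 {c r : ℕ} (h : witK0 c r = true) :
    ∃ A : Matrix (Fin 5) (Fin 5) ℝ, A.PosDef ∧ IC c (VanSet A) :=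
  witOK_sound (b := 8) (by norm_num) (by norm_num) (by decide +kernel) (by decide +kernel) h

theorem wit_sound_1 {c r : ℕ} (h : witK1 c r = true) :
    ∃ A : Matrix (Fin 5) (Fin 5) ℝ, A.PosDef ∧ IC c (VanSet A) :=
  witOK_sound (b := 16) (by norm_num) (by norm_num) (by decide +kernel) (by decide +kernel) h

theorem wit_sound_2 {c r : ℕ} (h : witK2 c r = true) :
    ∃ A : Matrix (Fin 5) (Fin 5) ℝ, A.PosDef ∧ IC c (VanSet A) :=
  witOK_sound (b := 32) (by norm_num) (by norm_num) (by decide +kernel) (by decide +kernel) h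

theorem wit_sound_3 {c r : ℕ} (h : witK3 c r = true) :
    ∃ A : Matrix (Fin 5) (Fin 5) ℝ, A.PosDef ∧ IC c (VanSet A) :=
  witOK_sound (b := 64) (by norm_num) (by norm_num) (by decide +kernel) (by decide +kernel) h

end Pool.Agent.GS
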