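import Pool.Agent.GS.RunSem
import Pool.Agent.GS.LexS
import Pool.Agent.GS.HitS
import Pool.Agent.GS.RefI
import Pool.Agent.GS.WitSound

/-!
Search tree: soundness of the checker.
-/

set_option autoImplicit false

namespace Pool.Agent.GS

theorem ordTab_surj : ∀ s < 80, ∃ p < 80, ordTab p = s := by decide +kernel

/-- two symmetric sets with the same internal code are equal -/
theorem IC.ext {c : ℕ} {S T : SymSet} (hS : IsSymSet S) (hT : IsSymSet T) (h1 : IC c S)
    (h2 : IC c T) : S = T := by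
  refine hS.ext hT fun s hs => ?_
  obtain ⟨p, hp, rfl⟩ := ordTab_surj s hs
  rw [← h1 p hp, ← h2 p hp]

/-- a completely decided state -/
theorem Match.ic {A : ℕ} {S : SymSet} (h : Match A 0 S) : IC A S := by
  intro p hp
  rw [h (79 - p) (by omega) (by positivity), laneSym_sub p hp]

/-- a completely decided state with a witness is settled -/
theorem claim_of_wit {A w : ℕ} (hw : Tree.isZ w = true)
    (h : ∃ M : Matrix (Fin 5) (Fin 5) ℝ, M.PosDef ∧ IC A (VanSet M)) : Claim A w := by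
  have hw0 : w = 0 := Nat.eq_of_beq_eq_true hw
  subst hw0
  obtain ⟨M, hM, hI⟩ := h
  intro S hS _ hm
  exact ⟨M, hM, IC.ext (isSymSet_vanSet hM) hS.1 hI hm.ic⟩

theorem ret_ne {b : Bool} {s : ℕ} (h : Tree.ret b s ≠ 0) : b = true ∧ s ≠ 0 := by
  cases b with
  | false => exact absurd rfl h
  | true => exact ⟨rfl, h⟩

theorem shr_ne {s k : ℕ} (h : s >>> k ≠ 0) : s ≠ 0 := by
  rintro rfl
  exact h (Nat.zero_shiftRight k)

theorem field_lt (s m k n : ℕ) (h : m / 2 ^ k < n) : (s &&& m) >>> k < n := by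
  rw [Nat.shiftRight_eq_div_pow]
  exact lt_of_le_of_lt (Nat.div_le_div_right Nat.and_le_right) h

theorem boolRec_true {b c : Bool} (h : (Bool.rec false c b : Bool) = true) :
    b = true ∧ c = true := by
  cases b with
  | false => exact absurd h Bool.false_ne_true
  | true => exact ⟨rfl, h⟩

theorem tokLex_sound (T : TablesOK) {A w s : ℕ} (hI : Inv A w) (hw : WOK w)
    (h : Tree.tokLex A w s ≠ 0) : Claim A w ∧ s ≠ 0 := by
  obtain ⟨h1, h2⟩ := ret_ne h
  refine ⟨fun S hS hM hA => ?_, shr_ne h2⟩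
  exact (lexChk_sound (T.g _ (field_lt s 2097151 13 256 (by norm_num))) hI hw h1 S hS.1 hM
    hA).elim

theorem tokRule_sound (T : TablesOK) {A w s : ℕ} (hI : Inv A w) (hw : WOK w)
    (h : Tree.tokRule A w s ≠ 0) : Claim A w ∧ s ≠ 0 := by
  obtain ⟨h1, h2⟩ := ret_ne h
  refine ⟨fun S hS hM hA => ?_, shr_ne h2⟩
  exact (ruleOK_image (T.rule _ (field_lt s 262143 6 4096 (by norm_num)))
    (T.g _ (field_lt s 67108863 18 256 (by norm_num))) S hS (patHit_sound hI hw h1 S hA)).elim

theorem tokRef_sound {A w s : ℕ} (hI : Inv A w) (hw : WOK w)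
    (h : Tree.tokRef A w s ≠ 0) : Claim A w ∧ s ≠ 0 := by
  obtain ⟨h1, h2⟩ := ret_ne h
  refine ⟨fun S hS hM hA => ?_, shr_ne h2⟩
  exact ((RI.refRun_sound h1 hI hw).2 S hS.2.1 hA).elim

theorem tokNode_sound {nt : ℕ → ℕ} (hnt : ∀ m < 4096, ClaimCode (nt m)) {A w s : ℕ}
    (hI : Inv A w) (hw : WOK w) (h : Tree.tokNode nt A w s ≠ 0) : Claim A w ∧ s ≠ 0 := by
  obtain ⟨h1, h2⟩ := ret_ne h
  refine ⟨?_, shr_ne h2⟩
  exact hnt _ (field_lt s 262143 6 4096 (by norm_num)) A w
    (Nat.eq_of_beq_eq_true h1).symm hI hw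

theorem tokW0_sound {A w s : ℕ} (h : Tree.tokW0 A w s ≠ 0) : Claim A w ∧ s ≠ 0 := by
  obtain ⟨h1, h2⟩ := ret_ne h
  obtain ⟨h3, h4⟩ := boolRec_true h1
  exact ⟨claim_of_wit h3 (wit_sound_0 h4), shr_ne h2⟩

theorem tokW1_sound {A w s : ℕ} (h : Tree.tokW1 A w s ≠ 0) : Claim A w ∧ s ≠ 0 := by
  obtain ⟨h1, h2⟩ := ret_ne h
  obtain ⟨h3, h4⟩ := boolRec_true h1
  exact ⟨claim_of_wit h3 (wit_sound_1 h4), shr_ne h2⟩

theorem tokW2_sound {A w s : ℕ} (h : Tree.tokW2 A w s ≠ 0) : Claim A w ∧ s ≠ 0 := by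
  obtain ⟨h1, h2⟩ := ret_ne h
  obtain ⟨h3, h4⟩ := boolRec_true h1
  exact ⟨claim_of_wit h3 (wit_sound_2 h4), shr_ne h2⟩

theorem tokW3_sound {A w s : ℕ} (h : Tree.tokW3 A w s ≠ 0) : Claim A w ∧ s ≠ 0 := by
  obtain ⟨h1, h2⟩ := ret_ne h
  obtain ⟨h3, h4⟩ := boolRec_true h1
  exact ⟨claim_of_wit h3 (wit_sound_3 h4), shr_ne h2⟩

theorem tokAlg_sound (T : TablesOK) {A w s : ℕ} (h : Tree.tokAlg A w s ≠ 0) :
    Claim A w ∧ s ≠ 0 := by
  obtain ⟨h1, h2⟩ := ret_ne h
  obtain ⟨h3, h4⟩ := boolRec_true h1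
  refine ⟨claim_of_wit h3 ?_, shr_ne h2⟩
  have h5 := Nat.eq_of_beq_eq_true h4
  rw [h5]
  exact T.alg _ (field_lt s 16383 6 256 (by norm_num))

theorem tokOther_sound (T : TablesOK) {nt : ℕ → ℕ} (hnt : ∀ m < 4096, ClaimCode (nt m))
    {A w s : ℕ} (hI : Inv A w) (hw : WOK w) (h : Tree.tokOther nt A w s ≠ 0) :
    Claim A w ∧ s ≠ 0 := by
  unfold Tree.tokOther at h
  cases hW : Nat.beq (Nat.land s (nat_lit 63)) (nat_lit 18) with
  | true =>
    rw [hW] at h
    exact tokW0_sound h
  | false =>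
    rw [hW] at h
    cases h5 : Tree.bt s (nat_lit 32) with
    | true =>
      rw [h5] at h
      exact tokAlg_sound T h
    | false =>
      rw [h5] at h
      cases h4 : Tree.bt s (nat_lit 16) with
      | true =>
        rw [h4] at h
        cases h3 : Tree.bt s (nat_lit 8) with
        | false =>
          rw [h3] at h
          exact tokW1_sound h
        | true =>
          rw [h3] at h
          cases h2 : Tree.bt s (nat_lit 4) with
          | false =>
            rw [h2] at h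
            exact tokW2_sound h
          | true =>
            rw [h2] at h
            exact tokW3_sound h
      | false =>
        rw [h4] at h
        cases h3 : Tree.bt s (nat_lit 8) with
        | false =>
          rw [h3] at h
          cases h2 : Tree.bt s (nat_lit 4) with
          | false =>
            rw [h2] at h
            exact tokLex_sound T hI hw h
          | true =>
            rw [h2] at h
            exact tokRule_sound T hI hw h
        | true =>
          rw [h3] at h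
          cases h2 : Tree.bt s (nat_lit 4) with
          | false =>
            rw [h2] at h
            exact tokNode_sound hnt hI hw h
          | true =>
            rw [h2] at h
            exact tokRef_sound hI hw h

theorem wt_lt {q : ℕ} (hq : q < 80) : wt q = 2 ^ (79 - q) := by
  unfold wt
  rw [show 80 - q = (79 - q) + 1 by omega, pow_succ, Nat.mul_div_cancel _ (by norm_num)]

theorem wt_last : wt 80 = 0 := by decide

theorem wt_succ {q : ℕ} (hq : q < 80) : (wt q) >>> 1 = wt (q + 1) := by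
  rw [wt_lt hq, Nat.shiftRight_one]
  unfold wt
  rw [show 80 - (q + 1) = 79 - q by omega]

theorem wt_succ_lt {q : ℕ} (hq : q < 80) (b : ℕ) : wt (q + 1) < 2 ^ b ↔ 79 - q ≤ b := by
  rcases Nat.lt_or_ge (q + 1) 80 with h | h
  · rw [wt_lt h, Nat.pow_lt_pow_iff_right (by norm_num)]
    omega
  · have h1 : q + 1 = 80 := by omega
    rw [h1, wt_last]
    constructor
    · intro _; omega
    · intro _; positivity

theorem wok_wt {q : ℕ} (hq : q ≤ 80) : WOK (wt q) := by
  rcases Nat.lt_or_ge q 80 with h | h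
  · exact Or.inr ⟨79 - q, by omega, wt_lt h⟩
  · have h1 : q = 80 := by omega
    rw [h1, wt_last]
    exact Or.inl rfl

/-- the state of the non-member child -/
theorem inv_child0 {A q : ℕ} (hq : q < 80) (hI : Inv A (wt q)) : Inv A (wt (q + 1)) := by
  intro b hb
  obtain ⟨h1, h2⟩ := hI b hb
  rw [wt_lt hq, Nat.pow_lt_pow_iff_right (by norm_num)] at h1
  exact ⟨(wt_succ_lt hq b).2 (by omega), h2⟩

theorem testBit_lor_wt {A q : ℕ} (hq : q < 80) (b : ℕ) :
    (A ||| wt q).testBit b = true ↔ (A.testBit b = true ∨ b = 79 - q) := by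
  rw [Nat.testBit_or, Bool.or_eq_true, wt_lt hq, Nat.testBit_two_pow, decide_eq_true_eq,
    eq_comm (a := 79 - q)]

/-- the state of the member child -/
theorem inv_child1 {A q : ℕ} (hq : q < 80) (hI : Inv A (wt q)) :
    Inv (A ||| wt q) (wt (q + 1)) := by
  intro b hb
  rw [testBit_lor_wt hq] at hb
  rcases hb with hb | rfl
  · exact inv_child0 hq hI b hb
  · exact ⟨(wt_succ_lt hq _).2 (le_refl _), by omega⟩

theorem match_child0 {A q : ℕ} {S : SymSet} (hq : q < 80) (hI : Inv A (wt q))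
    (hm : Match A (wt q) S) (hS : laneSym (79 - q) ∉ S) : Match A (wt (q + 1)) S := by
  intro b hb hlt
  rw [wt_succ_lt hq] at hlt
  rcases Nat.eq_or_lt_of_le hlt with rfl | hlt
  · constructor
    · intro h
      have := (hI _ h).1
      rw [wt_lt hq] at this
      exact absurd this (lt_irrefl _)
    · intro h
      exact absurd h hS
  · refine hm b hb ?_
    rw [wt_lt hq, Nat.pow_lt_pow_iff_right (by norm_num)]
    exact hlt

theorem match_child1 {A q : ℕ} {S : SymSet} (hq : q < 80)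
    (hm : Match A (wt q) S) (hS : laneSym (79 - q) ∈ S) :
    Match (A ||| wt q) (wt (q + 1)) S := by
  intro b hb hlt
  rw [testBit_lor_wt hq]
  rw [wt_succ_lt hq] at hlt
  rcases Nat.eq_or_lt_of_le hlt with rfl | hlt
  · exact ⟨fun _ => hS, fun _ => Or.inr rfl⟩
  · rw [← hm b hb (by rw [wt_lt hq, Nat.pow_lt_pow_iff_right (by norm_num)]; exact hlt)]
    constructor
    · rintro (h | rfl)
      · exact h
      · exact absurd hlt (lt_irrefl _)
    · exact Or.inl

theorem locF_le (E : ℕ) : Tree.locF E = 0 ∨ Tree.locF E = 1 := by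
  have h : Tree.locF E = (E >>> 160) % 2 := Nat.and_one_is_mod _
  rw [h]
  omega

theorem mul_sub_ne {x y : ℕ} (h : x * (1 - y) ≠ 0) : x ≠ 0 ∧ y = 0 := by
  constructor
  · rintro rfl
    exact h (Nat.zero_mul _)
  · rcases Nat.eq_zero_or_pos y with h1 | h1
    · exact h1
    · exfalso
      apply h
      rw [show 1 - y = 0 by omega, Nat.mul_zero]

/-- consequences of an entry of the table of position `q` -/
theorem entOK_match {A q E : ℕ} (hq : q < 80) (hE : EntOK q E) {S : SymSet} (hS : Fam S)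
    (hm : Match A (wt q) S) (hx : Tree.locX A E = 0) :
    (Tree.locF E = 0 → laneSym (79 - q) ∉ S) ∧ (Tree.locF E = 1 → laneSym (79 - q) ∈ S) := by
  refine hE A S hS (fun b hb hlt => hm b hb ?_) hx
  rw [wt_lt hq, Nat.pow_lt_pow_iff_right (by norm_num)]
  exact hlt

/-- what the induction gives for the children -/
def GoOK (q : ℕ) (go : ℕ → ℕ → ℕ → ℕ) : Prop :=
  ∀ A s, Inv A (wt q) → go A (wt q) s ≠ 0 → Claim A (wt q) ∧ s ≠ 0

theorem tokForced_sound {q : ℕ} (hq : q < 80) {go : ℕ → ℕ → ℕ → ℕ} (hgo : GoOK (q + 1) go)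
    {A s E : ℕ} (hI : Inv A (wt q)) (hE : EntOK q E)
    (h : Tree.tokForced go A (wt q) s E ≠ 0) : Claim A (wt q) ∧ s ≠ 0 := by
  have h' : go (A ||| (wt q * Tree.locF E)) ((wt q) >>> 1)
      ((s >>> 9) * (1 - Tree.locX A E)) ≠ 0 := h
  rw [wt_succ hq] at h'
  rcases locF_le E with hF | hF
  · rw [hF, Nat.mul_zero, Nat.or_zero] at h'
    obtain ⟨h1, h2⟩ := hgo _ _ (inv_child0 hq hI) h'
    obtain ⟨h3, h4⟩ := mul_sub_ne h2
    refine ⟨fun S hS hM hm => ?_, shr_ne h3⟩
    exact h1 S hS hM (match_child0 hq hI hm ((entOK_match hq hE hS hm h4).1 hF))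
  · rw [hF, Nat.mul_one] at h'
    obtain ⟨h1, h2⟩ := hgo _ _ (inv_child1 hq hI) h'
    obtain ⟨h3, h4⟩ := mul_sub_ne h2
    refine ⟨fun S hS hM hm => ?_, shr_ne h3⟩
    exact h1 S hS hM (match_child1 hq hm ((entOK_match hq hE hS hm h4).2 hF))

theorem split_sound {q : ℕ} (hq : q < 80) {go : ℕ → ℕ → ℕ → ℕ} (hgo : GoOK (q + 1) go)
    {A s : ℕ} (hI : Inv A (wt q))
    (h : go A ((wt q) >>> 1) (go (A ||| wt q) ((wt q) >>> 1) (s >>> 2)) ≠ 0) :
    Claim A (wt q) ∧ s ≠ 0 := by
  rw [wt_succ hq] at h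
  obtain ⟨h1, h2⟩ := hgo _ _ (inv_child0 hq hI) h
  obtain ⟨h3, h4⟩ := hgo _ _ (inv_child1 hq hI) h2
  refine ⟨fun S hS hM hm => ?_, shr_ne h4⟩
  by_cases hmem : laneSym (79 - q) ∈ S
  · exact h3 S hS hM (match_child1 hq hm hmem)
  · exact h1 S hS hM (match_child0 hq hI hm hmem)

theorem tokBoth_sound {q : ℕ} (hq : q < 80) {A s E F : ℕ} (hE : EntOK q E) (hF : EntOK q F)
    (h : Tree.tokBoth A s E F ≠ 0) : Claim A (wt q) ∧ s ≠ 0 := by
  have h' : (s >>> 20) * (1 - ((Tree.locX A E ||| Tree.locX A F) |||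
      (Tree.locF E ||| (1 - Tree.locF F)))) ≠ 0 := h
  obtain ⟨h1, h2⟩ := mul_sub_ne h'
  rw [Nat.or_eq_zero_iff, Nat.or_eq_zero_iff, Nat.or_eq_zero_iff] at h2
  obtain ⟨⟨h3, h4⟩, h5, h6⟩ := h2
  refine ⟨fun S hS hM hm => ?_, shr_ne h1⟩
  have h7 := (entOK_match hq hE hS hm h3).1 h5
  have h8 : Tree.locF F = 1 := by
    rcases locF_le F with h | h
    · rw [h] at h6
      exact absurd h6 (by norm_num)
    · exact h
  exact absurd ((entOK_match hq hF hS hm h4).2 h8) h7

theorem node_sound (T : TablesOK) {nt : ℕ → ℕ} (hnt : ∀ m < 4096, ClaimCode (nt m)) {q : ℕ}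
    (hq : q < 80) {go : ℕ → ℕ → ℕ → ℕ} (hgo : GoOK (q + 1) go) {A s : ℕ}
    (hI : Inv A (wt q)) (h : Tree.node nt go (posTab.getD q 0) A (wt q) s ≠ 0) :
    Claim A (wt q) ∧ s ≠ 0 := by
  unfold Tree.node at h
  rcases hs : Nat.land s (nat_lit 3) with _ | m
  · rw [hs] at h
    exact tokForced_sound hq hgo hI (T.pos q hq _ (field_lt s 511 2 128 (by norm_num))) h
  · rw [hs] at h
    rcases m with _ | m
    · exact split_sound hq hgo hI h
    · cases hb : Nat.beq (Nat.land s (nat_lit 60)) (nat_lit 36) with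
      | false =>
        rw [hb] at h
        exact tokOther_sound T hnt hI (wok_wt hq.le) h
      | true =>
        rw [hb] at h
        exact tokBoth_sound hq (T.pos q hq _ (field_lt s 8191 6 128 (by norm_num)))
          (T.pos q hq _ (field_lt s 1048575 13 128 (by norm_num))) h

theorem posTab_length : posTab.length = 80 := rfl

theorem posTab_drop {q : ℕ} (hq : q < 80) :
    posTab.drop q = posTab.getD q 0 :: posTab.drop (q + 1) := by
  have hq' : q < posTab.length := by rw [posTab_length]; exact hq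
  rw [List.drop_eq_getElem_cons hq', List.getD_eq_getElem _ _ hq']

/-- soundness of the checker: a state on which it does not fail is settled -/
theorem treeRun_sound (T : TablesOK) (nt : ℕ → ℕ) (hnt : ∀ m < 4096, ClaimCode (nt m)) :
    ∀ q ≤ 80, ∀ A s, Inv A (wt q) → Tree.run nt (posTab.drop q) A (wt q) s ≠ 0 →
      Claim A (wt q) ∧ s ≠ 0 := by
  have key : ∀ d, ∀ q, q + d = 80 → GoOK q (Tree.run nt (posTab.drop q)) := by
    intro d
    induction d with
    | zero =>
      intro q hq A s hI h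
      have hd : posTab.drop q = [] := List.drop_eq_nil_of_le (by rw [posTab_length]; omega)
      rw [hd] at h
      exact tokOther_sound T hnt hI (wok_wt (by omega)) h
    | succ d ih =>
      intro q hq A s hI h
      have hq' : q < 80 := by omega
      rw [posTab_drop hq'] at h
      exact node_sound T hnt hq' (ih (q + 1) (by omega)) hI h
  intro q hq A s hI h
  exact key (80 - q) q (by omega) A s hI h

theorem claimCode_zero : ClaimCode 0 := by
  intro A w h
  exact absurd h (Nat.succ_ne_zero _).symm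

/-- the checks of the single nodes are sound -/
theorem chunkRun_sound (T : TablesOK) {x s : ℕ} (h : Tree.chunkRun x s = true) :
    ClaimCode x := by
  intro A w hx hI hw
  have hA : A < 2 ^ 80 := by
    apply Nat.lt_pow_two_of_testBit
    intro b hb
    by_contra hc
    have := (hI b (by simpa using hc)).2
    omega
  have hx' : x = A + 2 ^ 80 * w + 1 := by
    rw [hx]
    show A + w <<< 80 + 1 = _
    rw [Nat.shiftLeft_eq, Nat.mul_comm]
  have hp : Nat.pred x = A + 2 ^ 80 * w := by rw [hx']; rfl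
  have hd : (Nat.pred x) >>> 80 = w := by
    rw [hp, Nat.shiftRight_eq_div_pow, Nat.add_mul_div_left _ _ (by positivity),
      Nat.div_eq_of_lt hA, Nat.zero_add]
  have hm : Nat.pred x &&& Tree.M80 = A := by
    have h80 : Tree.M80 = 2 ^ 80 - 1 := by decide +kernel
    rw [h80, Nat.and_two_pow_sub_one_eq_mod, hp, Nat.add_mul_mod_self_left, Nat.mod_eq_of_lt hA]
  unfold Tree.chunkRun at h
  have hd' : Nat.shiftRight (Nat.pred x) (nat_lit 80) = w := hd
  have hm' : Nat.land (Nat.pred x) Tree.M80 = A := hm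
  rw [hd', hm'] at h
  obtain ⟨h1, h2⟩ := boolRec_true h
  have h1' : w = 1 <<< (Nat.log2 w) := Nat.eq_of_beq_eq_true h1
  rw [Nat.one_shiftLeft] at h1'
  have hlog : Nat.log2 w < 80 := by
    rcases hw with rfl | ⟨m, hm80, hwm⟩
    · exact absurd h1' (by positivity)
    · have h3 : 2 ^ Nat.log2 w = 2 ^ m := by rw [← h1']; exact hwm
      have := Nat.pow_right_injective (le_refl 2) h3
      omega
  have hwt : w = wt (79 - Nat.log2 w) := by
    rw [wt_lt (by omega), show 79 - (79 - Nat.log2 w) = Nat.log2 w by omega]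
    exact h1'
  have h2' : Tree.run (fun _ => 0) (posTab.drop (79 - Nat.log2 w)) A w s = 1 :=
    Nat.eq_of_beq_eq_true h2
  have h3 := treeRun_sound T (fun _ => 0) (fun _ _ => claimCode_zero) (79 - Nat.log2 w) (by omega)
    A s (by rw [← hwt]; exact hI) (by rw [← hwt, h2']; norm_num)
  rw [← hwt] at h3
  exact h3.1

/-- the check of the root settles everything -/
theorem root_sound (T : TablesOK) (nt : ℕ → ℕ) (hnt : ∀ m < 4096, ClaimCode (nt m)) {s : ℕ}
    (h : Nat.beq (Tree.run nt posTab 0 (2 ^ 79) s) 1 = true) :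
    ∀ S, Fam S → MaxS S → Representable S := by
  intro S hS hM
  have h1 : Tree.run nt posTab 0 (2 ^ 79) s = 1 := Nat.eq_of_beq_eq_true h
  have hI : Inv 0 (wt 0) := by
    intro b hb
    rw [Nat.zero_testBit] at hb
    exact absurd hb (by decide)
  have hwt : wt 0 = 2 ^ 79 := wt_lt (by norm_num)
  have h2 := treeRun_sound T nt hnt 0 (by norm_num) 0 s hI (by
    rw [hwt, List.drop_zero, h1]; norm_num)
  refine h2.1 S hS hM ?_
  intro b hb hlt
  rw [hwt, Nat.pow_lt_pow_iff_right (by norm_num)] at hlt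
  omega

end Pool.Agent.GS
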