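import Pool.Agent.GS.K.Tree
import Pool.Agent.GS.TreeBase
import Pool.Agent.GS.RuleTab
import Pool.Agent.GS.AlgTab
import Pool.Agent.GS.PosTab
import Pool.Agent.GS.RefI
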