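import Pool.Agent.GS.TreeSem
import Pool.Agent.GS.Tree

/-!
Semantics of the tables used by the search tree.
-/

set_option autoImplicit false

namespace Pool.Agent.GS

/-- the entry `E` of the table of local patterns of position `p`: if the decided lanes agree with
the entry, then the lane of `p` is a non-member (flag 0) resp. a member (flag 1) -/
def EntOK (p E : ℕ) : Prop :=
  ∀ A S, Fam S → (∀ b < 80, 79 - p < b → (A.testBit b = true ↔ laneSym b ∈ S)) →
    Tree.locX A E = 0 →
      (Tree.locF E = 0 → laneSym (79 - p) ∉ S) ∧ (Tree.locF E = 1 → laneSym (79 - p) ∈ S)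

/-- weight of the next undecided lane when `q` positions are decided (`0` if `q = 80`) -/
def wt (q : ℕ) : ℕ := 2 ^ (80 - q) / 2

/-- the node with the code `x` is settled -/
def ClaimCode (x : ℕ) : Prop := ∀ A w, x = Tree.nodeCode A w → Inv A w → WOK w → Claim A w

/-- everything the search tree needs to know about its tables -/
structure TablesOK : Prop where
  rule : ∀ n < 4096, RuleOK (ruleE n)
  g : ∀ h < 256, TabOK (gTab h)
  alg : ∀ i < 256, ∃ A : Matrix (Fin 5) (Fin 5) ℝ, A.PosDef ∧ IC (algTab i) (VanSet A)
  pos : ∀ p < 80, ∀ k < 128, EntOK p ((posTab.getD p 0) >>> (168 * k))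

end Pool.Agent.GS
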