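import Pool.Agent.GS.RunS
import Pool.Agent.GS.RuleIAll
import Pool.Agent.GS.RuleAll
import Pool.Agent.GS.GSpec
import Pool.Agent.GS.AlgModAll
import Pool.Agent.GS.PosOK

/-!
All tables of the search tree are correct.
-/

set_option autoImplicit false

namespace Pool.Agent.GS

theorem tablesOK : TablesOK where
  rule := ruleE_ok rO_ok
  g := gTab_spec
  alg := algTab_rep
  pos := posTab_ok' (ruleE_ok rO_ok) gTab_spec

end Pool.Agent.GS
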