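import Pool.Agent.GS.Sem
import Pool.Agent.GS.Inv
import Pool.Agent.GS.Rules

/-!
Semantics of the states of the search tree.
-/

set_option autoImplicit false

namespace Pool.Agent.GS

/-- orientable sets without violation of an inference rule in any relabelled or dual copy -/
def Fam (S : SymSet) : Prop := IsSymSet S ∧ Orientable S ∧ ∀ π d, ¬ Violates (img π d S)

theorem Fam.img {S : SymSet} (h : Fam S) (π : Equiv.Perm (Fin 5)) (d : Bool) :
    Fam (img π d S) := by
  refine ⟨isSymSet_img π d h.1, orientable_img π d h.2.1, fun π' d' => ?_⟩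
  rw [img_img]
  exact h.2.2 _ _

open Classical in
/-- internal code of `S` -/
noncomputable def codeOf (S : SymSet) : ℕ :=
  ∑ b ∈ Finset.range 80, if laneSym b ∈ S then 2 ^ b else 0

/-- the code of `S` is maximal among its relabelled and dual copies -/
def MaxS (S : SymSet) : Prop := ∀ π d, codeOf (img π d S) ≤ codeOf S

/-- all digits of `A` belong to decided lanes -/
def Inv (A w : ℕ) : Prop := ∀ b, A.testBit b = true → w < 2 ^ b ∧ b < 80

/-- `w` is the weight of a lane, or `0` -/
def WOK (w : ℕ) : Prop := w = 0 ∨ ∃ m < 80, w = 2 ^ m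

/-- the state `(A, w)` is settled -/
def Claim (A w : ℕ) : Prop := ∀ S, Fam S → MaxS S → Match A w S → Representable S

/-- the entry `R` is never hit by a set of the family -/
def RuleOK (R : ℕ) : Prop :=
  (∀ i < rK1 R, (rL1 R >>> (7 * i)) &&& 127 < 80) ∧ (∀ i < rK0 R, (rL0 R >>> (7 * i)) &&& 127 < 80) ∧
  ∀ S, Fam S → ¬ HitI (mask1 R (gTab 0)) (mask0 R (gTab 0)) S

/-- the table `T` describes a relabelling, possibly with duality -/
def TabOK (T : ℕ) : Prop :=
  ∃ (π : Equiv.Perm (Fin 5)) (d : Bool), ∀ S, IsSymSet S → ∀ p < 80,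
    (T >>> (7 * p)) &&& 127 < 80 ∧
      (symOf (ordTab p) ∈ img π d S ↔ laneSym ((T >>> (7 * p)) &&& 127) ∈ S)

end Pool.Agent.GS
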