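import Pool.Agent.GS.WitSound

/-!
Generic version of the soundness of witnesses: entries in any type `R` with an operation `ms`
representing `p * x - y * z`, related to real numbers by a (level-indexed) relation.
-/

set_option autoImplicit false
set_option linter.unusedVariables false

namespace Pool.Agent.GS

/-- one (division free) pivoting step with a general operation `ms p x y z` for `p * x - y * z` -/
def stepM {R : Type*} (ms : R → R → R → R → R) (f : Fin 5 → Fin 5 → R) (k i j : Fin 5) : R :=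
  bif Nat.ble i.val j.val then ms (f k k) (f i j) (f k i) (f k j)
  else ms (f k k) (f j i) (f k j) (f k i)

/-- iterated pivoting -/
def valM {R : Type*} (ms : R → R → R → R → R) :
    List (Fin 5) → (Fin 5 → Fin 5 → R) → Fin 5 → Fin 5 → R
  | [], f => f
  | k :: K, f => valM ms K (stepM ms f k)

/-- `Rel n x X`: the element `x` of `R` represents the real number `X`, after `n` pivoting steps -/
theorem valM_rel {R : Type*} (ms : R → R → R → R → R) (Rel : ℕ → R → ℝ → Prop)
    (hms : ∀ n p x y z P X Y Z, n ≤ 3 → Rel n p P → Rel n x X → Rel n y Y → Rel n z Z →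
      Rel (n + 1) (ms p x y z) (P * X - Y * Z)) (K : List (Fin 5)) :
    ∀ (n : ℕ) (f : Fin 5 → Fin 5 → R) (F : Fin 5 → Fin 5 → ℝ), n + K.length ≤ 4 →
      (∀ i j, F i j = F j i) → (∀ i j, Rel n (f i j) (F i j)) →
      ∀ i j, Rel (n + K.length) (valM ms K f i j) (valR K F i j) := by
  induction K with
  | nil => intro n f F hn hF h i j; exact h i j
  | cons a K ih =>
    intro n f F hn hF h i j
    simp only [List.length_cons] at hn ⊢
    have h1 : ∀ k i j, Rel (n + 1) (stepM ms f k i j) (stepR F k i j) := by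
      intro k i j
      unfold stepM
      cases Nat.ble i.val j.val
      · rw [stepR_symm hF]
        exact hms n _ _ _ _ _ _ _ _ (by omega) (h k k) (h j i) (h k j) (h k i)
      · exact hms n _ _ _ _ _ _ _ _ (by omega) (h k k) (h i j) (h k i) (h k j)
    have h2 := ih (n + 1) _ _ (by omega) (stepR_symm hF a) (fun i j => h1 a i j) i j
    have h3 : n + 1 + K.length = n + (K.length + 1) := by omega
    rw [h3] at h2
    exact h2

/-- real-level core: a symmetric real matrix with positive iterated pivots is positive definite,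
and its almost-principal minors vanish iff the iterated pivot values vanish -/
theorem core_real (F : Fin 5 → Fin 5 → ℝ) (hF : ∀ i j, F i j = F j i)
    (h0 : 0 < valR [] F 0 0) (h1 : 0 < valR [0] F 1 1) (h2 : 0 < valR [0, 1] F 2 2)
    (h3 : 0 < valR [0, 1, 2] F 3 3) (h4 : 0 < valR [0, 1, 2, 3] F 4 4) :
    (Matrix.of F).PosDef ∧ ∀ p < 80, (symOf (ordTab p) ∈ VanSet (Matrix.of F) ↔
      valR (tabL.getD p ([], 0, 0)).1 F (tabL.getD p ([], 0, 0)).2.1
        (tabL.getD p ([], 0, 0)).2.2 = 0) := by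
  have hPD : (Matrix.of F).PosDef := posDef_of_pivots (A := Matrix.of F) hF h0 h1 h2 h3 h4
  refine ⟨hPD, ?_⟩
  intro p hp
  obtain ⟨q1, q2, q3, q4, q5, q6⟩ := tabL_spec p hp
  rw [q6]
  generalize tabL.getD p ([], 0, 0) = s at q1 q2 q3 q4 q5 q6
  obtain ⟨K, i, j⟩ := s
  simp only at q1 q2 q3 q4 q5 ⊢
  have h1 : valR K F i j = 0 ↔ apm (Matrix.of F) i j K.toFinset = 0 :=
    val_eq_zero_iff hPD i j K q1 q5
  rw [h1]
  constructor
  · intro h3
    exact h3.2
  · intro h3
    exact ⟨⟨q4, by simpa using q2, by simpa using q3⟩, h3⟩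

/-- the 80 values in the internal order (position `p` of the list = position `p` of the internal
order) -/
def valsM {R : Type*} (ms : R → R → R → R → R) (f : Fin 5 → Fin 5 → R) : List R :=
  tabL.map fun s => valM ms s.1 f s.2.1 s.2.2

/-- the internal code from the 80 values and a zero test -/
def codeM {R : Type*} (ms : R → R → R → R → R) (isZero : R → Bool) (f : Fin 5 → Fin 5 → R) : ℕ :=
  tabL.foldl (fun acc s => push acc (bif isZero (valM ms s.1 f s.2.1 s.2.2) then 0 else 1)) 0

/-- the five pivots pass the positivity test -/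
def pdM {R : Type*} (ms : R → R → R → R → R) (isPos : R → Bool) (f : Fin 5 → Fin 5 → R) : Bool :=
  (isPos (valM ms [] f 0 0)).and ((isPos (valM ms [0] f 1 1)).and
    ((isPos (valM ms [0, 1] f 2 2)).and ((isPos (valM ms [0, 1, 2] f 3 3)).and
      (isPos (valM ms [0, 1, 2, 3] f 4 4)))))

/-- generic soundness: entries in any type, related to real numbers by a relation `Rel n`
(`n` = number of pivoting steps done so far) -/
theorem core_rel {R : Type*} (ms : R → R → R → R → R) (isZero isPos : R → Bool)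
    (Rel : ℕ → R → ℝ → Prop)
    (hms : ∀ n p x y z P X Y Z, n ≤ 3 → Rel n p P → Rel n x X → Rel n y Y → Rel n z Z →
      Rel (n + 1) (ms p x y z) (P * X - Y * Z))
    (hz : ∀ n x X, n ≤ 3 → Rel n x X → (isZero x = true ↔ X = 0))
    (hpos : ∀ n x X, n ≤ 4 → Rel n x X → isPos x = true → 0 < X)
    (f : Fin 5 → Fin 5 → R) (F : Fin 5 → Fin 5 → ℝ) (hF : ∀ i j, F i j = F j i)
    (hf : ∀ i j, Rel 0 (f i j) (F i j)) (c : ℕ) (hc : codeM ms isZero f = c)
    (hp : pdM ms isPos f = true) :
    ∃ A : Matrix (Fin 5) (Fin 5) ℝ, A.PosDef ∧ IC c (VanSet A) := by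
  have hv : ∀ (K : List (Fin 5)), K.length ≤ 4 → ∀ i j,
      Rel K.length (valM ms K f i j) (valR K F i j) := by
    intro K hK i j
    have := valM_rel ms Rel hms K 0 f F (by omega) hF hf i j
    rwa [Nat.zero_add] at this
  unfold pdM at hp
  simp only [Bool.and_eq_true] at hp
  obtain ⟨p0, p1, p2, p3, p4⟩ := hp
  have hcore := core_real F hF (hpos _ _ _ (by decide) (hv [] (by decide) 0 0) p0)
    (hpos _ _ _ (by decide) (hv [0] (by decide) 1 1) p1)
    (hpos _ _ _ (by decide) (hv [0, 1] (by decide) 2 2) p2)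
    (hpos _ _ _ (by decide) (hv [0, 1, 2] (by decide) 3 3) p3)
    (hpos _ _ _ (by decide) (hv [0, 1, 2, 3] (by decide) 4 4) p4)
  refine ⟨Matrix.of F, hcore.1, ?_⟩
  intro p hp
  rw [hcore.2 p hp]
  obtain ⟨q1, q2, q3, q4, q5, q6⟩ := tabL_spec p hp
  have hb := foldl_push ([], 0, 0) (fun s : List (Fin 5) × Fin 5 × Fin 5 =>
    bif isZero (valM ms s.1 f s.2.1 s.2.2) then 0 else 1) tabL 0 (79 - p)
    (by rw [tabL_length]; omega)
  have hb' : tabL.length - 1 - (79 - p) = p := by rw [tabL_length]; omega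
  rw [hb'] at hb
  rw [← hc]
  unfold codeM
  rw [hb, decide_eq_true_eq]
  generalize tabL.getD p ([], 0, 0) = s at q1 q2 q3 q4 q5 q6
  obtain ⟨K, i, j⟩ := s
  simp only at q1 q2 q3 q4 q5 ⊢
  rw [← hz _ _ _ q5 (hv K (by omega) i j)]
  cases isZero (valM ms K f i j) <;> simp

end Pool.Agent.GS
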